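import Mathlib
import Pool.Agent.Lib.PolyTime
import Pool.Agent.Lib.MP_13b08e_lc.Problems

/-!
# UV / Inst: graphs as instances, vector colourings, the theta function
-/

set_option autoImplicit false

namespace Pool.Agent.Lib.MP_13b08e_lc.UV

open Pool.Agent.Lib.PolyTime

/-- An instance of a problem on graphs: a graph on `Fin n`. -/
structure Gph where
  /-- the number of vertices -/
  n : ℕ
  /-- the graph -/
  G : SimpleGraph (Fin n)

open Classical in
/-- the adjacency matrix, row by row -/
noncomputable def Gph.table (I : Gph) : List (List Bool) :=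
  List.ofFn fun i => List.ofFn fun j => decide (I.G.Adj i j)

theorem Gph.table_injective : Function.Injective Gph.table := by
  rintro ⟨n, G⟩ ⟨n', G'⟩ h
  have hn : n = n' := by
    have := congrArg List.length h
    simpa [Gph.table] using this
  subst hn
  have hG : G = G' := by
    ext i j
    simp only [Gph.table] at h
    have h1 := List.ofFn_injective h
    have h2 := List.ofFn_injective (congrFun h1 i)
    have h3 := congrFun h2 j
    simpa using h3
  subst hG
  rfl

/-- The encoding of graphs by adjacency matrices. -/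
noncomputable instance encGph : Enc Gph := Enc.ofInj Gph.table Gph.table_injective

/-- `L` is decidable in polynomial time. -/
def InP {α : Type} [Enc α] (L : α → Prop) : Prop := ∃ R : α → Bool, PolyTime R ∧ ∀ a, R a = true ↔ L a

/-- `L` and SDP feasibility reduce to each other by polynomial time many-one reductions; and `L` is in NP if and only if SDP
feasibility is in NP, and the same for the complements. -/
structure SdpEquivalent {α : Type} [Enc α] (L : α → Prop) : Prop where
  hard : ∃ f : SDP → α, PolyTime f ∧ ∀ S, S.Feasible ↔ L (f S)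
  easy : ∃ g : α → SDP, PolyTime g ∧ ∀ a, L a ↔ (g a).Feasible
  np : InNP SDP.Feasible ↔ InNP L
  conp : InNP (fun S : SDP => ¬ S.Feasible) ↔ InNP (fun a => ¬ L a)

/-- A vector `t`-colouring of `G` (Karger, Motwani, Sudan): unit vectors of `ℝ^V` whose inner products along the edges are at most
`-1/(t-1)`. -/
def VecCol (t : ℝ) {V : Type} [Fintype V] (G : SimpleGraph V) : Prop :=
  ∃ u : V → EuclideanSpace ℝ V, (∀ v, ‖u v‖ = 1) ∧ ∀ v w, G.Adj v w → inner ℝ (u v) (u w) ≤ -1 / (t - 1)

/-- A strict vector `t`-colouring of `G`: unit vectors of `ℝ^V` whose inner products along the edges are equal to `-1/(t-1)`. -/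
def StrictVecCol (t : ℝ) {V : Type} [Fintype V] (G : SimpleGraph V) : Prop :=
  ∃ u : V → EuclideanSpace ℝ V, (∀ v, ‖u v‖ = 1) ∧ ∀ v w, G.Adj v w → inner ℝ (u v) (u w) = -1 / (t - 1)

/-- The theta function of Lovász: the infimum of `max_i 1/⟨c, u_i⟩^2` over the unit vectors `c` and the orthonormal representations `u`
of `H` (unit vectors, orthogonal for distinct nonadjacent vertices). -/
noncomputable def theta {V : Type} (H : SimpleGraph V) : ℝ :=
  sInf {t : ℝ | ∃ (d : ℕ) (c : EuclideanSpace ℝ (Fin d)) (u : V → EuclideanSpace ℝ (Fin d)), ‖c‖ = 1 ∧ (∀ i, ‖u i‖ = 1) ∧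
    (∀ i j, i ≠ j → ¬ H.Adj i j → inner ℝ (u i) (u j) = 0) ∧ ∀ i, 1 ≤ t * inner ℝ c (u i) ^ 2}

end Pool.Agent.Lib.MP_13b08e_lc.UV
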