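import Pool.Agent.Lib.PolyTime.Lists
import Pool.Agent.Lib.MP_13b08e_lc.UV.Inst

/-!
# UV / Bip: 2-colourability is decidable in polynomial time
-/

set_option autoImplicit false

namespace Pool.Agent.Lib.MP_13b08e_lc.UV

open Pool.Agent.Lib.PolyTime

/-- an entry of the adjacency matrix -/
def look (T : List (List Bool)) (i j : ℕ) : Bool :=
  match T[i]? with
  | none => false
  | some r => match r[j]? with
    | none => false
    | some b => b

open Classical in
theorem look_table (I : Gph) (i j : ℕ) : look I.table i j = true ↔ ∃ (hi : i < I.n) (hj : j < I.n), I.G.Adj ⟨i, hi⟩ ⟨j, hj⟩ := by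
  unfold look Gph.table
  rw [List.getElem?_ofFn]
  by_cases hi : i < I.n
  · rw [dif_pos hi]
    simp only
    rw [List.getElem?_ofFn]
    by_cases hj : j < I.n
    · rw [dif_pos hj]
      simp [hi, hj]
    · rw [dif_neg hj]
      simp [hj]
  · rw [dif_neg hi]
    simp [hi]

/-- the vertices of the double cover -/
def ulist (n : ℕ) : List (ℕ × Bool) := (List.range n).flatMap fun i => [(i, false), (i, true)]

theorem mem_ulist (n i : ℕ) (b : Bool) : (i, b) ∈ ulist n ↔ i < n := by
  unfold ulist
  rw [List.mem_flatMap]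
  constructor
  · rintro ⟨j, hj, h⟩
    simp only [List.mem_cons, Prod.mk.injEq, List.not_mem_nil, or_false] at h
    rcases h with ⟨rfl, _⟩ | ⟨rfl, _⟩ <;> exact List.mem_range.1 hj
  · intro h
    refine ⟨i, List.mem_range.2 h, ?_⟩
    cases b <;> simp

/-- one step of the search in the double cover -/
def stp (T : List (List Bool)) (s : List (ℕ × Bool)) : List (ℕ × Bool) :=
  (ulist T.length).filter fun p => s.any fun q => decide (q = p) || (look T q.1 p.1 && !decide (q.2 = p.2))

/-- the search -/
def reach (T : List (List Bool)) (u : ℕ) : List (ℕ × Bool) := (stp T)^[2 * T.length] [(u, false)]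

/-- the test -/
def bip (T : List (List Bool)) : Bool := (List.range T.length).all fun u => !(reach T u).any fun q => decide (q = (u, true))

theorem mem_stp (T : List (List Bool)) (s : List (ℕ × Bool)) (p : ℕ × Bool) :
    p ∈ stp T s ↔ p.1 < T.length ∧ ∃ q ∈ s, q = p ∨ (look T q.1 p.1 = true ∧ q.2 ≠ p.2) := by
  unfold stp
  rw [List.mem_filter, List.any_eq_true]
  obtain ⟨i, b⟩ := p
  rw [mem_ulist]
  refine and_congr_right fun _ => ?_
  refine exists_congr fun q => and_congr_right fun _ => ?_
  simp

/-! ### correctness -/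

theorem walk_of_mem (I : Gph) (u : Fin I.n) : ∀ (k : ℕ) (p : ℕ × Bool), p ∈ (stp I.table)^[k] [((u : ℕ), false)] →
    ∃ (v : Fin I.n) (w : I.G.Walk u v), (v : ℕ) = p.1 ∧ (p.2 = true ↔ Odd w.length) := by
  intro k
  induction k with
  | zero =>
    intro p hp
    simp only [Function.iterate_zero, id_eq, List.mem_singleton] at hp
    subst hp
    exact ⟨u, SimpleGraph.Walk.nil, rfl, by simp⟩
  | succ k ih =>
    intro p hp
    rw [Function.iterate_succ_apply', mem_stp] at hp
    obtain ⟨_, q, hq, h⟩ := hp
    obtain ⟨v, w, hv, hw⟩ := ih q hq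
    rcases h with rfl | ⟨h1, h2⟩
    · exact ⟨v, w, hv, hw⟩
    · rw [look_table] at h1
      obtain ⟨hi, hj, hadj⟩ := h1
      have hv' : v = ⟨q.1, hi⟩ := Fin.ext hv
      subst hv'
      refine ⟨⟨p.1, hj⟩, w.concat hadj, rfl, ?_⟩
      rw [SimpleGraph.Walk.length_concat, Nat.odd_add_one, ← hw]
      cases hq2 : q.2 <;> cases hp2 : p.2 <;> simp_all

/-- the double cover -/
def dbl (I : Gph) : SimpleGraph (Fin I.n × Bool) where
  Adj p q := I.G.Adj p.1 q.1 ∧ p.2 ≠ q.2
  symm := ⟨fun p q h => ⟨h.1.symm, h.2.symm⟩⟩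
  loopless := ⟨fun p h => h.2 rfl⟩

theorem mem_of_walk (I : Gph) (p : Fin I.n × Bool) : ∀ {q : Fin I.n × Bool} (w : (dbl I).Walk q p) (s : List (ℕ × Bool)),
    ((q.1 : ℕ), q.2) ∈ s → ∀ k, w.length ≤ k → ((p.1 : ℕ), p.2) ∈ (stp I.table)^[k] s := by
  have hlen : I.table.length = I.n := by simp [Gph.table]
  have hmono : ∀ (p : Fin I.n × Bool) (k : ℕ) (s : List (ℕ × Bool)), ((p.1 : ℕ), p.2) ∈ s → ((p.1 : ℕ), p.2) ∈ (stp I.table)^[k] s := by
    intro p k
    induction k with
    | zero => exact fun s h => h
    | succ k ih =>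
      intro s h
      rw [Function.iterate_succ_apply]
      refine ih _ ?_
      rw [mem_stp, hlen]
      exact ⟨p.1.2, _, h, Or.inl rfl⟩
  intro q w
  induction w with
  | nil => exact fun s hs k _ => hmono _ k s hs
  | cons h w ih =>
    intro s hs k hk
    rw [SimpleGraph.Walk.length_cons] at hk
    obtain ⟨k, rfl⟩ : ∃ k', k = k' + 1 := ⟨k - 1, by omega⟩
    rw [Function.iterate_succ_apply]
    refine ih _ ?_ k (by omega)
    rw [mem_stp, hlen]
    refine ⟨Fin.is_lt _, _, hs, Or.inr ⟨?_, h.2⟩⟩
    rw [look_table]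
    exact ⟨Fin.is_lt _, Fin.is_lt _, h.1⟩

theorem lift_walk (I : Gph) {u v : Fin I.n} (w : I.G.Walk u v) : ∀ b : Bool, ∃ b' : Bool, (dbl I).Reachable (u, b) (v, b') ∧
    (b' = b ↔ Even w.length) := by
  induction w with
  | nil => exact fun b => ⟨b, SimpleGraph.Reachable.refl _, by simp⟩
  | @cons x y z h w ih =>
    intro b
    obtain ⟨b', h1, h2⟩ := ih (!b)
    have hadj : (dbl I).Adj (x, b) (y, !b) := ⟨h, by simp⟩
    refine ⟨b', hadj.reachable.trans h1, ?_⟩
    rw [SimpleGraph.Walk.length_cons, Nat.even_add_one, ← h2]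
    cases b <;> cases b' <;> simp

theorem bip_iff (I : Gph) : bip I.table = true ↔ I.G.Colorable 2 := by
  classical
  have hlen : I.table.length = I.n := by simp [Gph.table]
  rw [SimpleGraph.two_colorable_iff_forall_loop_even]
  unfold bip
  rw [List.all_eq_true]
  constructor
  · intro h u w
    by_contra hodd
    obtain ⟨b', h1, h2⟩ := lift_walk I w false
    have hb' : b' = true := by
      cases b'
      · exact absurd (h2.1 rfl) hodd
      · rfl
    subst hb'
    obtain ⟨p, hp⟩ := h1.exists_isPath
    have hl := hp.length_lt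
    rw [Fintype.card_prod, Fintype.card_fin, Fintype.card_bool] at hl
    have h3 := mem_of_walk I _ p [((u : ℕ), false)] (by simp) (2 * I.table.length) (by rw [hlen]; omega)
    have h4 := h (u : ℕ) (List.mem_range.2 (by rw [hlen]; exact u.2))
    rw [Bool.not_eq_true', List.any_eq_false] at h4
    exact h4 _ h3 (by simp)
  · intro h u hu
    rw [List.mem_range, hlen] at hu
    rw [Bool.not_eq_true', List.any_eq_false]
    intro q hq hq'
    rw [decide_eq_true_eq] at hq'
    subst hq'
    obtain ⟨v, w, hv, hw⟩ := walk_of_mem I ⟨u, hu⟩ _ _ hq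
    have hv' : v = ⟨u, hu⟩ := Fin.ext hv
    subst hv'
    have h1 := hw.1 rfl
    have h2 := h _ w
    rw [← Nat.not_even_iff_odd] at h1
    exact h1 h2

/-! ### polynomial time -/

section

variable {α : Type} [Enc α]

theorem pt_look {T : α → List (List Bool)} {i j : α → ℕ} (hT : PT T) (hi : PT i) (hj : PT j) : PT (fun a => look (T a) (i a) (j a)) := by
  refine (PT.optCases (f := fun a => (T a)[i a]?) (g := fun _ => false) (h := fun a r => match r[j a]? with
    | none => false
    | some b => b) (PT.getElem? hi hT) (PT.const _) ?_).congr fun a => ?_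
  · refine (PT.optCases (f := fun x : α × List Bool => x.2[j x.1]?) (g := fun _ => false) (h := fun _ b => b)
      (PT.getElem? (hj.comp PT.fst) PT.snd) (PT.const _) PT.snd).congr fun x => ?_
    cases x.2[j x.1]? <;> rfl
  · unfold look
    rcases (T a)[i a]? with _ | r
    · rfl
    · rcases h : r[j a]? with _ | b
      · simp only [h]
      · simp only [h]

theorem pt_ulist {n : α → ℕ} (hn : PT n) : PT (fun a => ulist (n a)) :=
  PT.flatMap (f := fun a => List.range (n a)) (g := fun _ i => [(i, false), (i, true)]) (PT.range hn)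
    (PT.cons (PT.snd.pair (PT.const _)) (PT.list1 (PT.snd.pair (PT.const _))))

theorem pt_stp {T : α → List (List Bool)} {s : α → List (ℕ × Bool)} (hT : PT T) (hs : PT s) : PT (fun a => stp (T a) (s a)) := by
  refine PT.filter (f := fun a => ulist (T a).length)
    (p := fun a p => (s a).any fun q => decide (q = p) || (look (T a) q.1 p.1 && !decide (q.2 = p.2))) (pt_ulist hT.length) ?_
  refine PT.any (f := fun x : α × (ℕ × Bool) => s x.1)
    (p := fun x q => decide (q = x.2) || (look (T x.1) q.1 x.2.1 && !decide (q.2 = x.2.2))) (hs.comp PT.fst) ?_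
  exact (PT.eq PT.snd PT.fst.snd').or ((pt_look (hT.comp PT.fst.fst') PT.snd.fst' PT.fst.snd'.fst').and
    (PT.eq PT.snd.snd' PT.fst.snd'.snd').not)

theorem size_filter_le {β : Type} [Enc β] (l : List β) (p : β → Bool) : size (l.filter p) ≤ size l := by
  induction l with
  | nil => exact le_refl _
  | cons b l ih =>
    rw [List.filter_cons]
    split_ifs
    · rw [size_cons, size_cons]; omega
    · rw [size_cons]; omega

theorem pt_reach {T : α → List (List Bool)} {u : α → ℕ} (hT : PT T) (hu : PT u) : PT (fun a => reach (T a) (u a)) := by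
  obtain ⟨p, hp⟩ := (pt_ulist hT.length).size_le
  obtain ⟨q, hq⟩ := (PT.list1 (hu.pair (PT.const false))).size_le
  refine PT.iterate (f := fun a => 2 * (T a).length) (init := fun a => [(u a, false)]) (step := fun a s => stp (T a) s)
    (PT.mulConst hT.length 2) (PT.list1 (hu.pair (PT.const false))) (pt_stp (hT.comp PT.fst) PT.snd)
    (B := fun n => p.eval n + q.eval n) ((PB.poly p).add (PB.poly q)) ?_
  intro a i _
  cases i with
  | zero =>
    have := hq a
    simp only [Function.iterate_zero, id_eq]
    omega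
  | succ i =>
    rw [Function.iterate_succ_apply']
    have h1 := hp a
    have h2 := size_filter_le (ulist (T a).length) (fun p => ((fun s => stp (T a) s)^[i] [(u a, false)]).any fun q => decide (q = p) ||
      (look (T a) q.1 p.1 && !decide (q.2 = p.2)))
    have h3 : size (stp (T a) ((fun s => stp (T a) s)^[i] [(u a, false)])) ≤ size (ulist (T a).length) := h2
    omega

theorem pt_bip {T : α → List (List Bool)} (hT : PT T) : PT (fun a => bip (T a)) := by
  refine PT.all (f := fun a => List.range (T a).length) (p := fun a u => !(reach (T a) u).any fun q => decide (q = (u, true)))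
    (PT.range hT.length) ?_
  refine PT.not ?_
  refine PT.any (f := fun x : α × ℕ => reach (T x.1) x.2) (p := fun x q => decide (q = (x.2, true))) ?_ ?_
  · exact pt_reach (hT.comp PT.fst) PT.snd
  · exact PT.eq PT.snd (PT.fst.snd'.pair (PT.const _))

end

/-- 2-colourability is decidable in polynomial time -/
theorem colorable_two_pt : ∃ R : Gph → Bool, PT R ∧ ∀ I, R I = true ↔ I.G.Colorable 2 := by
  have ht : PT (fun I : Gph => I.table) := PT.of_enc_eq fun _ => rfl
  exact ⟨fun I => bip I.table, pt_bip ht, bip_iff⟩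

/-- having no edges is decidable in polynomial time -/
theorem edgeless_pt : ∃ R : Gph → Bool, PT R ∧ ∀ I, R I = true ↔ ∀ u v, ¬ I.G.Adj u v := by
  classical
  have ht : PT (fun I : Gph => I.table) := PT.of_enc_eq fun _ => rfl
  refine ⟨fun I => I.table.all fun r => r.all fun b => !b, ?_, fun I => ?_⟩
  · refine PT.all (f := fun I : Gph => I.table) (p := fun _ r => r.all fun b => !b) ht ?_
    exact PT.all (f := fun x : Gph × List Bool => x.2) (p := fun _ b => !b) PT.snd (PT.not PT.snd)
  · rw [List.all_eq_true]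
    unfold Gph.table
    constructor
    · intro h u v huv
      have h1 := h (List.ofFn fun j => decide (I.G.Adj u j)) (List.mem_ofFn.2 ⟨u, rfl⟩)
      rw [List.all_eq_true] at h1
      have h2 := h1 (decide (I.G.Adj u v)) (List.mem_ofFn.2 ⟨v, rfl⟩)
      simp [huv] at h2
    · intro h r hr
      obtain ⟨u, rfl⟩ := List.mem_ofFn.1 hr
      rw [List.all_eq_true]
      intro b hb
      obtain ⟨v, rfl⟩ := List.mem_ofFn.1 hb
      simp [h u v]

end Pool.Agent.Lib.MP_13b08e_lc.UV
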