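import Mathlib

/-!
# UV / Gram: positive semidefinite matrices are Gram matrices
-/

set_option autoImplicit false

open scoped MatrixOrder ComplexOrder Matrix.Norms.L2Operator
open Matrix

namespace Pool.Agent.Lib.MP_13b08e_lc.UV

theorem gram_of_psd {n : Type} [Fintype n] [DecidableEq n] (M : Matrix n n ℝ) (hM : M.PosSemidef) :
    ∃ v : n → EuclideanSpace ℝ n, ∀ i j, inner ℝ (v i) (v j) = M i j := by
  obtain ⟨B, rfl⟩ := CStarAlgebra.nonneg_iff_eq_star_mul_self.mp hM.nonneg
  refine ⟨fun i => WithLp.toLp 2 (fun k => B k i), fun i j => ?_⟩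
  rw [EuclideanSpace.inner_eq_star_dotProduct]
  simp [Matrix.mul_apply, dotProduct, Matrix.star_apply, mul_comm]

theorem psd_of_gram {n : Type} [Finite n] {E : Type} [NormedAddCommGroup E] [InnerProductSpace ℝ E] (v : n → E)
    (M : Matrix n n ℝ) (h : ∀ i j, M i j = inner ℝ (v i) (v j)) : M.PosSemidef := by
  have e : M = gram ℝ v := by
    ext i j
    rw [h, gram_apply]
  rw [e]
  exact posSemidef_gram ℝ v

end Pool.Agent.Lib.MP_13b08e_lc.UV
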