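import Pool.Agent.Lib.MP_13b08e_lc.UV.StageB
import Pool.Agent.Lib.MP_13b08e_lc.UV.Gram

/-!
# UV / Clones: inner products 0, 1/2, -1/2, 1 reduce to inner products -1/2, and every edge lies in a triangle

Codes of vertices: `inl i` are the old vertices, `inr ((i, j), (q, (a, b)))` is the vertex `R a b` of the twenty vertices for the old
pair `i, j` with the inner product `q`.
-/

set_option autoImplicit false

namespace Pool.Agent.Lib.MP_13b08e_lc.UV

section

variable {E : Type} [NormedAddCommGroup E] [InnerProductSpace ℝ E]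

/-- three unit vectors with inner products at most `-1/2` have inner products `-1/2` -/
theorem tri_le {a b c : E} (ha : ‖a‖ = 1) (hb : ‖b‖ = 1) (hc : ‖c‖ = 1) (hab : inner ℝ a b ≤ -1 / 2) (hbc : inner ℝ b c ≤ -1 / 2)
    (hca : inner ℝ c a ≤ -1 / 2) : inner ℝ a b = -1 / 2 ∧ inner ℝ b c = -1 / 2 ∧ inner ℝ c a = -1 / 2 := by
  have h : 0 ≤ ‖a + b + c‖ ^ 2 := sq_nonneg _
  have h1 : ‖a + b + c‖ ^ 2 = 3 + 2 * inner ℝ a b + 2 * inner ℝ b c + 2 * inner ℝ c a := by
    rw [← real_inner_self_eq_norm_sq]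
    simp only [inner_add_left, inner_add_right, real_inner_self_eq_norm_sq, ha, hb, hc]
    rw [real_inner_comm a b, real_inner_comm b c, real_inner_comm c a]
    ring
  refine ⟨?_, ?_, ?_⟩ <;> linarith

theorem Cfg.clone {R : Fin 5 → Fin 5 → E} (hR : Cfg R) {w : E} (hw : ‖w‖ = 1) {a b c : Fin 5} (hab : a ≠ b) (hbc : b ≠ c) (hac : a ≠ c)
    (h1 : inner ℝ w (R b c) = -1 / 2) (h2 : inner ℝ w (R c a) = -1 / 2) : w = R a b := by
  have h3 := UV.clone (hR.unit b c hbc) (hR.unit c a hac.symm) hw (hR.adj b c a hbc hac.symm hab.symm) h1 h2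
  have h4 := hR.sum hab hbc hac
  rw [h3, ← sub_eq_zero, ← neg_eq_zero, ← h4]
  abel

end

/-- the second vector is `R a b` with `(a, b) = tgt q` -/
def tgt (q : ℚ) : Fin 5 × Fin 5 := if q = 0 then (2, 3) else if q = 1 / 2 then (0, 2) else if q = -1 / 2 then (1, 2) else (0, 1)

/-- a third index -/
def thr (q : ℚ) : Fin 5 := if q = 0 then 4 else if q = 1 / 2 then 3 else if q = -1 / 2 then 0 else 2

/-- the admitted values -/
def okv (q : ℚ) : Prop := q = 0 ∨ q = 1 / 2 ∨ q = -1 / 2 ∨ q = 1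

/-- the codes of the vertices -/
abbrev Cd := ℕ ⊕ ((ℕ × ℕ) × (ℚ × (Fin 5 × Fin 5)))

/-- the neighbours of the first vector -/
def nbU (p : Fin 5 × Fin 5) : Bool := decide (p = (1, 2)) || decide (p = (2, 0))

/-- the neighbours of the second vector -/
def nbV (q : ℚ) (p : Fin 5 × Fin 5) : Bool := decide (p = ((tgt q).2, thr q)) || decide (p = (thr q, (tgt q).1))

/-- the adjacency in the gadget -/
def inn (p p' : Fin 5 × Fin 5) : Bool := (decide (p.2 = p'.1) && !decide (p.1 = p'.2)) || (decide (p'.2 = p.1) && !decide (p'.1 = p.2))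

/-- the adjacency of an old vertex and a vertex of a gadget -/
def adX (w : ℕ) (c : (ℕ × ℕ) × (ℚ × (Fin 5 × Fin 5))) : Bool :=
  (decide (w = c.1.1) && nbU c.2.2) || (decide (w = c.1.2) && nbV c.2.1 c.2.2)

/-- the adjacency of two vertices of gadgets -/
def adY (c c' : (ℕ × ℕ) × (ℚ × (Fin 5 × Fin 5))) : Bool := decide ((c.1, c.2.1) = (c'.1, c'.2.1)) && inn c.2.2 c'.2.2

/-- the adjacency -/
def adC : Cd → Cd → Bool
  | .inl _, .inl _ => false
  | .inl w, .inr c => adX w c
  | .inr c, .inl w => adX w c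
  | .inr c, .inr c' => adY c c'

theorem inn_symm (p p' : Fin 5 × Fin 5) : inn p p' = inn p' p := by
  revert p p'
  decide

theorem inn_self (p : Fin 5 × Fin 5) : inn p p = false := by
  revert p
  decide

theorem adC_symm (c c' : Cd) : adC c c' = adC c' c := by
  rcases c with c | c <;> rcases c' with c' | c'
  · rfl
  · rfl
  · rfl
  · simp only [adC, adY]
    rw [inn_symm]
    congr 1
    simp [eq_comm]

theorem adC_self (c : Cd) : adC c c = false := by
  rcases c with c | c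
  · rfl
  · simp [adC, adY, inn_self]

section

variable {E : Type} [NormedAddCommGroup E] [InnerProductSpace ℝ E]

theorem inn_of {a b c : Fin 5} (hac : a ≠ c) : inn (a, b) (b, c) = true := by
  simp [inn, hac]

/-- the vectors of the gadget force the inner product -/
theorem forced {z : Cd → E} {S : Set Cd} (hz : ∀ c ∈ S, ‖z c‖ = 1)
    (he : ∀ c ∈ S, ∀ c' ∈ S, adC c c' = true → inner ℝ (z c) (z c') ≤ -1 / 2) {i j : ℕ} {q : ℚ} (hi : .inl i ∈ S) (hj : .inl j ∈ S)
    (hc : ∀ a b : Fin 5, a ≠ b → .inr ((i, j), (q, (a, b))) ∈ S) (hq : okv q) :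
    inner ℝ (z (.inl i)) (z (.inl j)) = (q : ℝ) := by
  have had : ∀ a b c : Fin 5, a ≠ c → adC (.inr ((i, j), (q, (a, b)))) (.inr ((i, j), (q, (b, c)))) = true := by
    intro a b c hac
    simp only [adC, adY, inn_of hac, Bool.and_true, decide_eq_true_eq]
  have C : Cfg (fun a b => z (.inr ((i, j), (q, (a, b))))) := by
    refine ⟨fun a b hab => hz _ (hc a b hab), fun a b c hab hbc hac => ?_⟩
    refine (tri_le (hz _ (hc a b hab)) (hz _ (hc b c hbc)) (hz _ (hc c a hac.symm)) (he _ (hc a b hab) _ (hc b c hbc) (had a b c hac))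
      (he _ (hc b c hbc) _ (hc c a hac.symm) (had b c a hab.symm)) (he _ (hc c a hac.symm) _ (hc a b hab) (had c a b hbc.symm))).1
  have key : ∀ {w : Cd} (_ : w ∈ S) {a b c : Fin 5} (_ : a ≠ b) (_ : b ≠ c) (_ : a ≠ c)
      (_ : adC w (.inr ((i, j), (q, (b, c)))) = true) (_ : adC w (.inr ((i, j), (q, (c, a)))) = true),
      z w = z (.inr ((i, j), (q, (a, b)))) := by
    intro w hw a b c hab hbc hac h1 h2
    have t := tri_le (hz _ hw) (hz _ (hc b c hbc)) (hz _ (hc c a hac.symm)) (he _ hw _ (hc b c hbc) h1)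
      (he _ (hc b c hbc) _ (hc c a hac.symm) (had b c a hab.symm)) (he _ (hc c a hac.symm) _ hw (by rw [adC_symm]; exact h2))
    exact C.clone (hz _ hw) hab hbc hac t.1 (by rw [real_inner_comm]; exact t.2.2)
  have e1 : z (.inl i) = z (.inr ((i, j), (q, (0, 1)))) := by
    refine key hi (a := 0) (b := 1) (c := 2) (by decide) (by decide) (by decide) ?_ ?_
    · simp [adC, adX, nbU]
    · simp [adC, adX, nbU]
  have e2 : z (.inl j) = z (.inr ((i, j), (q, tgt q))) := by
    have hd : ∀ q : ℚ, (tgt q).1 ≠ (tgt q).2 ∧ (tgt q).2 ≠ thr q ∧ (tgt q).1 ≠ thr q := by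
      intro q
      unfold tgt thr
      split_ifs <;> decide
    obtain ⟨d1, d2, d3⟩ := hd q
    refine key hj (a := (tgt q).1) (b := (tgt q).2) (c := thr q) d1 d2 d3 ?_ ?_
    · simp [adC, adX, nbV]
    · simp [adC, adX, nbV]
  rw [e1, e2]
  rcases hq with rfl | rfl | rfl | rfl
  · have : tgt 0 = (2, 3) := by unfold tgt; norm_num
    rw [this]
    have := C.zero
    simpa using this
  · have : tgt (1 / 2) = (0, 2) := by unfold tgt; norm_num
    rw [this]
    have := C.half
    push_cast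
    exact this
  · have : tgt (-1 / 2) = (1, 2) := by unfold tgt; norm_num
    rw [this]
    have := C.adj 0 1 2 (by decide) (by decide) (by decide)
    push_cast
    exact this
  · have : tgt 1 = (0, 1) := by unfold tgt; norm_num
    rw [this, real_inner_self_eq_norm_sq, C.unit 0 1 (by decide)]
    norm_num

/-- the vectors of the gadget exist -/
theorem ex_cfg {u v : E} (hu : ‖u‖ = 1) (hv : ‖v‖ = 1) {q : ℚ} (hq : okv q) (huv : inner ℝ u v = (q : ℝ)) :
    ∃ R : Fin 5 → Fin 5 → FF E, Cfg R ∧ R 0 1 = io u ∧ R (tgt q).1 (tgt q).2 = io v := by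
  rcases hq with rfl | rfl | rfl | rfl
  · have : tgt 0 = (2, 3) := by unfold tgt; norm_num
    rw [this]
    exact ex_zero (u := io u) (v := io v) (e := ep 0) (f := ep 1) (io_norm hu) (io_norm hv)
          (ep_norm 0) (ep_norm 1) (by rw [io_io, huv]; norm_num) (io_ep _ _) (io_ep _ _) (io_ep _ _) (io_ep _ _)
          (by rw [ep_ep]; rfl)
  · have : tgt (1 / 2) = (0, 2) := by unfold tgt; norm_num
    rw [this]
    exact ex_half (u := io u) (v := io v) (e := ep 0) (f := ep 1) (io_norm hu) (io_norm hv)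
          (ep_norm 0) (ep_norm 1) (by rw [io_io, huv]; push_cast; norm_num) (io_ep _ _) (io_ep _ _) (io_ep _ _) (io_ep _ _)
          (by rw [ep_ep]; rfl)
  · have : tgt (-1 / 2) = (1, 2) := by unfold tgt; norm_num
    rw [this]
    have huv' : inner ℝ u v = -1 / 2 := by rw [huv]; push_cast; rfl
    have hvu : inner ℝ v u = -1 / 2 := by rw [real_inner_comm]; exact huv'
    have hw : ‖u + v‖ = 1 := by
      have h : ‖u + v‖ ^ 2 = 1 := by
        rw [← real_inner_self_eq_norm_sq]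
        simp only [inner_add_left, inner_add_right, real_inner_self_eq_norm_sq, hu, hv, huv', hvu]
        norm_num
      exact (pow_eq_one_iff_of_nonneg (norm_nonneg _) two_ne_zero).1 h
    obtain ⟨R, h1, h2, h3⟩ := ex_half (u := io u) (v := io (u + v)) (e := ep 0) (f := ep 1) (io_norm hu) (io_norm hw)
          (ep_norm 0) (ep_norm 1) (by rw [io_io, inner_add_right, huv', real_inner_self_eq_norm_sq, hu]; norm_num)
          (io_ep _ _) (io_ep _ _) (io_ep _ _) (io_ep _ _) (by rw [ep_ep]; rfl)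
    refine ⟨R, h1, h2, ?_⟩
    have h4 := h1.sum (i := 0) (j := 1) (k := 2) (by decide) (by decide) (by decide)
    have h5 : R 2 0 = -R 0 2 := h1.neg (i := 0) (j := 2) (k := 1) (l := 3) (m := 4) (by decide) (by decide) (by decide) (by decide)
      (by decide) (by decide) (by decide) (by decide) (by decide) (by decide)
    have h6 : (io (u + v) : FF E) = io u + io v := by
      unfold io
      rw [← WithLp.toLp_add]
      simp
    have h7 : R 1 2 = R 0 2 - R 0 1 := by
      rw [h5] at h4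
      rw [← sub_eq_zero, ← h4]
      abel
    show R 1 2 = io v
    rw [h7, h3, h2, h6]
    abel
  · have : tgt 1 = (0, 1) := by unfold tgt; norm_num
    rw [this]
    have huv' : inner ℝ u v = (1 : ℝ) := by rw [huv]; push_cast; rfl
    have e : u = v := (inner_eq_one_iff_of_norm_eq_one hu hv).1 huv'
    subst e
    obtain ⟨R, h1, h2, _⟩ := ex_zero (u := io u) (v := ep 2) (e := ep 0) (f := ep 1) (io_norm hu) (ep_norm 2)
          (ep_norm 0) (ep_norm 1) (io_ep _ _) (io_ep _ _) (io_ep _ _) (by rw [ep_ep]; rfl) (by rw [ep_ep]; rfl)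
          (by rw [ep_ep]; rfl)
    exact ⟨R, h1, h2, h2⟩

/-- vectors for all the codes -/
theorem ex_codes {x : ℕ → E} (hx : ∀ i, ‖x i‖ = 1) : ∃ z : Cd → FF E, (∀ c, ‖z c‖ = 1) ∧ (∀ i, z (.inl i) = io (x i)) ∧
    ∀ c c' : Cd, (∀ i j q a b, (c = .inr ((i, j), (q, (a, b))) ∨ c' = .inr ((i, j), (q, (a, b)))) →
      a ≠ b ∧ okv q ∧ inner ℝ (x i) (x j) = (q : ℝ)) → adC c c' = true → inner ℝ (z c) (z c') = -1 / 2 := by
  classical
  have key : ∀ c : (ℕ × ℕ) × ℚ, ∃ R : Fin 5 → Fin 5 → FF E, Cfg R ∧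
      (okv c.2 ∧ inner ℝ (x c.1.1) (x c.1.2) = (c.2 : ℝ) → R 0 1 = io (x c.1.1) ∧ R (tgt c.2).1 (tgt c.2).2 = io (x c.1.2)) := by
    rintro ⟨⟨i, j⟩, q⟩
    by_cases hc : okv q ∧ inner ℝ (x i) (x j) = (q : ℝ)
    · obtain ⟨R, h1, h2⟩ := ex_cfg (hx i) (hx j) hc.1 hc.2
      exact ⟨R, h1, fun _ => h2⟩
    · obtain ⟨R, h1, _, _⟩ := ex_zero (E := FF E) (u := ep 2) (v := ep 3) (e := ep 0) (f := ep 1) (ep_norm 2) (ep_norm 3) (ep_norm 0)
        (ep_norm 1) (by rw [ep_ep]; rfl) (by rw [ep_ep]; rfl) (by rw [ep_ep]; rfl) (by rw [ep_ep]; rfl) (by rw [ep_ep]; rfl)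
        (by rw [ep_ep]; rfl)
      exact ⟨R, h1, fun h => absurd h hc⟩
  choose R hR1 hR2 using key
  let z : Cd → FF E := fun c => match c with
    | .inl u => io (x u)
    | .inr (e, (q, (a, b))) => if a = b then ep 0 else R (e, q) a b
  have zr : ∀ e q a b, a ≠ b → z (.inr (e, (q, (a, b)))) = R (e, q) a b := fun e q a b hab => if_neg hab
  -- an old vertex and a vertex of a gadget
  have cross : ∀ w i j q a b, a ≠ b → okv q → inner ℝ (x i) (x j) = (q : ℝ) → adX w ((i, j), (q, (a, b))) = true →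
      inner ℝ (z (.inl w)) (z (.inr ((i, j), (q, (a, b))))) = -1 / 2 := by
    intro w i j q a b hab hq hij had
    obtain ⟨r1, r2⟩ := hR2 ((i, j), q) ⟨hq, hij⟩
    have C := hR1 ((i, j), q)
    have hd : (tgt q).1 ≠ (tgt q).2 ∧ (tgt q).2 ≠ thr q ∧ (tgt q).1 ≠ thr q := by
      unfold tgt thr
      split_ifs <;> decide
    obtain ⟨d1, d2, d3⟩ := hd
    rw [zr _ _ _ _ hab]
    show inner ℝ (io (x w)) _ = -1 / 2
    simp only [adX, Bool.or_eq_true, Bool.and_eq_true, decide_eq_true_eq, nbU, nbV, Prod.mk.injEq] at had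
    rcases had with ⟨rfl, hw⟩ | ⟨rfl, hw⟩
    · rcases hw with ⟨rfl, rfl⟩ | ⟨rfl, rfl⟩
      · rw [← r1]
        exact C.adj 0 1 2 (by decide) (by decide) (by decide)
      · rw [← r1, real_inner_comm]
        exact C.adj 2 0 1 (by decide) (by decide) (by decide)
    · rcases hw with ⟨rfl, rfl⟩ | ⟨rfl, rfl⟩
      · rw [← r2]
        exact C.adj _ _ _ d1 d2 d3
      · rw [← r2, real_inner_comm]
        exact C.adj _ _ _ d3.symm d1 d2.symm
  have inner' : ∀ (e : ℕ × ℕ) (q : ℚ) (a b a' b' : Fin 5), a ≠ b → a' ≠ b' → b = a' → a ≠ b' →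
      inner ℝ (z (.inr (e, (q, (a, b))))) (z (.inr (e, (q, (a', b'))))) = -1 / 2 := by
    intro e q a b a' b' hab hab' hba' hab''
    subst hba'
    rw [zr _ _ _ _ hab, zr _ _ _ _ hab']
    exact (hR1 (e, q)).adj a b b' hab hab' hab''
  refine ⟨z, ?_, fun i => rfl, ?_⟩
  · rintro (u | ⟨e, q, a, b⟩)
    · exact io_norm (hx u)
    · by_cases hab : a = b
      · have : z (.inr (e, (q, (a, b)))) = ep 0 := if_pos hab
        rw [this]
        exact ep_norm 0
      · rw [zr e q a b hab]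
        exact (hR1 (e, q)).unit a b hab
  · rintro (w | ⟨⟨i, j⟩, q, a, b⟩) (w' | ⟨⟨i', j'⟩, q', a', b'⟩) hgood had
    · exact absurd had (by simp [adC])
    · obtain ⟨h1, h2, h3⟩ := hgood i' j' q' a' b' (Or.inr rfl)
      exact cross w i' j' q' a' b' h1 h2 h3 had
    · obtain ⟨h1, h2, h3⟩ := hgood i j q a b (Or.inl rfl)
      rw [real_inner_comm]
      exact cross w' i j q a b h1 h2 h3 had
    · obtain ⟨h1, _, _⟩ := hgood i j q a b (Or.inl rfl)
      obtain ⟨h1', _, _⟩ := hgood i' j' q' a' b' (Or.inr rfl)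
      simp only [adC, adY, Bool.and_eq_true, decide_eq_true_eq, inn, Bool.or_eq_true, Prod.mk.injEq, Bool.not_eq_true',
        decide_eq_false_iff_not] at had
      obtain ⟨⟨⟨rfl, rfl⟩, rfl⟩, had⟩ := had
      rcases had with ⟨h4, h5⟩ | ⟨h4, h5⟩
      · exact inner' (i, j) q a b a' b' h1 h1' h4 h5
      · rw [real_inner_comm]
        exact inner' (i, j) q a' b' a b h1' h1 h4 h5

end

end Pool.Agent.Lib.MP_13b08e_lc.UV
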