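import Pool.Agent.Lib.PolyTime
import Pool.Agent.Lib.PolyTime.Lists
import Pool.Agent.Lib.MP_13b08e_lc.UV.Inst
import Pool.Agent.Lib.MP_13b08e_lc.Backward
import Pool.Agent.Lib.MP_13b08e_lc.UV.Clones

/-!
# UV / Gph: graphs as instances, the reduction from partial matrices with entries 0, 1/2, -1/2, 1
-/

set_option autoImplicit false

namespace Pool.Agent.Lib.MP_13b08e_lc.UV

open Pool.Agent.Lib.PolyTime

/-- the graph of a list of codes -/
def gphOf (L : List Cd) : Gph where
  n := L.length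
  G :=
    { Adj := fun i j => adC L[i] L[j] = true
      symm := ⟨fun i j h => by rw [adC_symm]; exact h⟩
      loopless := ⟨fun i h => by rw [adC_self] at h; exact absurd h (by simp)⟩ }

open Classical in
theorem gphOf_adj (L : List Cd) (i j : Fin L.length) : decide ((gphOf L).G.Adj i j) = adC L[i] L[j] := by
  have h : (gphOf L).G.Adj i j ↔ adC L[i] L[j] = true := Iff.rfl
  by_cases h' : adC L[i] L[j] = true
  · rw [decide_eq_true (h.2 h'), h']
  · rw [decide_eq_false fun h'' => h' (h.1 h'')]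
    exact ((Bool.not_eq_true _).mp h').symm

theorem gphOf_table (L : List Cd) : (gphOf L).table = L.map fun v => L.map fun w => adC v w := by
  unfold Gph.table
  refine List.ext_getElem (by simp [gphOf]) fun i h1 h2 => ?_
  rw [List.getElem_ofFn, List.getElem_map]
  refine List.ext_getElem (by simp [gphOf]) fun j h3 h4 => ?_
  rw [List.getElem_ofFn, List.getElem_map]
  exact gphOf_adj L _ _

/-- the twenty ordered pairs -/
def cells : List (Fin 5 × Fin 5) := (List.finRange 5).flatMap fun a => ((List.finRange 5).filter fun b => a ≠ b).map fun b => (a, b)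

theorem mem_cells (a b : Fin 5) : (a, b) ∈ cells ↔ a ≠ b := by
  revert a b
  decide

/-- the codes of the gadget of an entry -/
def entCodes (i j : ℕ) (e : Option ℚ) : List Cd :=
  match e with
  | none => []
  | some q => if i < j then cells.map (fun p => .inr ((i, j), (q, p))) else []

/-- the codes of the vertices of the new graph -/
def codes (T : List (List (Option ℚ))) : List Cd :=
  (List.range T.length).map .inl ++ T.zipIdx.flatMap fun row => row.1.zipIdx.flatMap fun e => entCodes row.2 e.2 e.1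

theorem mem_codes_inl (T : List (List (Option ℚ))) (i : ℕ) : .inl i ∈ codes T ↔ i < T.length := by
  unfold codes
  rw [List.mem_append, List.mem_map]
  constructor
  · rintro (⟨j, hj, h⟩ | h)
    · obtain rfl : j = i := by simpa using h
      exact List.mem_range.1 hj
    · exfalso
      rw [List.mem_flatMap] at h
      obtain ⟨row, _, h⟩ := h
      rw [List.mem_flatMap] at h
      obtain ⟨e, _, h⟩ := h
      unfold entCodes at h
      split at h
      · simp at h
      · split_ifs at h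
        · simp at h
        · simp at h
  · intro h
    exact Or.inl ⟨i, List.mem_range.2 h, rfl⟩

theorem mem_entCodes (i j : ℕ) (e : Option ℚ) (i' j' : ℕ) (q : ℚ) (a b : Fin 5) :
    (.inr ((i', j'), (q, (a, b))) : Cd) ∈ entCodes i j e ↔ i' = i ∧ j' = j ∧ e = some q ∧ i < j ∧ a ≠ b := by
  unfold entCodes
  split
  · simp
  · rename_i q'
    split_ifs with hij
    · rw [List.mem_map]
      constructor
      · rintro ⟨p, hp, h⟩
        simp only [Sum.inr.injEq, Prod.mk.injEq] at h
        obtain ⟨⟨rfl, rfl⟩, rfl, rfl⟩ := h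
        exact ⟨rfl, rfl, rfl, hij, (mem_cells a b).1 hp⟩
      · rintro ⟨rfl, rfl, he, _, hab⟩
        obtain rfl : q' = q := by simpa using he
        exact ⟨(a, b), (mem_cells a b).2 hab, rfl⟩
    · simp [hij]

theorem mem_codes_inr (T : List (List (Option ℚ))) (i j : ℕ) (q : ℚ) (a b : Fin 5) :
    (.inr ((i, j), (q, (a, b))) : Cd) ∈ codes T ↔ (∃ r, T[i]? = some r ∧ r[j]? = some (some q)) ∧ i < j ∧ a ≠ b := by
  unfold codes
  rw [List.mem_append, List.mem_map]
  constructor
  · rintro (⟨k, _, h⟩ | h)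
    · simp at h
    · rw [List.mem_flatMap] at h
      obtain ⟨⟨row, i'⟩, h1, h⟩ := h
      rw [List.mem_flatMap] at h
      obtain ⟨⟨e, j'⟩, h2, h⟩ := h
      rw [mem_entCodes] at h
      obtain ⟨rfl, rfl, rfl, hij, hab⟩ := h
      rw [List.mem_zipIdx_iff_getElem?] at h1 h2
      exact ⟨⟨row, h1, h2⟩, hij, hab⟩
  · rintro ⟨⟨r, h1, h2⟩, hij, hab⟩
    right
    rw [List.mem_flatMap]
    refine ⟨(r, i), List.mem_zipIdx_iff_getElem?.2 h1, ?_⟩
    rw [List.mem_flatMap]
    refine ⟨(some q, j), List.mem_zipIdx_iff_getElem?.2 h2, ?_⟩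
    rw [mem_entCodes]
    exact ⟨rfl, rfl, rfl, hij, hab⟩

theorem mem_codes_ell (I : Ell) (i j : ℕ) (q : ℚ) (a b : Fin 5) : (.inr ((i, j), (q, (a, b))) : Cd) ∈ codes I.table ↔
    (∃ (hi : i < I.n) (hj : j < I.n), I.entry ⟨i, hi⟩ ⟨j, hj⟩ = some q) ∧ i < j ∧ a ≠ b := by
  rw [mem_codes_inr]
  refine and_congr_left fun _ => ?_
  unfold Ell.table
  constructor
  · rintro ⟨r, h1, h2⟩
    rw [List.getElem?_ofFn] at h1
    split_ifs at h1 with hi
    obtain rfl := Option.some.inj h1
    rw [List.getElem?_ofFn] at h2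
    split_ifs at h2 with hj
    exact ⟨hi, hj, Option.some.inj h2⟩
  · rintro ⟨hi, hj, h⟩
    refine ⟨_, by rw [List.getElem?_ofFn, dif_pos hi], ?_⟩
    rw [List.getElem?_ofFn, dif_pos hj, h]

/-- the reduction -/
noncomputable def toGph (I : Ell) : Gph := gphOf (codes I.table)

/-- unit vectors whose inner products along the edges satisfy `φ` -/
def Rep {V : Type} (G : SimpleGraph V) (φ : ℝ → Prop) : Prop :=
  ∃ (E : Type) (_ : NormedAddCommGroup E) (_ : InnerProductSpace ℝ E) (x : V → E), (∀ v, ‖x v‖ = 1) ∧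
    ∀ u v, G.Adj u v → φ (inner ℝ (x u) (x v))

theorem Rep.mono {V : Type} {G : SimpleGraph V} {φ ψ : ℝ → Prop} (h : ∀ r, φ r → ψ r) (hG : Rep G φ) : Rep G ψ := by
  obtain ⟨E, i1, i2, x, hx, he⟩ := hG
  exact ⟨E, i1, i2, x, hx, fun u v huv => h _ (he u v huv)⟩

theorem member_of_rep (I : Ell) (hI : ∀ e, okv (I.x e)) (h : Rep (toGph I).G (fun r => r ≤ -1 / 2)) : I.Member := by
  classical
  obtain ⟨E, i1, i2, y, hy, he⟩ := h
  have hlen : I.table.length = I.n := by simp [Ell.table]
  have hidx : ∀ c : Cd, ∃ z : E, c ∈ codes I.table → ∃ k : Fin (codes I.table).length, (codes I.table)[k] = c ∧ z = y k := by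
    intro c
    by_cases hc : c ∈ codes I.table
    · obtain ⟨k, hk, rfl⟩ := List.getElem_of_mem hc
      exact ⟨y ⟨k, hk⟩, fun _ => ⟨⟨k, hk⟩, rfl, rfl⟩⟩
    · exact ⟨0, fun h => absurd h hc⟩
  choose z hz using hidx
  have hz1 : ∀ c ∈ {c | c ∈ codes I.table}, ‖z c‖ = 1 := by
    intro c hc
    obtain ⟨k, _, hk⟩ := hz c hc
    rw [hk]
    exact hy k
  have hz2 : ∀ c ∈ {c | c ∈ codes I.table}, ∀ c' ∈ {c | c ∈ codes I.table}, adC c c' = true → inner ℝ (z c) (z c') ≤ -1 / 2 := by
    intro c hc c' hc' had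
    obtain ⟨k, hk1, hk⟩ := hz c hc
    obtain ⟨k', hk1', hk'⟩ := hz c' hc'
    rw [hk, hk']
    refine he k k' ?_
    show adC (codes I.table)[k] (codes I.table)[k'] = true
    rw [hk1, hk1']
    exact had
  have hin : ∀ i : Fin I.n, (.inl (i : ℕ) : Cd) ∈ {c | c ∈ codes I.table} := fun i => by
    rw [Set.mem_ofPred_eq, mem_codes_inl, hlen]
    exact i.2
  have hent : ∀ (i j : Fin I.n) (q : ℚ), I.entry i j = some q → (i : ℕ) < j → okv q →
      inner ℝ (z (.inl i)) (z (.inl j)) = (q : ℝ) := by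
    intro i j q hq hij hok
    refine forced hz1 hz2 (hin i) (hin j) (fun a b hab => ?_) hok
    rw [Set.mem_ofPred_eq, mem_codes_ell]
    exact ⟨⟨i.2, j.2, hq⟩, hij, hab⟩
  refine ⟨Matrix.of fun i j => inner ℝ (z (.inl i)) (z (.inl j)), ⟨psd_of_gram (fun i : Fin I.n => z (.inl i)) _ fun i j => rfl,
    fun i => ?_, fun i j hij => ?_⟩⟩
  · rw [Matrix.of_apply, real_inner_self_eq_norm_sq, hz1 _ (hin i), one_pow]
  · rw [Matrix.of_apply]
    have hq : I.entry i j = some (I.x ⟨s(i, j), hij⟩) := by unfold Ell.entry; rw [dif_pos hij]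
    rcases lt_or_gt_of_ne (Fin.val_ne_of_ne hij.ne) with h | h
    · exact hent i j _ hq h (hI _)
    · rw [real_inner_comm]
      rw [I.entry_symm] at hq
      exact hent j i _ hq h (hI _)

theorem rep_of_member (I : Ell) (hI : ∀ e, okv (I.x e)) (h : I.Member) : Rep (toGph I).G (fun r => r = -1 / 2) := by
  classical
  obtain ⟨X, hX⟩ := h
  obtain ⟨x', hx'⟩ := gram_of_psd X hX.psd
  have hx1 : ∀ i, ‖x' i‖ = 1 := by
    intro i
    have h3 : ‖x' i‖ ^ 2 = 1 := by rw [← real_inner_self_eq_norm_sq, hx', hX.diag]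
    exact (pow_eq_one_iff_of_nonneg (norm_nonneg _) two_ne_zero).1 h3
  let x : ℕ → FF (EuclideanSpace ℝ (Fin I.n)) := fun i => if h : i < I.n then io (x' ⟨i, h⟩) else ep 0
  have hx : ∀ i, ‖x i‖ = 1 := by
    intro i
    by_cases h : i < I.n
    · have : x i = io (x' ⟨i, h⟩) := dif_pos h
      rw [this]
      exact io_norm (hx1 _)
    · have : x i = ep 0 := dif_neg h
      rw [this]
      exact ep_norm 0
  obtain ⟨z, hz1, hz2, hz3⟩ := ex_codes hx
  have hgood : ∀ (c : Cd), c ∈ codes I.table → ∀ i j q a b, c = .inr ((i, j), (q, (a, b))) →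
      a ≠ b ∧ okv q ∧ inner ℝ (x i) (x j) = (q : ℝ) := by
    rintro c hc i j q a b rfl
    rw [mem_codes_ell] at hc
    obtain ⟨⟨hi, hj, hq⟩, hij, hab⟩ := hc
    have e1 : x i = io (x' ⟨i, hi⟩) := dif_pos hi
    have e2 : x j = io (x' ⟨j, hj⟩) := dif_pos hj
    unfold Ell.entry at hq
    split_ifs at hq with hadj
    obtain rfl := Option.some.inj hq
    refine ⟨hab, hI _, ?_⟩
    rw [e1, e2, io_io, hx']
    exact hX.edge _ _ hadj
  refine ⟨_, inferInstance, inferInstance, fun k : Fin (codes I.table).length => z (codes I.table)[k], fun k => hz1 _,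
    fun k k' hk => hz3 _ _ ?_ hk⟩
  rintro i j q a b (h | h)
  · exact hgood _ (List.getElem_mem _) i j q a b h
  · exact hgood _ (List.getElem_mem _) i j q a b h

theorem toGph_eq (I : Ell) (hI : ∀ e, okv (I.x e)) : I.Member ↔ Rep (toGph I).G (fun r => r = -1 / 2) :=
  ⟨rep_of_member I hI, fun h => member_of_rep I hI (h.mono fun _ hr => hr.le)⟩

theorem toGph_le (I : Ell) (hI : ∀ e, okv (I.x e)) : I.Member ↔ Rep (toGph I).G (fun r => r ≤ -1 / 2) :=
  ⟨fun h => (rep_of_member I hI h).mono fun _ hr => hr.le, member_of_rep I hI⟩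

end Pool.Agent.Lib.MP_13b08e_lc.UV
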