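import Pool.Agent.Lib.MP_13b08e_lc.UV.CPar
import Pool.Agent.Lib.MP_13b08e_lc.UV.Gph
import Pool.Agent.Lib.MP_13b08e_lc.Compile

/-!
# UV / CGph: partial matrices with entries 0, 1/2, -1/2, 1 reduce to constant vectors

Codes of vertices: `inl i` are the old vertices, `inr ((i, j), (a, T))` is the vertex `T` of the cube for the old pair `i, j` with the
value `a`.
-/

set_option autoImplicit false

open Finset
open scoped symmDiff

namespace Pool.Agent.Lib.MP_13b08e_lc.UV

open Pool.Agent.Lib.PolyTime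

/-- the class of a value -/
def vcl (q : ℚ) : Val := if q = 0 then .zero else if q = 1 / 2 then .half else if q = -1 / 2 then .nhalf else .one

theorem vcl_toRat {q : ℚ} (hq : okv q) : (vcl q).toRat = q := by
  rcases hq with rfl | rfl | rfl | rfl
  · simp [vcl, Val.toRat]
  · have : vcl (1 / 2) = .half := by unfold vcl; norm_num
    rw [this]
    rfl
  · have : vcl (-1 / 2) = .nhalf := by unfold vcl; norm_num
    rw [this]
    rfl
  · have : vcl 1 = .one := by unfold vcl; norm_num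
    rw [this]
    rfl

/-- the size of the set of the second vector, in dimension `8 n` -/
def hsz (n : ℕ) : Val → ℕ
  | .zero => 4 * n
  | .half => 2 * n
  | .nhalf => 6 * n
  | .one => 0

/-- the set of the second vector -/
def tset (d n : ℕ) (a : Val) : Finset (Fin d) := univ.filter fun i => (i : ℕ) < hsz n a

theorem tset_card {d n : ℕ} (hd : d = 8 * n) (a : Val) : (tset d n a).card = hsz n a := by
  unfold tset
  rw [Fin.card_filter_val_lt, min_eq_right]
  rw [hd]
  cases a <;> simp only [hsz] <;> omega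

theorem tset_even {d n : ℕ} (hd : d = 8 * n) (a : Val) : Even (tset d n a).card := by
  rw [tset_card hd]
  cases a
  · exact ⟨2 * n, by simp only [hsz]; ring⟩
  · exact ⟨n, by simp only [hsz]; ring⟩
  · exact ⟨3 * n, by simp only [hsz]; ring⟩
  · exact ⟨0, rfl⟩

theorem tset_val {d n : ℕ} (hd : d = 8 * n) (hn : 0 < n) (a : Val) :
    1 - 2 * ((tset d n a).card : ℝ) / (d : ℝ) = (a.toRat : ℝ) := by
  rw [tset_card hd, hd]
  have hn' : (n : ℝ) ≠ 0 := by exact_mod_cast hn.ne'
  cases a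
  · simp only [hsz, Val.toRat]
    push_cast
    field_simp
    norm_num
  · simp only [hsz, Val.toRat]
    push_cast
    field_simp
    norm_num
  · simp only [hsz, Val.toRat]
    push_cast
    field_simp
    norm_num
  · simp only [hsz, Val.toRat]
    push_cast
    norm_num

/-- the codes of the vertices -/
abbrev Ce (d : ℕ) := ℕ ⊕ ((ℕ × ℕ) × (Val × Finset (Fin d)))

/-- the adjacency of an old vertex and a vertex of a gadget: `w` is the distance, `n` an eighth of the dimension -/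
def aX (d w n : ℕ) (v : ℕ) (c : (ℕ × ℕ) × (Val × Finset (Fin d))) : Bool :=
  (decide (v = c.1.1) && decide (c.2.2.card = w)) || (decide (v = c.1.2) && decide ((tset d n c.2.1 ∆ c.2.2).card = w))

/-- the adjacency of two vertices of gadgets -/
def aY (d w : ℕ) (c c' : (ℕ × ℕ) × (Val × Finset (Fin d))) : Bool :=
  decide ((c.1, c.2.1) = (c'.1, c'.2.1)) && decide ((c.2.2 ∆ c'.2.2).card = w)

/-- the adjacency -/
def aC (d w n : ℕ) : Ce d → Ce d → Bool
  | .inl _, .inl _ => false
  | .inl v, .inr c => aX d w n v c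
  | .inr c, .inl v => aX d w n v c
  | .inr c, .inr c' => aY d w c c'

theorem aC_symm (d w n : ℕ) (c c' : Ce d) : aC d w n c c' = aC d w n c' c := by
  rcases c with c | c <;> rcases c' with c' | c'
  · rfl
  · rfl
  · rfl
  · simp only [aC, aY]
    rw [symmDiff_comm]
    congr 1
    simp [eq_comm]

theorem aC_self (d n : ℕ) {w : ℕ} (hw : 0 < w) (c : Ce d) : aC d w n c c = false := by
  rcases c with c | c
  · rfl
  · simp only [aC, aY]
    rw [symmDiff_self]
    have : ¬ (0 = w) := by omega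
    simp [this]

/-- the graph of a list of codes -/
def cgph (d w n : ℕ) (hw : 0 < w) (L : List (Ce d)) : Gph where
  n := L.length
  G :=
    { Adj := fun i j => aC d w n L[i] L[j] = true
      symm := ⟨fun i j h => by rw [aC_symm]; exact h⟩
      loopless := ⟨fun i h => by rw [aC_self d n hw] at h; exact absurd h (by simp)⟩ }

open Classical in
theorem cgph_adj (d w n : ℕ) (hw : 0 < w) (L : List (Ce d)) (i j : Fin L.length) :
    decide ((cgph d w n hw L).G.Adj i j) = aC d w n L[i] L[j] := by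
  have h : (cgph d w n hw L).G.Adj i j ↔ aC d w n L[i] L[j] = true := Iff.rfl
  by_cases h' : aC d w n L[i] L[j] = true
  · rw [decide_eq_true (h.2 h'), h']
  · rw [decide_eq_false fun h'' => h' (h.1 h'')]
    exact ((Bool.not_eq_true _).mp h').symm

theorem cgph_table (d w n : ℕ) (hw : 0 < w) (L : List (Ce d)) :
    (cgph d w n hw L).table = L.map fun v => L.map fun v' => aC d w n v v' := by
  unfold Gph.table
  refine List.ext_getElem (by simp [cgph]) fun i h1 h2 => ?_
  rw [List.getElem_ofFn, List.getElem_map]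
  refine List.ext_getElem (by simp [cgph]) fun j h3 h4 => ?_
  rw [List.getElem_ofFn, List.getElem_map]
  exact cgph_adj d w n hw L _ _

/-- the codes of the gadget of an entry -/
noncomputable def ecodes (d : ℕ) (i j : ℕ) (e : Option ℚ) : List (Ce d) :=
  match e with
  | none => []
  | some q => if i < j then (univ : Finset (Finset (Fin d))).toList.map (fun T => .inr ((i, j), (vcl q, T))) else []

/-- the codes of the vertices of the new graph -/
noncomputable def ccodes (d : ℕ) (T : List (List (Option ℚ))) : List (Ce d) :=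
  (List.range T.length).map .inl ++ T.zipIdx.flatMap fun row => row.1.zipIdx.flatMap fun e => ecodes d row.2 e.2 e.1

theorem mem_ccodes_inl (d : ℕ) (T : List (List (Option ℚ))) (i : ℕ) : .inl i ∈ ccodes d T ↔ i < T.length := by
  unfold ccodes
  rw [List.mem_append, List.mem_map]
  constructor
  · rintro (⟨j, hj, h⟩ | h)
    · obtain rfl : j = i := by simpa using h
      exact List.mem_range.1 hj
    · exfalso
      rw [List.mem_flatMap] at h
      obtain ⟨row, _, h⟩ := h
      rw [List.mem_flatMap] at h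
      obtain ⟨e, _, h⟩ := h
      unfold ecodes at h
      split at h
      · simp at h
      · split_ifs at h
        · simp at h
        · simp at h
  · intro h
    exact Or.inl ⟨i, List.mem_range.2 h, rfl⟩

theorem mem_ecodes (d : ℕ) (i j : ℕ) (e : Option ℚ) (i' j' : ℕ) (a : Val) (T : Finset (Fin d)) :
    (.inr ((i', j'), (a, T)) : Ce d) ∈ ecodes d i j e ↔ i' = i ∧ j' = j ∧ (∃ q, e = some q ∧ vcl q = a) ∧ i < j := by
  unfold ecodes
  split
  · simp
  · rename_i q'
    split_ifs with hij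
    · rw [List.mem_map]
      constructor
      · rintro ⟨p, hp, h⟩
        simp only [Sum.inr.injEq, Prod.mk.injEq] at h
        obtain ⟨⟨rfl, rfl⟩, h3, h4⟩ := h
        exact ⟨rfl, rfl, ⟨q', rfl, h3⟩, hij⟩
      · rintro ⟨rfl, rfl, ⟨q, he, hq⟩, _⟩
        obtain rfl : q' = q := by simpa using he
        exact ⟨T, by simp, by rw [hq]⟩
    · simp [hij]

theorem mem_ccodes_inr (d : ℕ) (T : List (List (Option ℚ))) (i j : ℕ) (a : Val) (U : Finset (Fin d)) :
    (.inr ((i, j), (a, U)) : Ce d) ∈ ccodes d T ↔ (∃ r, T[i]? = some r ∧ ∃ q, r[j]? = some (some q) ∧ vcl q = a) ∧ i < j := by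
  unfold ccodes
  rw [List.mem_append, List.mem_map]
  constructor
  · rintro (⟨k, _, h⟩ | h)
    · simp at h
    · rw [List.mem_flatMap] at h
      obtain ⟨⟨row, i'⟩, h1, h⟩ := h
      rw [List.mem_flatMap] at h
      obtain ⟨⟨e, j'⟩, h2, h⟩ := h
      rw [mem_ecodes] at h
      obtain ⟨rfl, rfl, ⟨q, rfl, hq⟩, hij⟩ := h
      rw [List.mem_zipIdx_iff_getElem?] at h1 h2
      exact ⟨⟨row, h1, q, h2, hq⟩, hij⟩
  · rintro ⟨⟨r, h1, q, h2, hq⟩, hij⟩
    right
    rw [List.mem_flatMap]
    refine ⟨(r, i), List.mem_zipIdx_iff_getElem?.2 h1, ?_⟩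
    rw [List.mem_flatMap]
    refine ⟨(some q, j), List.mem_zipIdx_iff_getElem?.2 h2, ?_⟩
    rw [mem_ecodes]
    exact ⟨rfl, rfl, ⟨q, rfl, hq⟩, hij⟩

theorem mem_ccodes_ell (d : ℕ) (I : Ell) (i j : ℕ) (a : Val) (U : Finset (Fin d)) : (.inr ((i, j), (a, U)) : Ce d) ∈ ccodes d I.table ↔
    (∃ (hi : i < I.n) (hj : j < I.n) (q : ℚ), I.entry ⟨i, hi⟩ ⟨j, hj⟩ = some q ∧ vcl q = a) ∧ i < j := by
  rw [mem_ccodes_inr]
  refine and_congr_left fun _ => ?_
  unfold Ell.table
  constructor
  · rintro ⟨r, h1, q, h2, hq⟩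
    rw [List.getElem?_ofFn] at h1
    split_ifs at h1 with hi
    obtain rfl := Option.some.inj h1
    rw [List.getElem?_ofFn] at h2
    split_ifs at h2 with hj
    exact ⟨hi, hj, q, Option.some.inj h2, hq⟩
  · rintro ⟨hi, hj, q, h, hq⟩
    refine ⟨_, by rw [List.getElem?_ofFn, dif_pos hi], q, ?_, hq⟩
    rw [List.getElem?_ofFn, dif_pos hj, h]

/-- the reduction -/
noncomputable def toCGph (d w n : ℕ) (hw : 0 < w) (I : Ell) : Gph := cgph d w n hw (ccodes d I.table)

section

variable {m k n : ℕ} {c : ℝ}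

theorem member_of_crep (hp : Par m k c) (hd : m + 4 = 8 * n) (I : Ell) (hI : ∀ e, okv (I.x e))
    (h : Rep (toCGph (m + 4) (k + 4) n (by omega) I).G (fun r => r ≤ c)) : I.Member := by
  classical
  obtain ⟨E, i1, i2, y, hy, he⟩ := h
  have hn : 0 < n := by omega
  have hlen : I.table.length = I.n := by simp [Ell.table]
  have hidx : ∀ v : Ce (m + 4), ∃ z : E, v ∈ ccodes (m + 4) I.table →
      ∃ l : Fin (ccodes (m + 4) I.table).length, (ccodes (m + 4) I.table)[l] = v ∧ z = y l := by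
    intro v
    by_cases hv : v ∈ ccodes (m + 4) I.table
    · obtain ⟨l, hl, rfl⟩ := List.getElem_of_mem hv
      exact ⟨y ⟨l, hl⟩, fun _ => ⟨⟨l, hl⟩, rfl, rfl⟩⟩
    · exact ⟨0, fun h => absurd h hv⟩
  choose z hz using hidx
  have hz1 : ∀ v, v ∈ ccodes (m + 4) I.table → ‖z v‖ = 1 := by
    intro v hv
    obtain ⟨l, _, hl⟩ := hz v hv
    rw [hl]
    exact hy l
  have hz2 : ∀ v, v ∈ ccodes (m + 4) I.table → ∀ v', v' ∈ ccodes (m + 4) I.table → aC (m + 4) (k + 4) n v v' = true →
      inner ℝ (z v) (z v') ≤ c := by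
    intro v hv v' hv' had
    obtain ⟨l, hl1, hl⟩ := hz v hv
    obtain ⟨l', hl1', hl'⟩ := hz v' hv'
    rw [hl, hl']
    refine he l l' ?_
    show aC (m + 4) (k + 4) n (ccodes (m + 4) I.table)[l] (ccodes (m + 4) I.table)[l'] = true
    rw [hl1, hl1']
    exact had
  have hin : ∀ i : Fin I.n, (.inl (i : ℕ) : Ce (m + 4)) ∈ ccodes (m + 4) I.table := fun i => by
    rw [mem_ccodes_inl, hlen]
    exact i.2
  have hent : ∀ (i j : Fin I.n) (q : ℚ), I.entry i j = some q → (i : ℕ) < j → okv q →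
      inner ℝ (z (.inl i)) (z (.inl j)) = (q : ℝ) := by
    intro i j q hq hij hok
    have hc : ∀ U : Finset (Fin (m + 4)), (.inr (((i : ℕ), (j : ℕ)), (vcl q, U)) : Ce (m + 4)) ∈ ccodes (m + 4) I.table := by
      intro U
      rw [mem_ccodes_ell]
      exact ⟨⟨i.2, j.2, q, hq, rfl⟩, hij⟩
    have hf := hp.forced (f := fun U => z (.inr (((i : ℕ), (j : ℕ)), (vcl q, U)))) (fun U => hz1 _ (hc U)) (fun U Z hZ => ?_)
      (T := tset (m + 4) n (vcl q)) (tset_even hd _) (hz1 _ (hin i)) (hz1 _ (hin j)) (fun Z hZ => ?_) (fun Z hZ => ?_)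
    · rw [hf]
      have h1 := tset_val hd hn (vcl q)
      rw [vcl_toRat hok] at h1
      rw [← h1]
      push_cast
      ring
    · refine hz2 _ (hc _) _ (hc _) ?_
      simp only [aC, aY]
      rw [symmDiff_symmDiff_cancel_left]
      simp [hZ]
    · refine hz2 _ (hin i) _ (hc _) ?_
      simp only [aC, aX]
      simp [hZ]
    · refine hz2 _ (hin j) _ (hc _) ?_
      simp only [aC, aX]
      rw [symmDiff_symmDiff_cancel_left]
      simp [hZ]
  refine ⟨Matrix.of fun i j => inner ℝ (z (.inl i)) (z (.inl j)), ⟨psd_of_gram (fun i : Fin I.n => z (.inl i)) _ fun i j => rfl,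
    fun i => ?_, fun i j hij => ?_⟩⟩
  · rw [Matrix.of_apply, real_inner_self_eq_norm_sq, hz1 _ (hin i), one_pow]
  · rw [Matrix.of_apply]
    have hq : I.entry i j = some (I.x ⟨s(i, j), hij⟩) := by unfold Ell.entry; rw [dif_pos hij]
    rcases lt_or_gt_of_ne (Fin.val_ne_of_ne hij.ne) with h | h
    · exact hent i j _ hq h (hI _)
    · rw [real_inner_comm]
      rw [I.entry_symm] at hq
      exact hent j i _ hq h (hI _)

theorem crep_of_member (hp : Par m k c) (hd : m + 4 = 8 * n) (I : Ell) (hI : ∀ e, okv (I.x e)) (h : I.Member) :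
    Rep (toCGph (m + 4) (k + 4) n (by omega) I).G (fun r => r = c) := by
  classical
  have hn : 0 < n := by omega
  obtain ⟨X, hX⟩ := h
  obtain ⟨x', hx'⟩ := gram_of_psd X hX.psd
  have hx1 : ∀ i, ‖x' i‖ = 1 := by
    intro i
    have h3 : ‖x' i‖ ^ 2 = 1 := by rw [← real_inner_self_eq_norm_sq, hx', hX.diag]
    exact (pow_eq_one_iff_of_nonneg (norm_nonneg _) two_ne_zero).1 h3
  let x : ℕ → FF (EuclideanSpace ℝ (Fin I.n)) := fun i => if h : i < I.n then io (x' ⟨i, h⟩) else ep 0
  have hx : ∀ i, ‖x i‖ = 1 := by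
    intro i
    by_cases h : i < I.n
    · have : x i = io (x' ⟨i, h⟩) := dif_pos h
      rw [this]
      exact io_norm (hx1 _)
    · have : x i = ep 0 := dif_neg h
      rw [this]
      exact ep_norm 0
  -- the vectors of the gadgets
  have key : ∀ e : (ℕ × ℕ) × Val, ∃ f : Finset (Fin (m + 4)) →
      WithLp 2 (FF (EuclideanSpace ℝ (Fin I.n)) × EuclideanSpace ℝ (Fin (m + 4))),
      (∀ T T', inner ℝ (f T) (f T') = 1 - 2 * ((T ∆ T').card : ℝ) / ((m + 4 : ℕ) : ℝ)) ∧
      (inner ℝ (x e.1.1) (x e.1.2) = (e.2.toRat : ℝ) → f ∅ = WithLp.toLp 2 (x e.1.1, 0) ∧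
        f (tset (m + 4) n e.2) = WithLp.toLp 2 (x e.1.2, 0)) := by
    rintro ⟨⟨i, j⟩, a⟩
    by_cases hc : inner ℝ (x i) (x j) = (a.toRat : ℝ)
    · obtain ⟨f, h1, h2, h3⟩ := ex_cube (d := m + 4) (by omega) (hx i) (hx j) (T0 := tset (m + 4) n a)
        (by rw [hc, tset_val hd hn])
      exact ⟨f, h1, fun _ => ⟨h2, h3⟩⟩
    · obtain ⟨f, h1, h2, h3⟩ := ex_cube (d := m + 4) (by omega) (hx i) (hx i) (T0 := ∅)
        (by rw [real_inner_self_eq_norm_sq, hx]; simp)
      exact ⟨f, h1, fun h => absurd h hc⟩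
  choose f hf1 hf2 using key
  let z : Ce (m + 4) → WithLp 2 (FF (EuclideanSpace ℝ (Fin I.n)) × EuclideanSpace ℝ (Fin (m + 4))) := fun v => match v with
    | .inl i => WithLp.toLp 2 (x i, 0)
    | .inr (e, (a, T)) => f (e, a) T
  have hc4 : 1 - 2 * ((k + 4 : ℕ) : ℝ) / ((m + 4 : ℕ) : ℝ) = c := by
    have h1 := hp.cc
    have h2 : ((m : ℝ) + 4) ≠ 0 := by positivity
    push_cast
    field_simp
    linarith
  have hfn : ∀ e T, ‖f e T‖ = 1 := by
    intro e T
    have h3 : ‖f e T‖ ^ 2 = 1 := by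
      rw [← real_inner_self_eq_norm_sq, hf1, symmDiff_self]
      have : (⊥ : Finset (Fin (m + 4))).card = 0 := card_empty
      rw [this]
      simp
    exact (pow_eq_one_iff_of_nonneg (norm_nonneg _) two_ne_zero).1 h3
  have hzn : ∀ v, ‖z v‖ = 1 := by
    rintro (i | ⟨e, a, T⟩)
    · have h3 : ‖z (.inl i)‖ ^ 2 = 1 := by
        rw [← real_inner_self_eq_norm_sq]
        show inner ℝ (WithLp.toLp 2 (x i, 0) : WithLp 2 (FF (EuclideanSpace ℝ (Fin I.n)) × EuclideanSpace ℝ (Fin (m + 4))))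
          (WithLp.toLp 2 (x i, 0)) = 1
        rw [WithLp.prod_inner_apply]
        simp [hx]
      exact (pow_eq_one_iff_of_nonneg (norm_nonneg _) two_ne_zero).1 h3
    · exact hfn _ _
  have hgood : ∀ v, v ∈ ccodes (m + 4) I.table → ∀ i j a T, v = .inr ((i, j), (a, T)) → inner ℝ (x i) (x j) = (a.toRat : ℝ) := by
    rintro v hv i j a T rfl
    rw [mem_ccodes_ell] at hv
    obtain ⟨⟨hi, hj, q, hq, ha⟩, hij⟩ := hv
    have e1 : x i = io (x' ⟨i, hi⟩) := dif_pos hi
    have e2 : x j = io (x' ⟨j, hj⟩) := dif_pos hj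
    unfold Ell.entry at hq
    split_ifs at hq with hadj
    obtain rfl := Option.some.inj hq
    rw [e1, e2, io_io, hx', ← ha, vcl_toRat (hI _)]
    exact hX.edge _ _ hadj
  -- an old vertex and a vertex of a gadget
  have cross : ∀ v i j a T, inner ℝ (x i) (x j) = (a.toRat : ℝ) → aX (m + 4) (k + 4) n v ((i, j), (a, T)) = true →
      inner ℝ (z (.inl v)) (z (.inr ((i, j), (a, T)))) = c := by
    intro v i j a T hij had
    obtain ⟨g1, g2⟩ := hf2 ((i, j), a) hij
    simp only [aX, Bool.or_eq_true, Bool.and_eq_true, decide_eq_true_eq] at had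
    rcases had with ⟨rfl, hT⟩ | ⟨rfl, hT⟩
    · show inner ℝ (WithLp.toLp 2 (x v, 0)) (f ((v, j), a) T) = c
      rw [← g1, hf1]
      have : (∅ : Finset (Fin (m + 4))) ∆ T = T := bot_symmDiff T
      rw [this, hT]
      exact hc4
    · show inner ℝ (WithLp.toLp 2 (x v, 0)) (f ((i, v), a) T) = c
      rw [← g2, hf1, hT]
      exact hc4
  refine ⟨_, inferInstance, inferInstance, fun l : Fin (ccodes (m + 4) I.table).length => z (ccodes (m + 4) I.table)[l],
    fun l => hzn _, fun l l' hl => ?_⟩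
  have hl' : aC (m + 4) (k + 4) n (ccodes (m + 4) I.table)[(l : ℕ)] (ccodes (m + 4) I.table)[(l' : ℕ)] = true := hl
  have ha := List.getElem_mem (l := ccodes (m + 4) I.table) l.2
  have hb := List.getElem_mem (l := ccodes (m + 4) I.table) l'.2
  show inner ℝ (z (ccodes (m + 4) I.table)[(l : ℕ)]) (z (ccodes (m + 4) I.table)[(l' : ℕ)]) = c
  generalize (ccodes (m + 4) I.table)[(l : ℕ)] = v at ha hl'
  generalize (ccodes (m + 4) I.table)[(l' : ℕ)] = v' at hb hl'
  rcases v with i | ⟨⟨i, j⟩, a, T⟩ <;> rcases v' with i' | ⟨⟨i', j'⟩, a', T'⟩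
  · exact absurd hl' (by simp [aC])
  · exact cross _ _ _ _ _ (hgood _ hb _ _ _ _ rfl) hl'
  · rw [real_inner_comm]
    exact cross _ _ _ _ _ (hgood _ ha _ _ _ _ rfl) hl'
  · simp only [aC, aY, Bool.and_eq_true, decide_eq_true_eq, Prod.mk.injEq] at hl'
    obtain ⟨⟨⟨rfl, rfl⟩, rfl⟩, hT⟩ := hl'
    show inner ℝ (f ((i, j), a) T) (f ((i, j), a) T') = c
    rw [hf1, hT]
    exact hc4

end

end Pool.Agent.Lib.MP_13b08e_lc.UV
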