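import Pool.Agent.Lib.MP_13b08e_lc.UV.Gph

/-!
# UV / GphPT: the reduction is computable in polynomial time
-/

set_option autoImplicit false

namespace Pool.Agent.Lib.MP_13b08e_lc.UV

open Pool.Agent.Lib.PolyTime

instance encFin5 : Enc (Fin 5) := Enc.ofInj Fin.val Fin.val_injective

section

variable {α : Type} [Enc α]

theorem pt_tgt {q : α → ℚ} (hq : PT q) : PT (fun a => tgt (q a)) :=
  PT.ite (c := fun a => q a = 0) (PT.eq hq (PT.const _)) (PT.const _)
    (PT.ite (c := fun a => q a = 1 / 2) (PT.eq hq (PT.const _)) (PT.const _)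
      (PT.ite (c := fun a => q a = -1 / 2) (PT.eq hq (PT.const _)) (PT.const _) (PT.const _)))

theorem pt_thr {q : α → ℚ} (hq : PT q) : PT (fun a => thr (q a)) :=
  PT.ite (c := fun a => q a = 0) (PT.eq hq (PT.const _)) (PT.const _)
    (PT.ite (c := fun a => q a = 1 / 2) (PT.eq hq (PT.const _)) (PT.const _)
      (PT.ite (c := fun a => q a = -1 / 2) (PT.eq hq (PT.const _)) (PT.const _) (PT.const _)))

theorem pt_nbU {p : α → Fin 5 × Fin 5} (hp : PT p) : PT (fun a => nbU (p a)) :=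
  (PT.eq hp (PT.const _)).or (PT.eq hp (PT.const _))

theorem pt_nbV {q : α → ℚ} {p : α → Fin 5 × Fin 5} (hq : PT q) (hp : PT p) : PT (fun a => nbV (q a) (p a)) :=
  (PT.eq hp ((pt_tgt hq).snd'.pair (pt_thr hq))).or (PT.eq hp ((pt_thr hq).pair (pt_tgt hq).fst'))

theorem pt_inn {p p' : α → Fin 5 × Fin 5} (hp : PT p) (hp' : PT p') : PT (fun a => inn (p a) (p' a)) :=
  ((PT.eq hp.snd' hp'.fst').and (PT.eq hp.fst' hp'.snd').not).or ((PT.eq hp'.snd' hp.fst').and (PT.eq hp'.fst' hp.snd').not)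

theorem pt_adX {w : α → ℕ} {c : α → (ℕ × ℕ) × (ℚ × (Fin 5 × Fin 5))} (hw : PT w) (hc : PT c) : PT (fun a => adX (w a) (c a)) :=
  ((PT.eq hw hc.fst'.fst').and (pt_nbU hc.snd'.snd')).or ((PT.eq hw hc.fst'.snd').and (pt_nbV hc.snd'.fst' hc.snd'.snd'))

theorem pt_adY {c c' : α → (ℕ × ℕ) × (ℚ × (Fin 5 × Fin 5))} (hc : PT c) (hc' : PT c') : PT (fun a => adY (c a) (c' a)) :=
  (PT.eq (hc.fst'.pair hc.snd'.fst') (hc'.fst'.pair hc'.snd'.fst')).and (pt_inn hc.snd'.snd' hc'.snd'.snd')

theorem pt_adC {c c' : α → Cd} (hc : PT c) (hc' : PT c') : PT (fun a => adC (c a) (c' a)) := by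
  have h1 : PT (fun x : α × ℕ => adC (.inl x.2) (c' x.1)) := by
    refine (PT.sumCases (f := fun x : α × ℕ => c' x.1) (g := fun _ _ => false) (h := fun x d => adX x.2 d) (hc'.comp PT.fst)
      (PT.const _) (pt_adX PT.fst.snd' PT.snd)).congr fun x => ?_
    rcases c' x.1 with d | d <;> rfl
  have h2 : PT (fun x : α × ((ℕ × ℕ) × (ℚ × (Fin 5 × Fin 5))) => adC (.inr x.2) (c' x.1)) := by
    refine (PT.sumCases (f := fun x : α × ((ℕ × ℕ) × (ℚ × (Fin 5 × Fin 5))) => c' x.1) (g := fun x w => adX w x.2)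
      (h := fun x d => adY x.2 d) (hc'.comp PT.fst) (pt_adX PT.snd PT.fst.snd') (pt_adY PT.fst.snd' PT.snd)).congr fun x => ?_
    rcases c' x.1 with d | d <;> rfl
  refine (PT.sumCases (f := c) (g := fun a w => adC (.inl w) (c' a)) (h := fun a d => adC (.inr d) (c' a)) hc h1 h2).congr
    fun a => ?_
  rcases c a with d | d <;> rfl

theorem pt_entCodes {i j : α → ℕ} {e : α → Option ℚ} (hi : PT i) (hj : PT j) (he : PT e) :
    PT (fun a => entCodes (i a) (j a) (e a)) := by
  refine (PT.optCases (f := e) (g := fun _ => ([] : List Cd))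
    (h := fun a q => if i a < j a then cells.map (fun p => (.inr ((i a, j a), (q, p)) : Cd)) else []) he (PT.const _) ?_).congr
    fun a => ?_
  · refine PT.ite (c := fun x : α × ℚ => i x.1 < j x.1) (PT.lt (hi.comp PT.fst) (hj.comp PT.fst)) ?_ (PT.const _)
    exact PT.mapConst cells (f := fun p (x : α × ℚ) => (.inr ((i x.1, j x.1), (x.2, p)) : Cd)) fun p _ =>
      (((hi.comp PT.fst).pair (hj.comp PT.fst)).pair (PT.snd.pair (PT.const p))).inr
  · unfold entCodes
    cases e a <;> rfl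

theorem pt_codes {T : α → List (List (Option ℚ))} (hT : PT T) : PT (fun a => codes (T a)) := by
  refine PT.append ?_ ?_
  · exact PT.map (f := fun a => List.range (T a).length) (g := fun _ i => (.inl i : Cd)) (PT.range hT.length) PT.snd.inl
  · refine PT.flatMap (f := fun a => (T a).zipIdx) (g := fun _ row => row.1.zipIdx.flatMap fun e => entCodes row.2 e.2 e.1)
      (PT.zipIdx hT) ?_
    refine PT.flatMap (f := fun x : α × (List (Option ℚ) × ℕ) => x.2.1.zipIdx) (g := fun x e => entCodes x.2.2 e.2 e.1)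
      (PT.zipIdx PT.snd.fst') ?_
    exact pt_entCodes PT.fst.snd'.snd' PT.snd.snd' PT.snd.fst'

theorem pt_gphOf {L : α → List Cd} (hL : PT L) : PT (fun a => gphOf (L a)) := by
  refine PT.congr_enc (g := fun a => (L a).map fun v => (L a).map fun w => adC v w) ?_ (fun a => ?_)
  · refine PT.map (f := L) (g := fun a v => (L a).map fun w => adC v w) hL ?_
    exact PT.map (f := fun x : α × Cd => L x.1) (g := fun x w => adC x.2 w)
      (hL.comp PT.fst) (pt_adC PT.fst.snd' PT.snd)
  · rw [← gphOf_table]; rfl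

end

/-- the reduction is computable in polynomial time -/
theorem pt_toGph : PT toGph := by
  have ht : PT (fun I : Ell => I.table) := PT.of_enc_eq fun _ => rfl
  exact pt_gphOf (pt_codes ht)

end Pool.Agent.Lib.MP_13b08e_lc.UV
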