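import Pool.Agent.Lib.MP_13b08e_lc.UV.CGph
import Pool.Agent.Lib.MP_13b08e_lc.UV.GphPT

/-!
# UV / CGphPT: the reduction to constant vectors is computable in polynomial time
-/

set_option autoImplicit false

open scoped symmDiff

namespace Pool.Agent.Lib.MP_13b08e_lc.UV

open Pool.Agent.Lib.PolyTime

/-- the vertices of the cube are numbered -/
noncomputable instance encCube (d : ℕ) : Enc (Finset (Fin d)) :=
  Enc.ofInj (fun T => ((Fintype.equivFin (Finset (Fin d)) T : Fin _) : ℕ))
    (fun a b h => (Fintype.equivFin (Finset (Fin d))).injective (Fin.ext h))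

section

variable {α : Type} [Enc α] (d w n : ℕ)

theorem pt_fin1 (F : Finset (Fin d) → Bool) {T : α → Finset (Fin d)} (hT : PT T) : PT (fun x => F (T x)) :=
  (PT.ofFintype F).comp hT

theorem pt_fin2 (F : Val × Finset (Fin d) → Bool) {T : α → Val × Finset (Fin d)} (hT : PT T) : PT (fun x => F (T x)) :=
  (PT.ofFintype F).comp hT

theorem pt_fin3 (F : Finset (Fin d) × Finset (Fin d) → Bool) {T : α → Finset (Fin d) × Finset (Fin d)} (hT : PT T) :
    PT (fun x => F (T x)) :=
  (PT.ofFintype F).comp hT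

theorem pt_vcl {q : α → ℚ} (hq : PT q) : PT (fun a => vcl (q a)) :=
  PT.ite (c := fun a => q a = 0) (PT.eq hq (PT.const _)) (PT.const _)
    (PT.ite (c := fun a => q a = 1 / 2) (PT.eq hq (PT.const _)) (PT.const _)
      (PT.ite (c := fun a => q a = -1 / 2) (PT.eq hq (PT.const _)) (PT.const _) (PT.const _)))

theorem pt_aX {v : α → ℕ} {c : α → (ℕ × ℕ) × (Val × Finset (Fin d))} (hv : PT v) (hc : PT c) :
    PT (fun a => aX d w n (v a) (c a)) :=
  ((PT.eq hv hc.fst'.fst').and (pt_fin1 d (fun T => decide (T.card = w)) hc.snd'.snd')).or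
    ((PT.eq hv hc.fst'.snd').and (pt_fin2 d (fun p => decide ((tset d n p.1 ∆ p.2).card = w)) hc.snd'))

theorem pt_aY {c c' : α → (ℕ × ℕ) × (Val × Finset (Fin d))} (hc : PT c) (hc' : PT c') : PT (fun a => aY d w (c a) (c' a)) :=
  (PT.eq (hc.fst'.pair hc.snd'.fst') (hc'.fst'.pair hc'.snd'.fst')).and
    (pt_fin3 d (fun p => decide ((p.1 ∆ p.2).card = w)) (hc.snd'.snd'.pair hc'.snd'.snd'))

theorem pt_aC {c c' : α → Ce d} (hc : PT c) (hc' : PT c') : PT (fun a => aC d w n (c a) (c' a)) := by
  have h1 : PT (fun x : α × ℕ => aC d w n (.inl x.2) (c' x.1)) := by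
    refine (PT.sumCases (f := fun x : α × ℕ => c' x.1) (g := fun _ _ => false) (h := fun x e => aX d w n x.2 e) (hc'.comp PT.fst)
      (PT.const _) (pt_aX d w n PT.fst.snd' PT.snd)).congr fun x => ?_
    rcases c' x.1 with e | e <;> rfl
  have h2 : PT (fun x : α × ((ℕ × ℕ) × (Val × Finset (Fin d))) => aC d w n (.inr x.2) (c' x.1)) := by
    refine (PT.sumCases (f := fun x : α × ((ℕ × ℕ) × (Val × Finset (Fin d))) => c' x.1) (g := fun x v => aX d w n v x.2)
      (h := fun x e => aY d w x.2 e) (hc'.comp PT.fst) (pt_aX d w n PT.snd PT.fst.snd') (pt_aY d w PT.fst.snd' PT.snd)).congr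
      fun x => ?_
    rcases c' x.1 with e | e <;> rfl
  refine (PT.sumCases (f := c) (g := fun a v => aC d w n (.inl v) (c' a)) (h := fun a e => aC d w n (.inr e) (c' a)) hc h1 h2).congr
    fun a => ?_
  rcases c a with e | e <;> rfl

theorem pt_ecodes {i j : α → ℕ} {e : α → Option ℚ} (hi : PT i) (hj : PT j) (he : PT e) :
    PT (fun a => ecodes d (i a) (j a) (e a)) := by
  refine (PT.optCases (f := e) (g := fun _ => ([] : List (Ce d)))
    (h := fun a q => if i a < j a then (Finset.univ : Finset (Finset (Fin d))).toList.map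
      (fun T => (.inr ((i a, j a), (vcl q, T)) : Ce d)) else []) he (PT.const _) ?_).congr fun a => ?_
  · refine PT.ite (c := fun x : α × ℚ => i x.1 < j x.1) (PT.lt (hi.comp PT.fst) (hj.comp PT.fst)) ?_ (PT.const _)
    exact PT.mapConst (Finset.univ : Finset (Finset (Fin d))).toList
      (f := fun T (x : α × ℚ) => (.inr ((i x.1, j x.1), (vcl x.2, T)) : Ce d)) fun T _ =>
      (((hi.comp PT.fst).pair (hj.comp PT.fst)).pair ((pt_vcl PT.snd).pair (PT.const T))).inr
  · unfold ecodes
    cases e a <;> rfl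

theorem pt_ccodes {T : α → List (List (Option ℚ))} (hT : PT T) : PT (fun a => ccodes d (T a)) := by
  refine PT.append ?_ ?_
  · exact PT.map (f := fun a => List.range (T a).length) (g := fun _ i => (.inl i : Ce d)) (PT.range hT.length) PT.snd.inl
  · refine PT.flatMap (f := fun a => (T a).zipIdx) (g := fun _ row => row.1.zipIdx.flatMap fun e => ecodes d row.2 e.2 e.1)
      (PT.zipIdx hT) ?_
    refine PT.flatMap (f := fun x : α × (List (Option ℚ) × ℕ) => x.2.1.zipIdx) (g := fun x e => ecodes d x.2.2 e.2 e.1)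
      (PT.zipIdx PT.snd.fst') ?_
    exact pt_ecodes d PT.fst.snd'.snd' PT.snd.snd' PT.snd.fst'

theorem pt_cgph (hw : 0 < w) {L : α → List (Ce d)} (hL : PT L) : PT (fun a => cgph d w n hw (L a)) := by
  refine PT.congr_enc (g := fun a => (L a).map fun v => (L a).map fun v' => aC d w n v v') ?_ (fun a => ?_)
  · refine PT.map (f := L) (g := fun a v => (L a).map fun v' => aC d w n v v') hL ?_
    exact PT.map (f := fun x : α × Ce d => L x.1) (g := fun x v' => aC d w n x.2 v')
      (hL.comp PT.fst) (pt_aC d w n PT.fst.snd' PT.snd)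
  · rw [← cgph_table d w n hw]; rfl

end

/-- the reduction is computable in polynomial time -/
theorem pt_toCGph (d w n : ℕ) (hw : 0 < w) : PT (toCGph d w n hw) := by
  have ht : PT (fun I : Ell => I.table) := PT.of_enc_eq fun _ => rfl
  exact pt_cgph d w n hw (pt_ccodes d ht)

end Pool.Agent.Lib.MP_13b08e_lc.UV
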