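import Pool.Agent.Lib.MP_13b08e_lc.UV.Cube5
import Pool.Agent.Lib.MP_13b08e_lc.Gadget

/-!
# UV / CPar: admissible parameters exist for every rational number in the interval from -1 to -1/2
-/

set_option autoImplicit false

open Finset
open scoped symmDiff

namespace Pool.Agent.Lib.MP_13b08e_lc.UV

theorem quartic_le {v : ℝ} (hv : 3 ≤ v) : v * (v - 1) * (v - 2) * (v - 3) ≤ v * v * v * v := by
  have h1 : 0 ≤ v := by linarith
  have h2 : v * (v - 1) ≤ v * v := mul_le_mul_of_nonneg_left (by linarith) h1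
  have h3 : v * (v - 1) * (v - 2) ≤ v * v * v := mul_le_mul h2 (by linarith) (by linarith) (by positivity)
  exact mul_le_mul h3 (by linarith) (by linarith) (by positivity)

theorem num_aux {P Q t : ℝ} (hP : 1 ≤ P) (hQP : P + 1 ≤ Q) (hQ2 : Q ≤ 2 * P) (ht : 3 * (P * Q ^ 2) + 1 ≤ t) :
    (4 * t * (Q - P)) * (4 * t * (Q - P) - 1) * (4 * t * (Q - P) - 2) * (4 * t * (Q - P) - 3) +
      2 * ((4 * t * (Q + P)) * (4 * t * (Q + P) - 1) * (4 * t * (Q - P)) * (4 * t * (Q - P) - 1)) +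
      (4 * t * (Q + P)) * (4 * t * (Q + P) - 1) * (4 * t * (Q + P) - 2) * (4 * t * (Q + P) - 3) <
      P / Q * ((8 * Q * t - 3) * (8 * Q * t - 2) * (8 * Q * t - 1) * (8 * Q * t)) := by
  have hQ0 : 0 < Q := by linarith
  have hP0 : 0 < P := by linarith
  have hPQ : 1 ≤ P * Q ^ 2 := by nlinarith [mul_pos hP0 hQ0]
  have ht1 : 1 ≤ t := by linarith
  have ht0 : 0 < t := by linarith
  have hv : 4 ≤ 4 * t * (Q - P) := by nlinarith
  have hw : 4 ≤ 4 * t * (Q + P) := by nlinarith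
  set v := 4 * t * (Q - P) with hvdef
  set w := 4 * t * (Q + P) with hwdef
  have e1 := quartic_le (v := v) (by linarith)
  have e2 := quartic_le (v := w) (by linarith)
  have e3 : w * (w - 1) * v * (v - 1) ≤ w * w * v * v := by
    have h2 : w * (w - 1) ≤ w * w := mul_le_mul_of_nonneg_left (by linarith) (by linarith)
    have h3 : w * (w - 1) * v ≤ w * w * v := mul_le_mul_of_nonneg_right h2 (by linarith)
    exact mul_le_mul h3 (by linarith) (by linarith) (by positivity)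
  have h1 : v * (v - 1) * (v - 2) * (v - 3) + 2 * (w * (w - 1) * v * (v - 1)) + w * (w - 1) * (w - 2) * (w - 3) ≤
      1024 * t ^ 4 * (Q ^ 2 + P ^ 2) ^ 2 := by
    have h2 : v * v * v * v + 2 * (w * w * v * v) + w * w * w * w = 1024 * t ^ 4 * (Q ^ 2 + P ^ 2) ^ 2 := by
      rw [hvdef, hwdef]
      ring
    linarith
  refine lt_of_le_of_lt h1 ?_
  have h3 : 4096 * Q ^ 4 * t ^ 4 - 3072 * Q ^ 3 * t ^ 3 ≤ (8 * Q * t - 3) * (8 * Q * t - 2) * (8 * Q * t - 1) * (8 * Q * t) := by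
    have h4 : (8 * Q * t - 3) * (8 * Q * t - 2) * (8 * Q * t - 1) * (8 * Q * t) - (4096 * Q ^ 4 * t ^ 4 - 3072 * Q ^ 3 * t ^ 3) =
        (Q * t) * (704 * (Q * t) - 48) := by ring
    have h5 : 1 ≤ Q * t := by nlinarith
    have h6 : 0 ≤ (Q * t) * (704 * (Q * t) - 48) := mul_nonneg (by linarith) (by linarith)
    linarith
  have hPQ0 : 0 < P / Q := div_pos hP0 hQ0
  refine lt_of_lt_of_le ?_ (mul_le_mul_of_nonneg_left h3 hPQ0.le)
  have h4 : P / Q * (4096 * Q ^ 4 * t ^ 4 - 3072 * Q ^ 3 * t ^ 3) = 4096 * (P * Q ^ 3) * t ^ 4 - 3072 * (P * Q ^ 2) * t ^ 3 := by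
    field_simp
  rw [h4]
  have h5 : 1 ≤ 4 * (P * Q ^ 3) - (Q ^ 2 + P ^ 2) ^ 2 := by
    have h6 : 4 * (P * Q ^ 3) - (Q ^ 2 + P ^ 2) ^ 2 = (Q - P) * (P ^ 3 + P ^ 2 * Q + Q ^ 2 * (3 * P - Q)) := by ring
    rw [h6]
    have h7 : 1 ≤ Q - P := by linarith
    have h8 : 1 ≤ P ^ 3 + P ^ 2 * Q + Q ^ 2 * (3 * P - Q) := by
      have h9 : 1 ≤ P ^ 3 := one_le_pow₀ hP
      have h10 : 0 ≤ P ^ 2 * Q := by positivity
      have h11 : 0 ≤ Q ^ 2 * (3 * P - Q) := mul_nonneg (sq_nonneg _) (by linarith)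
      linarith
    nlinarith
  have h6 : 0 < t ^ 3 := by positivity
  have h7 : 3072 * (P * Q ^ 2) * t ^ 3 < 1024 * t ^ 4 * (4 * (P * Q ^ 3) - (Q ^ 2 + P ^ 2) ^ 2) := by
    have h8 : 1024 * t ^ 4 * 1 ≤ 1024 * t ^ 4 * (4 * (P * Q ^ 3) - (Q ^ 2 + P ^ 2) ^ 2) :=
      mul_le_mul_of_nonneg_left h5 (by positivity)
    refine lt_of_lt_of_le ?_ h8
    have h9 : 1024 * t ^ 4 * 1 = 1024 * t * t ^ 3 := by ring
    rw [h9]
    exact mul_lt_mul_of_pos_right (by linarith) h6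
  linarith

/-- admissible parameters -/
theorem par_exists {c : ℚ} (h1 : -1 < c) (h2 : c ≤ -1 / 2) : ∃ (m k n : ℕ), Par m k (c : ℝ) ∧ m + 4 = 8 * n := by
  obtain ⟨p, q, hp, hpq, hq2, hc⟩ : ∃ p q : ℕ, 1 ≤ p ∧ p + 1 ≤ q ∧ q ≤ 2 * p ∧ c = -((p : ℚ) / q) := by
    have hneg : c.num < 0 := Rat.num_neg.2 (by linarith)
    have hden : (0 : ℚ) < c.den := by exact_mod_cast c.den_pos
    have hnum : ((c.num.natAbs : ℕ) : ℚ) = -(c.num : ℚ) := by
      have : ((c.num.natAbs : ℕ) : ℤ) = -c.num := by omega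
      rw [show ((c.num.natAbs : ℕ) : ℚ) = (((c.num.natAbs : ℕ) : ℤ) : ℚ) from (Int.cast_natCast _).symm, this, Int.cast_neg]
    have hcc : c * c.den = c.num := Rat.mul_den_eq_num c
    refine ⟨c.num.natAbs, c.den, by omega, ?_, ?_, ?_⟩
    · have h3 : ((c.num.natAbs : ℕ) : ℚ) < c.den := by
        rw [hnum, ← hcc]
        nlinarith
      have h4 : c.num.natAbs < c.den := by exact_mod_cast h3
      omega
    · have h3 : (c.den : ℚ) ≤ 2 * ((c.num.natAbs : ℕ) : ℚ) := by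
        rw [hnum, ← hcc]
        nlinarith
      exact_mod_cast h3
    · rw [hnum, ← hcc]
      field_simp
  obtain ⟨t, ht⟩ : ∃ t : ℕ, t = 3 * (p * q ^ 2) + 1 := ⟨_, rfl⟩
  have ht1 : 1 ≤ t := by omega
  have hd : 8 ≤ 8 * q * t := by nlinarith
  have hw : 4 ≤ 4 * t * (q + p) := by nlinarith
  have hdv : ((8 * q * t - 4 : ℕ) : ℝ) = 8 * (q : ℝ) * t - 4 := by
    rw [Nat.cast_sub (by omega)]
    push_cast
    ring
  have hwv : ((4 * t * (q + p) - 4 : ℕ) : ℝ) = 4 * (t : ℝ) * (q + p) - 4 := by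
    rw [Nat.cast_sub hw]
    push_cast
    ring
  have hqr : (0 : ℝ) < q := by exact_mod_cast (by omega : 0 < q)
  have hpr : (1 : ℝ) ≤ p := by exact_mod_cast hp
  have hpqr : (p : ℝ) + 1 ≤ q := by exact_mod_cast hpq
  have hq2r : (q : ℝ) ≤ 2 * p := by exact_mod_cast hq2
  have hcr : (c : ℝ) = -((p : ℝ) / q) := by
    rw [hc]
    push_cast
    ring
  refine ⟨8 * q * t - 4, 4 * t * (q + p) - 4, q * t, ⟨?_, ?_, ?_, ?_, ?_⟩, ?_⟩
  · have h3 : 4 * t * (q + p) < 8 * q * t := by nlinarith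
    omega
  · have h3 : 4 * t * (q + p) - 4 = 4 * (t * (q + p) - 1) := by
      rw [Nat.mul_sub, ← mul_assoc]
    rw [h3]
    exact (by decide : Even 4).mul_right _
  · rw [hdv, hwv, hcr]
    field_simp
    ring
  · rw [hcr, neg_lt_zero]
    positivity
  · rw [hdv, hwv, hcr]
    have h3 := num_aux (t := (t : ℝ)) hpr hpqr hq2r (by rw [ht]; push_cast; linarith)
    have e1 : 8 * (q : ℝ) * t - 4 - (4 * (t : ℝ) * (q + p) - 4) = 4 * t * (q - p) := by ring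
    have e2 : 4 * (t : ℝ) * (q + p) - 4 + 4 = 4 * t * (q + p) := by ring
    have e3 : 4 * (t : ℝ) * (q + p) - 4 + 3 = 4 * t * (q + p) - 1 := by ring
    have e4 : 4 * (t : ℝ) * (q + p) - 4 + 2 = 4 * t * (q + p) - 2 := by ring
    have e5 : 4 * (t : ℝ) * (q + p) - 4 + 1 = 4 * t * (q + p) - 3 := by ring
    have e6 : 8 * (q : ℝ) * t - 4 + 1 = 8 * q * t - 3 := by ring
    have e7 : 8 * (q : ℝ) * t - 4 + 2 = 8 * q * t - 2 := by ring
    have e8 : 8 * (q : ℝ) * t - 4 + 3 = 8 * q * t - 1 := by ring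
    have e9 : 8 * (q : ℝ) * t - 4 + 4 = 8 * q * t := by ring
    rw [e1, e2, e3, e4, e5, e6, e7, e8, e9, neg_neg]
    exact h3
  · have h3 : 4 ≤ 8 * q * t := by omega
    have h4 : 8 * q * t = 8 * (q * t) := by ring
    omega

end Pool.Agent.Lib.MP_13b08e_lc.UV
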