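import Pool.Agent.Lib.MP_13b08e_lc.UV.GphPT

/-!
# UV / Cone: the join with one vertex turns `-1/(t-1)` into `-1/t`
-/

set_option autoImplicit false

namespace Pool.Agent.Lib.MP_13b08e_lc.UV

open Pool.Agent.Lib.PolyTime

/-- adjacency in the join with the vertex `0` -/
def cadj {n : ℕ} (r : Fin n → Fin n → Prop) (a b : Fin (n + 1)) : Prop :=
  Fin.cases (motive := fun _ => Prop) (Fin.cases (motive := fun _ => Prop) False (fun _ => True) b)
    (fun a' => Fin.cases (motive := fun _ => Prop) True (fun b' => r a' b') b) a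

theorem cadj00 {n : ℕ} (r : Fin n → Fin n → Prop) : cadj r 0 0 = False := rfl
theorem cadj0s {n : ℕ} (r : Fin n → Fin n → Prop) (b : Fin n) : cadj r 0 b.succ = True := rfl
theorem cadjs0 {n : ℕ} (r : Fin n → Fin n → Prop) (a : Fin n) : cadj r a.succ 0 = True := rfl
theorem cadjss {n : ℕ} (r : Fin n → Fin n → Prop) (a b : Fin n) : cadj r a.succ b.succ = r a b := rfl

/-- the join with one vertex -/
def coneG {n : ℕ} (G : SimpleGraph (Fin n)) : SimpleGraph (Fin (n + 1)) where
  Adj := cadj G.Adj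
  symm := ⟨by
    intro a b
    refine Fin.cases ?_ (fun a => ?_) a
    · refine Fin.cases ?_ (fun b => ?_) b
      · exact fun h => h
      · exact fun _ => trivial
    · refine Fin.cases ?_ (fun b => ?_) b
      · exact fun _ => trivial
      · exact fun h => SimpleGraph.Adj.symm (G := G) h⟩
  loopless := ⟨by
    intro a
    refine Fin.cases ?_ (fun a => ?_) a
    · exact fun h => h
    · exact fun h => G.loopless.irrefl a h⟩

theorem coneG_s0 {n : ℕ} (G : SimpleGraph (Fin n)) (a : Fin n) : (coneG G).Adj a.succ 0 := trivial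

theorem coneG_0s {n : ℕ} (G : SimpleGraph (Fin n)) (a : Fin n) : (coneG G).Adj 0 a.succ := trivial

theorem coneG_ss {n : ℕ} (G : SimpleGraph (Fin n)) (a b : Fin n) : (coneG G).Adj a.succ b.succ ↔ G.Adj a b := Iff.rfl

/-- the join with one vertex -/
def Gph.cone (I : Gph) : Gph := ⟨I.n + 1, coneG I.G⟩

theorem Gph.cone_table (I : Gph) : I.cone.table = (false :: List.replicate I.table.length true) :: I.table.map (fun r => true :: r) := by
  classical
  have hlen : I.table.length = I.n := by simp [Gph.table]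
  rw [hlen]
  unfold Gph.table
  have h0 : ¬ (coneG I.G).Adj 0 0 := fun h => h
  have h1 : ∀ b : Fin I.n, (coneG I.G).Adj 0 b.succ := coneG_0s I.G
  have h2 : ∀ a b : Fin I.n, (coneG I.G).Adj a.succ b.succ ↔ I.G.Adj a b := coneG_ss I.G
  have h3 : ∀ a : Fin I.n, (coneG I.G).Adj a.succ 0 := coneG_s0 I.G
  show (List.ofFn fun i : Fin (I.n + 1) => List.ofFn fun j : Fin (I.n + 1) => decide ((coneG I.G).Adj i j)) = _
  rw [List.ofFn_succ]
  congr 1
  · rw [List.ofFn_succ]
    rw [decide_eq_false h0]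
    congr 1
    · rw [List.eq_replicate_iff]
      refine ⟨by simp, ?_⟩
      intro b hb
      rw [List.mem_ofFn] at hb
      obtain ⟨i, rfl⟩ := hb
      simp [h1]
  · rw [List.map_ofFn]
    congr 1
    funext i
    rw [List.ofFn_succ]
    congr 1
    simp [h3]

theorem pt_cone {α : Type} [Enc α] {f : α → Gph} (hf : PT f) : PT (fun a => (f a).cone) := by
  have ht : PT (fun I : Gph => I.table) := PT.of_enc_eq fun _ => rfl
  have h : PT (fun a => (f a).table) := ht.comp hf
  refine PT.congr_enc (g := fun a => (false :: (f a).table.map (fun _ => true)) :: (f a).table.map (fun r => true :: r)) ?_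
    fun a => ?_
  · refine PT.cons (PT.cons (PT.const _) (PT.map (g := fun _ _ => true) h (PT.const _))) ?_
    exact PT.map (g := fun _ r => true :: r) h (PT.cons (PT.const _) PT.snd)
  · have e : (f a).table.map (fun _ => true) = List.replicate (f a).table.length true := List.map_const' ..
    rw [e, ← Gph.cone_table]
    rfl

/-! ### vectors -/

theorem rep_cone_of {n : ℕ} {G : SimpleGraph (Fin n)} {t : ℝ} (ht : 1 < t) {φ ψ : ℝ → Prop} (h : Rep G φ) (h0 : ψ (-1 / t))
    (h1 : ∀ r, φ r → ψ ((1 - 1 / t ^ 2) * r + 1 / t ^ 2)) : Rep (coneG G) ψ := by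
  obtain ⟨E, i1, i2, x, hx, he⟩ := h
  have ht0 : 0 < t := by linarith
  have hs0 : 0 ≤ 1 - 1 / t ^ 2 := by
    rw [sub_nonneg, div_le_one (by positivity)]
    nlinarith
  obtain ⟨s, hs⟩ : ∃ s : ℝ, s * s = 1 - 1 / t ^ 2 := ⟨√(1 - 1 / t ^ 2), Real.mul_self_sqrt hs0⟩
  let y : Fin (n + 1) → FF E := Fin.cases (ep 0) (fun v => s • io (x v) - (1 / t) • ep 0)
  have y0 : y 0 = ep 0 := rfl
  have ys : ∀ v : Fin n, y v.succ = s • io (x v) - (1 / t) • ep 0 := fun v => rfl
  have hep : inner ℝ (ep 0 : FF E) (ep 0) = 1 := by rw [ep_ep]; rfl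
  have hei : ∀ v : E, inner ℝ (ep 0 : FF E) (io v) = 0 := fun v => by rw [real_inner_comm, io_ep]
  have hss : ∀ u v : Fin n, inner ℝ (y u.succ) (y v.succ) = (1 - 1 / t ^ 2) * inner ℝ (x u) (x v) + 1 / t ^ 2 := by
    intro u v
    rw [ys, ys]
    simp only [inner_sub_left, inner_sub_right, inner_smul_left, inner_smul_right, io_io, io_ep, hep, hei]
    rw [← hs]
    simp
    ring
  have h0s : ∀ v : Fin n, inner ℝ (y 0) (y v.succ) = -1 / t := by
    intro v
    rw [y0, ys]
    simp only [inner_sub_right, inner_smul_right, hep, hei]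
    ring
  refine ⟨FF E, inferInstance, inferInstance, y, ?_, ?_⟩
  · intro v
    refine Fin.cases ?_ (fun v => ?_) v
    · exact ep_norm 0
    · have h2 : ‖y v.succ‖ ^ 2 = 1 := by
        rw [← real_inner_self_eq_norm_sq, hss, real_inner_self_eq_norm_sq, hx]
        ring
      exact (pow_eq_one_iff_of_nonneg (norm_nonneg _) two_ne_zero).1 h2
  · intro u v
    refine Fin.cases ?_ (fun u => ?_) u
    · refine Fin.cases ?_ (fun v => ?_) v
      · exact fun h => h.elim
      · intro _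
        rw [h0s]
        exact h0
    · refine Fin.cases ?_ (fun v => ?_) v
      · intro _
        rw [real_inner_comm, h0s]
        exact h0
      · intro h
        rw [hss]
        exact h1 _ (he u v h)

theorem arith1 {t : ℝ} (ht : 1 < t) : (1 - 1 / t ^ 2) * (-1 / (t - 1)) + 1 / t ^ 2 = -1 / t := by
  have h1 : t ≠ 0 := by linarith
  have h2 : t - 1 ≠ 0 := by linarith
  field_simp
  ring

theorem rep_cone_eq {n : ℕ} {G : SimpleGraph (Fin n)} {t : ℝ} (ht : 1 < t) (h : Rep G (fun r => r = -1 / (t - 1))) :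
    Rep (coneG G) (fun r => r = -1 / t) := by
  refine rep_cone_of ht h rfl fun r hr => ?_
  rw [hr]
  exact arith1 ht

theorem rep_cone_le {n : ℕ} {G : SimpleGraph (Fin n)} {t : ℝ} (ht : 1 < t) (h : Rep G (fun r => r ≤ -1 / (t - 1))) :
    Rep (coneG G) (fun r => r ≤ -1 / t) := by
  refine rep_cone_of ht h le_rfl fun r hr => ?_
  rw [← arith1 ht]
  have hs0 : 0 ≤ 1 - 1 / t ^ 2 := by
    rw [sub_nonneg, div_le_one (by positivity)]
    nlinarith
  have := mul_le_mul_of_nonneg_left hr hs0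
  linarith

theorem rep_of_cone_eq {n : ℕ} {G : SimpleGraph (Fin n)} {t : ℝ} (ht : 1 < t) (h : Rep (coneG G) (fun r => r = -1 / t)) :
    Rep G (fun r => r = -1 / (t - 1)) := by
  obtain ⟨E, i1, i2, y, hy, he⟩ := h
  have ht0 : 0 < t := by linarith
  have hs0 : 0 < 1 - 1 / t ^ 2 := by
    rw [sub_pos, div_lt_one (by positivity)]
    nlinarith
  obtain ⟨s, hs⟩ : ∃ s : ℝ, s * s = (1 - 1 / t ^ 2)⁻¹ := ⟨√((1 - 1 / t ^ 2)⁻¹), Real.mul_self_sqrt (inv_nonneg.2 hs0.le)⟩
  have h0 : ∀ v : Fin n, inner ℝ (y v.succ) (y 0) = -1 / t := fun v => he _ _ (coneG_s0 G v)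
  have h0' : ∀ v : Fin n, inner ℝ (y 0) (y v.succ) = -1 / t := fun v => by rw [real_inner_comm]; exact h0 v
  have h00 : inner ℝ (y 0) (y 0) = (1 : ℝ) := by rw [real_inner_self_eq_norm_sq, hy, one_pow]
  have key : ∀ u v : Fin n, inner ℝ (s • (y u.succ + (1 / t) • y 0)) (s • (y v.succ + (1 / t) • y 0)) =
      (1 - 1 / t ^ 2)⁻¹ * (inner ℝ (y u.succ) (y v.succ) - 1 / t ^ 2) := by
    intro u v
    simp only [inner_add_left, inner_add_right, inner_smul_left, inner_smul_right, h0, h0', h00]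
    rw [← hs]
    simp
    ring
  refine ⟨E, i1, i2, fun v => s • (y v.succ + (1 / t) • y 0), fun v => ?_, fun u v huv => ?_⟩
  · have h2 : ‖s • (y v.succ + (1 / t) • y 0)‖ ^ 2 = 1 := by
      rw [← real_inner_self_eq_norm_sq, key, real_inner_self_eq_norm_sq, hy, one_pow]
      exact inv_mul_cancel₀ hs0.ne'
    exact (pow_eq_one_iff_of_nonneg (norm_nonneg _) two_ne_zero).1 h2
  · rw [key, he u.succ v.succ ((coneG_ss G u v).2 huv)]
    have h1 : t ≠ 0 := by linarith
    have h2 : t - 1 ≠ 0 := by linarith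
    have h3 := arith1 ht
    show (1 - 1 / t ^ 2)⁻¹ * (-1 / t - 1 / t ^ 2) = -1 / (t - 1)
    rw [inv_mul_eq_iff_eq_mul₀ hs0.ne']
    linarith

theorem rep_of_cone_le {n : ℕ} {G : SimpleGraph (Fin n)} {t : ℝ} (ht : 1 < t) (h : Rep (coneG G) (fun r => r ≤ -1 / t)) :
    Rep G (fun r => r ≤ -1 / (t - 1)) := by
  classical
  obtain ⟨E, i1, i2, y, hy, he⟩ := h
  have ht0 : 0 < t := by linarith
  have hti : 0 < 1 / t := by positivity
  let a : Fin n → ℝ := fun v => -inner ℝ (y v.succ) (y 0)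
  have ha : ∀ v : Fin n, 1 / t ≤ a v := by
    intro v
    have h1 := he v.succ 0 (coneG_s0 G v)
    have h2 : a v = -inner ℝ (y v.succ) (y 0) := rfl
    have h3 : -1 / t = -(1 / t) := by ring
    rw [h3] at h1
    rw [h2]
    linarith
  have h0 : ∀ v : Fin n, inner ℝ (y v.succ) (y 0) = -a v := fun v => (neg_neg _).symm
  have h0' : ∀ v : Fin n, inner ℝ (y 0) (y v.succ) = -a v := fun v => by rw [real_inner_comm]; exact h0 v
  have h00 : inner ℝ (y 0) (y 0) = (1 : ℝ) := by rw [real_inner_self_eq_norm_sq, hy, one_pow]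
  let w : Fin n → E := fun v => y v.succ + a v • y 0
  have key : ∀ u v : Fin n, inner ℝ (w u) (w v) = inner ℝ (y u.succ) (y v.succ) - a u * a v := by
    intro u v
    show inner ℝ (y u.succ + a u • y 0) (y v.succ + a v • y 0) = _
    simp only [inner_add_left, inner_add_right, inner_smul_left, inner_smul_right, h0, h0', h00]
    simp
    ring
  have hw : ∀ v, ‖w v‖ ^ 2 = 1 - a v ^ 2 := by
    intro v
    rw [← real_inner_self_eq_norm_sq, key, real_inner_self_eq_norm_sq, hy]
    ring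
  have hw2 : ∀ v, ‖w v‖ ^ 2 ≤ 1 - 1 / t ^ 2 := by
    intro v
    rw [hw]
    have h1 := ha v
    have h2 : (1 / t) ^ 2 ≤ a v ^ 2 := pow_le_pow_left₀ hti.le h1 2
    have h3 : (1 / t) ^ 2 = 1 / t ^ 2 := by rw [div_pow, one_pow]
    linarith
  refine ⟨E, i1, i2, fun v => if w v = 0 then y 0 else ‖w v‖⁻¹ • w v, fun v => ?_, fun u v huv => ?_⟩
  · show ‖(if w v = 0 then y 0 else ‖w v‖⁻¹ • w v)‖ = 1
    split_ifs with hv
    · exact hy 0
    · exact norm_smul_inv_norm hv
  · have h1 := he u.succ v.succ ((coneG_ss G u v).2 huv)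
    have h2 := key u v
    have h3 := ha u
    have h4 := ha v
    have h5 : 1 / t * (1 / t) ≤ a u * a v := mul_le_mul h3 h4 hti.le (hti.le.trans h3)
    have h6 : inner ℝ (w u) (w v) ≤ -1 / t - 1 / t * (1 / t) := by linarith
    have h7 : (-1 / t - 1 / t * (1 / t) : ℝ) < 0 := by
      have : (-1 / t - 1 / t * (1 / t) : ℝ) = -(1 / t + 1 / t * (1 / t)) := by ring
      rw [this]
      have : 0 < 1 / t * (1 / t) := by positivity
      linarith
    have hu0 : w u ≠ 0 := by
      intro h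
      rw [h, inner_zero_left] at h6
      linarith
    have hv0 : w v ≠ 0 := by
      intro h
      rw [h, inner_zero_right] at h6
      linarith
    show inner ℝ (if w u = 0 then y 0 else ‖w u‖⁻¹ • w u) (if w v = 0 then y 0 else ‖w v‖⁻¹ • w v) ≤ -1 / (t - 1)
    rw [if_neg hu0, if_neg hv0, real_inner_smul_left, real_inner_smul_right]
    have pu : 0 < ‖w u‖ := norm_pos_iff.2 hu0
    have pv : 0 < ‖w v‖ := norm_pos_iff.2 hv0
    have h8 : ‖w u‖ * ‖w v‖ ≤ 1 - 1 / t ^ 2 := by
      have e1 := hw2 u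
      have e2 := hw2 v
      nlinarith [sq_nonneg (‖w u‖ - ‖w v‖)]
    have ht1 : 0 < t - 1 := by linarith
    have h9 : ‖w u‖ * ‖w v‖ * (1 / (t - 1)) ≤ 1 / t + 1 / t * (1 / t) := by
      have e1 : (1 - 1 / t ^ 2) * (1 / (t - 1)) = 1 / t + 1 / t * (1 / t) := by
        have h1 : t ≠ 0 := by linarith
        have h2 : t - 1 ≠ 0 := by linarith
        field_simp
        ring
      rw [← e1]
      exact mul_le_mul_of_nonneg_right h8 (by positivity)
    have h10 : ‖w u‖⁻¹ * (‖w v‖⁻¹ * inner ℝ (w u) (w v)) = inner ℝ (w u) (w v) / (‖w u‖ * ‖w v‖) := by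
      field_simp
    rw [h10, div_le_iff₀ (by positivity)]
    have h11 : -1 / (t - 1) * (‖w u‖ * ‖w v‖) = -(‖w u‖ * ‖w v‖ * (1 / (t - 1))) := by ring
    rw [h11]
    have h12 : -1 / t - 1 / t * (1 / t) = -(1 / t + 1 / t * (1 / t)) := by ring
    rw [h12] at h6
    linarith

/-! ### iteration -/

/-- `m` joins -/
noncomputable def coneN (m : ℕ) (I : Gph) : Gph := Gph.cone^[m] I

theorem coneN_succ (m : ℕ) (I : Gph) : coneN (m + 1) I = (coneN m I).cone := Function.iterate_succ_apply' _ _ _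

theorem pt_coneN {α : Type} [Enc α] {f : α → Gph} (hf : PT f) (m : ℕ) : PT (fun a => coneN m (f a)) := by
  induction m with
  | zero => exact hf
  | succ m ih => exact (pt_cone ih).congr fun a => (coneN_succ m _).symm

theorem coneN_eq (m : ℕ) (I : Gph) : Rep (coneN m I).G (fun r => r = -1 / ((m : ℝ) + 2)) ↔ Rep I.G (fun r => r = -1 / 2) := by
  induction m with
  | zero =>
    have : ((0 : ℕ) : ℝ) + 2 = 2 := by norm_num
    rw [this]
    exact Iff.rfl
  | succ m ih =>
    rw [← ih]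
    have e : (coneN (m + 1) I).G = (coneN (m + 1) I).G := rfl
    have h1 : ((m + 1 : ℕ) : ℝ) + 2 = (m : ℝ) + 3 := by push_cast; ring
    have h2 : (m : ℝ) + 2 = ((m : ℝ) + 3) - 1 := by ring
    have h3 : (1 : ℝ) < (m : ℝ) + 3 := by
      have := Nat.cast_nonneg (α := ℝ) m
      linarith
    rw [h1, h2, coneN_succ]
    exact ⟨rep_of_cone_eq h3, rep_cone_eq h3⟩

theorem coneN_le (m : ℕ) (I : Gph) : Rep (coneN m I).G (fun r => r ≤ -1 / ((m : ℝ) + 2)) ↔ Rep I.G (fun r => r ≤ -1 / 2) := by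
  induction m with
  | zero =>
    have : ((0 : ℕ) : ℝ) + 2 = 2 := by norm_num
    rw [this]
    exact Iff.rfl
  | succ m ih =>
    rw [← ih]
    have h1 : ((m + 1 : ℕ) : ℝ) + 2 = (m : ℝ) + 3 := by push_cast; ring
    have h2 : (m : ℝ) + 2 = ((m : ℝ) + 3) - 1 := by ring
    have h3 : (1 : ℝ) < (m : ℝ) + 3 := by
      have := Nat.cast_nonneg (α := ℝ) m
      linarith
    rw [h1, h2, coneN_succ]
    exact ⟨rep_of_cone_le h3, rep_cone_le h3⟩

end Pool.Agent.Lib.MP_13b08e_lc.UV
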