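import Mathlib

/-!
# UV / Cube1: characters of the cube and vector valued functions
-/

set_option autoImplicit false

open Finset
open scoped symmDiff

namespace Pool.Agent.Lib.MP_13b08e_lc.UV

variable {d : ℕ}

/-- the characters -/
noncomputable def chi (S T : Finset (Fin d)) : ℝ := ∏ i, (if i ∈ S ∧ i ∈ T then (-1 : ℝ) else 1)

theorem chi_symm (S T : Finset (Fin d)) : chi S T = chi T S := by
  unfold chi
  refine prod_congr rfl fun i _ => ?_
  simp only [and_comm]

theorem chi_mul (S A B : Finset (Fin d)) : chi S (A ∆ B) = chi S A * chi S B := by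
  unfold chi
  rw [← prod_mul_distrib]
  refine prod_congr rfl fun i _ => ?_
  simp only [mem_symmDiff]
  by_cases h1 : i ∈ S <;> by_cases h2 : i ∈ A <;> by_cases h3 : i ∈ B <;> simp [h1, h2, h3]

theorem chi_mul' (S A B : Finset (Fin d)) : chi (A ∆ B) S = chi A S * chi B S := by
  rw [chi_symm, chi_mul, chi_symm S, chi_symm S]

theorem chi_empty (S : Finset (Fin d)) : chi S ∅ = 1 := by
  simp [chi]

theorem chi_eq (S T : Finset (Fin d)) : chi S T = (-1) ^ (S ∩ T).card := by
  unfold chi
  rw [prod_ite, prod_const, prod_const_one, mul_one]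
  congr 2
  ext i
  simp

theorem chi_single (i : Fin d) (T : Finset (Fin d)) : chi {i} T = if i ∈ T then -1 else 1 := by
  rw [chi_eq]
  by_cases h : i ∈ T
  · rw [if_pos h, inter_eq_left.2 (by simpa using h)]
    simp
  · rw [if_neg h]
    have : ({i} : Finset (Fin d)) ∩ T = ∅ := by
      ext j
      simp only [mem_inter, mem_singleton, notMem_empty, iff_false, not_and]
      rintro rfl
      exact h
    rw [this]
    simp

theorem chi_sq (S T : Finset (Fin d)) : chi S T * chi S T = 1 := by
  rw [chi_eq, ← mul_pow]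
  simp

theorem chi_abs (S T : Finset (Fin d)) : |chi S T| = 1 := by
  rw [chi_eq, abs_pow]
  simp

theorem chi_univ {T : Finset (Fin d)} (hT : Even T.card) : chi univ T = 1 := by
  rw [chi_eq, univ_inter]
  exact hT.neg_one_pow

theorem chi_sum (A : Finset (Fin d)) : ∑ S, chi S A = if A = ∅ then (2 : ℝ) ^ d else 0 := by
  split_ifs with h
  · subst h
    simp [chi_empty]
  · obtain ⟨a, ha⟩ := nonempty_iff_ne_empty.2 h
    have h1 : ∑ S, chi S A = ∑ S, chi (({a} : Finset (Fin d)) ∆ S) A := by
      refine (Equiv.sum_comp (Function.Involutive.toPerm (fun S => ({a} : Finset (Fin d)) ∆ S) (symmDiff_right_involutive _))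
        (fun S => chi S A)).symm
    have h2 : ∀ S : Finset (Fin d), chi (({a} : Finset (Fin d)) ∆ S) A = - chi S A := by
      intro S
      rw [chi_mul', chi_single, if_pos ha]
      ring
    rw [sum_congr rfl fun S _ => h2 S, sum_neg_distrib] at h1
    linarith

section

variable {E : Type} [NormedAddCommGroup E] [InnerProductSpace ℝ E]

/-- the Fourier transform -/
noncomputable def Fo (f : Finset (Fin d) → E) (S : Finset (Fin d)) : E := ∑ T, chi S T • f T

theorem Fo_inv (f : Finset (Fin d) → E) (T : Finset (Fin d)) : ∑ S, chi S T • Fo f S = (2 : ℝ) ^ d • f T := by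
  unfold Fo
  simp only [smul_sum, smul_smul]
  rw [sum_comm]
  rw [sum_eq_single T]
  · rw [← sum_smul]
    congr 1
    rw [sum_congr rfl fun S _ => chi_sq S T]
    simp
  · intro T' _ hT'
    rw [← sum_smul]
    have : ∑ S, chi S T * chi S T' = 0 := by
      rw [sum_congr rfl fun S _ => (chi_mul S T T').symm, chi_sum, if_neg]
      intro h
      exact hT' (symmDiff_eq_bot.1 h).symm
    rw [this, zero_smul]
  · intro h
    exact absurd (mem_univ _) h

theorem Fo_norm (f : Finset (Fin d) → E) (Z : Finset (Fin d)) :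
    ∑ S, chi S Z * ‖Fo f S‖ ^ 2 = (2 : ℝ) ^ d * ∑ T, inner ℝ (f T) (f (T ∆ Z)) := by
  have h1 : ∀ S, chi S Z * ‖Fo f S‖ ^ 2 = ∑ T, ∑ T', chi S (Z ∆ (T ∆ T')) * inner ℝ (f T) (f T') := by
    intro S
    rw [← real_inner_self_eq_norm_sq]
    unfold Fo
    rw [sum_inner, mul_sum]
    refine sum_congr rfl fun T _ => ?_
    rw [inner_sum, mul_sum]
    refine sum_congr rfl fun T' _ => ?_
    rw [inner_smul_left, inner_smul_right, chi_mul, chi_mul]
    simp only [conj_trivial]
    ring
  rw [sum_congr rfl fun S _ => h1 S, sum_comm, mul_sum]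
  refine sum_congr rfl fun T _ => ?_
  rw [sum_comm, sum_eq_single (T ∆ Z)]
  · rw [← sum_mul]
    congr 1
    have : Z ∆ (T ∆ (T ∆ Z)) = ∅ := by
      rw [symmDiff_symmDiff_cancel_left, symmDiff_self]
      rfl
    rw [this, chi_sum, if_pos rfl]
  · intro T' _ hT'
    rw [← sum_mul, chi_sum, if_neg, zero_mul]
    intro h
    apply hT'
    have h2 : T ∆ T' = Z := (symmDiff_eq_bot.1 h).symm
    rw [← h2, symmDiff_symmDiff_cancel_left]
  · intro h
    exact absurd (mem_univ _) h

end

end Pool.Agent.Lib.MP_13b08e_lc.UV
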