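import Pool.Agent.Lib.MP_13b08e_lc.UV.Cube1

/-!
# UV / Cube2: the eigenvalues of the distance graph of the cube
-/

set_option autoImplicit false

open Finset
open scoped symmDiff

namespace Pool.Agent.Lib.MP_13b08e_lc.UV

variable {d : ℕ}

/-- the sets with `w` elements -/
abbrev Ww (d w : ℕ) : Finset (Finset (Fin d)) := powersetCard w univ

theorem mem_Ww {w : ℕ} {Z : Finset (Fin d)} : Z ∈ Ww d w ↔ Z.card = w := by
  rw [mem_powersetCard_univ]

/-- the eigenvalues -/
noncomputable def kap (w : ℕ) (S : Finset (Fin d)) : ℝ := ∑ Z ∈ Ww d w, chi S Z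

/-- swapping two elements -/
def sw (a b : Fin d) (Z : Finset (Fin d)) : Finset (Fin d) := Z.map (Equiv.swap a b).toEmbedding

theorem sw_card (a b : Fin d) (Z : Finset (Fin d)) : (sw a b Z).card = Z.card := card_map _

theorem mem_sw (a b x : Fin d) (Z : Finset (Fin d)) : x ∈ sw a b Z ↔ Equiv.swap a b x ∈ Z := by
  unfold sw
  rw [mem_map_equiv, Equiv.symm_swap]

theorem sw_sw (a b : Fin d) (Z : Finset (Fin d)) : sw a b (sw a b Z) = Z := by
  ext x
  rw [mem_sw, mem_sw, Equiv.swap_apply_self]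

/-- swapping an element inside with an element outside of `S` changes the sign when exactly one of them is in `Z` -/
theorem chi_sw {S Z : Finset (Fin d)} {a b : Fin d} (ha : a ∈ S) (hb : b ∉ S) (h : ¬ (a ∈ Z ↔ b ∈ Z)) :
    chi S (sw a b Z) = -chi S Z := by
  have hab : a ≠ b := fun h => hb (h ▸ ha)
  have h1 : sw a b Z = Z ∆ {a, b} := by
    ext x
    rw [mem_sw, mem_symmDiff, mem_insert, mem_singleton]
    by_cases hxa : x = a
    · subst hxa
      rw [Equiv.swap_apply_left]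
      simp only [true_or, not_true, and_false, true_and, false_or]
      tauto
    · by_cases hxb : x = b
      · subst hxb
        rw [Equiv.swap_apply_right]
        simp only [or_true, not_true, and_false, true_and, false_or]
        tauto
      · rw [Equiv.swap_apply_of_ne_of_ne hxa hxb]
        simp [hxa, hxb]
  have h2 : chi S {a, b} = -1 := by
    have h3 : ({a, b} : Finset (Fin d)) = {a} ∆ {b} := by
      ext x
      simp only [mem_symmDiff, mem_insert, mem_singleton]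
      constructor
      · rintro (rfl | rfl)
        · exact Or.inl ⟨rfl, hab⟩
        · exact Or.inr ⟨rfl, hab.symm⟩
      · rintro (⟨h, _⟩ | ⟨h, _⟩)
        · exact Or.inl h
        · exact Or.inr h
    rw [h3, chi_mul, chi_symm, chi_symm S, chi_single, chi_single, if_pos ha, if_neg hb]
    norm_num
  rw [h1, chi_mul, h2]
  ring

/-- the eigenvalue is a sum over the sets that do not separate two pairs -/
theorem kap_pairs (w : ℕ) {S : Finset (Fin d)} {a b a' b' : Fin d} (ha : a ∈ S) (hb : b ∉ S) (ha' : a' ∈ S) (hb' : b' ∉ S)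
    (haa : a ≠ a') (hbb : b ≠ b') :
    kap w S = ∑ Z ∈ (Ww d w).filter (fun Z => (a ∈ Z ↔ b ∈ Z) ∧ (a' ∈ Z ↔ b' ∈ Z)), chi S Z := by
  have hab' : a ≠ b' := fun h => hb' (h ▸ ha)
  have ha'b : a' ≠ b := fun h => hb (h ▸ ha')
  have hab : a ≠ b := fun h => hb (h ▸ ha)
  have hab'' : a' ≠ b' := fun h => hb' (h ▸ ha')
  have s1 : ∑ Z ∈ (Ww d w).filter (fun Z => ¬ (a ∈ Z ↔ b ∈ Z)), chi S Z = 0 := by
    refine sum_involution (fun Z _ => sw a b Z) ?_ ?_ ?_ ?_
    · intro Z hZ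
      rw [mem_filter] at hZ
      rw [chi_sw ha hb hZ.2]
      ring
    · intro Z hZ h0 h
      rw [mem_filter] at hZ
      have h1 := chi_sw ha hb hZ.2
      rw [h] at h1
      have : chi S Z = 0 := by linarith
      exact h0 this
    · intro Z hZ
      rw [mem_filter, mem_Ww] at hZ ⊢
      refine ⟨by rw [sw_card]; exact hZ.1, ?_⟩
      rw [mem_sw, mem_sw, Equiv.swap_apply_left, Equiv.swap_apply_right]
      tauto
    · intro Z hZ
      exact sw_sw a b Z
  have s2 : ∑ Z ∈ (Ww d w).filter (fun Z => (a ∈ Z ↔ b ∈ Z) ∧ ¬ (a' ∈ Z ↔ b' ∈ Z)), chi S Z = 0 := by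
    refine sum_involution (fun Z _ => sw a' b' Z) ?_ ?_ ?_ ?_
    · intro Z hZ
      rw [mem_filter] at hZ
      rw [chi_sw ha' hb' hZ.2.2]
      ring
    · intro Z hZ h0 h
      rw [mem_filter] at hZ
      have h1 := chi_sw ha' hb' hZ.2.2
      rw [h] at h1
      have : chi S Z = 0 := by linarith
      exact h0 this
    · intro Z hZ
      rw [mem_filter, mem_Ww] at hZ ⊢
      refine ⟨by rw [sw_card]; exact hZ.1, ?_⟩
      rw [mem_sw, mem_sw, mem_sw, mem_sw, Equiv.swap_apply_left, Equiv.swap_apply_right,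
        Equiv.swap_apply_of_ne_of_ne haa hab', Equiv.swap_apply_of_ne_of_ne ha'b.symm hbb]
      tauto
    · intro Z hZ
      exact sw_sw a' b' Z
  unfold kap
  rw [← sum_filter_add_sum_filter_not (Ww d w) (fun Z => (a ∈ Z ↔ b ∈ Z)), s1, add_zero,
    ← sum_filter_add_sum_filter_not ((Ww d w).filter (fun Z => (a ∈ Z ↔ b ∈ Z))) (fun Z => (a' ∈ Z ↔ b' ∈ Z)), filter_filter,
    filter_filter, s2, add_zero]

/-- counting the sets with a prescribed trace -/
theorem card_trace (w : ℕ) {Q P : Finset (Fin d)} (hP : P ⊆ Q) (hw : P.card ≤ w) :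
    ((Ww d w).filter (fun Z => Z ∩ Q = P)).card = (d - Q.card).choose (w - P.card) := by
  have h1 : (d - Q.card).choose (w - P.card) = (powersetCard (w - P.card) Qᶜ).card := by
    rw [card_powersetCard, card_compl, Fintype.card_fin]
  rw [h1]
  refine card_nbij' (fun Z => Z \ Q) (fun Y => Y ∪ P) ?_ ?_ ?_ ?_
  · intro Z hZ
    rw [coe_filter, Set.mem_ofPred_eq, mem_Ww] at hZ
    rw [mem_coe, mem_powersetCard]
    refine ⟨fun x hx => by rw [mem_compl]; exact (mem_sdiff.1 hx).2, ?_⟩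
    have h2 := card_sdiff_add_card_inter Z Q
    rw [hZ.2, hZ.1] at h2
    show (Z \ Q).card = w - P.card
    omega
  · intro Y hY
    rw [mem_coe, mem_powersetCard] at hY
    rw [coe_filter, Set.mem_ofPred_eq, mem_Ww]
    have hdis : Disjoint Y P := by
      rw [disjoint_left]
      intro x hx hx'
      exact (mem_compl.1 (hY.1 hx)) (hP hx')
    refine ⟨by rw [card_union_of_disjoint hdis, hY.2]; omega, ?_⟩
    ext x
    rw [mem_inter, mem_union]
    constructor
    · rintro ⟨h2 | h2, h3⟩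
      · exact absurd h3 (mem_compl.1 (hY.1 h2))
      · exact h2
    · intro h2
      exact ⟨Or.inr h2, hP h2⟩
  · intro Z hZ
    rw [coe_filter, Set.mem_ofPred_eq] at hZ
    show Z \ Q ∪ P = Z
    rw [← hZ.2]
    exact sdiff_union_inter Z Q
  · intro Y hY
    rw [mem_coe, mem_powersetCard] at hY
    show (Y ∪ P) \ Q = Y
    ext x
    rw [mem_sdiff, mem_union]
    constructor
    · rintro ⟨h2 | h2, h3⟩
      · exact h2
      · exact absurd (hP h2) h3
    · intro h2
      exact ⟨Or.inl h2, mem_compl.1 (hY.1 h2)⟩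

theorem ch1 (n k : ℕ) : ((n.choose k : ℕ) : ℝ) * ((n : ℝ) + 1) = ((n + 1).choose k : ℕ) * ((n : ℝ) + 1 - k) := by
  rcases le_or_gt k (n + 1) with h | h
  · have h1 := Nat.choose_mul_succ_eq n k
    have h2 : ((n + 1 - k : ℕ) : ℝ) = (n : ℝ) + 1 - k := by
      rw [Nat.cast_sub h]
      push_cast
      ring
    rw [← h2]
    exact_mod_cast h1
  · rw [Nat.choose_eq_zero_of_lt h, Nat.choose_eq_zero_of_lt (by omega)]
    simp

theorem ch2 (n k : ℕ) : ((n.choose k : ℕ) : ℝ) * ((n : ℝ) + 1) = ((n + 1).choose (k + 1) : ℕ) * ((k : ℝ) + 1) := by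
  have h1 := Nat.add_one_mul_choose_eq n k
  have : (((n + 1) * n.choose k : ℕ) : ℝ) = (((n + 1).choose (k + 1) * (k + 1) : ℕ) : ℝ) := by exact_mod_cast h1
  push_cast at this
  linarith

/-- the number of sets with four prescribed traces -/
theorem ch_sum (m k : ℕ) : ((m.choose (k + 4) : ℕ) + 2 * (m.choose (k + 2) : ℕ) + (m.choose k : ℕ) : ℝ) *
    (((m : ℝ) + 1) * ((m : ℝ) + 2) * ((m : ℝ) + 3) * ((m : ℝ) + 4)) = ((m + 4).choose (k + 4) : ℕ) *
    (((m : ℝ) - k) * ((m : ℝ) - k - 1) * ((m : ℝ) - k - 2) * ((m : ℝ) - k - 3) +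
      2 * (((k : ℝ) + 4) * ((k : ℝ) + 3) * ((m : ℝ) - k) * ((m : ℝ) - k - 1)) +
      ((k : ℝ) + 4) * ((k : ℝ) + 3) * ((k : ℝ) + 2) * ((k : ℝ) + 1)) := by
  have a1 := ch1 m (k + 4)
  have a2 := ch1 (m + 1) (k + 4)
  have a3 := ch1 (m + 2) (k + 4)
  have a4 := ch1 (m + 3) (k + 4)
  have b1 := ch2 m (k + 2)
  have b2 := ch2 (m + 1) (k + 3)
  have c1 := ch2 m k
  have c2 := ch2 (m + 1) (k + 1)
  have c3 := ch2 (m + 2) (k + 2)
  have c4 := ch2 (m + 3) (k + 3)
  push_cast at a1 a2 a3 a4 b1 b2 c1 c2 c3 c4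
  simp only [add_assoc, Nat.reduceAdd] at a1 a2 a3 a4 b1 b2 c1 c2 c3 c4
  norm_num at a1 a2 a3 a4 b1 b2 c1 c2 c3 c4
  generalize ((m.choose (k + 4) : ℕ) : ℝ) = x0 at *
  generalize (((m + 1).choose (k + 4) : ℕ) : ℝ) = x1 at *
  generalize (((m + 2).choose (k + 4) : ℕ) : ℝ) = x2 at *
  generalize (((m + 3).choose (k + 4) : ℕ) : ℝ) = x3 at *
  generalize (((m + 4).choose (k + 4) : ℕ) : ℝ) = x4 at *
  generalize ((m.choose (k + 2) : ℕ) : ℝ) = y0 at *
  generalize (((m + 1).choose (k + 3) : ℕ) : ℝ) = y1 at *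
  generalize ((m.choose k : ℕ) : ℝ) = z0 at *
  generalize (((m + 1).choose (k + 1) : ℕ) : ℝ) = z1 at *
  generalize (((m + 2).choose (k + 2) : ℕ) : ℝ) = z2 at *
  generalize (((m + 3).choose (k + 3) : ℕ) : ℝ) = z3 at *
  generalize (m : ℝ) = M at *
  generalize (k : ℝ) = K at *
  linear_combination (M + 2) * (M + 3) * (M + 4) * a1 + (M - K - 3) * (M + 3) * (M + 4) * a2 +
    (M - K - 3) * (M - K - 2) * (M + 4) * a3 + (M - K - 3) * (M - K - 2) * (M - K - 1) * a4 +
    2 * ((M + 2) * (M + 3) * (M + 4) * b1 + (K + 3) * (M + 3) * (M + 4) * b2 + (K + 3) * (K + 4) * (M + 4) * a3 +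
      (K + 3) * (K + 4) * (M - K - 1) * a4) +
    (M + 2) * (M + 3) * (M + 4) * c1 + (K + 1) * (M + 3) * (M + 4) * c2 + (K + 1) * (K + 2) * (M + 4) * c3 +
    (K + 1) * (K + 2) * (K + 3) * c4

theorem card_pairs_le {m k : ℕ} {a b a' b' : Fin (m + 4)} (h1 : a ≠ b) (h2 : a ≠ a') (h3 : a ≠ b') (h4 : b ≠ a') (h5 : b ≠ b')
    (h6 : a' ≠ b') : ((Ww (m + 4) (k + 4)).filter (fun Z => (a ∈ Z ↔ b ∈ Z) ∧ (a' ∈ Z ↔ b' ∈ Z))).card ≤
      m.choose (k + 4) + 2 * m.choose (k + 2) + m.choose k := by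
  have hQ : ({a, b, a', b'} : Finset (Fin (m + 4))).card = 4 := by
    rw [card_insert_of_notMem, card_insert_of_notMem, card_insert_of_notMem, card_singleton]
    · simpa using h6
    · simp [h4, h5]
    · simp [h1, h2, h3]
  have hP1 : ({a, b} : Finset (Fin (m + 4))).card = 2 := card_pair h1
  have hP2 : ({a', b'} : Finset (Fin (m + 4))).card = 2 := card_pair h6
  have c0 := card_trace (d := m + 4) (k + 4) (Q := {a, b, a', b'}) (P := ∅) (empty_subset _) (by simp)
  have c1 := card_trace (d := m + 4) (k + 4) (Q := {a, b, a', b'}) (P := {a, b}) (by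
    intro x hx
    simp only [mem_insert, mem_singleton] at hx ⊢
    tauto) (by rw [hP1]; omega)
  have c2 := card_trace (d := m + 4) (k + 4) (Q := {a, b, a', b'}) (P := {a', b'}) (by
    intro x hx
    simp only [mem_insert, mem_singleton] at hx ⊢
    tauto) (by rw [hP2]; omega)
  have c3 := card_trace (d := m + 4) (k + 4) (Q := {a, b, a', b'}) (P := {a, b, a', b'}) (Subset.refl _) (by rw [hQ]; omega)
  rw [hQ, card_empty] at c0
  rw [hQ, hP1] at c1
  rw [hQ, hP2] at c2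
  rw [hQ] at c3
  have e1 : m + 4 - 4 = m := by omega
  have e2 : k + 4 - 0 = k + 4 := by omega
  have e3 : k + 4 - 2 = k + 2 := by omega
  have e4 : k + 4 - 4 = k := by omega
  rw [e1] at c0 c1 c2 c3
  rw [e2] at c0
  rw [e3] at c1 c2
  rw [e4] at c3
  have hsub : (Ww (m + 4) (k + 4)).filter (fun Z => (a ∈ Z ↔ b ∈ Z) ∧ (a' ∈ Z ↔ b' ∈ Z)) ⊆
      (((Ww (m + 4) (k + 4)).filter (fun Z => Z ∩ {a, b, a', b'} = ∅)) ∪
        ((Ww (m + 4) (k + 4)).filter (fun Z => Z ∩ {a, b, a', b'} = {a, b}))) ∪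
      (((Ww (m + 4) (k + 4)).filter (fun Z => Z ∩ {a, b, a', b'} = {a', b'})) ∪
        ((Ww (m + 4) (k + 4)).filter (fun Z => Z ∩ {a, b, a', b'} = {a, b, a', b'}))) := by
    intro Z hZ
    rw [mem_filter] at hZ
    obtain ⟨hw, hab, hab'⟩ := hZ
    simp only [mem_union, mem_filter, hw, true_and]
    by_cases ha : a ∈ Z
    · have hb := hab.1 ha
      by_cases ha' : a' ∈ Z
      · have hb' := hab'.1 ha'
        right; right
        ext x
        simp only [mem_inter, mem_insert, mem_singleton]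
        constructor
        · exact fun h => h.2
        · rintro (rfl | rfl | rfl | rfl) <;> simp [ha, hb, ha', hb']
      · have hb' : b' ∉ Z := fun h => ha' (hab'.2 h)
        left; right
        ext x
        simp only [mem_inter, mem_insert, mem_singleton]
        constructor
        · rintro ⟨hx, (rfl | rfl | rfl | rfl)⟩ <;> simp_all
        · rintro (rfl | rfl) <;> simp [ha, hb]
    · have hb : b ∉ Z := fun h => ha (hab.2 h)
      by_cases ha' : a' ∈ Z
      · have hb' := hab'.1 ha'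
        right; left
        ext x
        simp only [mem_inter, mem_insert, mem_singleton]
        constructor
        · rintro ⟨hx, (rfl | rfl | rfl | rfl)⟩ <;> simp_all
        · rintro (rfl | rfl) <;> simp [ha', hb']
      · have hb' : b' ∉ Z := fun h => ha' (hab'.2 h)
        left; left
        ext x
        simp only [mem_inter, mem_insert, mem_singleton, notMem_empty, iff_false]
        rintro ⟨hx, (rfl | rfl | rfl | rfl)⟩ <;> simp_all
  refine (card_le_card hsub).trans ?_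
  refine (card_union_le _ _).trans ?_
  have u1 := card_union_le ((Ww (m + 4) (k + 4)).filter (fun Z => Z ∩ {a, b, a', b'} = ∅))
    ((Ww (m + 4) (k + 4)).filter (fun Z => Z ∩ {a, b, a', b'} = {a, b}))
  have u2 := card_union_le ((Ww (m + 4) (k + 4)).filter (fun Z => Z ∩ {a, b, a', b'} = {a', b'}))
    ((Ww (m + 4) (k + 4)).filter (fun Z => Z ∩ {a, b, a', b'} = {a, b, a', b'}))
  rw [c0, c1] at u1
  rw [c2, c3] at u2
  omega

/-- the eigenvalues of the sets with at least two elements and at least two elements in the complement -/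
theorem kap_lt {m k : ℕ} (hk : k ≤ m) {α : ℝ}
    (hnum : ((m : ℝ) - k) * ((m : ℝ) - k - 1) * ((m : ℝ) - k - 2) * ((m : ℝ) - k - 3) +
      2 * (((k : ℝ) + 4) * ((k : ℝ) + 3) * ((m : ℝ) - k) * ((m : ℝ) - k - 1)) +
      ((k : ℝ) + 4) * ((k : ℝ) + 3) * ((k : ℝ) + 2) * ((k : ℝ) + 1) <
      α * (((m : ℝ) + 1) * ((m : ℝ) + 2) * ((m : ℝ) + 3) * ((m : ℝ) + 4)))
    {S : Finset (Fin (m + 4))} (h2 : 2 ≤ S.card) (h2' : S.card + 2 ≤ m + 4) :
    |kap (k + 4) S| < α * ((m + 4).choose (k + 4) : ℕ) := by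
  obtain ⟨a, a', ha, ha', haa⟩ : ∃ a a', a ∈ S ∧ a' ∈ S ∧ a ≠ a' := by
    obtain ⟨a, ha, a', ha', h⟩ := one_lt_card.1 (show 1 < S.card by omega)
    exact ⟨a, a', ha, ha', h⟩
  obtain ⟨b, b', hb, hb', hbb⟩ : ∃ b b', b ∉ S ∧ b' ∉ S ∧ b ≠ b' := by
    have hc : Sᶜ.card = m + 4 - S.card := by rw [card_compl, Fintype.card_fin]
    obtain ⟨b, hb, b', hb', h⟩ := one_lt_card.1 (show 1 < Sᶜ.card by omega)
    exact ⟨b, b', mem_compl.1 hb, mem_compl.1 hb', h⟩
  have hab : a ≠ b := fun h => hb (h ▸ ha)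
  have hab' : a ≠ b' := fun h => hb' (h ▸ ha)
  have hba : b ≠ a' := fun h => hb (h ▸ ha')
  have hab'' : a' ≠ b' := fun h => hb' (h ▸ ha')
  have hc := card_pairs_le (k := k) hab haa hab' hba hbb hab''
  have h1 : |kap (k + 4) S| ≤ ((m.choose (k + 4) : ℕ) + 2 * (m.choose (k + 2) : ℕ) + (m.choose k : ℕ) : ℝ) := by
    rw [kap_pairs (k + 4) ha hb ha' hb' haa hbb]
    refine (abs_sum_le_sum_abs _ _).trans ?_
    rw [sum_congr rfl fun Z _ => chi_abs S Z, sum_const, nsmul_eq_mul, mul_one]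
    exact_mod_cast hc
  have h3 := ch_sum m k
  have hpos : (0 : ℝ) < ((m : ℝ) + 1) * ((m : ℝ) + 2) * ((m : ℝ) + 3) * ((m : ℝ) + 4) := by positivity
  have hD : (0 : ℝ) < (((m + 4).choose (k + 4) : ℕ) : ℝ) := by
    exact_mod_cast Nat.choose_pos (by omega)
  refine lt_of_le_of_lt h1 ?_
  have h4 := mul_lt_mul_of_pos_left hnum hD
  rw [← h3] at h4
  have h5 : (((m + 4).choose (k + 4) : ℕ) : ℝ) * (α * (((m : ℝ) + 1) * ((m : ℝ) + 2) * ((m : ℝ) + 3) * ((m : ℝ) + 4))) =
      α * ((m + 4).choose (k + 4) : ℕ) * (((m : ℝ) + 1) * ((m : ℝ) + 2) * ((m : ℝ) + 3) * ((m : ℝ) + 4)) := by ring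
  rw [h5] at h4
  exact lt_of_mul_lt_mul_right h4 hpos.le

/-- the eigenvalue of a singleton -/
theorem kap_single {m k : ℕ} (i : Fin (m + 4)) (hk : k ≤ m) :
    kap (k + 4) ({i} : Finset (Fin (m + 4))) * ((m : ℝ) + 4) = ((m : ℝ) + 4 - 2 * ((k : ℝ) + 4)) * ((m + 4).choose (k + 4) : ℕ) := by
  have h1 : kap (k + 4) ({i} : Finset (Fin (m + 4))) = ∑ Z ∈ Ww (m + 4) (k + 4), (1 - 2 * (if i ∈ Z then (1 : ℝ) else 0)) := by
    unfold kap
    refine sum_congr rfl fun Z _ => ?_
    rw [chi_single]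
    split_ifs <;> norm_num
  have h2 : ((Ww (m + 4) (k + 4)).filter (fun Z => i ∈ Z)).card = (m + 3).choose (k + 3) := by
    have h := card_trace (d := m + 4) (k + 4) (Q := {i}) (P := {i}) (Subset.refl _) (by simp)
    rw [card_singleton] at h
    have e : (Ww (m + 4) (k + 4)).filter (fun Z => i ∈ Z) = (Ww (m + 4) (k + 4)).filter (fun Z => Z ∩ {i} = {i}) := by
      refine filter_congr fun Z _ => ?_
      rw [inter_eq_right, singleton_subset_iff]
    rw [e, h]
    rfl
  have h3 := ch2 (m + 3) (k + 3)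
  rw [h1, sum_sub_distrib, ← mul_sum, sum_boole, h2, sum_const, card_powersetCard, card_univ, Fintype.card_fin, nsmul_eq_mul]
  push_cast at h3 ⊢
  simp only [add_assoc, Nat.reduceAdd] at h3
  norm_num at h3
  linear_combination -2 * h3

end Pool.Agent.Lib.MP_13b08e_lc.UV
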