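import Pool.Agent.Lib.MP_13b08e_lc.UV.Cube2

/-!
# UV / Cube3: unit vectors on the cube with inner products at most `c` at distance `w` are the vectors of the cube
-/

set_option autoImplicit false

open Finset
open scoped symmDiff

namespace Pool.Agent.Lib.MP_13b08e_lc.UV

/-- the admissible parameters: dimension `m + 4`, distance `k + 4`, inner product `c` -/
structure Par (m k : ℕ) (c : ℝ) : Prop where
  hk : k < m
  ev : Even k
  cc : c * ((m : ℝ) + 4) = (m : ℝ) + 4 - 2 * ((k : ℝ) + 4)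
  neg : c < 0
  num : ((m : ℝ) - k) * ((m : ℝ) - k - 1) * ((m : ℝ) - k - 2) * ((m : ℝ) - k - 3) +
      2 * (((k : ℝ) + 4) * ((k : ℝ) + 3) * ((m : ℝ) - k) * ((m : ℝ) - k - 1)) +
      ((k : ℝ) + 4) * ((k : ℝ) + 3) * ((k : ℝ) + 2) * ((k : ℝ) + 1) <
      -c * (((m : ℝ) + 1) * ((m : ℝ) + 2) * ((m : ℝ) + 3) * ((m : ℝ) + 4))

variable {m k : ℕ} {c : ℝ}

theorem Par.even_w (hp : Par m k c) : Even (k + 4) := hp.ev.add (by decide)

theorem Par.D_pos (hp : Par m k c) : (0 : ℝ) < (((m + 4).choose (k + 4) : ℕ) : ℝ) := by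
  exact_mod_cast Nat.choose_pos (by have := hp.hk; omega)

theorem Par.kap1 (hp : Par m k c) (i : Fin (m + 4)) : kap (k + 4) ({i} : Finset (Fin (m + 4))) = c * ((m + 4).choose (k + 4) : ℕ) := by
  have h := kap_single (m := m) (k := k) i hp.hk.le
  rw [← hp.cc] at h
  have h4 : ((m : ℝ) + 4) ≠ 0 := by positivity
  refine mul_right_cancel₀ h4 ?_
  rw [h]
  ring

theorem kap_compl {w : ℕ} (hw : Even w) {d : ℕ} (S : Finset (Fin d)) : kap w Sᶜ = kap w S := by
  unfold kap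
  refine sum_congr rfl fun Z hZ => ?_
  rw [mem_Ww] at hZ
  have h1 : Sᶜ = univ ∆ S := by
    ext x
    simp [mem_symmDiff]
  rw [h1, chi_mul', chi_univ (by rw [hZ]; exact hw), one_mul]

theorem Par.kap_gt (hp : Par m k c) {S : Finset (Fin (m + 4))} (h1 : S.card ≠ 1) (h2 : S.card ≠ m + 3) :
    c * ((m + 4).choose (k + 4) : ℕ) < kap (k + 4) S := by
  have hD := hp.D_pos
  have hneg := hp.neg
  have h0 : c * ((m + 4).choose (k + 4) : ℕ) < ((m + 4).choose (k + 4) : ℕ) := by nlinarith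
  have hempty : kap (k + 4) (∅ : Finset (Fin (m + 4))) = ((m + 4).choose (k + 4) : ℕ) := by
    unfold kap
    rw [sum_congr rfl fun Z _ => by rw [chi_symm, chi_empty], sum_const, card_powersetCard, card_univ, Fintype.card_fin,
      nsmul_eq_mul, mul_one]
  have hle : S.card ≤ m + 4 := by
    have := card_le_univ S
    rwa [Fintype.card_fin] at this
  rcases Nat.eq_zero_or_pos S.card with h3 | h3
  · rw [card_eq_zero] at h3
    rw [h3, hempty]
    exact h0
  · rcases eq_or_lt_of_le hle with h4 | h4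
    · have h5 : Sᶜ = ∅ := by
        rw [← card_eq_zero, card_compl, Fintype.card_fin]
        omega
      rw [← kap_compl hp.even_w, h5, hempty]
      exact h0
    · have h5 := kap_lt hp.hk.le hp.num (S := S) (by omega) (by omega)
      have h6 := (abs_lt.1 h5).1
      linarith

section

variable {E : Type} [NormedAddCommGroup E] [InnerProductSpace ℝ E]

/-- the extremal case -/
theorem Par.extremal (hp : Par m k c) {f : Finset (Fin (m + 4)) → E} (hf : ∀ T, ‖f T‖ = 1)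
    (he : ∀ T Z, Z.card = k + 4 → inner ℝ (f T) (f (T ∆ Z)) ≤ c) :
    (∀ S, S.card ≠ 1 → S.card ≠ m + 3 → Fo f S = 0) ∧ ∀ T Z, Z.card = k + 4 → inner ℝ (f T) (f (T ∆ Z)) = c := by
  have h1 : ∑ S, ‖Fo f S‖ ^ 2 = (2 : ℝ) ^ (m + 4) * ∑ T : Finset (Fin (m + 4)), (1 : ℝ) := by
    have h := Fo_norm f (∅ : Finset (Fin (m + 4)))
    have e1 : ∑ S, chi S ∅ * ‖Fo f S‖ ^ 2 = ∑ S, ‖Fo f S‖ ^ 2 := sum_congr rfl fun S _ => by rw [chi_empty, one_mul]
    rw [e1] at h
    rw [h]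
    congr 1
    refine sum_congr rfl fun T _ => ?_
    have e2 : T ∆ (∅ : Finset (Fin (m + 4))) = T := symmDiff_bot T
    rw [e2, real_inner_self_eq_norm_sq, hf, one_pow]
  have h2 : ∑ S, kap (k + 4) S * ‖Fo f S‖ ^ 2 = (2 : ℝ) ^ (m + 4) * ∑ T, ∑ Z ∈ Ww (m + 4) (k + 4), inner ℝ (f T) (f (T ∆ Z)) := by
    unfold kap
    simp only [sum_mul]
    rw [sum_comm, sum_congr rfl fun Z _ => Fo_norm f Z, ← mul_sum, sum_comm]
  have h3 : ∑ S, (kap (k + 4) S - c * ((m + 4).choose (k + 4) : ℕ)) * ‖Fo f S‖ ^ 2 =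
      (2 : ℝ) ^ (m + 4) * -∑ T, ∑ Z ∈ Ww (m + 4) (k + 4), (c - inner ℝ (f T) (f (T ∆ Z))) := by
    simp only [sub_mul, sum_sub_distrib, ← mul_sum]
    rw [h1, h2]
    simp only [sum_const, card_powersetCard, card_univ, Fintype.card_fin, nsmul_eq_mul]
    ring
  have h4 : ∀ S, 0 ≤ (kap (k + 4) S - c * ((m + 4).choose (k + 4) : ℕ)) * ‖Fo f S‖ ^ 2 := by
    intro S
    refine mul_nonneg ?_ (sq_nonneg _)
    rw [sub_nonneg]
    by_cases hS1 : S.card = 1
    · obtain ⟨i, rfl⟩ := card_eq_one.1 hS1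
      exact (hp.kap1 i).symm.le
    · by_cases hS2 : S.card = m + 3
      · obtain ⟨i, hi⟩ : ∃ i, Sᶜ = {i} := card_eq_one.1 (by rw [card_compl, Fintype.card_fin]; omega)
        rw [← kap_compl hp.even_w, hi]
        exact (hp.kap1 i).symm.le
      · exact (hp.kap_gt hS1 hS2).le
  have h5 : ∀ T, ∀ Z ∈ Ww (m + 4) (k + 4), 0 ≤ c - inner ℝ (f T) (f (T ∆ Z)) := by
    intro T Z hZ
    rw [mem_Ww] at hZ
    exact sub_nonneg.2 (he T Z hZ)
  have h6 : 0 ≤ ∑ T, ∑ Z ∈ Ww (m + 4) (k + 4), (c - inner ℝ (f T) (f (T ∆ Z))) := sum_nonneg fun T _ => sum_nonneg (h5 T)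
  have h7 : 0 ≤ ∑ S, (kap (k + 4) S - c * ((m + 4).choose (k + 4) : ℕ)) * ‖Fo f S‖ ^ 2 := sum_nonneg fun S _ => h4 S
  have hpow : (0 : ℝ) < (2 : ℝ) ^ (m + 4) := by positivity
  have h8 : ∑ T, ∑ Z ∈ Ww (m + 4) (k + 4), (c - inner ℝ (f T) (f (T ∆ Z))) = 0 := by
    rw [h3] at h7
    nlinarith
  rw [h8, neg_zero, mul_zero] at h3
  constructor
  · intro S hS1 hS2
    have h9 := (sum_eq_zero_iff_of_nonneg fun S _ => h4 S).1 h3 S (mem_univ _)
    rcases mul_eq_zero.1 h9 with h10 | h10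
    · exact absurd h10 (sub_pos.2 (hp.kap_gt hS1 hS2)).ne'
    · exact norm_eq_zero.1 ((pow_eq_zero_iff two_ne_zero).1 h10)
  · intro T Z hZ
    have h9 := (sum_eq_zero_iff_of_nonneg fun T _ => sum_nonneg (h5 T)).1 h8 T (mem_univ _)
    have h10 := (sum_eq_zero_iff_of_nonneg (h5 T)).1 h9 Z (mem_Ww.2 hZ)
    linarith

/-- the coordinate vectors -/
noncomputable def yy (f : Finset (Fin (m + 4)) → E) (i : Fin (m + 4)) : E :=
  ((2 : ℝ) ^ (m + 4))⁻¹ • (Fo f {i} + Fo f {i}ᶜ)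

theorem Par.linear (f : Finset (Fin (m + 4)) → E) (hF : ∀ S, S.card ≠ 1 → S.card ≠ m + 3 → Fo f S = 0) {T : Finset (Fin (m + 4))}
    (hT : Even T.card) : f T = ∑ i, chi {i} T • yy f i := by
  have h1 := Fo_inv f T
  let g : Fin (m + 4) ⊕ Fin (m + 4) → Finset (Fin (m + 4)) := Sum.elim (fun i => {i}) (fun i => {i}ᶜ)
  have hg : Function.Injective g := by
    rintro (i | i) (j | j) hij
    · simpa [g] using hij
    · exfalso
      have h2 := congrArg card hij
      simp only [g, Sum.elim_inl, Sum.elim_inr, card_singleton, card_compl, Fintype.card_fin] at h2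
      omega
    · exfalso
      have h2 := congrArg card hij
      simp only [g, Sum.elim_inl, Sum.elim_inr, card_singleton, card_compl, Fintype.card_fin] at h2
      omega
    · simpa [g] using hij
  have h2 : ∑ S, chi S T • Fo f S = ∑ x, chi (g x) T • Fo f (g x) := by
    rw [← sum_image (s := univ) (g := g) (f := fun S => chi S T • Fo f S) hg.injOn]
    symm
    refine sum_subset (subset_univ _) fun S _ hS => ?_
    rw [hF S ?_ ?_, smul_zero]
    · intro hS1
      obtain ⟨i, rfl⟩ := card_eq_one.1 hS1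
      exact hS (mem_image.2 ⟨Sum.inl i, mem_univ _, rfl⟩)
    · intro hS2
      obtain ⟨i, hi⟩ : ∃ i, Sᶜ = {i} := card_eq_one.1 (by rw [card_compl, Fintype.card_fin]; omega)
      refine hS (mem_image.2 ⟨Sum.inr i, mem_univ _, ?_⟩)
      show ({i} : Finset (Fin (m + 4)))ᶜ = S
      rw [← hi, compl_compl]
  rw [h2, Fintype.sum_sum_type] at h1
  have h3 : ∀ i : Fin (m + 4), chi ({i} : Finset (Fin (m + 4)))ᶜ T = chi {i} T := by
    intro i
    have h4 : ({i} : Finset (Fin (m + 4)))ᶜ = univ ∆ {i} := by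
      ext x
      simp [mem_symmDiff]
    rw [h4, chi_mul', chi_univ hT, one_mul]
  have h4 : (2 : ℝ) ^ (m + 4) • f T = (2 : ℝ) ^ (m + 4) • ∑ i, chi {i} T • yy f i := by
    rw [← h1]
    unfold yy
    rw [smul_sum, ← sum_add_distrib]
    refine sum_congr rfl fun i _ => ?_
    show chi {i} T • Fo f {i} + chi {i}ᶜ T • Fo f {i}ᶜ = _
    rw [h3, ← smul_add, smul_smul, smul_smul]
    congr 1
    have : (2 : ℝ) ^ (m + 4) ≠ 0 := by positivity
    field_simp
  have hpow : (2 : ℝ) ^ (m + 4) ≠ 0 := by positivity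
  exact smul_right_injective E hpow h4

end

end Pool.Agent.Lib.MP_13b08e_lc.UV
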