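import Pool.Agent.Lib.MP_13b08e_lc.UV.Cube3

/-!
# UV / Cube4: rigidity
-/

set_option autoImplicit false

open Finset
open scoped symmDiff

namespace Pool.Agent.Lib.MP_13b08e_lc.UV

variable {m k : ℕ} {c : ℝ}

section

variable {E : Type} [NormedAddCommGroup E] [InnerProductSpace ℝ E]

theorem chi_lin {d : ℕ} (y : Fin d → E) (T : Finset (Fin d)) : ∑ i, chi {i} T • y i = ∑ i, y i - (2 : ℝ) • ∑ i ∈ T, y i := by
  have h1 : ∀ i, chi {i} T • y i = y i - (if i ∈ T then (2 : ℝ) • y i else 0) := by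
    intro i
    rw [chi_single]
    split_ifs
    · module
    · simp
  rw [sum_congr rfl fun i _ => h1 i, sum_sub_distrib, smul_sum, sum_ite_mem, univ_inter]

/-- abstract form of the rigidity -/
structure Rig (d : ℕ) (y : Fin d → E) : Prop where
  nrm : ∀ T : Finset (Fin d), Even T.card → ‖∑ i, y i - (2 : ℝ) • ∑ i ∈ T, y i‖ = 1

variable {d : ℕ} {y : Fin d → E}

theorem Rig.s1 (hr : Rig d y) : ‖∑ i, y i‖ = 1 := by
  have := hr.nrm ∅ (by simp)
  simpa using this

theorem Rig.a (hr : Rig d y) {T : Finset (Fin d)} (hT : Even T.card) : inner ℝ (∑ i, y i) (∑ i ∈ T, y i) = ‖∑ i ∈ T, y i‖ ^ 2 := by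
  have h1 := hr.nrm T hT
  have h2 : ‖∑ i, y i - (2 : ℝ) • ∑ i ∈ T, y i‖ ^ 2 = 1 := by rw [h1, one_pow]
  rw [norm_sub_sq_real, hr.s1, inner_smul_right, norm_smul, mul_pow] at h2
  norm_num at h2
  linarith

theorem Rig.b (hr : Rig d y) {U U' : Finset (Fin d)} (hU : Even U.card) (hU' : Even U'.card) (hd : Disjoint U U') :
    inner ℝ (∑ i ∈ U, y i) (∑ i ∈ U', y i) = 0 := by
  have h1 := hr.a hU
  have h2 := hr.a hU'
  have h3 := hr.a (T := U ∪ U') (by rw [card_union_of_disjoint hd]; exact hU.add hU')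
  rw [sum_union hd, inner_add_right, h1, h2, norm_add_sq_real] at h3
  linarith

theorem Rig.four (hr : Rig d y) {a b e g : Fin d} (hab : a ≠ b) (hae : a ≠ e) (hag : a ≠ g) (hbe : b ≠ e) (hbg : b ≠ g) (heg : e ≠ g) :
    inner ℝ (y a) (y b) + inner ℝ (y e) (y g) = 0 := by
  have key : ∀ {a b e g : Fin d}, a ≠ b → a ≠ e → a ≠ g → b ≠ e → b ≠ g → e ≠ g →
      inner ℝ (y a) (y e) + inner ℝ (y a) (y g) + inner ℝ (y b) (y e) + inner ℝ (y b) (y g) = 0 := by
    intro a b e g hab hae hag hbe hbg heg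
    have h := hr.b (U := {a, b}) (U' := {e, g}) (by rw [card_pair hab]; decide) (by rw [card_pair heg]; decide) (by
      rw [disjoint_left]
      intro x hx hx'
      simp only [mem_insert, mem_singleton] at hx hx'
      rcases hx with rfl | rfl <;> rcases hx' with rfl | rfl <;> simp_all)
    rw [sum_pair hab, sum_pair heg, inner_add_left, inner_add_right, inner_add_right] at h
    linarith
  have k1 := key hab hae hag hbe hbg heg
  have k2 := key hae hab hag hbe.symm heg hbg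
  have k3 := key hag hab hae hbg.symm heg.symm hbe
  rw [real_inner_comm (y b) (y e), real_inner_comm (y e) (y g)] at *
  rw [real_inner_comm (y b) (y g)] at *
  linarith

theorem Rig.orth (hr : Rig d y) (hd : 5 ≤ d) {a b : Fin d} (hab : a ≠ b) : inner ℝ (y a) (y b) = 0 := by
  have h1 : 2 < (({a, b} : Finset (Fin d))ᶜ).card := by
    rw [card_compl, Fintype.card_fin, card_pair hab]
    omega
  obtain ⟨e, he, g, hg, h, hh, heg, heh, hgh⟩ := two_lt_card.1 h1
  simp only [mem_compl, mem_insert, mem_singleton, not_or] at he hg hh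
  have r1 := hr.four hab (Ne.symm he.1) (Ne.symm hg.1) (Ne.symm he.2) (Ne.symm hg.2) heg
  have r2 := hr.four heg he.1 heh hg.1 hgh (Ne.symm hh.1)
  have r3 := hr.four (Ne.symm hh.1) hab (Ne.symm he.1) hh.2 heh.symm (Ne.symm he.2)
  have r4 := hr.four (Ne.symm he.2) (Ne.symm hg.2) (Ne.symm hh.2) heg heh hgh
  have r5 := hr.four hgh hg.1 hg.2 hh.1 hh.2 hab
  linarith

theorem Rig.sq (hr : Rig d y) (hd : 5 ≤ d) (T : Finset (Fin d)) : ‖∑ i ∈ T, y i‖ ^ 2 = ∑ i ∈ T, ‖y i‖ ^ 2 := by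
  rw [← real_inner_self_eq_norm_sq, sum_inner]
  refine sum_congr rfl fun i hi => ?_
  rw [inner_sum, sum_eq_single i]
  · exact real_inner_self_eq_norm_sq _
  · intro j _ hj
    exact hr.orth hd (Ne.symm hj)
  · intro h
    exact absurd hi h

theorem Par.rig (hp : Par m k c) {f : Finset (Fin (m + 4)) → E} (hf : ∀ T, ‖f T‖ = 1)
    (he : ∀ T Z, Z.card = k + 4 → inner ℝ (f T) (f (T ∆ Z)) ≤ c) : Rig (m + 4) (yy f) := by
  obtain ⟨hF, _⟩ := hp.extremal hf he
  refine ⟨fun T hT => ?_⟩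
  rw [← chi_lin, ← Par.linear (m := m) f hF hT]
  exact hf T

theorem Par.f_eq (hp : Par m k c) {f : Finset (Fin (m + 4)) → E} (hf : ∀ T, ‖f T‖ = 1)
    (he : ∀ T Z, Z.card = k + 4 → inner ℝ (f T) (f (T ∆ Z)) ≤ c) {T : Finset (Fin (m + 4))} (hT : Even T.card) :
    f T = ∑ i, chi {i} T • yy f i := Par.linear (m := m) f (hp.extremal hf he).1 hT

/-- the norms of the coordinate vectors -/
theorem Par.norms (hp : Par m k c) {f : Finset (Fin (m + 4)) → E} (hf : ∀ T, ‖f T‖ = 1)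
    (he : ∀ T Z, Z.card = k + 4 → inner ℝ (f T) (f (T ∆ Z)) ≤ c) (i : Fin (m + 4)) : ‖yy f i‖ ^ 2 = 1 / ((m : ℝ) + 4) := by
  have hr := hp.rig hf he
  have hm := hp.hk
  have hd : 5 ≤ m + 4 := by omega
  have h1 : ∀ Z : Finset (Fin (m + 4)), Z.card = k + 4 → ∑ i ∈ Z, ‖yy f i‖ ^ 2 = (1 - c) / 2 := by
    intro Z hZ
    have h2 := (hp.extremal hf he).2 ∅ Z hZ
    have e1 : (∅ : Finset (Fin (m + 4))) ∆ Z = Z := bot_symmDiff Z
    have hZe : Even Z.card := by rw [hZ]; exact hp.even_w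
    rw [e1, hp.f_eq hf he (T := ∅) (by simp), hp.f_eq hf he hZe, chi_lin, chi_lin, sum_empty, smul_zero, sub_zero, inner_sub_right,
      inner_smul_right, hr.a hZe, real_inner_self_eq_norm_sq, hr.s1, hr.sq hd] at h2
    linarith
  have h3 : ∀ i j : Fin (m + 4), ‖yy f i‖ ^ 2 = ‖yy f j‖ ^ 2 := by
    intro i j
    by_cases hij : i = j
    · rw [hij]
    · obtain ⟨Z, hZ1, hZ2⟩ : ∃ Z ⊆ ({i, j} : Finset (Fin (m + 4)))ᶜ, Z.card = k + 3 := by
        refine exists_subset_card_eq ?_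
        rw [card_compl, Fintype.card_fin, card_pair hij]
        omega
      have hi : i ∉ Z := fun h => by
        have := hZ1 h
        simp at this
      have hj : j ∉ Z := fun h => by
        have := hZ1 h
        simp at this
      have e1 := h1 (insert i Z) (by rw [card_insert_of_notMem hi, hZ2])
      have e2 := h1 (insert j Z) (by rw [card_insert_of_notMem hj, hZ2])
      rw [sum_insert hi] at e1
      rw [sum_insert hj] at e2
      linarith
  have h4 : ∑ j, ‖yy f j‖ ^ 2 = 1 := by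
    rw [← hr.sq hd univ, hr.s1, one_pow]
  rw [sum_congr rfl fun j _ => h3 j i, sum_const, card_univ, Fintype.card_fin, nsmul_eq_mul] at h4
  push_cast at h4
  rw [eq_div_iff (by positivity)]
  linarith

/-- the inner products are forced -/
theorem Par.inner_empty (hp : Par m k c) {f : Finset (Fin (m + 4)) → E} (hf : ∀ T, ‖f T‖ = 1)
    (he : ∀ T Z, Z.card = k + 4 → inner ℝ (f T) (f (T ∆ Z)) ≤ c) {T : Finset (Fin (m + 4))} (hT : Even T.card) :
    inner ℝ (f ∅) (f T) = 1 - 2 * (T.card : ℝ) / ((m : ℝ) + 4) := by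
  have hr := hp.rig hf he
  have hm := hp.hk
  have hd : 5 ≤ m + 4 := by omega
  rw [hp.f_eq hf he (T := ∅) (by simp), hp.f_eq hf he hT, chi_lin, chi_lin, sum_empty, smul_zero, sub_zero, inner_sub_right,
      inner_smul_right, hr.a hT, real_inner_self_eq_norm_sq, hr.s1, hr.sq hd, sum_congr rfl fun j _ => hp.norms hf he j, sum_const,
      nsmul_eq_mul]
  ring

theorem even_symmDiff {d : ℕ} {T Z : Finset (Fin d)} (hT : Even T.card) (hZ : Even Z.card) : Even (T ∆ Z).card := by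
  have h1 : chi univ (T ∆ Z) = 1 := by rw [chi_mul, chi_univ hT, chi_univ hZ, one_mul]
  rw [chi_eq, univ_inter] at h1
  by_contra h
  rw [Nat.not_even_iff_odd] at h
  rw [h.neg_one_pow] at h1
  norm_num at h1

/-- the sum over the neighbours -/
theorem Par.nbrs (hp : Par m k c) {f : Finset (Fin (m + 4)) → E} (hf : ∀ T, ‖f T‖ = 1)
    (he : ∀ T Z, Z.card = k + 4 → inner ℝ (f T) (f (T ∆ Z)) ≤ c) {T : Finset (Fin (m + 4))} (hT : Even T.card) :
    ∑ Z ∈ Ww (m + 4) (k + 4), f (T ∆ Z) = (c * ((m + 4).choose (k + 4) : ℕ)) • f T := by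
  have h1 : ∀ Z ∈ Ww (m + 4) (k + 4), f (T ∆ Z) = ∑ i, (chi {i} Z * chi {i} T) • yy f i := by
    intro Z hZ
    rw [mem_Ww] at hZ
    rw [hp.f_eq hf he (even_symmDiff hT (by rw [hZ]; exact hp.even_w))]
    refine sum_congr rfl fun i _ => ?_
    rw [chi_mul, mul_comm]
  rw [sum_congr rfl h1, sum_comm, hp.f_eq hf he hT, smul_sum]
  refine sum_congr rfl fun i _ => ?_
  rw [← sum_smul, ← sum_mul, smul_smul]
  congr 1
  have := hp.kap1 i
  unfold kap at this
  rw [this]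

/-- a unit vector with the inner products of a vertex is the vector of this vertex -/
theorem Par.clone (hp : Par m k c) {f : Finset (Fin (m + 4)) → E} (hf : ∀ T, ‖f T‖ = 1)
    (he : ∀ T Z, Z.card = k + 4 → inner ℝ (f T) (f (T ∆ Z)) ≤ c) {T : Finset (Fin (m + 4))} (hT : Even T.card) {u : E} (hu : ‖u‖ = 1)
    (hv : ∀ Z : Finset (Fin (m + 4)), Z.card = k + 4 → inner ℝ u (f (T ∆ Z)) ≤ c) : u = f T := by
  have h1 := hp.nbrs hf he hT
  have h2 : inner ℝ u (∑ Z ∈ Ww (m + 4) (k + 4), f (T ∆ Z)) ≤ c * ((m + 4).choose (k + 4) : ℕ) := by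
    rw [inner_sum]
    have h3 : ∑ Z ∈ Ww (m + 4) (k + 4), inner ℝ u (f (T ∆ Z)) ≤ ∑ Z ∈ Ww (m + 4) (k + 4), c :=
      sum_le_sum fun Z hZ => hv Z (mem_Ww.1 hZ)
    refine h3.trans ?_
    rw [sum_const, card_powersetCard, card_univ, Fintype.card_fin, nsmul_eq_mul]
    linarith
  rw [h1, inner_smul_right] at h2
  have hneg : c * ((m + 4).choose (k + 4) : ℕ) < 0 := mul_neg_of_neg_of_pos hp.neg hp.D_pos
  have h4 : 1 ≤ inner ℝ u (f T) := by
    by_contra h5
    push Not at h5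
    nlinarith
  have h5 : inner ℝ u (f T) ≤ 1 := by
    have := real_inner_le_norm u (f T)
    rwa [hu, hf, one_mul] at this
  exact (inner_eq_one_iff_of_norm_eq_one hu (hf T)).1 (le_antisymm h5 h4)

/-- the gadget forces the inner product of the two clones -/
theorem Par.forced (hp : Par m k c) {f : Finset (Fin (m + 4)) → E} (hf : ∀ T, ‖f T‖ = 1)
    (he : ∀ T Z, Z.card = k + 4 → inner ℝ (f T) (f (T ∆ Z)) ≤ c) {T : Finset (Fin (m + 4))} (hT : Even T.card) {u v : E}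
    (hu : ‖u‖ = 1) (hv : ‖v‖ = 1) (hu' : ∀ Z : Finset (Fin (m + 4)), Z.card = k + 4 → inner ℝ u (f Z) ≤ c)
    (hv' : ∀ Z : Finset (Fin (m + 4)), Z.card = k + 4 → inner ℝ v (f (T ∆ Z)) ≤ c) :
    inner ℝ u v = 1 - 2 * (T.card : ℝ) / ((m : ℝ) + 4) := by
  have e1 : u = f ∅ := hp.clone hf he (T := ∅) (by simp) hu fun Z hZ => by
    have : (∅ : Finset (Fin (m + 4))) ∆ Z = Z := bot_symmDiff Z
    rw [this]
    exact hu' Z hZ
  have e2 : v = f T := hp.clone hf he hT hv hv'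
  rw [e1, e2]
  exact hp.inner_empty hf he hT

end

end Pool.Agent.Lib.MP_13b08e_lc.UV
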