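import Pool.Agent.Lib.MP_13b08e_lc.UV.Cube4

/-!
# UV / Cube5: the vectors of the gadget exist
-/

set_option autoImplicit false

open Finset
open scoped symmDiff

namespace Pool.Agent.Lib.MP_13b08e_lc.UV

section

variable {E F : Type} [NormedAddCommGroup E] [InnerProductSpace ℝ E] [NormedAddCommGroup F] [InnerProductSpace ℝ F]

/-- two unit vectors can be moved to two unit vectors with the same inner product -/
theorem ex_L (a b : F) (u v : E) (ha : ‖a‖ = 1) (hb : ‖b‖ = 1) (hu : ‖u‖ = 1) (hv : ‖v‖ = 1) (h : inner ℝ a b = inner ℝ u v) :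
    ∃ L : F → WithLp 2 (E × F), (∀ x y, inner ℝ (L x) (L y) = inner ℝ x y) ∧ L a = WithLp.toLp 2 (u, 0) ∧
      L b = WithLp.toLp 2 (v, 0) := by
  let a' : WithLp 2 (E × F) := WithLp.toLp 2 (0, a)
  let b' : WithLp 2 (E × F) := WithLp.toLp 2 (0, b)
  let u' : WithLp 2 (E × F) := WithLp.toLp 2 (u, 0)
  let v' : WithLp 2 (E × F) := WithLp.toLp 2 (v, 0)
  have ia : ∀ x y : F, inner ℝ (WithLp.toLp 2 (0, x) : WithLp 2 (E × F)) (WithLp.toLp 2 (0, y)) = inner ℝ x y := fun x y => by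
    simp [WithLp.prod_inner_apply]
  have iu : ∀ x y : E, inner ℝ (WithLp.toLp 2 (x, 0) : WithLp 2 (E × F)) (WithLp.toLp 2 (y, 0)) = inner ℝ x y := fun x y => by
    simp [WithLp.prod_inner_apply]
  have na : ‖a'‖ = 1 := by
    have h2 : ‖a'‖ ^ 2 = 1 := by rw [← real_inner_self_eq_norm_sq, ia, real_inner_self_eq_norm_sq, ha, one_pow]
    exact (pow_eq_one_iff_of_nonneg (norm_nonneg _) two_ne_zero).1 h2
  have nb : ‖b'‖ = 1 := by
    have h2 : ‖b'‖ ^ 2 = 1 := by rw [← real_inner_self_eq_norm_sq, ia, real_inner_self_eq_norm_sq, hb, one_pow]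
    exact (pow_eq_one_iff_of_nonneg (norm_nonneg _) two_ne_zero).1 h2
  have nu : ‖u'‖ = 1 := by
    have h2 : ‖u'‖ ^ 2 = 1 := by rw [← real_inner_self_eq_norm_sq, iu, real_inner_self_eq_norm_sq, hu, one_pow]
    exact (pow_eq_one_iff_of_nonneg (norm_nonneg _) two_ne_zero).1 h2
  have nv : ‖v'‖ = 1 := by
    have h2 : ‖v'‖ ^ 2 = 1 := by rw [← real_inner_self_eq_norm_sq, iu, real_inner_self_eq_norm_sq, hv, one_pow]
    exact (pow_eq_one_iff_of_nonneg (norm_nonneg _) two_ne_zero).1 h2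
  let R1 := (Submodule.span ℝ {a' - u'})ᗮ.reflection
  have hR1 : R1 a' = u' := Submodule.reflection_sub (by rw [na, nu])
  let w := R1 b'
  have nw : ‖w‖ = 1 := by
    show ‖R1 b'‖ = 1
    rw [LinearIsometryEquiv.norm_map, nb]
  let R2 := (Submodule.span ℝ {w - v'})ᗮ.reflection
  have hR2 : R2 w = v' := Submodule.reflection_sub (by rw [nw, nv])
  have hperp : inner ℝ (w - v') u' = 0 := by
    have h1 : inner ℝ w u' = inner ℝ b a := by
      show inner ℝ (R1 b') u' = inner ℝ b a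
      rw [← hR1, LinearIsometryEquiv.inner_map_map]
      exact ia b a
    have h2 : inner ℝ v' u' = inner ℝ v u := iu v u
    rw [inner_sub_left, h1, h2, real_inner_comm, h, real_inner_comm, sub_self]
  have hR2u : R2 u' = u' := by
    refine Submodule.reflection_mem_subspace_eq_self ?_
    rw [Submodule.mem_orthogonal_singleton_iff_inner_right]
    exact hperp
  refine ⟨fun x => R2 (R1 (WithLp.toLp 2 (0, x))), fun x y => ?_, ?_, ?_⟩
  · rw [LinearIsometryEquiv.inner_map_map, LinearIsometryEquiv.inner_map_map]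
    exact ia x y
  · show R2 (R1 a') = u'
    rw [hR1, hR2u]
  · show R2 (R1 b') = v'
    exact hR2

/-- the standard vectors of the cube -/
noncomputable def std {d : ℕ} (T : Finset (Fin d)) : EuclideanSpace ℝ (Fin d) := WithLp.toLp 2 (fun i => (√(d : ℝ))⁻¹ * chi {i} T)

theorem std_inner {d : ℕ} (hd : 0 < d) (T T' : Finset (Fin d)) :
    inner ℝ (std T) (std T') = 1 - 2 * ((T ∆ T').card : ℝ) / (d : ℝ) := by
  have hd' : (0 : ℝ) < d := by exact_mod_cast hd
  have h1 : inner ℝ (std T) (std T') = ∑ i, (√(d : ℝ))⁻¹ * chi {i} T * ((√(d : ℝ))⁻¹ * chi {i} T') := by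
    rw [EuclideanSpace.inner_eq_star_dotProduct]
    simp [std, dotProduct, mul_comm]
  have h2 : ∑ i, chi {i} (T ∆ T') = (d : ℝ) - 2 * ((T ∆ T').card : ℝ) := by
    have h := chi_lin (E := ℝ) (fun _ : Fin d => (1 : ℝ)) (T ∆ T')
    simp only [smul_eq_mul, mul_one, sum_const, card_univ, Fintype.card_fin, nsmul_eq_mul] at h
    exact h
  have h3 : ∀ i, (√(d : ℝ))⁻¹ * chi {i} T * ((√(d : ℝ))⁻¹ * chi {i} T') = (d : ℝ)⁻¹ * chi {i} (T ∆ T') := by
    intro i
    rw [chi_mul]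
    have : (√(d : ℝ))⁻¹ * (√(d : ℝ))⁻¹ = (d : ℝ)⁻¹ := by rw [← mul_inv, Real.mul_self_sqrt hd'.le]
    rw [← this]
    ring
  rw [h1, sum_congr rfl fun i _ => h3 i, ← mul_sum, h2]
  field_simp

/-- the vectors of the gadget -/
theorem ex_cube {d : ℕ} (hd : 0 < d) {u v : E} (hu : ‖u‖ = 1) (hv : ‖v‖ = 1) {T0 : Finset (Fin d)}
    (huv : inner ℝ u v = 1 - 2 * (T0.card : ℝ) / (d : ℝ)) :
    ∃ f : Finset (Fin d) → WithLp 2 (E × EuclideanSpace ℝ (Fin d)), (∀ T T', inner ℝ (f T) (f T') = 1 - 2 * ((T ∆ T').card : ℝ) / (d : ℝ)) ∧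
      f ∅ = WithLp.toLp 2 (u, 0) ∧ f T0 = WithLp.toLp 2 (v, 0) := by
  have hn : ∀ T : Finset (Fin d), ‖std T‖ = 1 := by
    intro T
    have h2 : ‖std T‖ ^ 2 = 1 := by
      rw [← real_inner_self_eq_norm_sq, std_inner hd, symmDiff_self]
      simp
    exact (pow_eq_one_iff_of_nonneg (norm_nonneg _) two_ne_zero).1 h2
  obtain ⟨L, h1, h2, h3⟩ := ex_L (std ∅) (std T0) u v (hn _) (hn _) hu hv (by
    rw [std_inner hd, huv]
    have : (∅ : Finset (Fin d)) ∆ T0 = T0 := bot_symmDiff T0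
    rw [this])
  exact ⟨fun T => L (std T), fun T T' => by rw [h1, std_inner hd], h2, h3⟩

end

end Pool.Agent.Lib.MP_13b08e_lc.UV
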