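import Pool.Agent.Lib.MP_13b08e_lc.UV.Thr
import Pool.Agent.Lib.MP_13b08e_lc.UV.Bip

/-!
# UV / Final: the classification
-/

set_option autoImplicit false

namespace Pool.Agent.Lib.MP_13b08e_lc.UV

open Pool.Agent.Lib.PolyTime

theorem SdpEquivalent.mk' {α : Type} [Enc α] {L : α → Prop} (h : ∃ f : SDP → α, PT f ∧ ∀ S, S.Feasible ↔ L (f S))
    (h' : ∃ g : α → SDP, PT g ∧ ∀ a, L a ↔ (g a).Feasible) : SdpEquivalent L := by
  obtain ⟨f, hf, hf'⟩ := h
  obtain ⟨g, hg, hg'⟩ := h'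
  exact ⟨⟨f, hf.computable, hf'⟩, ⟨g, hg.computable, hg'⟩, ⟨InNP.of_reduction hg hg', InNP.of_reduction hf hf'⟩,
    ⟨InNP.of_reduction hg fun a => not_congr (hg' a), InNP.of_reduction hf fun S => not_congr (hf' S)⟩⟩

theorem InP.mk' {α : Type} [Enc α] {L : α → Prop} (h : ∃ R : α → Bool, PT R ∧ ∀ a, R a = true ↔ L a) : InP L := by
  obtain ⟨R, hR, h⟩ := h
  exact ⟨R, hR.computable, h⟩

theorem eqv_ell : SdpEquivalent Ell.Member :=
  SdpEquivalent.mk' ⟨_, pt_toEll, SDP.toEll_correct⟩ ⟨_, pt_toSDP, Ell.toSDP_correct⟩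

theorem eqv_const {c : ℚ} (h1 : -1 < c) (h2 : c < 0) : SdpEquivalent (fun I : Gph => InElliptope I.G fun _ => c) := by
  have hτ : 2 < 1 - 1 / c := by
    have h3 : 1 / c < -1 := by
      rw [div_lt_iff_of_neg h2]
      linarith
    linarith
  have hc : -1 / ((1 - 1 / c) - 1) = c := by
    have hc0 : c ≠ 0 := h2.ne
    field_simp
    ring
  obtain ⟨f, hf, hf'⟩ := hard4 hτ
  obtain ⟨g, hg, hg'⟩ := easy3 hτ
  rw [hc] at hf' hg'
  exact SdpEquivalent.mk' ⟨f, hf, fun S => (hf' S).1⟩ ⟨g, hg, fun I => (hg' I).1⟩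

theorem eqv_theta {τ : ℚ} (hτ : 2 < τ) : SdpEquivalent (fun I : Gph => theta I.Gᶜ ≤ τ) := by
  obtain ⟨f, hf, hf'⟩ := hard4 hτ
  obtain ⟨g, hg, hg'⟩ := easy3 hτ
  exact SdpEquivalent.mk' ⟨f, hf, fun S => (hf' S).2.1⟩ ⟨g, hg, fun I => (hg' I).2.1⟩

theorem eqv_strict {τ : ℚ} (hτ : 2 < τ) : SdpEquivalent (fun I : Gph => StrictVecCol τ I.G) := by
  obtain ⟨f, hf, hf'⟩ := hard4 hτ
  obtain ⟨g, hg, hg'⟩ := easy3 hτ
  exact SdpEquivalent.mk' ⟨f, hf, fun S => (hf' S).2.2.1⟩ ⟨g, hg, fun I => (hg' I).2.2⟩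

theorem eqv_vec {τ : ℚ} (hτ : 2 < τ) : SdpEquivalent (fun I : Gph => VecCol τ I.G) := by
  obtain ⟨f, hf, hf'⟩ := hard4 hτ
  obtain ⟨g, hg, hg'⟩ := easy1 τ
  exact SdpEquivalent.mk' ⟨f, hf, fun S => (hf' S).2.2.2⟩ ⟨g, hg, fun I => hg' I⟩

theorem inP_const {c : ℚ} (h : c ≤ -1 ∨ 0 ≤ c) : InP (fun I : Gph => InElliptope I.G fun _ => c) := by
  refine InP.mk' ?_
  rcases lt_trichotomy c (-1) with h1 | rfl | h1
  · obtain ⟨R, hR, h'⟩ := edgeless_pt
    exact ⟨R, hR, fun I => (h' I).trans (const_big I.G (by rw [abs_of_neg (by linarith)]; linarith)).symm⟩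
  · obtain ⟨R, hR, h'⟩ := colorable_two_pt
    exact ⟨R, hR, fun I => (h' I).trans (const_neg_one I.G).symm⟩
  · have h0 : 0 ≤ c := by
      rcases h with h | h
      · linarith
      · exact h
    rcases le_or_gt c 1 with h2 | h2
    · exact ⟨fun _ => true, PT.const true, fun I => ⟨fun _ => const_nonneg I.G h0 h2, fun _ => rfl⟩⟩
    · obtain ⟨R, hR, h'⟩ := edgeless_pt
      exact ⟨R, hR, fun I => (h' I).trans (const_big I.G (by rw [abs_of_nonneg h0]; exact h2)).symm⟩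

theorem theta_edgeless {V : Type} [Fintype V] (G : SimpleGraph V) {t : ℝ} (h1 : 1 < t) (h2 : t < 2) :
    theta Gᶜ ≤ t ↔ ∀ u v, ¬ G.Adj u v := by
  rw [theta_le_iff _ h1, compl_compl]
  have h3 : -1 / (t - 1) < -1 := by
    rw [div_lt_iff₀ (by linarith)]
    linarith
  constructor
  · rintro ⟨E, i1, i2, x, hx, he⟩ u v huv
    have h4 := (abs_le.1 (abs_real_inner_le_norm (x u) (x v))).1
    rw [he u v huv, hx, hx, one_mul] at h4
    linarith
  · intro h
    exact ⟨ℝ, inferInstance, inferInstance, fun _ => 1, fun _ => by simp, fun u v huv => absurd huv (h u v)⟩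

theorem theta_ge_one {V : Type} [Fintype V] [Nonempty V] (H : SimpleGraph V) : 1 ≤ theta H := by
  by_contra h
  push Not at h
  -- `theta H ≤ t` for `t` close to 1
  unfold theta at h
  have hne : {t : ℝ | ∃ (d : ℕ) (c : EuclideanSpace ℝ (Fin d)) (u : V → EuclideanSpace ℝ (Fin d)), ‖c‖ = 1 ∧ (∀ i, ‖u i‖ = 1) ∧
      (∀ i j, i ≠ j → ¬ H.Adj i j → inner ℝ (u i) (u j) = 0) ∧ ∀ i, 1 ≤ t * inner ℝ c (u i) ^ 2}.Nonempty := by
    obtain ⟨t, ht⟩ := exists_orth H
    exact ⟨t, orth_fin ht⟩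
  obtain ⟨t, ⟨d, c, u, ht⟩, ht1⟩ := exists_lt_of_csInf_lt hne h
  have := orth_ge_one (H := H) (t := t) ⟨_, inferInstance, inferInstance, c, u, ht⟩
  linarith

theorem theta_empty {V : Type} [Fintype V] [IsEmpty V] (H : SimpleGraph V) : theta H = 0 := by
  unfold theta
  have h2 : {t : ℝ | ∃ (d : ℕ) (c : EuclideanSpace ℝ (Fin d)) (u : V → EuclideanSpace ℝ (Fin d)), ‖c‖ = 1 ∧ (∀ i, ‖u i‖ = 1) ∧
      (∀ i j, i ≠ j → ¬ H.Adj i j → inner ℝ (u i) (u j) = 0) ∧ ∀ i, 1 ≤ t * inner ℝ c (u i) ^ 2} = Set.univ := by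
    ext s
    refine ⟨fun _ => trivial, fun _ => ?_⟩
    exact ⟨1, EuclideanSpace.single 0 1, fun i => (IsEmpty.false i).elim, by simp, fun i => (IsEmpty.false i).elim,
      fun i => (IsEmpty.false i).elim, fun i => (IsEmpty.false i).elim⟩
  rw [h2, Real.sInf_univ]

theorem theta_one {V : Type} [Fintype V] (G : SimpleGraph V) : theta Gᶜ ≤ 1 ↔ ∀ u v, ¬ G.Adj u v := by
  constructor
  · intro h
    exact (theta_edgeless G (t := 3 / 2) (by norm_num) (by norm_num)).1 (by linarith)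
  · intro h
    by_cases hV : Nonempty V
    · by_contra h1
      push Not at h1
      obtain ⟨t, ht1, ht2⟩ : ∃ t : ℝ, 1 < t ∧ t < min (theta Gᶜ) 2 := exists_between (lt_min h1 (by norm_num))
      have h2 := (theta_edgeless G ht1 (lt_of_lt_of_le ht2 (min_le_right _ _))).2 h
      have h3 := lt_of_lt_of_le ht2 (min_le_left _ _)
      linarith
    · rw [not_nonempty_iff] at hV
      rw [theta_empty]
      norm_num

/-- having no vertices is decidable in polynomial time -/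
theorem empty_pt : ∃ R : Gph → Bool, PT R ∧ ∀ I, R I = true ↔ I.n = 0 := by
  have ht : PT (fun I : Gph => I.table) := PT.of_enc_eq fun _ => rfl
  refine ⟨fun I => I.table.isEmpty, PT.isNil ht, fun I => ?_⟩
  have hlen : I.table.length = I.n := by simp [Gph.table]
  rw [List.isEmpty_iff, ← hlen, List.length_eq_zero_iff]

theorem inP_theta {τ : ℚ} (h : τ ≤ 2) : InP (fun I : Gph => theta I.Gᶜ ≤ τ) := by
  refine InP.mk' ?_
  rcases eq_or_lt_of_le h with rfl | h2
  · obtain ⟨R, hR, h'⟩ := colorable_two_pt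
    refine ⟨R, hR, fun I => (h' I).trans ?_⟩
    rw [← const_neg_one, inElliptope_const]
    have e : (((2 : ℚ)) : ℝ) = 2 := by norm_num
    rw [e, theta_le_iff _ (by norm_num), compl_compl]
    have e2 : (((-1 : ℚ)) : ℝ) = -1 / (2 - 1) := by push_cast; norm_num
    rw [e2]
  · have h2r : (τ : ℝ) < 2 := by exact_mod_cast h2
    rcases lt_trichotomy τ 1 with h1 | rfl | h1
    · have h1r : (τ : ℝ) < 1 := by exact_mod_cast h1
      rcases lt_or_ge τ 0 with h0 | h0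
      · refine ⟨fun _ => false, PT.const false, fun I => ⟨fun h => absurd h (by simp), fun h3 => ?_⟩⟩
        exfalso
        have h0r : (τ : ℝ) < 0 := by exact_mod_cast h0
        by_cases hV : Nonempty (Fin I.n)
        · have := theta_ge_one I.Gᶜ
          linarith
        · rw [not_nonempty_iff] at hV
          rw [theta_empty] at h3
          linarith
      · have h0r : (0 : ℝ) ≤ τ := by exact_mod_cast h0
        obtain ⟨R, hR, h'⟩ := empty_pt
        refine ⟨R, hR, fun I => (h' I).trans ⟨fun h3 => ?_, fun h3 => ?_⟩⟩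
        · haveI : IsEmpty (Fin I.n) := by rw [h3]; exact Fin.isEmpty'
          rw [theta_empty]
          exact h0r
        · by_contra h4
          haveI : Nonempty (Fin I.n) := ⟨⟨0, Nat.pos_of_ne_zero h4⟩⟩
          have := theta_ge_one I.Gᶜ
          linarith
    · obtain ⟨R, hR, h'⟩ := edgeless_pt
      refine ⟨R, hR, fun I => (h' I).trans ?_⟩
      have e : (((1 : ℚ)) : ℝ) = 1 := by norm_num
      rw [e]
      exact (theta_one I.G).symm
    · obtain ⟨R, hR, h'⟩ := edgeless_pt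
      refine ⟨R, hR, fun I => (h' I).trans (theta_edgeless I.G ?_ h2r).symm⟩
      exact_mod_cast h1

end Pool.Agent.Lib.MP_13b08e_lc.UV
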