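import Mathlib

/-!
# UV / Five: twenty unit vectors at 120 degrees that force right angles and 60 degrees

`R i j`, `i ≠ j` in `Fin 5`, with `⟨R i j, R j k⟩ = -1/2` for distinct `i, j, k`. Then `R i j = h i - h j` for a regular simplex `h`
with sides 1: `⟨R 0 1, R 2 3⟩ = 0`, `⟨R 0 1, R 0 2⟩ = 1/2`. The configuration is the root system `A_4`.
-/

set_option autoImplicit false

namespace Pool.Agent.Lib.MP_13b08e_lc.UV

variable {E : Type} [NormedAddCommGroup E] [InnerProductSpace ℝ E]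

/-- three unit vectors at 120 degrees add up to zero -/
theorem tri {a b c : E} (ha : ‖a‖ = 1) (hb : ‖b‖ = 1) (hc : ‖c‖ = 1) (hab : inner ℝ a b = -1 / 2) (hbc : inner ℝ b c = -1 / 2)
    (hca : inner ℝ c a = -1 / 2) : a + b + c = 0 := by
  have hba : inner ℝ b a = -1 / 2 := by rw [real_inner_comm]; exact hab
  have hcb : inner ℝ c b = -1 / 2 := by rw [real_inner_comm]; exact hbc
  have hac : inner ℝ a c = -1 / 2 := by rw [real_inner_comm]; exact hca
  have h : ‖a + b + c‖ ^ 2 = 0 := by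
    rw [← real_inner_self_eq_norm_sq]
    simp only [inner_add_left, inner_add_right, real_inner_self_eq_norm_sq, ha, hb, hc, hab, hbc, hca, hba, hcb, hac]
    norm_num
  have h2 : ‖a + b + c‖ = 0 := by
    rcases pow_eq_zero_iff (two_ne_zero) |>.1 h with h3
    exact h3
  exact norm_eq_zero.1 h2

/-- a unit vector at 120 degrees from two vectors at 120 degrees is minus their sum -/
theorem clone {a b w : E} (ha : ‖a‖ = 1) (hb : ‖b‖ = 1) (hw : ‖w‖ = 1) (hab : inner ℝ a b = -1 / 2) (hwa : inner ℝ w a = -1 / 2)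
    (hwb : inner ℝ w b = -1 / 2) : w = -(a + b) := by
  have h := tri ha hb hw hab (by rw [real_inner_comm]; exact hwb) hwa
  rw [eq_neg_iff_add_eq_zero, add_comm]
  exact h

/-- the twenty vectors -/
structure Cfg (R : Fin 5 → Fin 5 → E) : Prop where
  unit : ∀ i j, i ≠ j → ‖R i j‖ = 1
  adj : ∀ i j k, i ≠ j → j ≠ k → i ≠ k → inner ℝ (R i j) (R j k) = -1 / 2

theorem Cfg.sum {R : Fin 5 → Fin 5 → E} (hR : Cfg R) {i j k : Fin 5} (hij : i ≠ j) (hjk : j ≠ k) (hik : i ≠ k) :
    R i j + R j k + R k i = 0 :=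
  tri (hR.unit i j hij) (hR.unit j k hjk) (hR.unit k i hik.symm) (hR.adj i j k hij hjk hik) (hR.adj j k i hjk hik.symm hij.symm)
    (hR.adj k i j hik.symm hij hjk.symm)

theorem Cfg.sym4 {R : Fin 5 → Fin 5 → E} (hR : Cfg R) {i j k l : Fin 5} (hij : i ≠ j) (hik : i ≠ k) (hil : i ≠ l) (hjk : j ≠ k)
    (hjl : j ≠ l) (hkl : k ≠ l) : R i j + R j i = R k l + R l k := by
  have h1 := hR.sum hij hjk hik
  have h2 := hR.sum hij.symm hik hjk
  have h3 := hR.sum hij hjl hil
  have h4 := hR.sum hij.symm hil hjl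
  have h5 := hR.sum hkl hjl.symm hjk.symm
  have h6 := hR.sum hkl.symm hjk.symm hjl.symm
  have h7 := hR.sum hkl hil.symm hik.symm
  have h8 := hR.sum hkl.symm hik.symm hil.symm
  have e : (2 : ℝ) • (R i j + R j i - (R k l + R l k)) = 0 := by
    have : (2 : ℝ) • (R i j + R j i - (R k l + R l k)) = (R i j + R j k + R k i) + (R j i + R i k + R k j) +
        (R i j + R j l + R l i) + (R j i + R i l + R l j) - (R k l + R l j + R j k) - (R l k + R k j + R j l) -
        (R k l + R l i + R i k) - (R l k + R k i + R i l) := by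
      module
    rw [this, h1, h2, h3, h4, h5, h6, h7, h8]
    simp
  have h9 := (smul_eq_zero.1 e).resolve_left two_ne_zero
  exact sub_eq_zero.1 h9

theorem Cfg.neg {R : Fin 5 → Fin 5 → E} (hR : Cfg R) {i j k l m : Fin 5} (hij : i ≠ j) (hik : i ≠ k) (hil : i ≠ l) (him : i ≠ m)
    (hjk : j ≠ k) (hjl : j ≠ l) (hjm : j ≠ m) (hkl : k ≠ l) (hkm : k ≠ m) (hlm : l ≠ m) : R j i = -R i j := by
  -- s i j = s l m = s j k = s i k, sum zero
  have h1 := hR.sym4 hij hil him hjl hjm hlm
  have h2 := hR.sym4 hjk hjl hjm hkl hkm hlm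
  have h3 := hR.sym4 hik hil him hkl hkm hlm
  have h4 := hR.sum hij hjk hik
  have h5 := hR.sum hij.symm hik hjk
  have e : (3 : ℝ) • (R l m + R m l) = 0 := by
    have : (3 : ℝ) • (R l m + R m l) = (R l m + R m l) + (R l m + R m l) + (R l m + R m l) := by module
    rw [this]
    nth_rewrite 1 [← h1]
    nth_rewrite 1 [← h2]
    rw [← h3]
    have : R i j + R j i + (R j k + R k j) + (R i k + R k i) = (R i j + R j k + R k i) + (R j i + R i k + R k j) := by abel
    rw [this, h4, h5, add_zero]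
  have h9 := (smul_eq_zero.1 e).resolve_left three_ne_zero
  rw [h9] at h1
  rw [eq_neg_iff_add_eq_zero, add_comm]
  exact h1

/-- the inner products of the configuration -/
theorem Cfg.zero {R : Fin 5 → Fin 5 → E} (hR : Cfg R) : inner ℝ (R 0 1) (R 2 3) = 0 := by
  -- R 2 3 = R 2 0 + R 0 3, and R 2 3 = R 2 1 + R 1 3
  have h1 : R 2 3 = -R 3 0 - R 0 2 := by
    have := hR.sum (i := 2) (j := 3) (k := 0) (by decide) (by decide) (by decide)
    rw [← sub_eq_zero, ← this]; abel
  have h2 : R 2 3 = -R 3 1 - R 1 2 := by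
    have := hR.sum (i := 2) (j := 3) (k := 1) (by decide) (by decide) (by decide)
    rw [← sub_eq_zero, ← this]; abel
  have n1 : R 1 3 = -R 3 1 := hR.neg (i := 3) (j := 1) (k := 0) (l := 2) (m := 4) (by decide) (by decide) (by decide) (by decide)
    (by decide) (by decide) (by decide) (by decide) (by decide) (by decide)
  have n2 : R 2 0 = -R 0 2 := hR.neg (i := 0) (j := 2) (k := 1) (l := 3) (m := 4) (by decide) (by decide) (by decide) (by decide)
    (by decide) (by decide) (by decide) (by decide) (by decide) (by decide)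
  -- ⟨R 0 1, R 1 3⟩ = -1/2, ⟨R 0 1, R 1 2⟩ = -1/2: ⟨R 0 1, R 2 3⟩ = -1/2 + 1/2
  have a1 : inner ℝ (R 0 1) (R 1 3) = -1 / 2 := hR.adj 0 1 3 (by decide) (by decide) (by decide)
  have a2 : inner ℝ (R 0 1) (R 1 2) = -1 / 2 := hR.adj 0 1 2 (by decide) (by decide) (by decide)
  rw [h2, ← n1, inner_sub_right, a1, a2]
  norm_num

theorem Cfg.half {R : Fin 5 → Fin 5 → E} (hR : Cfg R) : inner ℝ (R 0 1) (R 0 2) = 1 / 2 := by
  have n2 : R 2 0 = -R 0 2 := hR.neg (i := 0) (j := 2) (k := 1) (l := 3) (m := 4) (by decide) (by decide) (by decide) (by decide)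
    (by decide) (by decide) (by decide) (by decide) (by decide) (by decide)
  have a1 : inner ℝ (R 2 0) (R 0 1) = -1 / 2 := hR.adj 2 0 1 (by decide) (by decide) (by decide)
  rw [n2, inner_neg_left, real_inner_comm] at a1
  linarith

/-- the configuration of the differences of a regular simplex -/
theorem Cfg.of_simplex (h : Fin 5 → E) (hh : ∀ i j, i ≠ j → ‖h i - h j‖ = 1) : Cfg (fun i j => h i - h j) := by
  refine ⟨hh, fun i j k hij hjk hik => ?_⟩
  have h1 := hh i j hij
  have h2 := hh j k hjk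
  have h3 := hh i k hik
  have h4 : ‖h i - h k‖ ^ 2 = ‖h i - h j‖ ^ 2 + 2 * inner ℝ (h i - h j) (h j - h k) + ‖h j - h k‖ ^ 2 := by
    rw [← norm_add_sq_real, sub_add_sub_cancel]
  rw [h1, h2, h3] at h4
  linarith

end Pool.Agent.Lib.MP_13b08e_lc.UV
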