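import Pool.Agent.Lib.MP_13b08e_lc.UV.Sdp3

/-!
# UV / Graph: the graph of an instance
-/

set_option autoImplicit false

open Finset

namespace Pool.Agent.Lib.MP_13b08e_lc.UV

/-- `a` (a symmetric function on the edges) belongs to the elliptope of the graph `G`: it has a positive semidefinite completion
with unit diagonal -/
def InEll {V : Type} (G : SimpleGraph V) (a : V → V → ℝ) : Prop :=
  ∃ X : Matrix V V ℝ, X.PosSemidef ∧ (∀ v, X v v = 1) ∧ ∀ u v, G.Adj u v → X u v = a u v

theorem inEll_iff {V : Type} [Fintype V] (r : V → V → Prop) (hr : ∀ v, ¬ r v v) :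
    InEll (SimpleGraph.fromRel r) (fun _ _ => -1 / 2) ↔ VC V r := by
  classical
  constructor
  · rintro ⟨X, hX, h1, h2⟩
    obtain ⟨x, hx⟩ := gram_of_psd X hX
    refine ⟨_, inferInstance, inferInstance, x, fun v => ?_, fun u v huv => ?_⟩
    · have h3 : ‖x v‖ ^ 2 = 1 := by rw [← real_inner_self_eq_norm_sq, hx, h1]
      exact (pow_eq_one_iff_of_nonneg (norm_nonneg _) two_ne_zero).1 h3
    · rw [hx]
      refine h2 u v ?_
      rw [SimpleGraph.fromRel_adj]
      refine ⟨?_, Or.inl huv⟩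
      rintro rfl
      exact hr _ huv
  · rintro ⟨E, i1, i2, x, hx, he⟩
    refine ⟨Matrix.of fun u v => inner ℝ (x u) (x v), psd_of_gram x _ fun i j => rfl, fun v => ?_, fun u v huv => ?_⟩
    · rw [Matrix.of_apply, real_inner_self_eq_norm_sq, hx, one_pow]
    · rw [Matrix.of_apply]
      rw [SimpleGraph.fromRel_adj] at huv
      rcases huv.2 with h | h
      · exact he u v h
      · rw [real_inner_comm]
        exact he v u h

variable {n m L : ℕ}

/-- the vertices of the net with the gadgets of the equations -/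
abbrev V1 (n m L k : ℕ) := BV (Ro n k) (Wi n m L k) ⊕ GG (Ro n k) (Wi n m L k) (De n m L) × Bool

/-- the vertices of the graph -/
abbrev V2 (n m L k : ℕ) := VB (V1 n m L k)

instance instF1 (k : ℕ) : Fintype (V1 n m L k) := by
  unfold V1 BV GG Ro Wi De
  infer_instance

instance instF2 (k : ℕ) : Fintype (V2 n m L k) := by
  unfold V2 VB
  infer_instance

/-- the adjacency relation (to be symmetrized) -/
def rel (k : ℕ) (x : Bt n m L → Bool) : V2 n m L k → V2 n m L k → Prop :=
  AdB (ngA (fun _ _ => False) (bb labS (slS x)) (sgg sgS)) (zeA zeB)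
    (haA (fun _ _ => False) (aa labS (slS x)) (bb labS (slS x)) (sgg sgS))

/-- the graph of an instance -/
def gr (k : ℕ) (x : Bt n m L → Bool) : SimpleGraph (V2 n m L k) := SimpleGraph.fromRel (rel k x)

theorem rel_irr (k : ℕ) (x : Bt n m L → Bool) (v : V2 n m L k) : ¬ rel k x v v := by
  rcases v with (v | ⟨γ, _ | _⟩) | ⟨u, v, t, i, j⟩
  · exact fun h => h
  · exact fun h => h
  · exact fun h => h
  · rintro ⟨_, _, _, h, h', _⟩
    exact h' h.symm

theorem ell_iff (k : ℕ) (x : Bt n m L → Bool) : InEll (gr k x) (fun _ _ => -1 / 2) ↔ Feas x k := by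
  unfold gr
  rw [inEll_iff _ (rel_irr k x)]
  unfold rel
  rw [stageB, stageA (orthA (slS_dist x)) (orthB (slS_dist x)) (orthAB (slS_dist x)), stage0, feas_iff]

/-- the bit on which an equation depends -/
def bitG {k : ℕ} : GG (Ro n k) (Wi n m L k) (De n m L) → Option (Bt n m L)
  | .inr (.inr (.inr (.inr (.inr (.inr (.inr (i, j, a))))))) => some ((dec a).1, min i j, max i j, (dec a).2.1, (dec a).2.2)
  | _ => none

theorem slS_congr {k : ℕ} {x x' : Bt n m L → Bool} (δ : De n m L)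
    (h : ∀ β, bitG (k := k) (.inr (.inr δ) : GG (Ro n k) (Wi n m L k) (De n m L)) = some β → x β = x' β) (r : Fin 4) :
    slS (k := k) x δ r = slS x' δ r := by
  rcases δ with _ | _ | _ | ⟨t, l⟩ | ⟨i, j⟩ | ⟨i, j, a⟩
  · rfl
  · rfl
  · rfl
  · rfl
  · rfl
  · have := h _ rfl
    simp only [slS, this]

theorem aa_congr {k : ℕ} {x x' : Bt n m L → Bool} (γ : GG (Ro n k) (Wi n m L k) (De n m L))
    (h : ∀ β, bitG γ = some β → x β = x' β) (r : Fin 4) : aa labS (slS x) γ r = aa labS (slS x') γ r := by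
  rcases γ with ⟨i, j, p, q⟩ | w | δ
  · rfl
  · rfl
  · show slA r (slS x δ r) = slA r (slS x' δ r)
    rw [slS_congr δ h r]

theorem bb_congr {k : ℕ} {x x' : Bt n m L → Bool} (γ : GG (Ro n k) (Wi n m L k) (De n m L))
    (h : ∀ β, bitG γ = some β → x β = x' β) (r : Fin 4) : bb labS (slS x) γ r = bb labS (slS x') γ r := by
  rcases γ with ⟨i, j, p, q⟩ | w | δ
  · rfl
  · rfl
  · show slB r (slS x δ r) = slB r (slS x' δ r)
    rw [slS_congr δ h r]

/-- the bit of a vertex -/
def bit1 {k : ℕ} : V1 n m L k → Option (Bt n m L)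
  | .inl _ => none
  | .inr (γ, _) => bitG γ

theorem ng_congr {k : ℕ} {x x' : Bt n m L → Bool} (u v : V1 n m L k) (h : ∀ β, bit1 v = some β → x β = x' β) :
    ngA (fun _ _ => False) (bb labS (slS x)) (sgg sgS) u v ↔ ngA (fun _ _ => False) (bb labS (slS x')) (sgg sgS) u v := by
  rcases u with u | ⟨γ, _ | _⟩ <;> rcases v with v | ⟨γ', _ | _⟩ <;> try exact Iff.rfl
  show (∃ i, bb labS (slS x) γ' i = u ∧ _) ↔ ∃ i, bb labS (slS x') γ' i = u ∧ _
  simp only [bb_congr γ' h]

theorem ha_congr {k : ℕ} {x x' : Bt n m L → Bool} (u v : V1 n m L k) (h : ∀ β, bit1 v = some β → x β = x' β) :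
    haA (fun _ _ => False) (aa labS (slS x)) (bb labS (slS x)) (sgg sgS) u v ↔
      haA (fun _ _ => False) (aa labS (slS x')) (bb labS (slS x')) (sgg sgS) u v := by
  rcases u with u | ⟨γ, _ | _⟩ <;> rcases v with v | ⟨γ', _ | _⟩ <;> try exact Iff.rfl
  · show (∃ i, aa labS (slS x) γ' i = u) ↔ ∃ i, aa labS (slS x') γ' i = u
    simp only [aa_congr γ' h]
  · show (∃ i, bb labS (slS x) γ' i = u ∧ _) ↔ ∃ i, bb labS (slS x') γ' i = u ∧ _
    simp only [bb_congr γ' h]

/-- the bit of a vertex -/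
def bit2 {k : ℕ} : V2 n m L k → Option (Bt n m L)
  | .inl v => bit1 v
  | .inr (_, v, _, _, _) => bit1 v

theorem rel_congr {k : ℕ} {x x' : Bt n m L → Bool} (u v : V2 n m L k) (h : ∀ β, bit2 v = some β → x β = x' β) :
    rel k x u v ↔ rel k x' u v := by
  rcases u with u | ⟨u, u', t, i, j⟩ <;> rcases v with v | ⟨v, v', t', i', j'⟩
  · exact ng_congr u v h
  · unfold rel AdB
    cases t'
    · exact Iff.rfl
    · simp only [if_true]
      rw [ha_congr v v' h]
  · exact Iff.rfl
  · exact Iff.rfl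

theorem rel_const {k : ℕ} (u v : V2 n m L k) :
    (∀ x x' : Bt n m L → Bool, rel k x u v ↔ rel k x' u v) ∨ ∀ x x' : Bt n m L → Bool, rel k x v u ↔ rel k x' v u := by
  rcases u with (u | ⟨γ, p⟩) | ⟨u, u', t, i, j⟩ <;> rcases v with (v | ⟨γ', p'⟩) | ⟨v, v', t', i', j'⟩
  · exact Or.inl fun _ _ => Iff.rfl
  · exact Or.inr fun _ _ => Iff.rfl
  · exact Or.inr fun _ _ => Iff.rfl
  · exact Or.inl fun _ _ => Iff.rfl
  · exact Or.inl fun _ _ => Iff.rfl
  · exact Or.inr fun _ _ => Iff.rfl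
  · exact Or.inl fun _ _ => Iff.rfl
  · exact Or.inl fun _ _ => Iff.rfl
  · exact Or.inl fun _ _ => Iff.rfl

/-- every adjacency is decided by at most one bit of the instance -/
theorem gr_local (k : ℕ) (u v : V2 n m L k) :
    (∀ x x' : Bt n m L → Bool, (gr k x).Adj u v ↔ (gr k x').Adj u v) ∨
      ∃ β, ∀ x x' : Bt n m L → Bool, x β = x' β → ((gr k x).Adj u v ↔ (gr k x').Adj u v) := by
  have key : ∀ (u v : V2 n m L k), (∀ x x' : Bt n m L → Bool, rel k x v u ↔ rel k x' v u) →
      (∀ x x' : Bt n m L → Bool, (rel k x u v ∨ rel k x v u) ↔ (rel k x' u v ∨ rel k x' v u)) ∨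
      ∃ β, ∀ x x' : Bt n m L → Bool, x β = x' β → ((rel k x u v ∨ rel k x v u) ↔ (rel k x' u v ∨ rel k x' v u)) := by
    intro u v h
    rcases hb : bit2 v with _ | β
    · refine Or.inl fun x x' => ?_
      rw [h x x', rel_congr (x := x) (x' := x') u v (fun β hβ => by rw [hb] at hβ; exact absurd hβ (by simp))]
    · refine Or.inr ⟨β, fun x x' hx => ?_⟩
      rw [h x x', rel_congr (x := x) (x' := x') u v (fun β' hβ => by rw [hb] at hβ; obtain rfl := Option.some.inj hβ; exact hx)]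
  unfold gr
  simp only [SimpleGraph.fromRel_adj]
  rcases rel_const u v with h | h
  · rcases key v u h with h1 | ⟨β, h1⟩
    · refine Or.inl fun x x' => ?_
      rw [or_comm (a := rel k x u v), or_comm (a := rel k x' u v), h1 x x']
    · refine Or.inr ⟨β, fun x x' hx => ?_⟩
      rw [or_comm (a := rel k x u v), or_comm (a := rel k x' u v), h1 x x' hx]
  · rcases key u v h with h1 | ⟨β, h1⟩
    · refine Or.inl fun x x' => ?_
      rw [h1 x x']
    · refine Or.inr ⟨β, fun x x' hx => ?_⟩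
      rw [h1 x x' hx]

end Pool.Agent.Lib.MP_13b08e_lc.UV
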