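import Pool.Agent.Lib.MP_13b08e_lc.UV.Cone

/-!
# UV / Kms: the reverse reductions
-/

set_option autoImplicit false

namespace Pool.Agent.Lib.MP_13b08e_lc.UV

open Pool.Agent.Lib.PolyTime

/-! ### constant partial matrices -/

/-- the constant vector on the edges -/
def toEllC (q : ℚ) (I : Gph) : Ell := ⟨I.n, I.G, fun _ => q⟩

theorem toEllC_table (q : ℚ) (I : Gph) : (toEllC q I).table = I.table.map fun r => r.map fun b => if b then some q else none := by
  classical
  unfold Ell.table Gph.table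
  rw [List.map_ofFn]
  show (List.ofFn fun i : Fin I.n => List.ofFn fun j : Fin I.n => (toEllC q I).entry i j) = _
  congr 1
  funext i
  simp only [Function.comp]
  rw [List.map_ofFn]
  congr 1
  funext j
  simp only [Function.comp]
  unfold Ell.entry
  by_cases h : I.G.Adj i j
  · rw [if_pos (decide_eq_true h)]
    exact dif_pos h
  · rw [if_neg (by simp [h])]
    exact dif_neg h

theorem pt_toEllC (q : ℚ) : PT (toEllC q) := by
  have ht : PT (fun I : Gph => I.table) := PT.of_enc_eq fun _ => rfl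
  refine PT.congr_enc (g := fun I : Gph => I.table.map fun r => r.map fun b => if b then some q else none) ?_ fun I => ?_
  · refine PT.map (g := fun _ r => r.map fun b => if b then some q else none) ht ?_
    refine PT.map (f := fun x : Gph × List Bool => x.2) (g := fun _ b => if b then some q else none) PT.snd ?_
    exact (PT.cond (c := fun x : (Gph × List Bool) × Bool => x.2) (f := fun _ => some q) (g := fun _ => none) PT.snd (PT.const _)
      (PT.const _)).congr fun x => by cases x.2 <;> rfl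
  · rw [← toEllC_table]
    rfl

/-! ### semidefinite programs given by a list of descriptors of the rows -/

section

variable {δ : Type}

/-- the instance with the rows and columns `D` -/
def sdpOf (D : List δ) (m : ℕ) (c0 : δ → δ → ℚ) (cS : δ → δ → ℕ → ℚ) (h0 : ∀ a b, c0 a b = c0 b a)
    (hS : ∀ a b k, cS a b k = cS b a k) : SDP where
  n := D.length
  m := m
  A := fun k => Matrix.of fun i j => Fin.cases (motive := fun _ => ℚ) (c0 D[i] D[j]) (fun k => cS D[i] D[j] k) k
  symm := by
    intro k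
    ext i j
    rw [Matrix.transpose_apply, Matrix.of_apply, Matrix.of_apply]
    refine Fin.cases ?_ (fun k => ?_) k
    · simp only [Fin.cases_zero]
      exact h0 _ _
    · simp only [Fin.cases_succ]
      exact hS _ _ _

theorem sdpOf_table (D : List δ) (m : ℕ) (c0 : δ → δ → ℚ) (cS : δ → δ → ℕ → ℚ) (h0 : ∀ a b, c0 a b = c0 b a)
    (hS : ∀ a b k, cS a b k = cS b a k) :
    (sdpOf D m c0 cS h0 hS).table = D.map fun d => D.map fun e => c0 d e :: (List.range m).map fun k => cS d e k := by
  unfold SDP.table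
  refine List.ext_getElem (by simp [sdpOf]) fun i h1 h2 => ?_
  rw [List.getElem_ofFn, List.getElem_map]
  refine List.ext_getElem (by simp [sdpOf]) fun j h3 h4 => ?_
  rw [List.getElem_ofFn, List.getElem_map]
  show (List.ofFn fun k : Fin (m + 1) => (sdpOf D m c0 cS h0 hS).A k ⟨i, _⟩ ⟨j, _⟩) = _
  rw [List.ofFn_succ]
  congr 1
  refine List.ext_getElem (by simp) fun k h5 h6 => ?_
  rw [List.getElem_ofFn, List.getElem_map, List.getElem_range]
  rfl

/-- the matrix at `y` -/
theorem sdpOf_feasible (D : List δ) (m : ℕ) (c0 : δ → δ → ℚ) (cS : δ → δ → ℕ → ℚ) (h0 : ∀ a b, c0 a b = c0 b a)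
    (hS : ∀ a b k, cS a b k = cS b a k) : (sdpOf D m c0 cS h0 hS).Feasible ↔ ∃ y : Fin m → ℝ,
      (Matrix.of fun i j : Fin D.length => (c0 D[i] D[j] : ℝ) + ∑ k, y k * (cS D[i] D[j] k : ℝ)).PosSemidef := by
  unfold SDP.Feasible
  show (∃ y : Fin m → ℝ, ((((sdpOf D m c0 cS h0 hS).A 0).map (Rat.cast : ℚ → ℝ) +
    ∑ k, y k • ((sdpOf D m c0 cS h0 hS).A k.succ).map (Rat.cast : ℚ → ℝ) : Matrix (Fin D.length) (Fin D.length) ℝ).PosSemidef)) ↔ _
  refine exists_congr fun y => ?_
  have e : (((sdpOf D m c0 cS h0 hS).A 0).map (Rat.cast : ℚ → ℝ) +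
    ∑ k, y k • ((sdpOf D m c0 cS h0 hS).A k.succ).map (Rat.cast : ℚ → ℝ) : Matrix (Fin D.length) (Fin D.length) ℝ) =
      (Matrix.of fun i j : Fin D.length => (c0 D[i] D[j] : ℝ) + ∑ k, y k * (cS D[i] D[j] k : ℝ)) := by
    ext i j
    have hS' : ∀ k : Fin m, (sdpOf D m c0 cS h0 hS).A k.succ i j = cS D[(i : ℕ)] D[(j : ℕ)] k := fun k => rfl
    have h0' : (sdpOf D m c0 cS h0 hS).A 0 i j = c0 D[(i : ℕ)] D[(j : ℕ)] := rfl
    rw [Matrix.add_apply, Matrix.map_apply, h0', Matrix.sum_apply]
    show _ = (c0 D[(i : ℕ)] D[(j : ℕ)] : ℝ) + ∑ k, y k * (cS D[(i : ℕ)] D[(j : ℕ)] k : ℝ)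
    congr 1
  rw [e]
  exact Iff.rfl

end

/-- the descriptors of the rows: vertices and pairs -/
abbrev Dc := ℕ ⊕ (ℕ × ℕ)

/-- the constant coefficients -/
def kc0 (q : ℚ) : Dc → Dc → ℚ
  | .inl i, .inl j => if i = j then 1 else 0
  | .inr e, .inr e' => if e = e' then q else 0
  | _, _ => 0

/-- the coefficients of the variables -/
def kcS (n : ℕ) : Dc → Dc → ℕ → ℚ
  | .inl i, .inl j, k => if i ≠ j ∧ k = key n i j then 1 else 0
  | .inr e, .inr e', k => if e = e' ∧ k = key n e.1 e.2 then -1 else 0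
  | _, _, _ => 0

theorem kc0_symm (q : ℚ) (a b : Dc) : kc0 q a b = kc0 q b a := by
  rcases a with a | a <;> rcases b with b | b <;> simp [kc0, eq_comm]

theorem kcS_symm (n : ℕ) (a b : Dc) (k : ℕ) : kcS n a b k = kcS n b a k := by
  rcases a with a | a <;> rcases b with b | b
  · simp only [kcS]
    by_cases h : a = b
    · subst h; rfl
    · rw [key_symm n h]
      simp [h, Ne.symm h]
  · rfl
  · rfl
  · simp only [kcS]
    by_cases h : a = b
    · subst h; rfl
    · simp [h, Ne.symm h]

/-- the descriptors -/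
def descr (T : List (List Bool)) : List Dc :=
  (List.range T.length).map .inl ++ T.zipIdx.flatMap fun row => row.1.zipIdx.flatMap fun e =>
    if e.1 then [.inr (row.2, e.2)] else []

theorem mem_descr_inl (T : List (List Bool)) (i : ℕ) : .inl i ∈ descr T ↔ i < T.length := by
  unfold descr
  rw [List.mem_append, List.mem_map]
  constructor
  · rintro (⟨j, hj, h⟩ | h)
    · obtain rfl : j = i := by simpa using h
      exact List.mem_range.1 hj
    · exfalso
      rw [List.mem_flatMap] at h
      obtain ⟨row, _, h⟩ := h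
      rw [List.mem_flatMap] at h
      obtain ⟨e, _, h⟩ := h
      split_ifs at h
      · simp at h
      · simp at h
  · intro h
    exact Or.inl ⟨i, List.mem_range.2 h, rfl⟩

theorem mem_descr_inr (T : List (List Bool)) (i j : ℕ) : (.inr (i, j) : Dc) ∈ descr T ↔ ∃ r, T[i]? = some r ∧ r[j]? = some true := by
  unfold descr
  rw [List.mem_append, List.mem_map]
  constructor
  · rintro (⟨k, _, h⟩ | h)
    · simp at h
    · rw [List.mem_flatMap] at h
      obtain ⟨⟨row, i'⟩, h1, h⟩ := h
      rw [List.mem_flatMap] at h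
      obtain ⟨⟨e, j'⟩, h2, h⟩ := h
      rw [List.mem_zipIdx_iff_getElem?] at h1 h2
      simp only at h h1 h2
      split_ifs at h with he
      · simp only [List.mem_singleton, Sum.inr.injEq, Prod.mk.injEq] at h
        obtain ⟨rfl, rfl⟩ := h
        exact ⟨row, h1, by rw [h2, he]⟩
      · simp at h
  · rintro ⟨r, h1, h2⟩
    right
    rw [List.mem_flatMap]
    refine ⟨(r, i), List.mem_zipIdx_iff_getElem?.2 h1, ?_⟩
    rw [List.mem_flatMap]
    refine ⟨(true, j), List.mem_zipIdx_iff_getElem?.2 h2, ?_⟩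
    simp

open Classical in
theorem mem_descr_gph (I : Gph) (i j : ℕ) : (.inr (i, j) : Dc) ∈ descr I.table ↔
    ∃ (hi : i < I.n) (hj : j < I.n), I.G.Adj ⟨i, hi⟩ ⟨j, hj⟩ := by
  rw [mem_descr_inr]
  unfold Gph.table
  constructor
  · rintro ⟨r, h1, h2⟩
    rw [List.getElem?_ofFn] at h1
    split_ifs at h1 with hi
    obtain rfl := Option.some.inj h1
    rw [List.getElem?_ofFn] at h2
    split_ifs at h2 with hj
    exact ⟨hi, hj, of_decide_eq_true (Option.some.inj h2)⟩
  · rintro ⟨hi, hj, h⟩
    refine ⟨_, by rw [List.getElem?_ofFn, dif_pos hi], ?_⟩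
    rw [List.getElem?_ofFn, dif_pos hj, decide_eq_true h]

/-- the semidefinite program of the inequalities -/
noncomputable def toSDPle (q : ℚ) (I : Gph) : SDP :=
  sdpOf (descr I.table) (I.n * I.n) (kc0 q) (kcS I.n) (kc0_symm q) (kcS_symm I.n)

/-- the entries of the matrix at `y` -/
noncomputable def ent' (q : ℚ) (n : ℕ) (y : ℕ → ℝ) : Dc → Dc → ℝ
  | .inl i, .inl j => if i = j then 1 else y (key n i j)
  | .inr e, .inr e' => if e = e' then (q : ℝ) - y (key n e.1 e.2) else 0
  | _, _ => 0

theorem entry_eq (q : ℚ) (n : ℕ) (y : Fin (n * n) → ℝ) (y' : ℕ → ℝ) (hy : ∀ k : Fin (n * n), y' k = y k) (a b : Dc)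
    (ha : ∀ i, a = .inl i → i < n) (hb : ∀ i, b = .inl i → i < n) (ha' : ∀ i j, a = .inr (i, j) → i < n ∧ j < n) :
    (kc0 q a b : ℝ) + ∑ k, y k * (kcS n a b k : ℝ) = ent' q n y' a b := by
  rcases a with i | ⟨i, j⟩ <;> rcases b with i' | ⟨i', j'⟩
  · have hi := ha i rfl
    have hi' := hb i' rfl
    simp only [kc0, kcS, ent']
    by_cases h : i = i'
    · simp [h]
    · rw [if_neg h, if_neg h, Finset.sum_eq_single ⟨key n i i', key_lt hi hi'⟩]
      · rw [if_pos ⟨h, rfl⟩, ← hy]
        push_cast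
        ring
      · intro k _ hk
        rw [if_neg]
        · simp
        · rintro ⟨_, hk'⟩
          exact hk (Fin.ext hk')
      · intro h'
        exact absurd (Finset.mem_univ _) h'
  · simp [kc0, kcS, ent']
  · simp [kc0, kcS, ent']
  · obtain ⟨hi, hj⟩ := ha' i j rfl
    simp only [kc0, kcS, ent']
    by_cases h : (i, j) = (i', j')
    · rw [if_pos h, if_pos h, Finset.sum_eq_single ⟨key n i j, key_lt hi hj⟩]
      · rw [if_pos ⟨h, rfl⟩, ← hy]
        push_cast
        ring
      · intro k _ hk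
        rw [if_neg]
        · simp
        · rintro ⟨_, hk'⟩
          exact hk (Fin.ext hk')
      · intro h'
        exact absurd (Finset.mem_univ _) h'
    · rw [if_neg h, if_neg h, Finset.sum_eq_zero]
      · simp
      · intro k _
        rw [if_neg]
        · simp
        · rintro ⟨h', _⟩
          exact h h'

theorem descr_lt (I : Gph) {d : Dc} (hd : d ∈ descr I.table) : (∀ i, d = .inl i → i < I.n) ∧
    ∀ i j, d = .inr (i, j) → i < I.n ∧ j < I.n := by
  have hlen : I.table.length = I.n := by simp [Gph.table]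
  constructor
  · rintro i rfl
    rw [mem_descr_inl, hlen] at hd
    exact hd
  · rintro i j rfl
    rw [mem_descr_gph] at hd
    obtain ⟨hi, hj, _⟩ := hd
    exact ⟨hi, hj⟩

theorem feas_entries (q : ℚ) (I : Gph) : (toSDPle q I).Feasible ↔ ∃ y : ℕ → ℝ,
    (Matrix.of fun i j : Fin (descr I.table).length => ent' q I.n y (descr I.table)[i] (descr I.table)[j]).PosSemidef := by
  unfold toSDPle
  rw [sdpOf_feasible]
  constructor
  · rintro ⟨y, hy⟩
    refine ⟨fun k => if h : k < I.n * I.n then y ⟨k, h⟩ else 0, ?_⟩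
    have e : (Matrix.of fun i j : Fin (descr I.table).length => ent' q I.n (fun k => if h : k < I.n * I.n then y ⟨k, h⟩ else 0)
        (descr I.table)[i] (descr I.table)[j]) = (Matrix.of fun i j : Fin (descr I.table).length =>
        (kc0 q (descr I.table)[i] (descr I.table)[j] : ℝ) + ∑ k, y k * (kcS I.n (descr I.table)[i] (descr I.table)[j] k : ℝ)) := by
      ext i j
      rw [Matrix.of_apply, Matrix.of_apply]
      refine (entry_eq q I.n y _ (fun k => ?_) _ _ (descr_lt I (List.getElem_mem _)).1 (descr_lt I (List.getElem_mem _)).1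
        (descr_lt I (List.getElem_mem _)).2).symm
      exact dif_pos k.2
    rw [e]
    exact hy
  · rintro ⟨y, hy⟩
    refine ⟨fun k => y k, ?_⟩
    have e : (Matrix.of fun i j : Fin (descr I.table).length => ent' q I.n y
        (descr I.table)[i] (descr I.table)[j]) = (Matrix.of fun i j : Fin (descr I.table).length =>
        (kc0 q (descr I.table)[i] (descr I.table)[j] : ℝ) + ∑ k : Fin (I.n * I.n), y k *
          (kcS I.n (descr I.table)[i] (descr I.table)[j] k : ℝ)) := by
      ext i j
      rw [Matrix.of_apply, Matrix.of_apply]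
      exact (entry_eq q I.n (fun k => y k) y (fun k => rfl) _ _ (descr_lt I (List.getElem_mem _)).1 (descr_lt I (List.getElem_mem _)).1
        (descr_lt I (List.getElem_mem _)).2).symm
    rw [← e]
    exact hy

theorem key_div {n i j : ℕ} (hi : i < n) (hj : j < n) : key n i j / n < n ∧ key n i j % n < n := by
  have hn : 0 < n := by omega
  refine ⟨?_, Nat.mod_lt _ hn⟩
  rw [Nat.div_lt_iff_lt_mul hn]
  exact key_lt hi hj

theorem toSDPle_iff (q : ℚ) (I : Gph) : Rep I.G (fun r => r ≤ (q : ℝ)) ↔ (toSDPle q I).Feasible := by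
  classical
  rw [feas_entries]
  constructor
  · rintro ⟨E, i1, i2, x, hx, he⟩
    let y : ℕ → ℝ := fun k => if h : k / I.n < I.n ∧ k % I.n < I.n then inner ℝ (x ⟨_, h.1⟩) (x ⟨_, h.2⟩) else 0
    have hyk : ∀ i j : Fin I.n, y (key I.n i j) = inner ℝ (x i) (x j) := by
      intro i j
      have hn : 0 < I.n := i.pos
      have hdiv : ∀ a b : Fin I.n, ((a : ℕ) * I.n + b) / I.n = a := by
        intro a b
        rw [Nat.mul_comm, Nat.mul_add_div hn, Nat.div_eq_of_lt b.2, Nat.add_zero]
      have hmod : ∀ a b : Fin I.n, ((a : ℕ) * I.n + b) % I.n = b := by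
        intro a b
        rw [Nat.mul_comm, Nat.mul_add_mod, Nat.mod_eq_of_lt b.2]
      show (if h : key I.n i j / I.n < I.n ∧ key I.n i j % I.n < I.n then inner ℝ (x ⟨_, h.1⟩) (x ⟨_, h.2⟩) else 0) = _
      unfold key
      by_cases hlt : (i : ℕ) < j
      · simp only [if_pos hlt, hdiv, hmod, i.2, j.2, and_self, dif_pos]
      · simp only [if_neg hlt, hdiv, hmod, i.2, j.2, and_self, dif_pos]
        exact real_inner_comm _ _
    refine ⟨y, ?_⟩
    -- vectors for the descriptors
    let s : ℕ × ℕ → ℝ := fun e => √((q : ℝ) - y (key I.n e.1 e.2))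
    let W : Dc → WithLp 2 (E × EuclideanSpace ℝ (Fin I.n × Fin I.n)) := fun d => match d with
      | .inl i => WithLp.toLp 2 (if h : i < I.n then x ⟨i, h⟩ else 0, 0)
      | .inr (i, j) => WithLp.toLp 2 (0, if h : i < I.n ∧ j < I.n then EuclideanSpace.single (⟨i, h.1⟩, ⟨j, h.2⟩) (s (i, j)) else 0)
    refine psd_of_gram (fun i : Fin (descr I.table).length => W (descr I.table)[i]) _ fun a b => ?_
    rw [Matrix.of_apply]
    have ha := List.getElem_mem (l := descr I.table) a.2
    have hb := List.getElem_mem (l := descr I.table) b.2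
    show ent' q I.n y (descr I.table)[(a : ℕ)] (descr I.table)[(b : ℕ)] = inner ℝ (W (descr I.table)[(a : ℕ)]) (W (descr I.table)[(b : ℕ)])
    generalize (descr I.table)[(a : ℕ)] = d at ha
    generalize (descr I.table)[(b : ℕ)] = d' at hb
    rcases d with i | ⟨i, j⟩ <;> rcases d' with i' | ⟨i', j'⟩
    · have hi := (descr_lt I ha).1 i rfl
      have hi' := (descr_lt I hb).1 i' rfl
      simp only [W, WithLp.prod_inner_apply, dif_pos hi, dif_pos hi', inner_zero_left, add_zero, ent']
      by_cases h : i = i'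
      · subst h
        rw [if_pos rfl, real_inner_self_eq_norm_sq, hx, one_pow]
      · rw [if_neg h]
        exact hyk ⟨i, hi⟩ ⟨i', hi'⟩
    · simp [W, WithLp.prod_inner_apply, ent']
    · simp [W, WithLp.prod_inner_apply, ent']
    · have hij := (descr_lt I ha).2 i j rfl
      have hij' := (descr_lt I hb).2 i' j' rfl
      rw [mem_descr_gph] at ha
      obtain ⟨hi, hj, hadj⟩ := ha
      have hs : s (i, j) * s (i, j) = (q : ℝ) - y (key I.n i j) := by
        refine Real.mul_self_sqrt ?_
        rw [hyk ⟨i, hi⟩ ⟨j, hj⟩, sub_nonneg]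
        exact he _ _ hadj
      simp only [W, WithLp.prod_inner_apply, dif_pos hij, dif_pos hij', inner_zero_left, zero_add, ent']
      by_cases h : (i, j) = (i', j')
      · obtain ⟨rfl, rfl⟩ := Prod.mk.inj h
        rw [if_pos rfl, ← hs]
        simp
        ring
      · rw [if_neg h]
        have h' : ((⟨i', hij'.1⟩, ⟨j', hij'.2⟩) : Fin I.n × Fin I.n) ≠ (⟨i, hij.1⟩, ⟨j, hij.2⟩) := by
          intro h'
          apply h
          simp only [Prod.mk.injEq, Fin.mk.injEq] at h'
          rw [h'.1, h'.2]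
        have h'' : ((⟨i, hij.1⟩, ⟨j, hij.2⟩) : Fin I.n × Fin I.n) ≠ (⟨i', hij'.1⟩, ⟨j', hij'.2⟩) := fun h => h' h.symm
        simp only [EuclideanSpace.inner_single_left, PiLp.single_apply, if_neg h'', mul_zero]
  · rintro ⟨y, hy⟩
    obtain ⟨w, hw⟩ := gram_of_psd _ hy
    have hidx : ∀ i : Fin I.n, ∃ a : Fin (descr I.table).length, (descr I.table)[a] = .inl (i : ℕ) := by
      intro i
      have hlen : I.table.length = I.n := by simp [Gph.table]
      have h1 : (.inl (i : ℕ) : Dc) ∈ descr I.table := by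
        rw [mem_descr_inl, hlen]
        exact i.2
      obtain ⟨k, hk, h2⟩ := List.getElem_of_mem h1
      exact ⟨⟨k, hk⟩, h2⟩
    choose a ha using hidx
    have hin : ∀ i j : Fin I.n, inner ℝ (w (a i)) (w (a j)) = if (i : ℕ) = j then 1 else y (key I.n i j) := by
      intro i j
      rw [hw, Matrix.of_apply, ha, ha]
      rfl
    refine ⟨_, inferInstance, inferInstance, fun i => w (a i), fun i => ?_, fun i j hij => ?_⟩
    · have h2 : ‖w (a i)‖ ^ 2 = 1 := by
        rw [← real_inner_self_eq_norm_sq, hin, if_pos rfl]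
      exact (pow_eq_one_iff_of_nonneg (norm_nonneg _) two_ne_zero).1 h2
    · rw [hin, if_neg (Fin.val_ne_of_ne hij.ne)]
      have h1 : (.inr ((i : ℕ), (j : ℕ)) : Dc) ∈ descr I.table := by
        rw [mem_descr_gph]
        exact ⟨i.2, j.2, hij⟩
      obtain ⟨k, hk, h2⟩ := List.getElem_of_mem h1
      have h3 := hw ⟨k, hk⟩ ⟨k, hk⟩
      rw [Matrix.of_apply] at h3
      have h4 : (descr I.table)[(⟨k, hk⟩ : Fin (descr I.table).length)] = .inr ((i : ℕ), (j : ℕ)) := h2
      rw [h4] at h3
      simp only [ent', if_true] at h3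
      have h5 : 0 ≤ inner ℝ (w ⟨k, hk⟩) (w ⟨k, hk⟩) := real_inner_self_nonneg
      rw [h3] at h5
      linarith

end Pool.Agent.Lib.MP_13b08e_lc.UV
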