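import Pool.Agent.Lib.MP_13b08e_lc.UV.Kms

/-!
# UV / KmsPT: the reverse reduction is computable in polynomial time
-/

set_option autoImplicit false

namespace Pool.Agent.Lib.MP_13b08e_lc.UV

open Pool.Agent.Lib.PolyTime

section

variable {α : Type} [Enc α]

theorem pt_kc0 (q : ℚ) {a b : α → Dc} (ha : PT a) (hb : PT b) : PT (fun x => kc0 q (a x) (b x)) := by
  have h1 : PT (fun x : α × ℕ => kc0 q (.inl x.2) (b x.1)) := by
    refine (PT.sumCases (f := fun x : α × ℕ => b x.1) (g := fun x j => if x.2 = j then (1 : ℚ) else 0) (h := fun _ _ => 0)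
      (hb.comp PT.fst) ?_ (PT.const _)).congr fun x => ?_
    · exact PT.ite (c := fun y : (α × ℕ) × ℕ => y.1.2 = y.2) (PT.eq PT.fst.snd' PT.snd) (PT.const _) (PT.const _)
    · rcases b x.1 with j | j <;> rfl
  have h2 : PT (fun x : α × (ℕ × ℕ) => kc0 q (.inr x.2) (b x.1)) := by
    refine (PT.sumCases (f := fun x : α × (ℕ × ℕ) => b x.1) (g := fun _ _ => (0 : ℚ)) (h := fun x e => if x.2 = e then q else 0)
      (hb.comp PT.fst) (PT.const _) ?_).congr fun x => ?_
    · exact PT.ite (c := fun y : (α × (ℕ × ℕ)) × (ℕ × ℕ) => y.1.2 = y.2) (PT.eq PT.fst.snd' PT.snd) (PT.const _) (PT.const _)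
    · rcases b x.1 with j | j <;> rfl
  refine (PT.sumCases (f := a) (g := fun x i => kc0 q (.inl i) (b x)) (h := fun x e => kc0 q (.inr e) (b x)) ha h1 h2).congr
    fun x => ?_
  rcases a x with j | j <;> rfl

theorem pt_kcS {n k : α → ℕ} {a b : α → Dc} (hn : PT n) (hk : PT k) (ha : PT a) (hb : PT b) :
    PT (fun x => kcS (n x) (a x) (b x) (k x)) := by
  have h1 : PT (fun x : α × ℕ => kcS (n x.1) (.inl x.2) (b x.1) (k x.1)) := by
    refine (PT.sumCases (f := fun x : α × ℕ => b x.1)
      (g := fun x j => if x.2 ≠ j ∧ k x.1 = key (n x.1) x.2 j then (1 : ℚ) else 0) (h := fun _ _ => 0)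
      (hb.comp PT.fst) ?_ (PT.const _)).congr fun x => ?_
    · refine PT.ite (c := fun y : (α × ℕ) × ℕ => y.1.2 ≠ y.2 ∧ k y.1.1 = key (n y.1.1) y.1.2 y.2) ?_ (PT.const _) (PT.const _)
      refine ((PT.eq PT.fst.snd' PT.snd).not.and (PT.eq (hk.comp PT.fst.fst') (pt_key (hn.comp PT.fst.fst') PT.fst.snd' PT.snd))).congr
        fun y => ?_
      simp
    · rcases b x.1 with j | j <;> rfl
  have h2 : PT (fun x : α × (ℕ × ℕ) => kcS (n x.1) (.inr x.2) (b x.1) (k x.1)) := by
    refine (PT.sumCases (f := fun x : α × (ℕ × ℕ) => b x.1) (g := fun _ _ => (0 : ℚ))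
      (h := fun x e => if x.2 = e ∧ k x.1 = key (n x.1) x.2.1 x.2.2 then (-1 : ℚ) else 0)
      (hb.comp PT.fst) (PT.const _) ?_).congr fun x => ?_
    · refine PT.ite (c := fun y : (α × (ℕ × ℕ)) × (ℕ × ℕ) => y.1.2 = y.2 ∧ k y.1.1 = key (n y.1.1) y.1.2.1 y.1.2.2) ?_ (PT.const _)
        (PT.const _)
      refine ((PT.eq PT.fst.snd' PT.snd).and (PT.eq (hk.comp PT.fst.fst') (pt_key (hn.comp PT.fst.fst') PT.fst.snd'.fst'
        PT.fst.snd'.snd'))).congr fun y => ?_
      simp
    · rcases b x.1 with j | j <;> rfl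
  refine (PT.sumCases (f := a) (g := fun x i => kcS (n x) (.inl i) (b x) (k x)) (h := fun x e => kcS (n x) (.inr e) (b x) (k x))
    ha h1 h2).congr fun x => ?_
  rcases a x with j | j <;> rfl

theorem pt_descr {T : α → List (List Bool)} (hT : PT T) : PT (fun a => descr (T a)) := by
  refine PT.append ?_ ?_
  · exact PT.map (f := fun a => List.range (T a).length) (g := fun _ i => (.inl i : Dc)) (PT.range hT.length) PT.snd.inl
  · refine PT.flatMap (f := fun a => (T a).zipIdx) (g := fun _ row => row.1.zipIdx.flatMap fun e =>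
      if e.1 then ([.inr (row.2, e.2)] : List Dc) else []) (PT.zipIdx hT) ?_
    refine PT.flatMap (f := fun x : α × (List Bool × ℕ) => x.2.1.zipIdx) (g := fun x e =>
      if e.1 then ([.inr (x.2.2, e.2)] : List Dc) else []) (PT.zipIdx PT.snd.fst') ?_
    refine (PT.cond (c := fun y : (α × (List Bool × ℕ)) × (Bool × ℕ) => y.2.1) (f := fun y => ([.inr (y.1.2.2, y.2.2)] : List Dc))
      (g := fun _ => []) PT.snd.fst' (PT.list1 (PT.fst.snd'.snd'.pair PT.snd.snd').inr) (PT.const _)).congr fun y => ?_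
    cases y.2.1 <;> rfl

end

/-- the reduction is computable in polynomial time -/
theorem pt_toSDPle (q : ℚ) : PT (toSDPle q) := by
  have ht : PT (fun I : Gph => I.table) := PT.of_enc_eq fun _ => rfl
  refine PT.congr_enc (g := fun I : Gph => (I.table.length * I.table.length,
    (descr I.table).map fun d => (descr I.table).map fun e => kc0 q d e :: (List.range (I.table.length * I.table.length)).map
      fun k => kcS I.table.length d e k)) ((ht.length.mul ht.length).pair ?_) fun I => ?_
  · refine PT.map (f := fun I : Gph => descr I.table) (g := fun I d => (descr I.table).map fun e => kc0 q d e ::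
      (List.range (I.table.length * I.table.length)).map fun k => kcS I.table.length d e k) (pt_descr ht) ?_
    refine PT.map (f := fun x : Gph × Dc => descr x.1.table) (g := fun x e => kc0 q x.2 e ::
      (List.range (x.1.table.length * x.1.table.length)).map fun k => kcS x.1.table.length x.2 e k)
      (pt_descr (ht.comp PT.fst)) ?_
    have hl : PT (fun y : (Gph × Dc) × Dc => y.1.1.table.length) := (ht.comp PT.fst.fst').length
    refine PT.cons (pt_kc0 q PT.fst.snd' PT.snd) ?_
    exact PT.map (f := fun y : (Gph × Dc) × Dc => List.range (y.1.1.table.length * y.1.1.table.length))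
      (g := fun y k => kcS y.1.1.table.length y.1.2 y.2 k) (PT.range (hl.mul hl))
      (pt_kcS (hl.comp PT.fst) PT.snd PT.fst.fst'.snd' PT.fst.snd')
  · have hlen : I.table.length = I.n := by simp [Gph.table]
    have h := sdpOf_table (descr I.table) (I.n * I.n) (kc0 q) (kcS I.n) (kc0_symm q) (kcS_symm I.n)
    have e : enc (toSDPle q I) = enc ((toSDPle q I).m, (toSDPle q I).table) := rfl
    rw [e, hlen]
    have e2 : (toSDPle q I).table = _ := h
    rw [e2]
    rfl

end Pool.Agent.Lib.MP_13b08e_lc.UV
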