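import Pool.Agent.Lib.MP_13b08e_lc.UV.Stage0b
import Pool.Agent.Lib.MP_13b08e_lc.UV.Gram

/-!
# UV / Sdp: semidefinite feasibility within a doubly exponential cube as a labelled Gram problem
-/

set_option autoImplicit false

open Finset

namespace Pool.Agent.Lib.MP_13b08e_lc.UV

/-- the bits of an instance: matrix, row, column, binary digit, positive or negative part -/
abbrev Bt (n m L : ℕ) := Fin (m + 1) × Fin n × Fin n × Fin L × Bool

variable {n m L : ℕ}

/-- the entries of the matrices of an instance -/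
def ent (x : Bt n m L → Bool) (t : Fin (m + 1)) (i j : Fin n) : ℤ :=
  ∑ l : Fin L, 2 ^ (l : ℕ) * ((if x (t, min i j, max i j, l, false) then 1 else 0) -
    (if x (t, min i j, max i j, l, true) then 1 else 0))

/-- the matrices of an instance -/
def mat (x : Bt n m L → Bool) (t : Fin (m + 1)) : Matrix (Fin n) (Fin n) ℝ := Matrix.of fun i j => (ent x t i j : ℝ)

/-- there is a solution `y` with `|y i| ≤ 2 ^ (2 ^ k)` -/
def Feas (x : Bt n m L → Bool) (k : ℕ) : Prop :=
  ∃ y : Fin m → ℝ, (∀ i, |y i| ≤ 2 ^ (2 ^ k)) ∧ (mat x 0 + ∑ i, y i • mat x i.succ).PosSemidef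

/-- the number of terms of an entry -/
abbrev NK (m L : ℕ) := (m + 1) * (L * 2)

/-- wires -/
abbrev Wi (n m L k : ℕ) := Unit ⊕ Fin (k + 1) ⊕ (Fin (m + 1) × Fin (L + m + 1 + 1)) ⊕ (Fin n × Fin n × Fin (NK m L + 1))

/-- rows -/
abbrev Ro (n k : ℕ) := Fin n ⊕ (Fin k × Bool)

/-- equations -/
abbrev De (n m L : ℕ) := Unit ⊕ Unit ⊕ Unit ⊕ (Fin (m + 1) × Fin (L + m + 1)) ⊕ (Fin n × Fin n) ⊕ (Fin n × Fin n × Fin (NK m L))

/-- wire of the constant one -/
abbrev wU {n m L k : ℕ} : Wi n m L k := .inl ()
/-- wires `(1/2)^(2^j)` -/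
abbrev wT {n m L k : ℕ} (j : Fin (k + 1)) : Wi n m L k := .inr (.inl j)
/-- wires of the multiples of the variables -/
abbrev wZ {n m L k : ℕ} (t : Fin (m + 1)) (l : Fin (L + m + 1 + 1)) : Wi n m L k := .inr (.inr (.inl (t, l)))
/-- wires of the partial sums of the entries -/
abbrev wS {n m L k : ℕ} (i j : Fin n) (a : Fin (NK m L + 1)) : Wi n m L k := .inr (.inr (.inr (i, j, a)))

/-- the enumeration of the terms -/
def dec {m L : ℕ} : Fin (NK m L) ≃ Fin (m + 1) × Fin L × Bool :=
  finProdFinEquiv.symm.trans (Equiv.prodCongr (Equiv.refl _) (finProdFinEquiv.symm.trans (Equiv.prodCongr (Equiv.refl _) finTwoEquiv)))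

/-- labels -/
def labS {n m L k : ℕ} : Ro n k → Ro n k → Option (Wi n m L k)
  | .inl i, .inl j => some (wS i j (Fin.last _))
  | .inl _, .inr _ => none
  | .inr _, .inl _ => none
  | .inr (c, false), .inr (c', false) => if c = c' then some wU else none
  | .inr (c, true), .inr (c', true) => if c = c' then some (wT c.succ) else none
  | .inr (c, false), .inr (c', true) => if c = c' then some (wT c.castSucc) else none
  | .inr (_, true), .inr (_, false) => none

/-- the terms of the equations -/
def slS {n m L k : ℕ} (x : Bt n m L → Bool) : De n m L → Fin 4 → Sl (Wi n m L k)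
  | .inl _, r => if r = 0 then .wire wU false else if r = 2 then .one else .nil
  | .inr (.inl _), r => if r = 0 then .wire (wT 0) false else if r = 1 then .wire (wT 0) true else if r = 2 then .one else .nil
  | .inr (.inr (.inl _)), r => if r = 0 then .wire (wZ 0 (Fin.last _)) false else if r = 2 then .wire (wT (Fin.last _)) false else .nil
  | .inr (.inr (.inr (.inl (t, l)))), r => if r = 0 then .wire (wZ t l.castSucc) false else
      if r = 1 then .wire (wZ t l.castSucc) true else if r = 2 then .wire (wZ t l.succ) false else .nil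
  | .inr (.inr (.inr (.inr (.inl (i, j))))), r => if r = 0 then .wire (wS i j 0) false else .nil
  | .inr (.inr (.inr (.inr (.inr (i, j, a))))), r => if r = 0 then .wire (wS i j a.castSucc) false else
      if r = 1 then (if x ((dec a).1, min i j, max i j, (dec a).2.1, (dec a).2.2) then
        .wire (wZ (dec a).1 ⟨(dec a).2.1, by have := (dec a).2.1.2; omega⟩) false else .nil) else
      if r = 2 then .wire (wS i j a.succ) false else .nil

/-- the signs of the equations -/
def sgS {n m L : ℕ} : De n m L → Fin 4 → Bool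
  | .inr (.inr (.inr (.inr (.inr (_, _, a))))), r => decide (r = 2) || decide (r = 3) || (decide (r = 1) && (dec a).2.2)
  | _, r => decide (r = 2) || decide (r = 3)

/-- the term `a` of the entry `(i, j)` -/
noncomputable def tm (x : Bt n m L → Bool) (z : Fin (m + 1) → ℕ → ℝ) (i j : Fin n) (a : Fin (NK m L)) : ℝ :=
  if x ((dec a).1, min i j, max i j, (dec a).2.1, (dec a).2.2) then sn (dec a).2.2 * z (dec a).1 (dec a).2.1 else 0

theorem tm_sum (x : Bt n m L → Bool) (z : Fin (m + 1) → ℝ) (i j : Fin n) :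
    ∑ a, tm x (fun t l => 2 ^ l * z t) i j a = ∑ t, (ent x t i j : ℝ) * z t := by
  have h1 : ∑ a, tm x (fun t l => 2 ^ l * z t) i j a = ∑ p : Fin (m + 1) × Fin L × Bool,
      (if x (p.1, min i j, max i j, p.2.1, p.2.2) then sn p.2.2 * (2 ^ (p.2.1 : ℕ) * z p.1) else 0) :=
    Fintype.sum_equiv dec _ _ fun a => rfl
  rw [h1, Fintype.sum_prod_type]
  refine sum_congr rfl fun t _ => ?_
  rw [Fintype.sum_prod_type]
  unfold ent
  push_cast
  rw [sum_mul]
  refine sum_congr rfl fun l _ => ?_
  rw [Fintype.sum_bool]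
  rcases Bool.eq_false_or_eq_true (x (t, min i j, max i j, l, false)) with h | h <;>
    rcases Bool.eq_false_or_eq_true (x (t, min i j, max i j, l, true)) with h' | h' <;> simp [sn, h, h']

theorem slS_dist {k : ℕ} (x : Bt n m L → Bool) (δ : De n m L) : Dist (slS (k := k) x δ) := by
  intro r r' hr w c h1 h2
  rcases δ with _ | _ | _ | ⟨t, l⟩ | ⟨i, j⟩ | ⟨i, j, a⟩
  all_goals
    simp only [slS] at h1 h2
    split_ifs at h1 h2
  all_goals first
    | exact Sl.noConfusion h1
    | exact Sl.noConfusion h2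
    | (exfalso; apply hr; simp_all; done)
    | (rw [← h1] at h2; simp [Fin.ext_iff] at h2; done)

end Pool.Agent.Lib.MP_13b08e_lc.UV
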