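import Pool.Agent.Lib.MP_13b08e_lc.UV.Sdp

/-!
# UV / Sdp2: the equivalence with the labelled Gram problem
-/

set_option autoImplicit false

open Finset

namespace Pool.Agent.Lib.MP_13b08e_lc.UV

variable {n m L k : ℕ}

/-- the equations in plain form -/
structure Eqs (x : Bt n m L → Bool) (s : Wi n m L k → ℝ) : Prop where
  one : s wU = 1
  half : s (wT 0) = 1 / 2
  top : s (wZ 0 (Fin.last _)) = s (wT (Fin.last _))
  dbl : ∀ t (l : Fin (L + m + 1)), s (wZ t l.succ) = 2 * s (wZ t l.castSucc)
  s0 : ∀ i j, s (wS i j 0) = 0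
  step : ∀ i j (a : Fin (NK m L)), s (wS i j a.succ) = s (wS i j a.castSucc) +
    tm x (fun t l => if h : l < L + m + 1 + 1 then s (wZ t ⟨l, h⟩) else 0) i j a

theorem eqs_iff (x : Bt n m L → Bool) (s : Wi n m L k → ℝ) :
    (∀ δ : De n m L, ∑ r, sn (sgS δ r) * (slS (k := k) x δ r).val s = 0) ↔ Eqs x s := by
  constructor
  · intro h
    refine ⟨?_, ?_, ?_, ?_, ?_, ?_⟩
    · have := h (.inl ())
      rw [Fin.sum_univ_four] at this
      simp [slS, sgS, sn, Sl.val] at this
      linarith
    · have := h (.inr (.inl ()))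
      rw [Fin.sum_univ_four] at this
      simp [slS, sgS, sn, Sl.val] at this
      linarith
    · have := h (.inr (.inr (.inl ())))
      rw [Fin.sum_univ_four] at this
      simp [slS, sgS, sn, Sl.val] at this
      linarith
    · intro t l
      have := h (.inr (.inr (.inr (.inl (t, l)))))
      rw [Fin.sum_univ_four] at this
      simp [slS, sgS, sn, Sl.val] at this
      linarith
    · intro i j
      have := h (.inr (.inr (.inr (.inr (.inl (i, j))))))
      rw [Fin.sum_univ_four] at this
      simp [slS, sgS, sn, Sl.val] at this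
      linarith
    · intro i j a
      have := h (.inr (.inr (.inr (.inr (.inr (i, j, a))))))
      have hl : ((dec a).2.1 : ℕ) < L + m + 1 + 1 := by have := (dec a).2.1.2; omega
      rw [Fin.sum_univ_four] at this
      unfold tm
      rcases Bool.eq_false_or_eq_true (x ((dec a).1, min i j, max i j, (dec a).2.1, (dec a).2.2)) with h1 | h1 <;>
        rcases Bool.eq_false_or_eq_true (dec a).2.2 with h2 | h2 <;>
        simp [slS, sgS, sn, Sl.val, h1, h2, hl] at this ⊢ <;> first | linarith | skip
      all_goals
        rw [h2] at h1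
        simp [h1] at this ⊢
        linarith
  · intro h δ
    rcases δ with _ | _ | _ | ⟨t, l⟩ | ⟨i, j⟩ | ⟨i, j, a⟩ <;> rw [Fin.sum_univ_four]
    · simp [slS, sgS, sn, Sl.val]
      linarith [h.one]
    · simp [slS, sgS, sn, Sl.val]
      linarith [h.half]
    · simp [slS, sgS, sn, Sl.val]
      linarith [h.top]
    · simp [slS, sgS, sn, Sl.val]
      linarith [h.dbl t l]
    · simp [slS, sgS, sn, Sl.val]
      linarith [h.s0 i j]
    · have := h.step i j a
      have hl : ((dec a).2.1 : ℕ) < L + m + 1 + 1 := by have := (dec a).2.1.2; omega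
      unfold tm at this
      rcases Bool.eq_false_or_eq_true (x ((dec a).1, min i j, max i j, (dec a).2.1, (dec a).2.2)) with h1 | h1 <;>
        rcases Bool.eq_false_or_eq_true (dec a).2.2 with h2 | h2 <;>
        simp [slS, sgS, sn, Sl.val, h1, h2, hl] at this ⊢ <;> first | linarith | skip
      all_goals
        rw [h2] at h1
        simp [h1] at this ⊢
        linarith

end Pool.Agent.Lib.MP_13b08e_lc.UV
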