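import Pool.Agent.Lib.MP_13b08e_lc.UV.Sdp2

/-!
# UV / Sdp3: the equivalence with the labelled Gram problem, both directions
-/

set_option autoImplicit false

open Finset

namespace Pool.Agent.Lib.MP_13b08e_lc.UV

variable {n m L k : ℕ}

theorem Eqs.zl {x : Bt n m L → Bool} {s : Wi n m L k → ℝ} (h : Eqs x s) (t : Fin (m + 1)) : ∀ (l : ℕ) (hl : l < L + m + 1 + 1),
    s (wZ t ⟨l, hl⟩) = 2 ^ l * s (wZ t 0) := by
  intro l
  induction l with
  | zero => intro hl; simp
  | succ l ih =>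
    intro hl
    have h1 := h.dbl t ⟨l, by omega⟩
    have h2 := ih (by omega)
    have e1 : (Fin.succ ⟨l, by omega⟩ : Fin (L + m + 1 + 1)) = ⟨l + 1, hl⟩ := rfl
    have e2 : (Fin.castSucc ⟨l, by omega⟩ : Fin (L + m + 1 + 1)) = ⟨l, by omega⟩ := rfl
    rw [e1, e2, h2] at h1
    rw [h1, pow_succ]
    ring

theorem Eqs.ss {x : Bt n m L → Bool} {s : Wi n m L k → ℝ} (h : Eqs x s) (i j : Fin n) : ∀ (a : ℕ) (ha : a < NK m L + 1),
    s (wS i j ⟨a, ha⟩) = ∑ b ∈ range a, if hb : b < NK m L then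
      tm x (fun t l => if h : l < L + m + 1 + 1 then s (wZ t ⟨l, h⟩) else 0) i j ⟨b, hb⟩ else 0 := by
  intro a
  induction a with
  | zero =>
    intro ha
    rw [sum_range_zero]
    exact h.s0 i j
  | succ a ih =>
    intro ha
    have h1 := h.step i j ⟨a, by omega⟩
    have e1 : (Fin.succ ⟨a, by omega⟩ : Fin (NK m L + 1)) = ⟨a + 1, ha⟩ := rfl
    have e2 : (Fin.castSucc ⟨a, by omega⟩ : Fin (NK m L + 1)) = ⟨a, by omega⟩ := rfl
    rw [e1, e2, ih (by omega)] at h1
    rw [h1, sum_range_succ, dif_pos (show a < NK m L by omega)]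

theorem Eqs.tot {x : Bt n m L → Bool} {s : Wi n m L k → ℝ} (h : Eqs x s) (i j : Fin n) :
    s (wS i j (Fin.last _)) = ∑ t, (ent x t i j : ℝ) * s (wZ t 0) := by
  have h1 := h.ss i j (NK m L) (by omega)
  have e1 : (Fin.last (NK m L)) = ⟨NK m L, by omega⟩ := rfl
  rw [e1, h1, sum_range, ← tm_sum]
  refine sum_congr rfl fun a _ => ?_
  rw [dif_pos a.2]
  unfold tm
  have hl : ((dec a).2.1 : ℕ) < L + m + 1 + 1 := by have := (dec a).2.1.2; omega
  simp only [Fin.eta]
  rw [dif_pos hl, h.zl]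

theorem feas_of_LP {x : Bt n m L → Bool} (h : LPSat (Ro n k) (Wi n m L k) (De n m L) labS (slS x) sgS) : Feas x k := by
  obtain ⟨E, i1, i2, v, s, hv, hs, hvv, hl⟩ := h
  have he := (eqs_iff x s).1 hl
  -- the chain
  have hT : ∀ (j : ℕ) (hj : j < k + 1), (1 / 2 : ℝ) ^ (2 ^ j) ≤ s (wT ⟨j, hj⟩) := by
    intro j
    induction j with
    | zero =>
      intro hj
      have : s (wT ⟨0, hj⟩) = 1 / 2 := he.half
      rw [this]
      norm_num
    | succ j ih =>
      intro hj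
      have h1 := hvv (.inr (⟨j, by omega⟩, false)) (.inr (⟨j, by omega⟩, false)) wU (by simp [labS])
      have h2 := hvv (.inr (⟨j, by omega⟩, true)) (.inr (⟨j, by omega⟩, true)) (wT (Fin.succ ⟨j, by omega⟩)) (by simp [labS])
      have h3 := hvv (.inr (⟨j, by omega⟩, false)) (.inr (⟨j, by omega⟩, true)) (wT (Fin.castSucc ⟨j, by omega⟩)) (by simp [labS])
      have h4 := real_inner_mul_inner_self_le (v (.inr (⟨j, by omega⟩, false))) (v (.inr (⟨j, by omega⟩, true)))
      rw [h1, h2, h3, he.one, one_mul] at h4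
      have h5 := ih (by omega)
      have e1 : (Fin.succ ⟨j, by omega⟩ : Fin (k + 1)) = ⟨j + 1, hj⟩ := rfl
      have e2 : (Fin.castSucc ⟨j, by omega⟩ : Fin (k + 1)) = ⟨j, by omega⟩ := rfl
      rw [e1, e2] at h4
      have h6 : (0 : ℝ) ≤ (1 / 2 : ℝ) ^ (2 ^ j) := by positivity
      have h7 : (1 / 2 : ℝ) ^ (2 ^ (j + 1)) = (1 / 2 : ℝ) ^ (2 ^ j) * (1 / 2 : ℝ) ^ (2 ^ j) := by
        rw [← pow_add]
        congr 1
        ring
      rw [h7]
      exact (mul_le_mul h5 h5 h6 (h6.trans h5)).trans h4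
  have hTk := hT k (by omega)
  have e3 : (⟨k, by omega⟩ : Fin (k + 1)) = Fin.last k := rfl
  rw [e3] at hTk
  have hZl : ∀ t, s (wZ t (Fin.last _)) = 2 ^ (L + m + 1) * s (wZ t 0) := fun t => he.zl t (L + m + 1) (by omega)
  have hpos : 0 < s (wZ 0 (Fin.last _)) := by
    rw [he.top]
    exact lt_of_lt_of_le (by positivity) hTk
  have hpos0 : 0 < s (wZ 0 0) := by
    have := hZl 0
    rw [this] at hpos
    exact (mul_pos_iff_of_pos_left (by positivity)).1 hpos
  refine ⟨fun i => s (wZ i.succ 0) / s (wZ 0 0), fun i => ?_, ?_⟩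
  · have h1 : s (wZ i.succ 0) / s (wZ 0 0) = s (wZ i.succ (Fin.last _)) / s (wZ 0 (Fin.last _)) := by
      rw [hZl, hZl]
      rw [mul_div_mul_left _ _ (by positivity)]
    show |s (wZ i.succ 0) / s (wZ 0 0)| ≤ _
    rw [h1, abs_div, abs_of_pos hpos, div_le_iff₀ hpos]
    have h2 := hs (wZ i.succ (Fin.last _))
    have h3 : (1 : ℝ) = 2 ^ (2 ^ k) * (1 / 2 : ℝ) ^ (2 ^ k) := by
      rw [← mul_pow]
      norm_num
    rw [he.top]
    refine h2.trans ?_
    rw [h3]
    exact mul_le_mul_of_nonneg_left hTk (by positivity)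
  · refine psd_of_gram (fun i : Fin n => (√(s (wZ 0 0)))⁻¹ • v (.inl i)) _ fun i j => ?_
    have h1 := hvv (.inl i) (.inl j) (wS i j (Fin.last _)) rfl
    rw [real_inner_smul_left, real_inner_smul_right, h1, he.tot, ← mul_assoc, ← mul_inv, Real.mul_self_sqrt hpos0.le]
    rw [Matrix.add_apply, Matrix.sum_apply, Fin.sum_univ_succ]
    simp only [Matrix.smul_apply, mat, Matrix.of_apply, smul_eq_mul]
    rw [mul_add, mul_sum]
    congr 1
    · field_simp
    · refine sum_congr rfl fun t _ => ?_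
      field_simp

theorem sum_bound (L m : ℕ) : ∑ _p : Fin (m + 1) × Fin L × Bool, (2 : ℝ) ^ (_p.2.1 : ℕ) ≤ 2 ^ (L + m + 1) := by
  rw [Fintype.sum_prod_type]
  have h1 : ∀ t : Fin (m + 1), ∑ p : Fin L × Bool, (2 : ℝ) ^ (p.1 : ℕ) = 2 * (2 ^ L - 1) := by
    intro t
    rw [Fintype.sum_prod_type]
    simp only [Fintype.sum_bool]
    have h2 : ∑ l : Fin L, (2 : ℝ) ^ (l : ℕ) = 2 ^ L - 1 := by
      rw [← sum_range (fun l => (2 : ℝ) ^ l), geom_sum_eq (by norm_num)]
      norm_num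
    rw [sum_add_distrib, h2]
    ring
  rw [sum_congr rfl fun t _ => h1 t]
  simp only [sum_const, card_univ, Fintype.card_fin, nsmul_eq_mul]
  have h3 : (m : ℝ) + 1 ≤ 2 ^ m := by
    have := Nat.lt_two_pow_self (n := m)
    exact_mod_cast this
  have h4 : (1 : ℝ) ≤ 2 ^ L := one_le_pow₀ (by norm_num)
  have h5 : (2 : ℝ) ^ (L + m + 1) = 2 ^ m * (2 * 2 ^ L) := by
    rw [pow_succ, pow_add]
    ring
  rw [h5]
  push_cast
  have h6 : (0 : ℝ) ≤ (m : ℝ) + 1 := by positivity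
  calc ((m : ℝ) + 1) * (2 * (2 ^ L - 1)) ≤ ((m : ℝ) + 1) * (2 * 2 ^ L) := by
        apply mul_le_mul_of_nonneg_left _ h6
        linarith
    _ ≤ 2 ^ m * (2 * 2 ^ L) := mul_le_mul_of_nonneg_right h3 (by positivity)

theorem LP_of_feas {x : Bt n m L → Bool} (h : Feas x k) : LPSat (Ro n k) (Wi n m L k) (De n m L) labS (slS x) sgS := by
  obtain ⟨y, hy, hp⟩ := h
  set R : ℝ := 2 ^ (2 ^ k) with hR
  have hR0 : 0 < R := by positivity
  set H : ℝ := 2 ^ (L + m + 1) with hH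
  have hH0 : 0 < H := by positivity
  -- the scaled variables
  set ζ : Fin (m + 1) → ℝ := Fin.cons (1 / (R * H)) (fun i => y i / (R * H)) with hζ
  have hζ0 : ζ 0 = 1 / (R * H) := rfl
  have hζs : ∀ i : Fin m, ζ i.succ = y i / (R * H) := fun i => rfl
  have hR1 : 1 ≤ R := one_le_pow₀ (by norm_num)
  have hζb : ∀ t, |ζ t| * H ≤ 1 := by
    intro t
    refine Fin.cases ?_ (fun i => ?_) t
    · rw [hζ0, abs_of_pos (by positivity)]
      rw [div_mul_eq_mul_div, div_le_one (by positivity), one_mul]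
      nlinarith
    · rw [hζs, abs_div, abs_of_pos (show 0 < R * H by positivity), div_mul_eq_mul_div, div_le_one (by positivity)]
      exact mul_le_mul_of_nonneg_right (hy i) hH0.le
  let F : Fin n → Fin n → ℕ → ℝ := fun i j b => if hb : b < NK m L then tm x (fun t l => 2 ^ l * ζ t) i j ⟨b, hb⟩ else 0
  let s : Wi n m L k → ℝ := fun w => match w with
    | .inl _ => 1
    | .inr (.inl j) => (1 / 2) ^ (2 ^ (j : ℕ))
    | .inr (.inr (.inl (t, l))) => 2 ^ (l : ℕ) * ζ t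
    | .inr (.inr (.inr (i, j, a))) => ∑ b ∈ range a, F i j b
  have hF : ∀ i j, ∑ b ∈ range (NK m L), |F i j b| ≤ 1 := by
    intro i j
    rw [sum_range]
    have h1 : ∀ a : Fin (NK m L), |F i j a| ≤ 2 ^ ((dec a).2.1 : ℕ) / H := by
      intro a
      have e : F i j a = tm x (fun t l => 2 ^ l * ζ t) i j a := dif_pos a.2
      rw [e]
      unfold tm
      split_ifs
      · rw [abs_mul, abs_mul, abs_of_pos (show (0 : ℝ) < 2 ^ ((dec a).2.1 : ℕ) by positivity), le_div_iff₀ hH0]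
        have h2 : |sn (dec a).2.2| = 1 := by
          cases (dec a).2.2 <;> simp [sn]
        rw [h2, one_mul, mul_assoc]
        have := hζb (dec a).1
        have h3 : (0 : ℝ) < 2 ^ ((dec a).2.1 : ℕ) := by positivity
        nlinarith
      · rw [abs_zero]
        positivity
    refine (sum_le_sum fun a _ => h1 a).trans ?_
    rw [← sum_div, div_le_one hH0]
    have h2 : ∑ a : Fin (NK m L), (2 : ℝ) ^ ((dec a).2.1 : ℕ) = ∑ p : Fin (m + 1) × Fin L × Bool, (2 : ℝ) ^ (p.2.1 : ℕ) :=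
      Fintype.sum_equiv dec _ _ fun a => rfl
    rw [h2]
    exact sum_bound L m
  have hE : Eqs x s := by
    refine ⟨rfl, ?_, ?_, ?_, ?_, ?_⟩
    · show (1 / 2 : ℝ) ^ (2 ^ ((0 : Fin (k + 1)) : ℕ)) = 1 / 2
      simp
    · show (2 : ℝ) ^ ((Fin.last (L + m + 1) : Fin (L + m + 1 + 1)) : ℕ) * ζ 0 = (1 / 2) ^ (2 ^ ((Fin.last k : Fin (k + 1)) : ℕ))
      rw [hζ0, Fin.val_last, Fin.val_last, ← hH, one_div_pow, ← hR]
      field_simp
    · intro t l
      show (2 : ℝ) ^ (l.succ : ℕ) * ζ t = 2 * ((2 : ℝ) ^ (l.castSucc : ℕ) * ζ t)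
      rw [Fin.val_succ, Fin.val_castSucc, pow_succ]
      ring
    · intro i j
      show ∑ b ∈ range ((0 : Fin (NK m L + 1)) : ℕ), F i j b = 0
      simp
    · intro i j a
      show ∑ b ∈ range (a.succ : ℕ), F i j b = ∑ b ∈ range (a.castSucc : ℕ), F i j b + _
      rw [Fin.val_succ, Fin.val_castSucc, sum_range_succ]
      congr 1
      have e : F i j a = tm x (fun t l => 2 ^ l * ζ t) i j a := dif_pos a.2
      rw [e]
      unfold tm
      have hl : ((dec a).2.1 : ℕ) < L + m + 1 + 1 := by have := (dec a).2.1.2; omega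
      simp only [dif_pos hl]
      rfl
  have hsb : ∀ w, |s w| ≤ 1 := by
    rintro (_ | j | ⟨t, l⟩ | ⟨i, j, a⟩)
    · show |(1 : ℝ)| ≤ 1
      simp
    · show |(1 / 2 : ℝ) ^ (2 ^ (j : ℕ))| ≤ 1
      rw [abs_of_pos (by positivity)]
      exact pow_le_one₀ (by norm_num) (by norm_num)
    · show |(2 : ℝ) ^ (l : ℕ) * ζ t| ≤ 1
      rw [abs_mul, abs_of_pos (show (0 : ℝ) < 2 ^ (l : ℕ) by positivity)]
      have h1 : (2 : ℝ) ^ (l : ℕ) ≤ H := pow_le_pow_right₀ (by norm_num) (by have := l.2; omega)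
      have h2 := hζb t
      have h3 := mul_le_mul_of_nonneg_right h1 (abs_nonneg (ζ t))
      linarith
    · show |∑ b ∈ range (a : ℕ), F i j b| ≤ 1
      refine (abs_sum_le_sum_abs _ _).trans ((sum_le_sum_of_subset_of_nonneg ?_ fun _ _ _ => abs_nonneg _).trans (hF i j))
      intro b hb
      rw [mem_range] at hb ⊢
      have := a.2
      omega
  -- the vectors
  have hM : (Matrix.of fun i j : Fin n => s (wS i j (Fin.last _))).PosSemidef := by
    have e : (Matrix.of fun i j : Fin n => s (wS i j (Fin.last _))) =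
        (1 / (R * H)) • (mat x 0 + ∑ i, y i • mat x i.succ) := by
      ext i j
      rw [Matrix.of_apply, hE.tot, Matrix.smul_apply, Matrix.add_apply, Matrix.sum_apply, Fin.sum_univ_succ]
      simp only [Matrix.smul_apply, mat, Matrix.of_apply, smul_eq_mul]
      have e0 : ∀ t, s (wZ t 0) = ζ t := fun t => by
        show (2 : ℝ) ^ ((0 : Fin (L + m + 1 + 1)) : ℕ) * ζ t = ζ t
        simp
      simp only [e0]
      rw [hζ0, mul_add, mul_sum]
      congr 1
      · ring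
      · refine sum_congr rfl fun t _ => ?_
        rw [hζs]
        ring
    rw [e]
    exact hp.smul (by positivity)
  obtain ⟨u, hu⟩ := gram_of_psd _ hM
  let v : Ro n k → GF (EuclideanSpace ℝ (Fin n)) (Fin 1) := fun p => match p with
    | .inl i => vv (u i) 0 0 0 0
    | .inr (_, false) => vv 0 0 1 0 0
    | .inr (c, true) => vv 0 0 ((1 / 2) ^ (2 ^ (c : ℕ))) 0 0
  have hvv : ∀ p q w, labS p q = some w → inner ℝ (v p) (v q) = s w := by
    rintro (i | ⟨c, _ | _⟩) (j | ⟨c', _ | _⟩) w hw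
    · obtain rfl : wS i j (Fin.last _) = w := Option.some.inj hw
      show inner ℝ (vv (u i) 0 0 0 0) (vv (u j) 0 0 0 0) = _
      rw [vv_vv, hu]
      simp
    · simp [labS] at hw
    · simp [labS] at hw
    · simp [labS] at hw
    · simp only [labS] at hw
      split_ifs at hw with hc
      obtain rfl : wU = w := Option.some.inj hw
      show inner ℝ (vv 0 0 1 0 0) (vv 0 0 1 0 0) = 1
      rw [vv_vv]
      simp
    · simp only [labS] at hw
      split_ifs at hw with hc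
      obtain rfl : wT c.castSucc = w := Option.some.inj hw
      subst hc
      show inner ℝ (vv 0 0 1 0 0) (vv 0 0 ((1 / 2) ^ (2 ^ (c : ℕ))) 0 0) = (1 / 2) ^ (2 ^ (c.castSucc : ℕ))
      rw [vv_vv]
      simp
    · simp [labS] at hw
    · simp [labS] at hw
    · simp only [labS] at hw
      split_ifs at hw with hc
      obtain rfl : wT c.succ = w := Option.some.inj hw
      subst hc
      show inner ℝ (vv 0 0 ((1 / 2) ^ (2 ^ (c : ℕ))) 0 0) (vv 0 0 ((1 / 2) ^ (2 ^ (c : ℕ))) 0 0) = (1 / 2) ^ (2 ^ (c.succ : ℕ))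
      rw [vv_vv, Fin.val_succ]
      have e : (2 : ℕ) ^ ((c : ℕ) + 1) = 2 ^ (c : ℕ) + 2 ^ (c : ℕ) := by ring
      rw [e, pow_add]
      simp
  refine ⟨GF (EuclideanSpace ℝ (Fin n)) (Fin 1), inferInstance, inferInstance, v, s, ?_, hsb, hvv, (eqs_iff x s).2 hE⟩
  intro p
  have key : ∃ w : Wi n m L k, labS p p = some w := by
    rcases p with i | ⟨c, _ | _⟩
    · exact ⟨_, rfl⟩
    · exact ⟨wU, by simp [labS]⟩
    · exact ⟨wT c.succ, by simp [labS]⟩
  obtain ⟨w, hw⟩ := key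
  have h1 := hvv p p w hw
  rw [real_inner_self_eq_norm_sq] at h1
  have h2 := (abs_le.1 (hsb w)).2
  have h3 := norm_nonneg (v p)
  nlinarith

theorem feas_iff (x : Bt n m L → Bool) : LPSat (Ro n k) (Wi n m L k) (De n m L) labS (slS x) sgS ↔ Feas x k :=
  ⟨feas_of_LP, LP_of_feas⟩

end Pool.Agent.Lib.MP_13b08e_lc.UV
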