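import Pool.Agent.Lib.MP_13b08e_lc.UV.Five

/-!
# UV / Simplex: the twenty vectors exist around two given orthogonal vectors and around two given vectors at 60 degrees
-/

set_option autoImplicit false

namespace Pool.Agent.Lib.MP_13b08e_lc.UV

variable {E : Type} [NormedAddCommGroup E] [InnerProductSpace ℝ E]

private theorem nsq {u v e f : E} {s : ℝ} (hu : ‖u‖ = 1) (hv : ‖v‖ = 1) (he : ‖e‖ = 1) (hf : ‖f‖ = 1) (huv : inner ℝ u v = s)
    (hue : inner ℝ u e = 0) (huf : inner ℝ u f = 0) (hve : inner ℝ v e = 0) (hvf : inner ℝ v f = 0) (hef : inner ℝ e f = 0)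
    (a b c d : ℝ) : ‖a • u + b • v + c • e + d • f‖ ^ 2 = a ^ 2 + b ^ 2 + 2 * a * b * s + c ^ 2 + d ^ 2 := by
  have h1 : inner ℝ v u = s := by rw [real_inner_comm]; exact huv
  have h2 : inner ℝ e u = 0 := by rw [real_inner_comm]; exact hue
  have h3 : inner ℝ f u = 0 := by rw [real_inner_comm]; exact huf
  have h4 : inner ℝ e v = 0 := by rw [real_inner_comm]; exact hve
  have h5 : inner ℝ f v = 0 := by rw [real_inner_comm]; exact hvf
  have h6 : inner ℝ f e = 0 := by rw [real_inner_comm]; exact hef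
  rw [← real_inner_self_eq_norm_sq]
  simp only [inner_add_left, inner_add_right, inner_smul_left, inner_smul_right, real_inner_self_eq_norm_sq, hu, hv, he, hf,
    huv, hue, huf, hve, hvf, hef, h1, h2, h3, h4, h5, h6]
  simp
  ring

private theorem mk {u v e f : E} {s : ℝ} (hu : ‖u‖ = 1) (hv : ‖v‖ = 1) (he : ‖e‖ = 1) (hf : ‖f‖ = 1) (huv : inner ℝ u v = s)
    (hue : inner ℝ u e = 0) (huf : inner ℝ u f = 0) (hve : inner ℝ v e = 0) (hvf : inner ℝ v f = 0) (hef : inner ℝ e f = 0)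
    (A B C D : Fin 5 → ℝ)
    (hq : ∀ i j, i < j → (A i - A j) ^ 2 + (B i - B j) ^ 2 + 2 * (A i - A j) * (B i - B j) * s + (C i - C j) ^ 2 + (D i - D j) ^ 2 = 1) :
    Cfg (fun i j => (A i • u + B i • v + C i • e + D i • f) - (A j • u + B j • v + C j • e + D j • f)) := by
  refine Cfg.of_simplex (fun i => A i • u + B i • v + C i • e + D i • f) fun i j hij => ?_
  have key : ∀ i j : Fin 5, i < j → ‖(A i • u + B i • v + C i • e + D i • f) - (A j • u + B j • v + C j • e + D j • f)‖ = 1 := by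
    intro i j hij
    have h1 : (A i • u + B i • v + C i • e + D i • f) - (A j • u + B j • v + C j • e + D j • f) =
        (A i - A j) • u + (B i - B j) • v + (C i - C j) • e + (D i - D j) • f := by module
    have h2 := nsq hu hv he hf huv hue huf hve hvf hef (A i - A j) (B i - B j) (C i - C j) (D i - D j)
    rw [hq i j hij] at h2
    rw [h1]
    exact (pow_eq_one_iff_of_nonneg (norm_nonneg _) two_ne_zero).1 h2
  rcases lt_or_gt_of_ne hij with h | h
  · exact key i j h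
  · rw [norm_sub_rev]
    exact key j i h

theorem ex_zero {u v e f : E} (hu : ‖u‖ = 1) (hv : ‖v‖ = 1) (he : ‖e‖ = 1) (hf : ‖f‖ = 1) (huv : inner ℝ u v = 0)
    (hue : inner ℝ u e = 0) (huf : inner ℝ u f = 0) (hve : inner ℝ v e = 0) (hvf : inner ℝ v f = 0) (hef : inner ℝ e f = 0) :
    ∃ R : Fin 5 → Fin 5 → E, Cfg R ∧ R 0 1 = u ∧ R 2 3 = v := by
  obtain ⟨c, hc⟩ : ∃ c : ℝ, c ^ 2 = 1 / 2 := ⟨√(1 / 2), Real.sq_sqrt (by norm_num)⟩
  obtain ⟨y, hy⟩ : ∃ y : ℝ, y ^ 2 = 5 / 8 := ⟨√(5 / 8), Real.sq_sqrt (by norm_num)⟩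
  have h := mk hu hv he hf huv hue huf hve hvf hef ![1 / 2, -1 / 2, 0, 0, 0] ![0, 0, 1 / 2, -1 / 2, 0] ![0, 0, c, c, c / 2]
    ![0, 0, 0, 0, y] (by
      intro i j hij
      fin_cases i <;> fin_cases j <;> first
        | (exfalso; revert hij; decide)
        | (simp; done)
        | (simp; ring_nf; linarith)
        | (simp; norm_num))
  refine ⟨_, h, ?_, ?_⟩
  · simp
    module
  · simp
    module

theorem ex_half {u v e f : E} (hu : ‖u‖ = 1) (hv : ‖v‖ = 1) (he : ‖e‖ = 1) (hf : ‖f‖ = 1) (huv : inner ℝ u v = 1 / 2)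
    (hue : inner ℝ u e = 0) (huf : inner ℝ u f = 0) (hve : inner ℝ v e = 0) (hvf : inner ℝ v f = 0) (hef : inner ℝ e f = 0) :
    ∃ R : Fin 5 → Fin 5 → E, Cfg R ∧ R 0 1 = u ∧ R 0 2 = v := by
  obtain ⟨p, hp⟩ : ∃ c : ℝ, c ^ 2 = 2 / 3 := ⟨√(2 / 3), Real.sq_sqrt (by norm_num)⟩
  obtain ⟨y, hy⟩ : ∃ y : ℝ, y ^ 2 = 5 / 8 := ⟨√(5 / 8), Real.sq_sqrt (by norm_num)⟩
  have h := mk hu hv he hf huv hue huf hve hvf hef ![0, -1, 0, -1 / 3, -1 / 3] ![0, 0, -1, -1 / 3, -1 / 3] ![0, 0, 0, p, p / 4]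
    ![0, 0, 0, 0, y] (by
      intro i j hij
      fin_cases i <;> fin_cases j <;> first
        | (exfalso; revert hij; decide)
        | (simp; done)
        | (simp; ring_nf; linarith)
        | (simp; norm_num))
  refine ⟨_, h, ?_, ?_⟩
  · simp
  · simp

end Pool.Agent.Lib.MP_13b08e_lc.UV
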