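import Pool.Agent.Lib.MP_13b08e_lc.UV.Graph

/-!
# UV / Size: the number of vertices
-/

set_option autoImplicit false

open Finset

namespace Pool.Agent.Lib.MP_13b08e_lc.UV

theorem card_W (n m L k : ℕ) : Fintype.card (Wi n m L k) = 1 + ((k + 1) + ((m + 1) * (L + m + 1 + 1) + n * (n * ((m + 1) * (L * 2) + 1)))) := by
  simp only [Fintype.card_sum, Fintype.card_prod, Fintype.card_fin, Fintype.card_unit]

theorem card_R (n k : ℕ) : Fintype.card (Ro n k) = n + k * 2 := by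
  simp only [Fintype.card_sum, Fintype.card_prod, Fintype.card_fin, Fintype.card_bool]

theorem card_D (n m L : ℕ) : Fintype.card (De n m L) =
    1 + (1 + (1 + ((m + 1) * (L + m + 1) + (n * n + n * (n * ((m + 1) * (L * 2))))))) := by
  simp only [Fintype.card_sum, Fintype.card_prod, Fintype.card_fin, Fintype.card_unit]

theorem card_V1 (n m L k : ℕ) : Fintype.card (V1 n m L k) = (Fintype.card (Ro n k) * 2 + (Fintype.card (Wi n m L k) * 2 * 2 + 12)) +
    (Fintype.card (Ro n k) * (Fintype.card (Ro n k) * (2 * 2)) + (Fintype.card (Wi n m L k) + Fintype.card (De n m L))) * 2 := by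
  simp only [V1, BV, GG, Fintype.card_sum, Fintype.card_prod, Fintype.card_fin, Fintype.card_bool, Fintype.card_unit]

theorem card_V2 (n m L k : ℕ) : Fintype.card (V2 n m L k) = Fintype.card (V1 n m L k) +
    Fintype.card (V1 n m L k) * (Fintype.card (V1 n m L k) * (2 * (5 * 5))) := by
  unfold V2 VB
  rw [Fintype.card_sum, Fintype.card_prod, Fintype.card_prod, Fintype.card_prod, Fintype.card_prod, Fintype.card_bool,
    Fintype.card_fin]

theorem card_le (n m L k : ℕ) : Fintype.card (V2 n m L k) ≤ 10 ^ 5 * (n + m + L + k + 2) ^ 8 := by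
  set q := n + m + L + k + 2 with hq
  have hn : n ≤ q := by omega
  have hk : k + 1 ≤ q := by omega
  have hm : m + 1 ≤ q := by omega
  have hL : L ≤ q := by omega
  have hL2 : L + m + 1 + 1 ≤ q := by omega
  have hq2 : 2 ≤ q := by omega
  have p2 : q ^ 2 * 4 ≤ q ^ 4 := by
    have h : 2 ^ 2 ≤ q ^ 2 := Nat.pow_le_pow_left hq2 2
    calc q ^ 2 * 4 ≤ q ^ 2 * q ^ 2 := Nat.mul_le_mul_left _ h
      _ = q ^ 4 := by ring
  have p1 : q * 8 ≤ q ^ 4 := by
    have h : 2 ^ 3 ≤ q ^ 3 := Nat.pow_le_pow_left hq2 3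
    calc q * 8 ≤ q * q ^ 3 := Nat.mul_le_mul_left _ h
      _ = q ^ 4 := by ring
  have p0 : 16 ≤ q ^ 4 := Nat.pow_le_pow_left hq2 4
  have a1 : (m + 1) * (L + m + 1 + 1) ≤ q ^ 2 := by
    rw [pow_two]
    exact Nat.mul_le_mul hm hL2
  have a2 : (m + 1) * (L * 2) ≤ q ^ 2 * 2 := by
    have : (m + 1) * (L * 2) ≤ q * (q * 2) := Nat.mul_le_mul hm (Nat.mul_le_mul_right 2 hL)
    calc (m + 1) * (L * 2) ≤ q * (q * 2) := this
      _ = q ^ 2 * 2 := by ring
  have a3 : n * (n * ((m + 1) * (L * 2))) ≤ q ^ 4 * 2 := by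
    calc n * (n * ((m + 1) * (L * 2))) ≤ q * (q * (q ^ 2 * 2)) := Nat.mul_le_mul hn (Nat.mul_le_mul hn a2)
      _ = q ^ 4 * 2 := by ring
  have a4 : n * n ≤ q ^ 2 := by
    rw [pow_two]
    exact Nat.mul_le_mul hn hn
  have a5 : n * (n * ((m + 1) * (L * 2) + 1)) ≤ q ^ 4 * 2 + q ^ 2 := by
    have : n * (n * ((m + 1) * (L * 2) + 1)) = n * (n * ((m + 1) * (L * 2))) + n * n := by ring
    rw [this]
    exact Nat.add_le_add a3 a4
  have a6 : (m + 1) * (L + m + 1) ≤ q ^ 2 := (Nat.mul_le_mul_left _ (by omega)).trans a1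
  have hW : Fintype.card (Wi n m L k) ≤ 3 * q ^ 4 := by
    rw [card_W]
    omega
  have hD : Fintype.card (De n m L) ≤ 3 * q ^ 4 := by
    rw [card_D]
    omega
  have hR : Fintype.card (Ro n k) ≤ 2 * q := by
    rw [card_R]
    omega
  have hR2 : Fintype.card (Ro n k) * (Fintype.card (Ro n k) * (2 * 2)) ≤ 4 * q ^ 4 := by
    have h1 : Fintype.card (Ro n k) * (Fintype.card (Ro n k) * (2 * 2)) ≤ (2 * q) * ((2 * q) * (2 * 2)) :=
      Nat.mul_le_mul hR (Nat.mul_le_mul_right _ hR)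
    have h2 : (2 * q) * ((2 * q) * (2 * 2)) = 4 * (q ^ 2 * 4) := by ring
    omega
  have hV1 : Fintype.card (V1 n m L k) ≤ 36 * q ^ 4 := by
    rw [card_V1]
    omega
  rw [card_V2]
  have h1 : Fintype.card (V1 n m L k) * (Fintype.card (V1 n m L k) * (2 * (5 * 5))) ≤ (36 * q ^ 4) * ((36 * q ^ 4) * (2 * (5 * 5))) :=
    Nat.mul_le_mul hV1 (Nat.mul_le_mul_right _ hV1)
  have h2 : (36 * q ^ 4) * ((36 * q ^ 4) * (2 * (5 * 5))) = 64800 * q ^ 8 := by ring
  have h3 : q ^ 4 ≤ q ^ 8 := Nat.pow_le_pow_right (by omega) (by norm_num)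
  omega

end Pool.Agent.Lib.MP_13b08e_lc.UV
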