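import Pool.Agent.Lib.MP_13b08e_lc.UV.StageA

/-!
# UV / Stage0: partially labelled Gram matrices with linear equations between the labels

`LPSat`: vectors `v i` of norm at most 1 and reals `s w` with `⟨v i, v j⟩ = s w` whenever `lab i j = some w`, and four-term
linear equations between the `s w`. It reduces to unit vectors with prescribed inner products and four-term equations.
-/

set_option autoImplicit false

open Finset

namespace Pool.Agent.Lib.MP_13b08e_lc.UV

/-- a term of an equation: nothing, the constant one, the value of a wire (`c` is the number of the copy) -/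
inductive Sl (W : Type) : Type
  | nil : Sl W
  | one : Sl W
  | wire (w : W) (c : Bool) : Sl W

/-- the value of a term -/
def Sl.val {W : Type} (s : W → ℝ) : Sl W → ℝ
  | .nil => 0
  | .one => 1
  | .wire w _ => s w

/-- vectors and reals -/
def LPSat (I W Δ : Type) (lab : I → I → Option W) (sl : Δ → Fin 4 → Sl W) (sg : Δ → Fin 4 → Bool) : Prop :=
  ∃ (E : Type) (_ : NormedAddCommGroup E) (_ : InnerProductSpace ℝ E) (v : I → E) (s : W → ℝ), (∀ i, ‖v i‖ ≤ 1) ∧
    (∀ w, |s w| ≤ 1) ∧ (∀ i j w, lab i j = some w → inner ℝ (v i) (v j) = s w) ∧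
    ∀ δ, ∑ r, sn (sg δ r) * (sl δ r).val s = 0

/-- the vertices of the net: two for every row, two for every copy of every wire, twelve more -/
abbrev BV (I W : Type) := (I × Bool) ⊕ ((W × Bool) × Bool) ⊕ (Fin 4 × Fin 3)

variable {I W Δ : Type}

/-- orthogonality -/
def zeB : BV I W → BV I W → Prop
  | .inl _, .inl _ => False
  | .inl _, .inr _ => True
  | .inr _, .inl _ => True
  | .inr (.inl (w, _)), .inr (.inl (w', _)) => w ≠ w'
  | .inr (.inl _), .inr (.inr _) => True
  | .inr (.inr _), .inr (.inl _) => True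
  | .inr (.inr a), .inr (.inr b) => a ≠ b

/-- the first vertex of a term -/
def slA (r : Fin 4) : Sl W → BV I W
  | .nil => .inr (.inr (r, 0))
  | .one => .inr (.inr (r, 2))
  | .wire w c => .inr (.inl ((w, c), false))

/-- the second vertex of a term -/
def slB (r : Fin 4) : Sl W → BV I W
  | .nil => .inr (.inr (r, 1))
  | .one => .inr (.inr (r, 2))
  | .wire w c => .inr (.inl ((w, c), true))

/-- no copy of a wire occurs twice -/
def Dist (sl : Fin 4 → Sl W) : Prop := ∀ r r', r ≠ r' → ∀ w c, sl r = .wire w c → sl r' ≠ .wire w c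

/-- the terms of the equations of a pair of rows -/
def lsl [DecidableEq I] (lab : I → I → Option W) (i j : I) (x y : Bool) (r : Fin 4) : Sl W :=
  match lab i j with
  | none => .nil
  | some w => if i = j then (if x = false ∧ y = true then (if r = 1 then .one else if r = 2 then .wire w false else
      if r = 3 then .wire w true else .nil) else .nil)
      else (if r = 2 then .wire w false else .nil)

/-- is the pair of vectors a term of the equation -/
def lact [DecidableEq I] (lab : I → I → Option W) (i j : I) (x y : Bool) : Bool :=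
  (lab i j).isSome && (decide (i ≠ j) || (!x && y))

/-- the equations -/
abbrev GG (I W Δ : Type) := (I × I × Bool × Bool) ⊕ W ⊕ Δ

/-- first vertices -/
def aa [DecidableEq I] (lab : I → I → Option W) (sl : Δ → Fin 4 → Sl W) : GG I W Δ → Fin 4 → BV I W
  | .inl (i, j, x, y), r => if r = 0 ∧ lact lab i j x y = true then .inl (i, x) else slA r (lsl lab i j x y r)
  | .inr (.inl w), r => slA r (if r = 1 then .wire w false else if r = 2 then .wire w true else .nil)
  | .inr (.inr δ), r => slA r (sl δ r)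

/-- second vertices -/
def bb [DecidableEq I] (lab : I → I → Option W) (sl : Δ → Fin 4 → Sl W) : GG I W Δ → Fin 4 → BV I W
  | .inl (i, j, x, y), r => if r = 0 ∧ lact lab i j x y = true then .inl (j, y) else slB r (lsl lab i j x y r)
  | .inr (.inl w), r => slB r (if r = 1 then .wire w false else if r = 2 then .wire w true else .nil)
  | .inr (.inr δ), r => slB r (sl δ r)

/-- signs -/
def sgg (sg : Δ → Fin 4 → Bool) : GG I W Δ → Fin 4 → Bool
  | .inl _, r => decide (r = 2) || decide (r = 3)
  | .inr (.inl _), r => decide (r = 2) || decide (r = 3)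
  | .inr (.inr δ), r => sg δ r

theorem slAA {sl : Fin 4 → Sl W} (h : Dist sl) {r r' : Fin 4} (hr : r ≠ r') : zeB (I := I) (slA r (sl r)) (slA r' (sl r')) := by
  have h1 := h r r' hr
  rcases h2 : sl r with _ | _ | ⟨w, c⟩ <;> rcases h3 : sl r' with _ | _ | ⟨w', c'⟩ <;>
    simp only [slA, zeB, ne_eq, Prod.mk.injEq, not_and]
  all_goals first
    | trivial
    | exact fun h => absurd h hr
    | skip
  intro h4 h5
  exact h1 w c h2 (by rw [h3, h4, h5])

theorem slBB {sl : Fin 4 → Sl W} (h : Dist sl) {r r' : Fin 4} (hr : r ≠ r') : zeB (I := I) (slB r (sl r)) (slB r' (sl r')) := by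
  have h1 := h r r' hr
  rcases h2 : sl r with _ | _ | ⟨w, c⟩ <;> rcases h3 : sl r' with _ | _ | ⟨w', c'⟩ <;>
    simp only [slB, zeB, ne_eq, Prod.mk.injEq, not_and]
  all_goals first
    | trivial
    | exact fun h => absurd h hr
    | skip
  intro h4 h5
  exact h1 w c h2 (by rw [h3, h4, h5])

theorem slAB {sl : Fin 4 → Sl W} (h : Dist sl) {r r' : Fin 4} (hr : r ≠ r') : zeB (I := I) (slA r (sl r)) (slB r' (sl r')) := by
  have h1 := h r r' hr
  rcases h2 : sl r with _ | _ | ⟨w, c⟩ <;> rcases h3 : sl r' with _ | _ | ⟨w', c'⟩ <;>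
    simp only [slA, slB, zeB, ne_eq, Prod.mk.injEq, not_and]
  all_goals first
    | trivial
    | exact fun h => absurd h hr
    | skip
  intro h4 h5
  exact h1 w c h2 (by rw [h3, h4, h5])

theorem lsl_dist [DecidableEq I] (lab : I → I → Option W) (i j : I) (x y : Bool) : Dist (lsl lab i j x y) := by
  intro r r' hr w c h1 h2
  unfold lsl at h1 h2
  rcases h3 : lab i j with _ | w'
  · rw [h3] at h1
    simp at h1
  · rw [h3] at h1 h2
    simp only at h1 h2
    split_ifs at h1 h2 <;> simp_all

theorem inl_slA (p : I × Bool) (r : Fin 4) (t : Sl W) : zeB (.inl p) (slA r t) := by cases t <;> trivial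
theorem slA_inl (p : I × Bool) (r : Fin 4) (t : Sl W) : zeB (slA r t) (.inl p) := by cases t <;> trivial
theorem inl_slB (p : I × Bool) (r : Fin 4) (t : Sl W) : zeB (.inl p) (slB r t) := by cases t <;> trivial
theorem slB_inl (p : I × Bool) (r : Fin 4) (t : Sl W) : zeB (slB r t) (.inl p) := by cases t <;> trivial

theorem copy_dist (w : W) : Dist (fun r : Fin 4 => if r = 1 then Sl.wire w false else if r = 2 then .wire w true else .nil) := by
  intro r r' hr w' c h1 h2
  simp only at h1 h2
  split_ifs at h1 h2 <;> simp_all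

section orth

variable [DecidableEq I] {lab : I → I → Option W} {sl : Δ → Fin 4 → Sl W}

theorem aa_inl (i j : I) (x y : Bool) (r : Fin 4) : aa lab sl (.inl (i, j, x, y)) r =
    if r = 0 ∧ lact lab i j x y = true then .inl (i, x) else slA r (lsl lab i j x y r) := rfl

theorem bb_inl (i j : I) (x y : Bool) (r : Fin 4) : bb lab sl (.inl (i, j, x, y)) r =
    if r = 0 ∧ lact lab i j x y = true then .inl (j, y) else slB r (lsl lab i j x y r) := rfl

theorem orthA (hd : ∀ δ, Dist (sl δ)) (γ : GG I W Δ) (r r' : Fin 4) (hr : r ≠ r') : zeB (aa lab sl γ r) (aa lab sl γ r') := by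
  rcases γ with ⟨i, j, x, y⟩ | w | δ
  · rw [aa_inl, aa_inl]
    split_ifs with h1 h2
    · exact absurd (h1.1.trans h2.1.symm) hr
    · exact inl_slA _ _ _
    · exact slA_inl _ _ _
    · exact slAA (lsl_dist lab i j x y) hr
  · exact slAA (copy_dist w) hr
  · exact slAA (hd δ) hr

theorem orthB (hd : ∀ δ, Dist (sl δ)) (γ : GG I W Δ) (r r' : Fin 4) (hr : r ≠ r') : zeB (bb lab sl γ r) (bb lab sl γ r') := by
  rcases γ with ⟨i, j, x, y⟩ | w | δ
  · rw [bb_inl, bb_inl]
    split_ifs with h1 h2
    · exact absurd (h1.1.trans h2.1.symm) hr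
    · exact inl_slB _ _ _
    · exact slB_inl _ _ _
    · exact slBB (lsl_dist lab i j x y) hr
  · exact slBB (copy_dist w) hr
  · exact slBB (hd δ) hr

theorem orthAB (hd : ∀ δ, Dist (sl δ)) (γ : GG I W Δ) (r r' : Fin 4) (hr : r ≠ r') : zeB (aa lab sl γ r) (bb lab sl γ r') := by
  rcases γ with ⟨i, j, x, y⟩ | w | δ
  · rw [aa_inl, bb_inl]
    split_ifs with h1 h2
    · exact absurd (h1.1.trans h2.1.symm) hr
    · exact inl_slB _ _ _
    · exact slA_inl _ _ _
    · exact slAB (lsl_dist lab i j x y) hr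
  · exact slAB (copy_dist w) hr
  · exact slAB (hd δ) hr

end orth

theorem LP_data [DecidableEq I] {lab : I → I → Option W} {sl : Δ → Fin 4 → Sl W} {sg : Δ → Fin 4 → Bool}
    {E : Type} [NormedAddCommGroup E] [InnerProductSpace ℝ E] {x : BV I W → E} (hx : ∀ v, ‖x v‖ = 1)
    (hz : ∀ u v, zeB u v → inner ℝ (x u) (x v) = 0)
    (hl : ∀ γ : GG I W Δ, ∑ i, sn (sgg sg γ i) * inner ℝ (x (aa lab sl γ i)) (x (bb lab sl γ i)) = 0) (s : W → ℝ)
    (hs : s = fun w => inner ℝ (x (.inr (.inl ((w, false), false)))) (x (.inr (.inl ((w, false), true))))) :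
    ∃ v : I → E, (∀ i, ‖v i‖ ≤ 1) ∧ (∀ w, |s w| ≤ 1) ∧ (∀ i j w, lab i j = some w → inner ℝ (v i) (v j) = s w) ∧
      ∀ δ, ∑ r, sn (sg δ r) * (sl δ r).val s = 0 := by
  subst hs
  set s : W → ℝ := fun w => inner ℝ (x (.inr (.inl ((w, false), false)))) (x (.inr (.inl ((w, false), true)))) with hs
  have hnil : ∀ r : Fin 4, inner ℝ (x (slA r (.nil : Sl W))) (x (slB r .nil)) = 0 := fun r =>
    hz _ _ (show zeB (.inr (.inr (r, 0))) (.inr (.inr (r, 1))) from by simp [zeB])
  have hone : ∀ r : Fin 4, inner ℝ (x (slA r (.one : Sl W))) (x (slB r .one)) = 1 := fun r => by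
    show inner ℝ (x (.inr (.inr (r, 2)))) (x (.inr (.inr (r, 2)))) = 1
    rw [real_inner_self_eq_norm_sq, hx, one_pow]
  have hcopy : ∀ w, inner ℝ (x (.inr (.inl ((w, true), false)))) (x (.inr (.inl ((w, true), true)))) = s w := by
    intro w
    have h1 := hl (.inr (.inl w))
    rw [Fin.sum_univ_four] at h1
    have e0 : inner ℝ (x (aa lab sl (.inr (.inl w)) 0)) (x (bb lab sl (.inr (.inl w)) 0)) = 0 := hnil 0
    have e3 : inner ℝ (x (aa lab sl (.inr (.inl w)) 3)) (x (bb lab sl (.inr (.inl w)) 3)) = 0 := hnil 3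
    have e1 : inner ℝ (x (aa lab sl (.inr (.inl w)) 1)) (x (bb lab sl (.inr (.inl w)) 1)) = s w := rfl
    rw [e0, e3, e1] at h1
    have e2 : sn (sgg sg (.inr (.inl w) : GG I W Δ) 2) = -1 := rfl
    have e4 : sn (sgg sg (.inr (.inl w) : GG I W Δ) 1) = 1 := rfl
    rw [e2, e4] at h1
    have e5 : inner ℝ (x (aa lab sl (.inr (.inl w)) 2)) (x (bb lab sl (.inr (.inl w)) 2)) =
        inner ℝ (x (.inr (.inl ((w, true), false)))) (x (.inr (.inl ((w, true), true)))) := rfl
    rw [e5] at h1
    linarith
  have hval : ∀ (r : Fin 4) (t : Sl W), inner ℝ (x (slA r t)) (x (slB r t)) = t.val s := by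
    intro r t
    rcases t with _ | _ | ⟨w, c⟩
    · exact hnil r
    · exact hone r
    · cases c
      · rfl
      · exact hcopy w
  refine ⟨fun i => (1 / 2 : ℝ) • (x (.inl (i, false)) + x (.inl (i, true))), ?_, ?_, ?_, ?_⟩
  · intro i
    rw [norm_smul]
    have h1 := norm_add_le (x (.inl (i, false))) (x (.inl (i, true)))
    rw [hx, hx] at h1
    rw [Real.norm_eq_abs, abs_of_pos (by norm_num : (0 : ℝ) < 1 / 2)]
    linarith
  · intro w
    have h1 := abs_real_inner_le_norm (x (.inr (.inl ((w, false), false)))) (x (.inr (.inl ((w, false), true))))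
    rw [hx, hx] at h1
    linarith
  · intro i j w hw
    by_cases hij : i = j
    · subst hij
      have h1 := hl (.inl (i, i, false, true))
      have act : lact lab i i false true = true := by simp [lact, hw]
      have e0 : inner ℝ (x (aa lab sl (.inl (i, i, false, true)) 0)) (x (bb lab sl (.inl (i, i, false, true)) 0)) =
          inner ℝ (x (.inl (i, false))) (x (.inl (i, true))) := by
        rw [aa_inl, bb_inl, if_pos ⟨rfl, act⟩, if_pos ⟨rfl, act⟩]
      have e1 : inner ℝ (x (aa lab sl (.inl (i, i, false, true)) 1)) (x (bb lab sl (.inl (i, i, false, true)) 1)) = 1 := by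
        rw [aa_inl, bb_inl, if_neg (by simp), if_neg (by simp), hval]
        simp [lsl, hw, Sl.val]
      have e2 : inner ℝ (x (aa lab sl (.inl (i, i, false, true)) 2)) (x (bb lab sl (.inl (i, i, false, true)) 2)) = s w := by
        rw [aa_inl, bb_inl, if_neg (by simp), if_neg (by simp), hval]
        simp [lsl, hw, Sl.val]
      have e3 : inner ℝ (x (aa lab sl (.inl (i, i, false, true)) 3)) (x (bb lab sl (.inl (i, i, false, true)) 3)) = s w := by
        rw [aa_inl, bb_inl, if_neg (by simp), if_neg (by simp), hval]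
        simp [lsl, hw, Sl.val]
      rw [Fin.sum_univ_four, e0, e1, e2, e3] at h1
      have g0 : sn (sgg sg (.inl (i, i, false, true) : GG I W Δ) 0) = 1 := rfl
      have g1 : sn (sgg sg (.inl (i, i, false, true) : GG I W Δ) 1) = 1 := rfl
      have g2 : sn (sgg sg (.inl (i, i, false, true) : GG I W Δ) 2) = -1 := rfl
      have g3 : sn (sgg sg (.inl (i, i, false, true) : GG I W Δ) 3) = -1 := rfl
      rw [g0, g1, g2, g3] at h1
      rw [real_inner_smul_left, real_inner_smul_right, inner_add_left, inner_add_right, inner_add_right,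
        real_inner_self_eq_norm_sq, real_inner_self_eq_norm_sq, hx, hx, real_inner_comm (x (.inl (i, false))) (x (.inl (i, true)))]
      linarith
    · have key : ∀ p q : Bool, inner ℝ (x (.inl (i, p))) (x (.inl (j, q))) = s w := by
        intro p q
        have h1 := hl (.inl (i, j, p, q))
        have act : lact lab i j p q = true := by simp [lact, hw, hij]
        have e0 : inner ℝ (x (aa lab sl (.inl (i, j, p, q)) 0)) (x (bb lab sl (.inl (i, j, p, q)) 0)) =
            inner ℝ (x (.inl (i, p))) (x (.inl (j, q))) := by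
          rw [aa_inl, bb_inl, if_pos ⟨rfl, act⟩, if_pos ⟨rfl, act⟩]
        have e1 : inner ℝ (x (aa lab sl (.inl (i, j, p, q)) 1)) (x (bb lab sl (.inl (i, j, p, q)) 1)) = 0 := by
          rw [aa_inl, bb_inl, if_neg (by simp), if_neg (by simp), hval]
          simp [lsl, hw, hij, Sl.val]
        have e2 : inner ℝ (x (aa lab sl (.inl (i, j, p, q)) 2)) (x (bb lab sl (.inl (i, j, p, q)) 2)) = s w := by
          rw [aa_inl, bb_inl, if_neg (by simp), if_neg (by simp), hval]
          simp [lsl, hw, hij, Sl.val]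
        have e3 : inner ℝ (x (aa lab sl (.inl (i, j, p, q)) 3)) (x (bb lab sl (.inl (i, j, p, q)) 3)) = 0 := by
          rw [aa_inl, bb_inl, if_neg (by simp), if_neg (by simp), hval]
          simp [lsl, hw, hij, Sl.val]
        rw [Fin.sum_univ_four, e0, e1, e2, e3] at h1
        have g0 : sn (sgg sg (.inl (i, j, p, q) : GG I W Δ) 0) = 1 := rfl
        have g2 : sn (sgg sg (.inl (i, j, p, q) : GG I W Δ) 2) = -1 := rfl
        rw [g0, g2] at h1
        linarith
      rw [real_inner_smul_left, real_inner_smul_right, inner_add_left, inner_add_right, inner_add_right, key, key, key, key]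
      ring
  · intro δ
    have h1 := hl (.inr (.inr δ))
    have e : ∀ r, sn (sgg sg (.inr (.inr δ) : GG I W Δ) r) * inner ℝ (x (aa lab sl (.inr (.inr δ)) r)) (x (bb lab sl (.inr (.inr δ)) r)) =
        sn (sg δ r) * (sl δ r).val s := by
      intro r
      rw [← hval r]
      rfl
    rw [sum_congr rfl fun r _ => e r] at h1
    exact h1

theorem LP_of_Net [DecidableEq I] {lab : I → I → Option W} {sl : Δ → Fin 4 → Sl W} {sg : Δ → Fin 4 → Bool}
    (h : NetSat (BV I W) (GG I W Δ) (fun _ _ => False) zeB (fun _ _ => False) (aa lab sl) (bb lab sl) (sgg sg)) :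
    LPSat I W Δ lab sl sg := by
  obtain ⟨E, i1, i2, x, hx, _, hz, _, hl⟩ := h
  obtain ⟨v, h1, h2, h3, h4⟩ := LP_data hx hz hl _ rfl
  exact ⟨E, i1, i2, v, _, h1, h2, h3, h4⟩

end Pool.Agent.Lib.MP_13b08e_lc.UV
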