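import Pool.Agent.Lib.MP_13b08e_lc.UV.Stage0

/-!
# UV / Stage0b: the converse construction
-/

set_option autoImplicit false

open Finset

namespace Pool.Agent.Lib.MP_13b08e_lc.UV

section space

variable {E κ : Type} [NormedAddCommGroup E] [InnerProductSpace ℝ E] [Fintype κ] [DecidableEq κ]

/-- more dimensions -/
abbrev GF (E κ : Type) [Fintype κ] := WithLp 2 (E × EuclideanSpace ℝ κ)

/-- old vector plus a multiple of a new unit vector plus a multiple of another -/
noncomputable def vv (x : E) (k : κ) (a : ℝ) (l : κ) (b : ℝ) : GF E κ :=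
  WithLp.toLp 2 (x, EuclideanSpace.single k a + EuclideanSpace.single l b)

theorem vv_vv (x y : E) (k l k' l' : κ) (a b a' b' : ℝ) : inner ℝ (vv x k a l b) (vv y k' a' l' b') =
    inner ℝ x y + ((if k = k' then a * a' else 0) + (if k = l' then a * b' else 0) + (if l = k' then b * a' else 0) +
      (if l = l' then b * b' else 0)) := by
  have h : ∀ (i j : κ) (c d : ℝ), inner ℝ (EuclideanSpace.single i c : EuclideanSpace ℝ κ) (EuclideanSpace.single j d) =
      if i = j then c * d else 0 := by
    intro i j c d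
    rw [EuclideanSpace.inner_single_left, PiLp.single_apply]
    split_ifs <;> simp
  unfold vv
  rw [WithLp.prod_inner_apply]
  simp only [inner_add_left, inner_add_right, h]
  ring

end space

/-- the new dimensions -/
abbrev KK (I W : Type) := I ⊕ ((W × Bool) × Bool) ⊕ (Fin 4 × Fin 3)

variable {I W Δ : Type} [Fintype I] [Fintype W] [DecidableEq I] [DecidableEq W]

theorem Net_of_LP {lab : I → I → Option W} {sl : Δ → Fin 4 → Sl W} {sg : Δ → Fin 4 → Bool} (h : LPSat I W Δ lab sl sg) :
    NetSat (BV I W) (GG I W Δ) (fun _ _ => False) zeB (fun _ _ => False) (aa lab sl) (bb lab sl) (sgg sg) := by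
  obtain ⟨E, i1, i2, v, s, hv, hs, hvv, hl⟩ := h
  let x : BV I W → GF E (KK I W) := fun u => match u with
    | .inl (i, t) => vv (v i) (Sum.inl i) (sn t * √(1 - ‖v i‖ ^ 2)) (Sum.inl i) 0
    | .inr (.inl (w, false)) => vv 0 (Sum.inr (Sum.inl (w, false))) 1 (Sum.inr (Sum.inl (w, true))) 0
    | .inr (.inl (w, true)) => vv 0 (Sum.inr (Sum.inl (w, false))) (s w.1) (Sum.inr (Sum.inl (w, true))) (√(1 - s w.1 ^ 2))
    | .inr (.inr p) => vv 0 (Sum.inr (Sum.inr p)) 1 (Sum.inr (Sum.inr p)) 0
  have hv2 : ∀ i, √(1 - ‖v i‖ ^ 2) * √(1 - ‖v i‖ ^ 2) = 1 - ‖v i‖ ^ 2 := fun i =>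
    Real.mul_self_sqrt (by have := hv i; have := norm_nonneg (v i); nlinarith)
  have hs2 : ∀ w, √(1 - s w ^ 2) * √(1 - s w ^ 2) = 1 - s w ^ 2 := fun w =>
    Real.mul_self_sqrt (by have := abs_le.1 (hs w); nlinarith [this.1, this.2])
  have hsq : ∀ t : Bool, sn t * sn t = 1 := sn_sq
  have hx1 : ∀ u, inner ℝ (x u) (x u) = 1 := by
    rintro (⟨i, t⟩ | ⟨w, _ | _⟩ | p)
    · show inner ℝ (vv _ _ _ _ _) (vv _ _ _ _ _) = _
      rw [vv_vv]
      simp only [if_true, mul_zero, zero_mul, add_zero, real_inner_self_eq_norm_sq]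
      have := hv2 i
      have := hsq t
      have e : sn t * √(1 - ‖v i‖ ^ 2) * (sn t * √(1 - ‖v i‖ ^ 2)) = (sn t * sn t) * (√(1 - ‖v i‖ ^ 2) * √(1 - ‖v i‖ ^ 2)) := by ring
      rw [e, hv2, hsq]
      ring
    · show inner ℝ (vv _ _ _ _ _) (vv _ _ _ _ _) = _
      rw [vv_vv]
      simp
    · show inner ℝ (vv _ _ _ _ _) (vv _ _ _ _ _) = _
      rw [vv_vv]
      simp only [if_true, inner_zero_left, reduceCtorEq, Sum.inr.injEq, Sum.inl.injEq, Prod.mk.injEq, true_and, if_false,
        Bool.false_eq_true]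
      rw [hs2]
      ring
    · show inner ℝ (vv _ _ _ _ _) (vv _ _ _ _ _) = _
      rw [vv_vv]
      simp
  have hze : ∀ u u', zeB u u' → inner ℝ (x u) (x u') = 0 := by
    rintro (⟨i, t⟩ | ⟨w, _ | _⟩ | p) (⟨i', t'⟩ | ⟨w', _ | _⟩ | p') hz
    all_goals first
      | exact (show False from hz).elim
      | (show inner ℝ (vv _ _ _ _ _) (vv _ _ _ _ _) = _
         rw [vv_vv]
         simp [zeB] at hz ⊢
         try simp [hz])
  have hval : ∀ (r : Fin 4) (t : Sl W), inner ℝ (x (slA r t)) (x (slB r t)) = t.val s := by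
    intro r t
    rcases t with _ | _ | ⟨w, c⟩
    · exact hze _ _ (show zeB (.inr (.inr (r, 0))) (.inr (.inr (r, 1))) from by simp [zeB])
    · show inner ℝ (x (.inr (.inr (r, 2)))) (x (.inr (.inr (r, 2)))) = 1
      exact hx1 (.inr (.inr (r, 2)))
    · show inner ℝ (vv _ _ _ _ _) (vv _ _ _ _ _) = _
      rw [vv_vv]
      simp [Sl.val]
  refine ⟨GF E (KK I W), inferInstance, inferInstance, x, ?_, fun _ _ h => h.elim, hze, fun _ _ h => h.elim, ?_⟩
  · intro u
    have h1 : ‖x u‖ ^ 2 = 1 := by rw [← real_inner_self_eq_norm_sq, hx1]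
    exact (pow_eq_one_iff_of_nonneg (norm_nonneg _) two_ne_zero).1 h1
  · rintro (⟨i, j, p, q⟩ | w | δ)
    · have g0 : sn (sgg sg (.inl (i, j, p, q) : GG I W Δ) 0) = 1 := rfl
      have g1 : sn (sgg sg (.inl (i, j, p, q) : GG I W Δ) 1) = 1 := rfl
      have g2 : sn (sgg sg (.inl (i, j, p, q) : GG I W Δ) 2) = -1 := rfl
      have g3 : sn (sgg sg (.inl (i, j, p, q) : GG I W Δ) 3) = -1 := rfl
      rw [Fin.sum_univ_four, g0, g1, g2, g3]
      have e : ∀ r : Fin 4, r ≠ 0 → inner ℝ (x (aa lab sl (.inl (i, j, p, q)) r)) (x (bb lab sl (.inl (i, j, p, q)) r)) =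
          (lsl lab i j p q r).val s := by
        intro r hr
        rw [aa_inl, bb_inl, if_neg (fun h => hr h.1), if_neg (fun h => hr h.1), hval]
      rw [e 1 (by decide), e 2 (by decide), e 3 (by decide)]
      by_cases act : lact lab i j p q = true
      · have e0 : inner ℝ (x (aa lab sl (.inl (i, j, p, q)) 0)) (x (bb lab sl (.inl (i, j, p, q)) 0)) =
            inner ℝ (x (.inl (i, p))) (x (.inl (j, q))) := by
          rw [aa_inl, bb_inl, if_pos ⟨rfl, act⟩, if_pos ⟨rfl, act⟩]
        rw [e0]
        have e1 : inner ℝ (x (.inl (i, p))) (x (.inl (j, q))) = inner ℝ (v i) (v j) +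
            if i = j then sn p * sn q * (1 - ‖v i‖ ^ 2) else 0 := by
          show inner ℝ (vv _ _ _ _ _) (vv _ _ _ _ _) = _
          rw [vv_vv]
          by_cases hij : i = j
          · subst hij
            simp only [if_true, mul_zero, zero_mul, add_zero]
            linear_combination (sn p * sn q) * hv2 i
          · simp [hij]
        rw [e1]
        rcases hw : lab i j with _ | w
        · rw [lact, hw] at act
          simp at act
        · have hh := hvv i j w hw
          by_cases hij : i = j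
          · subst hij
            rw [lact, hw] at act
            simp at act
            obtain ⟨rfl, rfl⟩ := act
            simp only [lsl, hw, if_true, and_self]
            rw [real_inner_self_eq_norm_sq] at hh ⊢
            simp [Sl.val, sn]
            linarith
          · simp only [lsl, hw, hij, if_false]
            simp [Sl.val]
            linarith
      · have e0 : inner ℝ (x (aa lab sl (.inl (i, j, p, q)) 0)) (x (bb lab sl (.inl (i, j, p, q)) 0)) =
            (lsl lab i j p q 0).val s := by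
          rw [aa_inl, bb_inl, if_neg (fun h => act h.2), if_neg (fun h => act h.2), hval]
        rw [e0]
        rcases hw : lab i j with _ | w
        · simp [lsl, hw, Sl.val]
        · have hij : i = j := by
            by_contra hij
            exact act (by simp [lact, hw, hij])
          subst hij
          have hpq : ¬ (p = false ∧ q = true) := by
            rintro ⟨rfl, rfl⟩
            exact act (by simp [lact, hw])
          simp [lsl, hw, hpq, Sl.val]
    · rw [Fin.sum_univ_four]
      have e : ∀ r, inner ℝ (x (aa lab sl (.inr (.inl w)) r)) (x (bb lab sl (.inr (.inl w)) r)) =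
          (if r = 1 then Sl.wire w false else if r = 2 then .wire w true else .nil : Sl W).val s := fun r => hval r _
      rw [e, e, e, e]
      have g1 : sn (sgg sg (.inr (.inl w) : GG I W Δ) 1) = 1 := rfl
      have g2 : sn (sgg sg (.inr (.inl w) : GG I W Δ) 2) = -1 := rfl
      rw [g1, g2]
      simp [Sl.val]
    · have e : ∀ r, inner ℝ (x (aa lab sl (.inr (.inr δ)) r)) (x (bb lab sl (.inr (.inr δ)) r)) = (sl δ r).val s := fun r => hval r _
      rw [sum_congr rfl fun r _ => by rw [e r]]
      exact hl δ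

theorem stage0 {lab : I → I → Option W} {sl : Δ → Fin 4 → Sl W} {sg : Δ → Fin 4 → Bool} :
    NetSat (BV I W) (GG I W Δ) (fun _ _ => False) zeB (fun _ _ => False) (aa lab sl) (bb lab sl) (sgg sg) ↔
      LPSat I W Δ lab sl sg := ⟨LP_of_Net, Net_of_LP⟩

end Pool.Agent.Lib.MP_13b08e_lc.UV
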