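import Pool.Agent.Lib.MP_13b08e_lc.UV.StageB

/-!
# UV / StageA: linear equations between inner products reduce to inner products -1/2, 0, 1/2

For orthonormal `a 0, ..., a 3` the unit vector `w` with `⟨a i, w⟩ = ± 1/2` is the half of the signed sum. Two such vectors
`w₁` (over the `a i`), `w₂` (over the `b i`, with signs) with `⟨a i, b j⟩ = 0` for `i ≠ j` are orthogonal if and only if
`∑ ± ⟨a i, b i⟩ = 0`.
-/

set_option autoImplicit false

open Finset

namespace Pool.Agent.Lib.MP_13b08e_lc.UV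

/-- a sign -/
def sn (t : Bool) : ℝ := if t then -1 else 1

theorem sn_sq (t : Bool) : sn t * sn t = 1 := by cases t <;> simp [sn]

section half

variable {E : Type} [NormedAddCommGroup E] [InnerProductSpace ℝ E]

theorem half_inner (a b : Fin 4 → E) (s t : Fin 4 → ℝ) (hab : ∀ i j, i ≠ j → inner ℝ (a i) (b j) = 0) :
    inner ℝ ((1 / 2 : ℝ) • ∑ i, s i • a i) ((1 / 2 : ℝ) • ∑ i, t i • b i) = (1 / 4) * ∑ i, s i * t i * inner ℝ (a i) (b i) := by
  rw [inner_smul_left, inner_smul_right, sum_inner]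
  have h : ∀ i, inner ℝ (s i • a i) (∑ j, t j • b j) = s i * t i * inner ℝ (a i) (b i) := by
    intro i
    rw [inner_smul_left, inner_sum]
    rw [sum_eq_single i]
    · rw [inner_smul_right]
      simp
      ring
    · intro j _ hj
      rw [inner_smul_right, hab i j (Ne.symm hj), mul_zero]
    · intro h
      exact absurd (mem_univ i) h
  rw [sum_congr rfl fun i _ => h i]
  simp
  ring

theorem half_norm (a : Fin 4 → E) (t : Fin 4 → Bool) (ha : ∀ i, ‖a i‖ = 1) (haa : ∀ i j, i ≠ j → inner ℝ (a i) (a j) = 0) :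
    ‖(1 / 2 : ℝ) • ∑ i, sn (t i) • a i‖ = 1 := by
  have h : ‖(1 / 2 : ℝ) • ∑ i, sn (t i) • a i‖ ^ 2 = 1 := by
    rw [← real_inner_self_eq_norm_sq, half_inner a a _ _ haa]
    have : ∀ i, sn (t i) * sn (t i) * inner ℝ (a i) (a i) = 1 := fun i => by
      rw [sn_sq, real_inner_self_eq_norm_sq, ha i]; norm_num
    rw [sum_congr rfl fun i _ => this i]
    simp
  exact (pow_eq_one_iff_of_nonneg (norm_nonneg _) two_ne_zero).1 h

theorem half_single (a : Fin 4 → E) (t : Fin 4 → Bool) (ha : ∀ i, ‖a i‖ = 1) (haa : ∀ i j, i ≠ j → inner ℝ (a i) (a j) = 0)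
    (i : Fin 4) : inner ℝ (a i) ((1 / 2 : ℝ) • ∑ i, sn (t i) • a i) = sn (t i) / 2 := by
  rw [inner_smul_right, inner_sum, sum_eq_single i]
  · rw [inner_smul_right, real_inner_self_eq_norm_sq, ha i]
    ring
  · intro j _ hj
    rw [inner_smul_right, haa i j (Ne.symm hj), mul_zero]
  · intro h
    exact absurd (mem_univ i) h

theorem half_unique (a : Fin 4 → E) (t : Fin 4 → Bool) (ha : ∀ i, ‖a i‖ = 1) (haa : ∀ i j, i ≠ j → inner ℝ (a i) (a j) = 0)
    (w : E) (hw : ‖w‖ = 1) (haw : ∀ i, inner ℝ (a i) w = sn (t i) / 2) : w = (1 / 2 : ℝ) • ∑ i, sn (t i) • a i := by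
  have h1 : inner ℝ ((1 / 2 : ℝ) • ∑ i, sn (t i) • a i) w = 1 := by
    rw [inner_smul_left, sum_inner]
    have : ∀ i, inner ℝ (sn (t i) • a i) w = 1 / 2 := fun i => by
      rw [inner_smul_left, haw i]
      have := sn_sq (t i)
      simp
      linarith
    rw [sum_congr rfl fun i _ => this i]
    simp
    norm_num
  have h2 := half_norm a t ha haa
  have h3 : ‖w - (1 / 2 : ℝ) • ∑ i, sn (t i) • a i‖ ^ 2 = 0 := by
    rw [norm_sub_sq_real, hw, h2, real_inner_comm, h1]
    norm_num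
  have h4 := (pow_eq_zero_iff two_ne_zero).1 h3
  exact sub_eq_zero.1 (norm_eq_zero.1 h4)

end half

/-- unit vectors with prescribed inner products and four-term linear equations between inner products -/
def NetSat (V Γ : Type) (ng ze ha : V → V → Prop) (a b : Γ → Fin 4 → V) (sg : Γ → Fin 4 → Bool) : Prop :=
  ∃ (E : Type) (_ : NormedAddCommGroup E) (_ : InnerProductSpace ℝ E) (x : V → E), (∀ v, ‖x v‖ = 1) ∧
    (∀ u v, ng u v → inner ℝ (x u) (x v) = -1 / 2) ∧ (∀ u v, ze u v → inner ℝ (x u) (x v) = 0) ∧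
    (∀ u v, ha u v → inner ℝ (x u) (x v) = 1 / 2) ∧
    ∀ γ, ∑ i, sn (sg γ i) * inner ℝ (x (a γ i)) (x (b γ i)) = 0

variable {V Γ : Type}

/-- the new relations -/
def ngA (ng : V → V → Prop) (b : Γ → Fin 4 → V) (sg : Γ → Fin 4 → Bool) : V ⊕ Γ × Bool → V ⊕ Γ × Bool → Prop
  | .inl u, .inl v => ng u v
  | .inl v, .inr (γ, true) => ∃ i, b γ i = v ∧ sg γ i = true
  | _, _ => False

/-- the new relations -/
def haA (ha : V → V → Prop) (a b : Γ → Fin 4 → V) (sg : Γ → Fin 4 → Bool) : V ⊕ Γ × Bool → V ⊕ Γ × Bool → Prop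
  | .inl u, .inl v => ha u v
  | .inl v, .inr (γ, false) => ∃ i, a γ i = v
  | .inl v, .inr (γ, true) => ∃ i, b γ i = v ∧ sg γ i = false
  | _, _ => False

/-- the new relations -/
def zeA (ze : V → V → Prop) : V ⊕ Γ × Bool → V ⊕ Γ × Bool → Prop
  | .inl u, .inl v => ze u v
  | .inr (γ, false), .inr (γ', true) => γ = γ'
  | _, _ => False

theorem net_data {ng ze ha : V → V → Prop} {a b : Γ → Fin 4 → V} {sg : Γ → Fin 4 → Bool}
    (h1 : ∀ γ i j, i ≠ j → ze (a γ i) (a γ j)) (h2 : ∀ γ i j, i ≠ j → ze (b γ i) (b γ j))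
    (h3 : ∀ γ i j, i ≠ j → ze (a γ i) (b γ j)) {E : Type} [NormedAddCommGroup E] [InnerProductSpace ℝ E]
    {x : V ⊕ Γ × Bool → E} (hx : ∀ v, ‖x v‖ = 1) (hn : ∀ u v, ngA ng b sg u v → inner ℝ (x u) (x v) = -1 / 2)
    (hz : ∀ u v, zeA ze u v → inner ℝ (x u) (x v) = 0) (hh : ∀ u v, haA ha a b sg u v → inner ℝ (x u) (x v) = 1 / 2) (γ : Γ) :
    ∑ i, sn (sg γ i) * inner ℝ (x (.inl (a γ i))) (x (.inl (b γ i))) = 0 := by
  have hz' : ∀ u v, ze u v → inner ℝ (x (.inl u)) (x (.inl v)) = 0 := fun u v h => hz (.inl u) (.inl v) h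
  have e1 := half_unique (fun i => x (.inl (a γ i))) (fun _ => false) (fun i => hx _) (fun i j hij => hz' _ _ (h1 γ i j hij))
    (x (.inr (γ, false))) (hx _) (fun i => by
      rw [hh (.inl (a γ i)) (.inr (γ, false)) ⟨i, rfl⟩]
      simp [sn])
  have e2 := half_unique (fun i => x (.inl (b γ i))) (sg γ) (fun i => hx _) (fun i j hij => hz' _ _ (h2 γ i j hij))
    (x (.inr (γ, true))) (hx _) (fun i => by
      cases hs : sg γ i
      · rw [hh (.inl (b γ i)) (.inr (γ, true)) ⟨i, rfl, hs⟩]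
        simp [sn]
      · rw [hn (.inl (b γ i)) (.inr (γ, true)) ⟨i, rfl, hs⟩]
        simp [sn])
  have e3 := hz (.inr (γ, false)) (.inr (γ, true)) rfl
  rw [e1, e2, half_inner _ _ _ _ (fun i j hij => hz' _ _ (h3 γ i j hij))] at e3
  have e4 : ∀ i, sn false * sn (sg γ i) * inner ℝ (x (.inl (a γ i))) (x (.inl (b γ i))) =
      sn (sg γ i) * inner ℝ (x (.inl (a γ i))) (x (.inl (b γ i))) := fun i => by simp [sn]
  rw [sum_congr rfl fun i _ => e4 i] at e3
  linarith

theorem stageA {ng ze ha : V → V → Prop} {a b : Γ → Fin 4 → V} {sg : Γ → Fin 4 → Bool}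
    (h1 : ∀ γ i j, i ≠ j → ze (a γ i) (a γ j)) (h2 : ∀ γ i j, i ≠ j → ze (b γ i) (b γ j))
    (h3 : ∀ γ i j, i ≠ j → ze (a γ i) (b γ j)) :
    R3 (V ⊕ Γ × Bool) (ngA ng b sg) (zeA ze) (haA ha a b sg) ↔ NetSat V Γ ng ze ha a b sg := by
  constructor
  · rintro ⟨E, i1, i2, x, hx, hn, hz, hh⟩
    have hz' : ∀ u v, ze u v → inner ℝ (x (.inl u)) (x (.inl v)) = 0 := fun u v h => hz (.inl u) (.inl v) h
    exact ⟨E, i1, i2, fun v => x (.inl v), fun v => hx _, fun u v h => hn (.inl u) (.inl v) h, hz',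
      fun u v h => hh (.inl u) (.inl v) h, net_data h1 h2 h3 hx hn hz hh⟩
  · rintro ⟨E, i1, i2, x, hx, hn, hz, hh, hl⟩
    let y : V ⊕ Γ × Bool → E := fun v => match v with
      | .inl v => x v
      | .inr (γ, false) => (1 / 2 : ℝ) • ∑ i, sn false • x (a γ i)
      | .inr (γ, true) => (1 / 2 : ℝ) • ∑ i, sn (sg γ i) • x (b γ i)
    refine ⟨E, i1, i2, y, ?_, ?_, ?_, ?_⟩
    · rintro (v | ⟨γ, _ | _⟩)
      · exact hx v
      · exact half_norm (fun i => x (a γ i)) (fun _ => false) (fun i => hx _) (fun i j hij => hz _ _ (h1 γ i j hij))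
      · exact half_norm (fun i => x (b γ i)) (sg γ) (fun i => hx _) (fun i j hij => hz _ _ (h2 γ i j hij))
    · rintro (u | ⟨γ, _ | _⟩) (v | ⟨γ', _ | _⟩) h
      · exact hn u v h
      · exact h.elim
      · obtain ⟨i, rfl, hs⟩ := h
        have := half_single (fun i => x (b γ' i)) (sg γ') (fun i => hx _) (fun i j hij => hz _ _ (h2 γ' i j hij)) i
        show inner ℝ (x (b γ' i)) _ = -1 / 2
        rw [this, hs]
        simp [sn]
      all_goals exact h.elim
    · rintro (u | ⟨γ, _ | _⟩) (v | ⟨γ', _ | _⟩) h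
      · exact hz u v h
      · exact h.elim
      · exact h.elim
      · exact h.elim
      · exact h.elim
      · obtain rfl : γ = γ' := h
        have := half_inner (fun i => x (a γ i)) (fun i => x (b γ i)) (fun _ => sn false) (fun i => sn (sg γ i))
          (fun i j hij => hz _ _ (h3 γ i j hij))
        show inner ℝ ((1 / 2 : ℝ) • ∑ i, sn false • x (a γ i)) ((1 / 2 : ℝ) • ∑ i, sn (sg γ i) • x (b γ i)) = 0
        rw [this]
        have e4 : ∀ i, sn false * sn (sg γ i) * inner ℝ (x (a γ i)) (x (b γ i)) =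
            sn (sg γ i) * inner ℝ (x (a γ i)) (x (b γ i)) := fun i => by simp [sn]
        rw [sum_congr rfl fun i _ => e4 i, hl γ, mul_zero]
      all_goals exact h.elim
    · rintro (u | ⟨γ, _ | _⟩) (v | ⟨γ', _ | _⟩) h
      · exact hh u v h
      · obtain ⟨i, rfl⟩ := h
        have := half_single (fun i => x (a γ' i)) (fun _ => false) (fun i => hx _) (fun i j hij => hz _ _ (h1 γ' i j hij)) i
        show inner ℝ (x (a γ' i)) _ = 1 / 2
        rw [this]
        simp [sn]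
      · obtain ⟨i, rfl, hs⟩ := h
        have := half_single (fun i => x (b γ' i)) (sg γ') (fun i => hx _) (fun i j hij => hz _ _ (h2 γ' i j hij)) i
        show inner ℝ (x (b γ' i)) _ = 1 / 2
        rw [this, hs]
        simp [sn]
      all_goals exact h.elim

end Pool.Agent.Lib.MP_13b08e_lc.UV
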