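import Pool.Agent.Lib.MP_13b08e_lc.UV.Simplex

/-!
# UV / StageB: inner products -1/2, 0, 1/2 reduce to inner products -1/2
-/

set_option autoImplicit false

namespace Pool.Agent.Lib.MP_13b08e_lc.UV

/-- unit vectors at 120 degrees along the relation -/
def VC (V : Type) (ad : V → V → Prop) : Prop :=
  ∃ (E : Type) (_ : NormedAddCommGroup E) (_ : InnerProductSpace ℝ E) (x : V → E), (∀ v, ‖x v‖ = 1) ∧
    ∀ u v, ad u v → inner ℝ (x u) (x v) = -1 / 2

/-- unit vectors with prescribed inner products `-1/2`, `0`, `1/2` -/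
def R3 (V : Type) (ng ze ha : V → V → Prop) : Prop :=
  ∃ (E : Type) (_ : NormedAddCommGroup E) (_ : InnerProductSpace ℝ E) (x : V → E), (∀ v, ‖x v‖ = 1) ∧
    (∀ u v, ng u v → inner ℝ (x u) (x v) = -1 / 2) ∧ (∀ u v, ze u v → inner ℝ (x u) (x v) = 0) ∧
    ∀ u v, ha u v → inner ℝ (x u) (x v) = 1 / 2

/-- the vertices of the new graph: for every pair and each of the values `0`, `1/2` twenty vertices (and five isolated ones) -/
abbrev VB (V : Type) := V ⊕ (V × V × Bool × Fin 5 × Fin 5)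

/-- the edges of the new graph -/
def AdB {V : Type} (ng ze ha : V → V → Prop) : VB V → VB V → Prop
  | .inl u, .inl v => ng u v
  | .inl w, .inr (u, v, t, i, j) => (if t then ha u v else ze u v) ∧
      ((w = u ∧ ((i = 1 ∧ j = 2) ∨ (i = 2 ∧ j = 0))) ∨
        (w = v ∧ (if t then (i = 2 ∧ j = 3) ∨ (i = 3 ∧ j = 0) else (i = 3 ∧ j = 4) ∨ (i = 4 ∧ j = 2))))
  | .inr (u, v, t, i, j), .inr (u', v', t', j', k) => u = u' ∧ v = v' ∧ t = t' ∧ j = j' ∧ i ≠ j ∧ j ≠ k ∧ i ≠ k
  | .inr _, .inl _ => False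

variable {V : Type} {ng ze ha : V → V → Prop}

theorem R3_data {E : Type} [NormedAddCommGroup E] [InnerProductSpace ℝ E] {x : VB V → E} (hx : ∀ v, ‖x v‖ = 1)
    (he : ∀ u v, AdB ng ze ha u v → inner ℝ (x u) (x v) = -1 / 2) :
    (∀ u v, ng u v → inner ℝ (x (.inl u)) (x (.inl v)) = -1 / 2) ∧ (∀ u v, ze u v → inner ℝ (x (.inl u)) (x (.inl v)) = 0) ∧
    ∀ u v, ha u v → inner ℝ (x (.inl u)) (x (.inl v)) = 1 / 2 := by
  have hcfg : ∀ (u v : V) (t : Bool), Cfg (fun i j => x (.inr (u, v, t, i, j))) := fun u v t =>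
    ⟨fun i j _ => hx _, fun i j k hij hjk hik => he _ _ (show AdB ng ze ha (.inr (u, v, t, i, j)) (.inr (u, v, t, j, k)) from
      ⟨rfl, rfl, rfl, rfl, hij, hjk, hik⟩)⟩
  refine ⟨fun u v huv => he _ _ huv, fun u v huv => ?_, fun u v huv => ?_⟩
  · have c := hcfg u v false
    have e1 : x (.inl u) = x (.inr (u, v, false, 0, 1)) := by
      have h1 := clone (w := x (.inl u)) (hx (.inr (u, v, false, 1, 2))) (hx (.inr (u, v, false, 2, 0))) (hx _)
        (c.adj 1 2 0 (by decide) (by decide) (by decide))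
        (he _ _ (show AdB ng ze ha (.inl u) (.inr (u, v, false, 1, 2)) from ⟨huv, Or.inl ⟨rfl, Or.inl ⟨rfl, rfl⟩⟩⟩))
        (he _ _ (show AdB ng ze ha (.inl u) (.inr (u, v, false, 2, 0)) from ⟨huv, Or.inl ⟨rfl, Or.inr ⟨rfl, rfl⟩⟩⟩))
      have h2 := c.sum (i := 0) (j := 1) (k := 2) (by decide) (by decide) (by decide)
      rw [h1, ← sub_eq_zero, ← neg_eq_zero, ← h2]
      abel
    have e2 : x (.inl v) = x (.inr (u, v, false, 2, 3)) := by
      have h1 := clone (w := x (.inl v)) (hx (.inr (u, v, false, 3, 4))) (hx (.inr (u, v, false, 4, 2))) (hx _)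
        (c.adj 3 4 2 (by decide) (by decide) (by decide))
        (he _ _ (show AdB ng ze ha (.inl v) (.inr (u, v, false, 3, 4)) from ⟨huv, Or.inr ⟨rfl, Or.inl ⟨rfl, rfl⟩⟩⟩))
        (he _ _ (show AdB ng ze ha (.inl v) (.inr (u, v, false, 4, 2)) from ⟨huv, Or.inr ⟨rfl, Or.inr ⟨rfl, rfl⟩⟩⟩))
      have h2 := c.sum (i := 2) (j := 3) (k := 4) (by decide) (by decide) (by decide)
      rw [h1, ← sub_eq_zero, ← neg_eq_zero, ← h2]
      abel
    show inner ℝ (x (.inl u)) (x (.inl v)) = 0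
    rw [e1, e2]
    exact c.zero
  · have c := hcfg u v true
    have e1 : x (.inl u) = x (.inr (u, v, true, 0, 1)) := by
      have h1 := clone (w := x (.inl u)) (hx (.inr (u, v, true, 1, 2))) (hx (.inr (u, v, true, 2, 0))) (hx _)
        (c.adj 1 2 0 (by decide) (by decide) (by decide))
        (he _ _ (show AdB ng ze ha (.inl u) (.inr (u, v, true, 1, 2)) from ⟨huv, Or.inl ⟨rfl, Or.inl ⟨rfl, rfl⟩⟩⟩))
        (he _ _ (show AdB ng ze ha (.inl u) (.inr (u, v, true, 2, 0)) from ⟨huv, Or.inl ⟨rfl, Or.inr ⟨rfl, rfl⟩⟩⟩))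
      have h2 := c.sum (i := 0) (j := 1) (k := 2) (by decide) (by decide) (by decide)
      rw [h1, ← sub_eq_zero, ← neg_eq_zero, ← h2]
      abel
    have e2 : x (.inl v) = x (.inr (u, v, true, 0, 2)) := by
      have h1 := clone (w := x (.inl v)) (hx (.inr (u, v, true, 2, 3))) (hx (.inr (u, v, true, 3, 0))) (hx _)
        (c.adj 2 3 0 (by decide) (by decide) (by decide))
        (he _ _ (show AdB ng ze ha (.inl v) (.inr (u, v, true, 2, 3)) from ⟨huv, Or.inr ⟨rfl, Or.inl ⟨rfl, rfl⟩⟩⟩))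
        (he _ _ (show AdB ng ze ha (.inl v) (.inr (u, v, true, 3, 0)) from ⟨huv, Or.inr ⟨rfl, Or.inr ⟨rfl, rfl⟩⟩⟩))
      have h2 := c.sum (i := 0) (j := 2) (k := 3) (by decide) (by decide) (by decide)
      rw [h1, ← sub_eq_zero, ← neg_eq_zero, ← h2]
      abel
    show inner ℝ (x (.inl u)) (x (.inl v)) = 1 / 2
    rw [e1, e2]
    exact c.half

theorem R3_of_VC (h : VC (VB V) (AdB ng ze ha)) : R3 V ng ze ha := by
  obtain ⟨E, i1, i2, x, hx, he⟩ := h
  exact ⟨E, i1, i2, fun u => x (.inl u), fun v => hx _, R3_data hx he⟩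

section ext

variable {E : Type} [NormedAddCommGroup E] [InnerProductSpace ℝ E]

/-- four more dimensions -/
abbrev FF (E : Type) := WithLp 2 (E × EuclideanSpace ℝ (Fin 4))

/-- the old vectors -/
def io (x : E) : FF E := WithLp.toLp 2 (x, 0)

/-- the new unit vectors -/
noncomputable def ep (i : Fin 4) : FF E := WithLp.toLp 2 (0, EuclideanSpace.single i 1)

theorem io_io (x y : E) : inner ℝ (io x) (io y) = inner ℝ x y := by
  simp [io, WithLp.prod_inner_apply]

theorem io_ep (x : E) (i : Fin 4) : inner ℝ (io x) (ep i : FF E) = 0 := by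
  simp [io, ep, WithLp.prod_inner_apply]

theorem ep_ep (i j : Fin 4) : inner ℝ (ep i : FF E) (ep j) = if i = j then 1 else 0 := by
  simp [ep, WithLp.prod_inner_apply, EuclideanSpace.inner_single_left, PiLp.single_apply, eq_comm]

theorem io_norm {x : E} (hx : ‖x‖ = 1) : ‖io x‖ = 1 := by
  have h : ‖io x‖ ^ 2 = 1 := by rw [← real_inner_self_eq_norm_sq, io_io, real_inner_self_eq_norm_sq, hx, one_pow]
  exact (pow_eq_one_iff_of_nonneg (norm_nonneg _) two_ne_zero).1 h

theorem ep_norm (i : Fin 4) : ‖(ep i : FF E)‖ = 1 := by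
  have h : ‖(ep i : FF E)‖ ^ 2 = 1 := by rw [← real_inner_self_eq_norm_sq, ep_ep, if_pos rfl]
  exact (pow_eq_one_iff_of_nonneg (norm_nonneg _) two_ne_zero).1 h

end ext

theorem VC_of_R3 (h : R3 V ng ze ha) : VC (VB V) (AdB ng ze ha) := by
  classical
  obtain ⟨E, i1, i2, x, hx, hn, hz, hh⟩ := h
  have key : ∀ c : V × V × Bool, ∃ R : Fin 5 → Fin 5 → FF E, Cfg R ∧
      ((if c.2.2 then ha c.1 c.2.1 else ze c.1 c.2.1) → R 0 1 = io (x c.1) ∧ (if c.2.2 then R 0 2 else R 2 3) = io (x c.2.1)) := by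
    rintro ⟨u, v, t⟩
    by_cases hc : (if t then ha u v else ze u v)
    · cases t
      · obtain ⟨R, h1, h2, h3⟩ := ex_zero (u := io (x u)) (v := io (x v)) (e := ep 0) (f := ep 1) (io_norm (hx u)) (io_norm (hx v))
          (ep_norm 0) (ep_norm 1) (by rw [io_io]; exact hz u v hc) (io_ep _ _) (io_ep _ _) (io_ep _ _) (io_ep _ _)
          (by rw [ep_ep]; rfl)
        exact ⟨R, h1, fun _ => ⟨h2, h3⟩⟩
      · obtain ⟨R, h1, h2, h3⟩ := ex_half (u := io (x u)) (v := io (x v)) (e := ep 0) (f := ep 1) (io_norm (hx u)) (io_norm (hx v))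
          (ep_norm 0) (ep_norm 1) (by rw [io_io]; exact hh u v hc) (io_ep _ _) (io_ep _ _) (io_ep _ _) (io_ep _ _)
          (by rw [ep_ep]; rfl)
        exact ⟨R, h1, fun _ => ⟨h2, h3⟩⟩
    · obtain ⟨R, h1, _, _⟩ := ex_zero (E := FF E) (u := ep 2) (v := ep 3) (e := ep 0) (f := ep 1) (ep_norm 2) (ep_norm 3) (ep_norm 0)
        (ep_norm 1) (by rw [ep_ep]; rfl) (by rw [ep_ep]; rfl) (by rw [ep_ep]; rfl) (by rw [ep_ep]; rfl) (by rw [ep_ep]; rfl)
        (by rw [ep_ep]; rfl)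
      exact ⟨R, h1, fun h => absurd h hc⟩
  choose R hR1 hR2 using key
  let y : VB V → FF E := fun a => match a with
    | .inl u => io (x u)
    | .inr (u, v, t, i, j) => if i = j then ep 0 else R (u, v, t) i j
  have yr : ∀ u v t i j, i ≠ j → y (.inr (u, v, t, i, j)) = R (u, v, t) i j := fun u v t i j hij => if_neg hij
  refine ⟨FF E, inferInstance, inferInstance, y, ?_, ?_⟩
  · rintro (u | ⟨u, v, t, i, j⟩)
    · exact io_norm (hx u)
    · by_cases hij : i = j
      · have : y (.inr (u, v, t, i, j)) = ep 0 := if_pos hij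
        rw [this]
        exact ep_norm 0
      · rw [yr u v t i j hij]
        exact (hR1 (u, v, t)).unit i j hij
  · rintro (w | ⟨u, v, t, i, j⟩) (w' | ⟨u', v', t', j', k⟩) had
    · show inner ℝ (io (x w)) (io (x w')) = -1 / 2
      rw [io_io]
      exact hn w w' had
    · obtain ⟨hc, hw⟩ := had
      obtain ⟨r1, r2⟩ := hR2 (u', v', t') hc
      have C := hR1 (u', v', t')
      show inner ℝ (io (x w)) _ = -1 / 2
      rcases hw with ⟨rfl, hw⟩ | ⟨rfl, hw⟩
      · rcases hw with ⟨rfl, rfl⟩ | ⟨rfl, rfl⟩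
        · rw [yr _ _ _ _ _ (by decide), ← r1]
          exact C.adj 0 1 2 (by decide) (by decide) (by decide)
        · rw [yr _ _ _ _ _ (by decide), ← r1, real_inner_comm]
          exact C.adj 2 0 1 (by decide) (by decide) (by decide)
      · cases t'
        · rcases hw with ⟨rfl, rfl⟩ | ⟨rfl, rfl⟩
          · rw [yr _ _ _ _ _ (by decide), ← r2]
            exact C.adj 2 3 4 (by decide) (by decide) (by decide)
          · rw [yr _ _ _ _ _ (by decide), ← r2, real_inner_comm]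
            exact C.adj 4 2 3 (by decide) (by decide) (by decide)
        · rcases hw with ⟨rfl, rfl⟩ | ⟨rfl, rfl⟩
          · rw [yr _ _ _ _ _ (by decide), ← r2]
            exact C.adj 0 2 3 (by decide) (by decide) (by decide)
          · rw [yr _ _ _ _ _ (by decide), ← r2, real_inner_comm]
            exact C.adj 3 0 2 (by decide) (by decide) (by decide)
    · exact had.elim
    · obtain ⟨rfl, rfl, rfl, rfl, hij, hjk, hik⟩ := had
      rw [yr _ _ _ _ _ hij, yr _ _ _ _ _ hjk]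
      exact (hR1 (u, v, t)).adj i j k hij hjk hik

theorem stageB : VC (VB V) (AdB ng ze ha) ↔ R3 V ng ze ha := ⟨R3_of_VC, VC_of_R3⟩

end Pool.Agent.Lib.MP_13b08e_lc.UV
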