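import Pool.Agent.Lib.MP_13b08e_lc.UV.Cone
import Pool.Agent.Lib.MP_13b08e_lc.UV.Inst

/-!
# UV / Theta: vector colourings and the theta function of the complement
-/

set_option autoImplicit false

open Filter Topology

namespace Pool.Agent.Lib.MP_13b08e_lc.UV

variable {V : Type} [Fintype V]

theorem rep_vectors {G : SimpleGraph V} {φ : ℝ → Prop} (h : Rep G φ) : ∃ u : V → EuclideanSpace ℝ V, (∀ v, ‖u v‖ = 1) ∧
    ∀ v w, G.Adj v w → φ (inner ℝ (u v) (u w)) := by
  classical
  obtain ⟨E, i1, i2, x, hx, he⟩ := h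
  obtain ⟨u, hu⟩ := gram_of_psd (Matrix.of fun i j => inner ℝ (x i) (x j)) (psd_of_gram x _ fun i j => rfl)
  refine ⟨u, fun v => ?_, fun v w hvw => ?_⟩
  · have h3 : ‖u v‖ ^ 2 = 1 := by
      rw [← real_inner_self_eq_norm_sq, hu, Matrix.of_apply, real_inner_self_eq_norm_sq, hx, one_pow]
    exact (pow_eq_one_iff_of_nonneg (norm_nonneg _) two_ne_zero).1 h3
  · rw [hu, Matrix.of_apply]
    exact he v w hvw

theorem rep_iff_vectors {G : SimpleGraph V} {φ : ℝ → Prop} : Rep G φ ↔ ∃ u : V → EuclideanSpace ℝ V, (∀ v, ‖u v‖ = 1) ∧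
    ∀ v w, G.Adj v w → φ (inner ℝ (u v) (u w)) :=
  ⟨rep_vectors, fun ⟨u, h1, h2⟩ => ⟨_, inferInstance, inferInstance, u, h1, h2⟩⟩

theorem inElliptope_const (G : SimpleGraph V) (q : ℚ) : InElliptope G (fun _ => q) ↔ Rep G (fun r => r = (q : ℝ)) := by
  classical
  constructor
  · rintro ⟨X, hX⟩
    obtain ⟨x, hx⟩ := gram_of_psd X hX.psd
    refine ⟨_, inferInstance, inferInstance, x, fun v => ?_, fun u v huv => ?_⟩
    · have h3 : ‖x v‖ ^ 2 = 1 := by rw [← real_inner_self_eq_norm_sq, hx, hX.diag]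
      exact (pow_eq_one_iff_of_nonneg (norm_nonneg _) two_ne_zero).1 h3
    · rw [hx]
      exact hX.edge u v huv
  · rintro ⟨E, i1, i2, x, hx, he⟩
    refine ⟨Matrix.of fun u v => inner ℝ (x u) (x v), ⟨psd_of_gram x _ fun i j => rfl, fun v => ?_, fun u v huv => ?_⟩⟩
    · rw [Matrix.of_apply, real_inner_self_eq_norm_sq, hx, one_pow]
    · rw [Matrix.of_apply]
      exact he u v huv

/-! ### the infimum is attained -/

theorem rep_closed {G : SimpleGraph V} {t : ℝ} (ht : 1 < t)
    (h : ∀ n : ℕ, Rep G (fun r => r = -1 / (t + 1 / ((n : ℝ) + 1) - 1))) : Rep G (fun r => r = -1 / (t - 1)) := by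
  have h' : ∀ n : ℕ, ∃ u : V → EuclideanSpace ℝ V, (∀ v, ‖u v‖ = 1) ∧
    ∀ v w, G.Adj v w → inner ℝ (u v) (u w) = -1 / (t + 1 / ((n : ℝ) + 1) - 1) := fun n => rep_vectors (h n)
  choose u hu1 hu2 using h'
  have hK : IsCompact (Set.pi Set.univ fun _ : V => Metric.sphere (0 : EuclideanSpace ℝ V) 1) :=
    isCompact_univ_pi fun _ => isCompact_sphere _ _
  have hmem : ∀ n, u n ∈ Set.pi Set.univ fun _ : V => Metric.sphere (0 : EuclideanSpace ℝ V) 1 := fun n v _ => by
    rw [mem_sphere_zero_iff_norm]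
    exact hu1 n v
  obtain ⟨w, hw, φ, hφ, hlim⟩ := hK.tendsto_subseq hmem
  have hlimv : ∀ v, Tendsto (fun n => u (φ n) v) atTop (𝓝 (w v)) := fun v => (tendsto_pi_nhds.1 hlim) v
  refine ⟨_, inferInstance, inferInstance, w, fun v => ?_, fun v v' hv => ?_⟩
  · have := hw v (Set.mem_univ _)
    rwa [mem_sphere_zero_iff_norm] at this
  · have h1 : Tendsto (fun n => inner ℝ (u (φ n) v) (u (φ n) v')) atTop (𝓝 (inner ℝ (w v) (w v'))) := (hlimv v).inner (hlimv v')
    have h2 : Tendsto (fun n : ℕ => -1 / (t + 1 / ((n : ℝ) + 1) - 1)) atTop (𝓝 (-1 / (t + 0 - 1))) := by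
      refine Tendsto.div tendsto_const_nhds ((tendsto_const_nhds.add tendsto_one_div_add_atTop_nhds_zero_nat).sub
        tendsto_const_nhds) ?_
      linarith
    rw [add_zero] at h2
    have h3 := h2.comp hφ.tendsto_atTop
    refine tendsto_nhds_unique h1 (h3.congr fun n => ?_)
    exact (hu2 (φ n) v v' hv).symm

/-! ### orthonormal representations -/

/-- an orthonormal representation of value at most `t`, in some inner product space -/
def Orth (H : SimpleGraph V) (t : ℝ) : Prop :=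
  ∃ (E : Type) (_ : NormedAddCommGroup E) (_ : InnerProductSpace ℝ E) (c : E) (u : V → E), ‖c‖ = 1 ∧ (∀ i, ‖u i‖ = 1) ∧
    (∀ i j, i ≠ j → ¬ H.Adj i j → inner ℝ (u i) (u j) = 0) ∧ ∀ i, 1 ≤ t * inner ℝ c (u i) ^ 2

/-- the dimension can be taken finite -/
theorem orth_fin {H : SimpleGraph V} {t : ℝ} (h : Orth H t) :
    ∃ (d : ℕ) (c : EuclideanSpace ℝ (Fin d)) (u : V → EuclideanSpace ℝ (Fin d)), ‖c‖ = 1 ∧ (∀ i, ‖u i‖ = 1) ∧
    (∀ i j, i ≠ j → ¬ H.Adj i j → inner ℝ (u i) (u j) = 0) ∧ ∀ i, 1 ≤ t * inner ℝ c (u i) ^ 2 := by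
  classical
  obtain ⟨E, i1, i2, c, u, hc, hu, ho, ht⟩ := h
  let z : Option V → E := fun o => o.elim c u
  let e : Option V ≃ Fin (Fintype.card (Option V)) := Fintype.equivFin _
  obtain ⟨w, hw⟩ := gram_of_psd (Matrix.of fun i j : Fin (Fintype.card (Option V)) => inner ℝ (z (e.symm i)) (z (e.symm j)))
    (psd_of_gram (fun i => z (e.symm i)) _ fun i j => rfl)
  have hw' : ∀ o o' : Option V, inner ℝ (w (e o)) (w (e o')) = inner ℝ (z o) (z o') := by
    intro o o'
    rw [hw, Matrix.of_apply, e.symm_apply_apply, e.symm_apply_apply]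
  have hn : ∀ o : Option V, ‖z o‖ = 1 → ‖w (e o)‖ = 1 := by
    intro o ho
    have h3 : ‖w (e o)‖ ^ 2 = 1 := by
      rw [← real_inner_self_eq_norm_sq, hw', real_inner_self_eq_norm_sq, ho, one_pow]
    exact (pow_eq_one_iff_of_nonneg (norm_nonneg _) two_ne_zero).1 h3
  refine ⟨_, w (e none), fun i => w (e (some i)), hn none hc, fun i => hn (some i) (hu i), fun i j hij hadj => ?_, fun i => ?_⟩
  · rw [hw']
    exact ho i j hij hadj
  · rw [hw']
    exact ht i

theorem orth_mono {H : SimpleGraph V} {t t' : ℝ} (htt : t ≤ t') (h : Orth H t) : Orth H t' := by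
  obtain ⟨E, i1, i2, c, u, hc, hu, ho, ht⟩ := h
  exact ⟨E, i1, i2, c, u, hc, hu, ho, fun i => (ht i).trans (mul_le_mul_of_nonneg_right htt (sq_nonneg _))⟩

/-- strict vector colourings give orthonormal representations -/
theorem orth_of_rep {H : SimpleGraph V} {t : ℝ} (ht : 1 < t) (h : Rep Hᶜ (fun r => r = -1 / (t - 1))) : Orth H t := by
  obtain ⟨E, i1, i2, x, hx, he⟩ := h
  have ht0 : 0 < t := by linarith
  obtain ⟨s, hs⟩ : ∃ s : ℝ, s * s = (t - 1) / t :=
    ⟨√((t - 1) / t), Real.mul_self_sqrt (div_nonneg (by linarith) ht0.le)⟩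
  obtain ⟨p, hp⟩ : ∃ p : ℝ, p * p = 1 / t := ⟨√(1 / t), Real.mul_self_sqrt (by positivity)⟩
  have hep : inner ℝ (ep 0 : FF E) (ep 0) = 1 := by rw [ep_ep]; rfl
  have hei : ∀ v : E, inner ℝ (ep 0 : FF E) (io v) = 0 := fun v => by rw [real_inner_comm, io_ep]
  have key : ∀ u v : V, inner ℝ (s • io (x u) + p • (ep 0 : FF E)) (s • io (x v) + p • (ep 0 : FF E)) =
      (t - 1) / t * inner ℝ (x u) (x v) + 1 / t := by
    intro u v
    simp only [inner_add_left, inner_add_right, inner_smul_left, inner_smul_right, io_io, io_ep, hep, hei]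
    rw [← hs, ← hp]
    simp
    ring
  refine ⟨FF E, inferInstance, inferInstance, ep 0, fun v => s • io (x v) + p • ep 0, ep_norm 0, fun v => ?_, fun u v huv hadj => ?_,
    fun v => ?_⟩
  · have h2 : ‖s • io (x v) + p • (ep 0 : FF E)‖ ^ 2 = 1 := by
      rw [← real_inner_self_eq_norm_sq, key, real_inner_self_eq_norm_sq, hx]
      field_simp
      ring
    exact (pow_eq_one_iff_of_nonneg (norm_nonneg _) two_ne_zero).1 h2
  · rw [key, he u v (by rw [SimpleGraph.compl_adj]; exact ⟨huv, hadj⟩)]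
    have h1 : t - 1 ≠ 0 := by linarith
    field_simp
    ring
  · have h3 : inner ℝ (ep 0 : FF E) (s • io (x v) + p • (ep 0 : FF E)) = p := by
      simp only [inner_add_right, inner_smul_right, hep, hei]
      ring
    rw [h3, pow_two, hp]
    rw [mul_one_div_cancel ht0.ne']

/-- orthonormal representations give strict vector colourings -/
theorem rep_of_orth {H : SimpleGraph V} {t : ℝ} (ht : 1 < t) (h : Orth H t) : Rep Hᶜ (fun r => r = -1 / (t - 1)) := by
  classical
  obtain ⟨E, i1, i2, c, u, hc, hu, ho, hv⟩ := h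
  have ht0 : 0 < t := by linarith
  have hs0 : 0 < 1 - 1 / t := by
    rw [sub_pos, div_lt_one ht0]
    exact ht
  obtain ⟨s, hs⟩ : ∃ s : ℝ, s * s = (1 - 1 / t)⁻¹ := ⟨√((1 - 1 / t)⁻¹), Real.mul_self_sqrt (inv_nonneg.2 hs0.le)⟩
  obtain ⟨p, hp⟩ : ∃ p : ℝ, p * p = 1 / t := ⟨√(1 / t), Real.mul_self_sqrt (by positivity)⟩
  let a : V → ℝ := fun i => inner ℝ c (u i)
  have ha : ∀ i, 1 / t ≤ a i * a i := by
    intro i
    have h1 := hv i
    have h2 : a i = inner ℝ c (u i) := rfl
    rw [div_le_iff₀ ht0]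
    rw [← h2] at h1
    linarith
  have ha0 : ∀ i, a i ≠ 0 := by
    intro i h
    have h1 := ha i
    rw [h, mul_zero] at h1
    have : 0 < 1 / t := by positivity
    linarith
  let b : V → ℝ := fun i => √(1 - (p / a i) * (p / a i))
  have hb : ∀ i, b i * b i = 1 - (p / a i) * (p / a i) := by
    intro i
    refine Real.mul_self_sqrt ?_
    rw [sub_nonneg]
    have e : p / a i * (p / a i) = (1 / t) / (a i * a i) := by
      rw [← hp]
      field_simp
    rw [e, div_le_one (mul_self_pos.2 (ha0 i))]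
    exact ha i
  -- the new vectors
  let w : V → WithLp 2 (E × EuclideanSpace ℝ V) := fun i => WithLp.toLp 2 ((p / a i) • u i, EuclideanSpace.single i (b i))
  let c' : WithLp 2 (E × EuclideanSpace ℝ V) := WithLp.toLp 2 (c, 0)
  have hww : ∀ i, inner ℝ (w i) (w i) = 1 := by
    intro i
    simp only [w, WithLp.prod_inner_apply, inner_smul_left, inner_smul_right, real_inner_self_eq_norm_sq, hu,
      PiLp.norm_single]
    have h1 := hb i
    simp only [Real.norm_eq_abs, sq_abs]
    simp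
    nlinarith
  have hwz : ∀ i j, i ≠ j → ¬ H.Adj i j → inner ℝ (w i) (w j) = 0 := by
    intro i j hij hadj
    simp only [w, WithLp.prod_inner_apply, inner_smul_left, inner_smul_right, ho i j hij hadj, EuclideanSpace.inner_single_left,
      PiLp.single_apply, if_neg hij, if_neg (Ne.symm hij)]
    simp
  have hcc : inner ℝ c' c' = (1 : ℝ) := by
    simp only [c', WithLp.prod_inner_apply, real_inner_self_eq_norm_sq, hc]
    simp
  have hcw : ∀ i, inner ℝ c' (w i) = p := by
    intro i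
    simp only [c', w, WithLp.prod_inner_apply, inner_smul_right, inner_zero_left, add_zero]
    show p / a i * a i = p
    rw [div_mul_cancel₀ _ (ha0 i)]
  have hwc : ∀ i, inner ℝ (w i) c' = p := fun i => by rw [real_inner_comm]; exact hcw i
  have key : ∀ i j : V, inner ℝ (s • (w i - p • c')) (s • (w j - p • c')) = (1 - 1 / t)⁻¹ * (inner ℝ (w i) (w j) - 1 / t) := by
    intro i j
    simp only [inner_sub_left, inner_sub_right, inner_smul_left, inner_smul_right, hcw, hwc, hcc]
    rw [← hs, ← hp]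
    simp
    ring
  refine ⟨_, inferInstance, inferInstance, fun i => s • (w i - p • c'), fun v => ?_, fun i j hij => ?_⟩
  · have h2 : ‖s • (w v - p • c')‖ ^ 2 = 1 := by
      rw [← real_inner_self_eq_norm_sq, key, hww]
      exact inv_mul_cancel₀ hs0.ne'
    exact (pow_eq_one_iff_of_nonneg (norm_nonneg _) two_ne_zero).1 h2
  · rw [SimpleGraph.compl_adj] at hij
    rw [key, hwz i j hij.1 hij.2]
    have h1 : t - 1 ≠ 0 := by linarith
    show (1 - 1 / t)⁻¹ * (0 - 1 / t) = -1 / (t - 1)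
    rw [inv_mul_eq_iff_eq_mul₀ hs0.ne']
    field_simp
    ring

theorem orth_ge_one [Nonempty V] {H : SimpleGraph V} {t : ℝ} (h : Orth H t) : 1 ≤ t := by
  obtain ⟨E, i1, i2, c, u, hc, hu, ho, hv⟩ := h
  have i : V := Classical.arbitrary V
  have h1 := hv i
  have h2 : |inner ℝ c (u i)| ≤ ‖c‖ * ‖u i‖ := abs_real_inner_le_norm _ _
  rw [hc, hu, one_mul] at h2
  have h3 : inner ℝ c (u i) ^ 2 ≤ 1 := by
    rw [← sq_abs]
    exact pow_le_one₀ (abs_nonneg _) h2
  have h4 : 0 ≤ inner ℝ c (u i) ^ 2 := sq_nonneg _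
  by_contra h5
  push Not at h5
  rcases le_or_gt t 0 with h6 | h6
  · nlinarith
  · nlinarith

theorem exists_orth (H : SimpleGraph V) : ∃ t : ℝ, Orth H t := by
  classical
  -- an orthonormal system and its normalized sum
  by_cases hV : Nonempty V
  · have hn : (0 : ℝ) < Fintype.card V := by exact_mod_cast Fintype.card_pos
    have hcs : √(Fintype.card V : ℝ) * √(Fintype.card V : ℝ) = Fintype.card V := Real.mul_self_sqrt hn.le
    have hs0 : √(Fintype.card V : ℝ) ≠ 0 := (Real.sqrt_pos.2 hn).ne'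
    have hci : ∀ i : V, inner ℝ ((√(Fintype.card V : ℝ))⁻¹ • ∑ j : V, (EuclideanSpace.single j (1 : ℝ) : EuclideanSpace ℝ V))
        (EuclideanSpace.single i (1 : ℝ) : EuclideanSpace ℝ V) = (√(Fintype.card V : ℝ))⁻¹ := by
      intro i
      rw [real_inner_smul_left, sum_inner, Finset.sum_eq_single i]
      · simp
      · intro j _ hj
        simp [EuclideanSpace.inner_single_left, PiLp.single_apply, hj.symm, hj]
      · intro h
        exact absurd (Finset.mem_univ _) h
    refine ⟨Fintype.card V, EuclideanSpace ℝ V, inferInstance, inferInstance, (√(Fintype.card V : ℝ))⁻¹ •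
      ∑ j : V, EuclideanSpace.single j (1 : ℝ), fun i => EuclideanSpace.single i (1 : ℝ), ?_, fun i => by simp,
      fun i j hij _ => by simp [EuclideanSpace.inner_single_left, PiLp.single_apply, hij, hij.symm], fun i => ?_⟩
    · have h2 : ‖(√(Fintype.card V : ℝ))⁻¹ • ∑ j : V, (EuclideanSpace.single j (1 : ℝ) : EuclideanSpace ℝ V)‖ ^ 2 = 1 := by
        rw [← real_inner_self_eq_norm_sq]
        nth_rewrite 2 [Finset.smul_sum]
        rw [inner_sum]
        simp only [inner_smul_right, hci]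
        rw [Finset.sum_const, Finset.card_univ, nsmul_eq_mul, ← mul_inv, hcs]
        exact mul_inv_cancel₀ hn.ne'
      exact (pow_eq_one_iff_of_nonneg (norm_nonneg _) two_ne_zero).1 h2
    · rw [hci, pow_two, ← mul_inv, hcs, mul_inv_cancel₀ hn.ne']
  · rw [not_nonempty_iff] at hV
    exact ⟨0, ℝ, inferInstance, inferInstance, 1, fun _ => 1, by simp, fun i => (hV.false i).elim, fun i => (hV.false i).elim,
      fun i => (hV.false i).elim⟩

/-- the theta function is at most `t` if and only if the complement has a strict vector `t`-colouring -/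
theorem theta_le_iff (H : SimpleGraph V) {t : ℝ} (ht : 1 < t) : theta H ≤ t ↔ Rep Hᶜ (fun r => r = -1 / (t - 1)) := by
  have hset : ∀ s : ℝ, (∃ (d : ℕ) (c : EuclideanSpace ℝ (Fin d)) (u : V → EuclideanSpace ℝ (Fin d)), ‖c‖ = 1 ∧ (∀ i, ‖u i‖ = 1) ∧
    (∀ i j, i ≠ j → ¬ H.Adj i j → inner ℝ (u i) (u j) = 0) ∧ ∀ i, 1 ≤ s * inner ℝ c (u i) ^ 2) ↔ Orth H s :=
    fun s => ⟨fun ⟨d, c, u, h⟩ => ⟨_, inferInstance, inferInstance, c, u, h⟩, orth_fin⟩
  have htheta : theta H = sInf {s : ℝ | Orth H s} := by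
    unfold theta
    congr 1
    ext s
    exact hset s
  rw [htheta]
  constructor
  · intro h
    refine rep_closed ht fun n => ?_
    have hn : (0 : ℝ) < 1 / ((n : ℝ) + 1) := by positivity
    refine rep_of_orth (by linarith) ?_
    obtain ⟨s, hs, hst⟩ : ∃ s ∈ {s : ℝ | Orth H s}, s < t + 1 / ((n : ℝ) + 1) := by
      obtain ⟨t0, ht0⟩ := exists_orth H
      exact exists_lt_of_csInf_lt ⟨t0, ht0⟩ (lt_of_le_of_lt h (by linarith))
    exact orth_mono hst.le hs
  · intro h
    have h1 : Orth H t := orth_of_rep ht h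
    by_cases hV : Nonempty V
    · refine csInf_le ⟨1, fun s hs => orth_ge_one hs⟩ h1
    · rw [not_nonempty_iff] at hV
      have h2 : {s : ℝ | Orth H s} = Set.univ := by
        ext s
        refine ⟨fun _ => trivial, fun _ => ?_⟩
        exact ⟨ℝ, inferInstance, inferInstance, 1, fun _ => 1, by simp, fun i => (hV.false i).elim, fun i => (hV.false i).elim,
          fun i => (hV.false i).elim⟩
      rw [h2, Real.sInf_univ]
      linarith

end Pool.Agent.Lib.MP_13b08e_lc.UV
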