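import Pool.Agent.Lib.MP_13b08e_lc.Forward
import Pool.Agent.Lib.MP_13b08e_lc.Backward
import Pool.Agent.Lib.MP_13b08e_lc.NP
import Pool.Agent.Lib.MP_13b08e_lc.UV.KmsPT
import Pool.Agent.Lib.MP_13b08e_lc.UV.Theta
import Pool.Agent.Lib.MP_13b08e_lc.UV.CGphPT

/-!
# UV / Thr: all rational thresholds greater than 2
-/

set_option autoImplicit false

namespace Pool.Agent.Lib.MP_13b08e_lc.UV

open Pool.Agent.Lib.PolyTime

theorem coneT_eq {t : ℝ} (ht : 1 < t) (m : ℕ) (I : Gph) :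
    Rep (coneN m I).G (fun r => r = -1 / (t + m - 1)) ↔ Rep I.G (fun r => r = -1 / (t - 1)) := by
  induction m with
  | zero =>
    have : t + ((0 : ℕ) : ℝ) - 1 = t - 1 := by norm_num
    rw [this]
    exact Iff.rfl
  | succ m ih =>
    rw [← ih]
    have h1 : t + ((m + 1 : ℕ) : ℝ) - 1 = t + m := by push_cast; ring
    have h3 : (1 : ℝ) < t + m := by
      have := Nat.cast_nonneg (α := ℝ) m
      linarith
    rw [h1, coneN_succ]
    exact ⟨rep_of_cone_eq h3, rep_cone_eq h3⟩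

theorem coneT_le {t : ℝ} (ht : 1 < t) (m : ℕ) (I : Gph) :
    Rep (coneN m I).G (fun r => r ≤ -1 / (t + m - 1)) ↔ Rep I.G (fun r => r ≤ -1 / (t - 1)) := by
  induction m with
  | zero =>
    have : t + ((0 : ℕ) : ℝ) - 1 = t - 1 := by norm_num
    rw [this]
    exact Iff.rfl
  | succ m ih =>
    rw [← ih]
    have h1 : t + ((m + 1 : ℕ) : ℝ) - 1 = t + m := by push_cast; ring
    have h3 : (1 : ℝ) < t + m := by
      have := Nat.cast_nonneg (α := ℝ) m
      linarith
    rw [h1, coneN_succ]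
    exact ⟨rep_of_cone_le h3, rep_cone_le h3⟩

theorem okv_toEll (S : SDP) (e : S.toEll.G.edgeSet) : okv (S.toEll.x e) := by
  have h := S.toEll_values e
  simp only [Set.mem_insert_iff, Set.mem_singleton_iff] at h
  exact h

/-- a rational number greater than 2 is a number between 2 and 3 plus a natural number -/
theorem split_thr {τ : ℚ} (h : 2 < τ) : ∃ (j : ℕ) (s : ℚ), 2 < s ∧ s ≤ 3 ∧ τ = s + j := by
  have h1 : 3 ≤ ⌈τ⌉ := by
    have : (2 : ℤ) < ⌈τ⌉ := Int.lt_ceil.2 (by exact_mod_cast h)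
    omega
  obtain ⟨j, hj⟩ : ∃ j : ℕ, (j : ℤ) = ⌈τ⌉ - 3 := ⟨(⌈τ⌉ - 3).toNat, by omega⟩
  have hjq : (j : ℚ) = (⌈τ⌉ : ℚ) - 3 := by
    have := congrArg (Int.cast : ℤ → ℚ) hj
    push_cast at this
    exact this
  refine ⟨j, τ - j, ?_, ?_, by ring⟩
  · have h2 := Int.ceil_lt_add_one τ
    linarith
  · have h2 := Int.le_ceil τ
    linarith

/-- the hardness -/
theorem hardT {τ : ℚ} (hτ : 2 < τ) : ∃ f : SDP → Gph, PT f ∧ ∀ S : SDP,
    (S.Feasible ↔ Rep (f S).G (fun r => r = -1 / ((τ : ℝ) - 1))) ∧ (S.Feasible ↔ Rep (f S).G (fun r => r ≤ -1 / ((τ : ℝ) - 1))) := by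
  obtain ⟨j, s, h2, h3, rfl⟩ := split_thr hτ
  have hs1 : 0 < s - 1 := by linarith
  obtain ⟨m, k, n, hp, hd⟩ := par_exists (c := -1 / (s - 1)) (by
    rw [lt_div_iff₀ hs1]
    linarith) (by
    rw [div_le_iff₀ hs1]
    linarith)
  have ec : ((-1 / (s - 1) : ℚ) : ℝ) = -1 / ((s : ℝ) - 1) := by push_cast; rfl
  rw [ec] at hp
  have hsr : (1 : ℝ) < (s : ℝ) := by exact_mod_cast (by linarith : (1 : ℚ) < s)
  have eτ : (((s + (j : ℚ) : ℚ)) : ℝ) - 1 = (s : ℝ) + j - 1 := by push_cast; ring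
  have hw : 0 < k + 4 := by omega
  refine ⟨fun S => coneN j (toCGph (m + 4) (k + 4) n hw S.toEll), pt_coneN ((pt_toCGph _ _ _ hw).comp pt_toEll) j,
    fun S => ⟨?_, ?_⟩⟩
  · rw [eτ, coneT_eq hsr, S.toEll_correct]
    exact ⟨crep_of_member hp hd _ (okv_toEll S),
      fun h => member_of_crep hp hd _ (okv_toEll S) (h.mono fun _ hr => hr.le)⟩
  · rw [eτ, coneT_le hsr, S.toEll_correct]
    exact ⟨fun h => (crep_of_member hp hd _ (okv_toEll S) h).mono fun _ hr => hr.le, member_of_crep hp hd _ (okv_toEll S)⟩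

theorem strictT_iff {t : ℝ} {V : Type} [Fintype V] (G : SimpleGraph V) :
    StrictVecCol t G ↔ Rep G (fun r => r = -1 / (t - 1)) := (rep_iff_vectors (φ := fun r => r = -1 / (t - 1))).symm

theorem vecT_iff {t : ℝ} {V : Type} [Fintype V] (G : SimpleGraph V) :
    VecCol t G ↔ Rep G (fun r => r ≤ -1 / (t - 1)) := (rep_iff_vectors (φ := fun r => r ≤ -1 / (t - 1))).symm

theorem ellT_iff (τ : ℚ) {V : Type} [Fintype V] (G : SimpleGraph V) :
    InElliptope G (fun _ => -1 / (τ - 1)) ↔ Rep G (fun r => r = -1 / ((τ : ℝ) - 1)) := by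
  rw [inElliptope_const]
  have ec : ((-1 / (τ - 1) : ℚ) : ℝ) = -1 / ((τ : ℝ) - 1) := by push_cast; rfl
  rw [ec]

theorem thetaT_iff {τ : ℚ} (hτ : 2 < τ) {V : Type} [Fintype V] (G : SimpleGraph V) :
    theta Gᶜ ≤ τ ↔ Rep G (fun r => r = -1 / ((τ : ℝ) - 1)) := by
  have h3 : (2 : ℝ) < τ := by exact_mod_cast hτ
  rw [theta_le_iff _ (by linarith), compl_compl]

/-- the hardness, for the four problems -/
theorem hard4 {τ : ℚ} (hτ : 2 < τ) : ∃ f : SDP → Gph, PT f ∧ ∀ S : SDP,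
    (S.Feasible ↔ InElliptope (f S).G (fun _ => -1 / (τ - 1))) ∧ (S.Feasible ↔ theta (f S).Gᶜ ≤ τ) ∧
    (S.Feasible ↔ StrictVecCol τ (f S).G) ∧ (S.Feasible ↔ VecCol τ (f S).G) := by
  obtain ⟨f, hf, h⟩ := hardT hτ
  refine ⟨f, hf, fun S => ?_⟩
  rw [ellT_iff, thetaT_iff hτ, strictT_iff, vecT_iff]
  exact ⟨(h S).1, (h S).1, (h S).1, (h S).2⟩

/-- the reverse reduction for the equalities -/
theorem easy3 {τ : ℚ} (hτ : 2 < τ) : ∃ g : Gph → SDP, PT g ∧ ∀ I : Gph,
    (InElliptope I.G (fun _ => -1 / (τ - 1)) ↔ (g I).Feasible) ∧ (theta I.Gᶜ ≤ τ ↔ (g I).Feasible) ∧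
    (StrictVecCol τ I.G ↔ (g I).Feasible) := by
  refine ⟨fun I => (toEllC (-1 / (τ - 1)) I).toSDP, pt_toSDP.comp (pt_toEllC _), fun I => ?_⟩
  have h : InElliptope I.G (fun _ => -1 / (τ - 1)) ↔ (toEllC (-1 / (τ - 1)) I).toSDP.Feasible :=
    Ell.toSDP_correct (toEllC (-1 / (τ - 1)) I)
  refine ⟨h, ?_, ?_⟩
  · rw [thetaT_iff hτ, ← ellT_iff, h]
  · rw [strictT_iff, ← ellT_iff, h]

/-- the reverse reduction for the inequalities -/
theorem easy1 (τ : ℚ) : ∃ g : Gph → SDP, PT g ∧ ∀ I : Gph, VecCol τ I.G ↔ (g I).Feasible := by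
  refine ⟨toSDPle (-1 / (τ - 1)), pt_toSDPle _, fun I => ?_⟩
  have ec : ((-1 / (τ - 1) : ℚ) : ℝ) = -1 / ((τ : ℝ) - 1) := by push_cast; rfl
  rw [vecT_iff, ← ec]
  exact toSDPle_iff _ I

/-- the reduction to elliptope membership with all entries `-1/2` -/
theorem hardE : ∃ f : SDP → Ell, PT f ∧ (∀ S : SDP, S.Feasible ↔ (f S).Member) ∧ ∀ (S : SDP) (e : (f S).G.edgeSet),
    (f S).x e = -1 / 2 := by
  obtain ⟨f, hf, h⟩ := hardT (τ := 3) (by norm_num)
  refine ⟨fun S => toEllC (-1 / 2) (f S), (pt_toEllC _).comp hf, fun S => ?_, fun S e => rfl⟩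
  rw [(h S).1]
  have h1 : (toEllC (-1 / 2) (f S)).Member ↔ InElliptope (f S).G (fun _ => -1 / 2) := Iff.rfl
  rw [h1, inElliptope_const]
  have e : (((-1 / 2 : ℚ)) : ℝ) = -1 / (((3 : ℚ) : ℝ) - 1) := by push_cast; norm_num
  rw [e]

/-! ### the other constants -/

theorem const_nonneg {V : Type} [Fintype V] (G : SimpleGraph V) {c : ℚ} (h0 : 0 ≤ c) (h1 : c ≤ 1) : InElliptope G (fun _ => c) := by
  classical
  have h0' : (0 : ℝ) ≤ c := by exact_mod_cast h0
  have h1' : (c : ℝ) ≤ 1 := by exact_mod_cast h1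
  rw [inElliptope_const]
  obtain ⟨p, hp⟩ : ∃ p : ℝ, p * p = c := ⟨√c, Real.mul_self_sqrt h0'⟩
  obtain ⟨s, hs⟩ : ∃ s : ℝ, s * s = 1 - c := ⟨√(1 - c), Real.mul_self_sqrt (by linarith)⟩
  let x : V → EuclideanSpace ℝ (Option V) := fun v => p • EuclideanSpace.single none 1 + s • EuclideanSpace.single (some v) 1
  have hin : ∀ u v, inner ℝ (x u) (x v) = p * p + (if u = v then s * s else 0) := by
    intro u v
    simp only [x, inner_add_left, inner_add_right, inner_smul_left, inner_smul_right, EuclideanSpace.inner_single_left,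
      PiLp.single_apply]
    by_cases huv : u = v
    · subst huv
      simp
    · simp [huv]
  refine ⟨_, inferInstance, inferInstance, x, fun v => ?_, fun u v huv => ?_⟩
  · have h3 : ‖x v‖ ^ 2 = 1 := by
      rw [← real_inner_self_eq_norm_sq, hin, if_pos rfl, hp, hs]
      ring
    exact (pow_eq_one_iff_of_nonneg (norm_nonneg _) two_ne_zero).1 h3
  · rw [hin, if_neg huv.ne, hp, add_zero]

theorem const_big {V : Type} [Fintype V] (G : SimpleGraph V) {c : ℚ} (h1 : 1 < |c|) :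
    InElliptope G (fun _ => c) ↔ ∀ u v, ¬ G.Adj u v := by
  classical
  have h1' : (1 : ℝ) < |(c : ℝ)| := by exact_mod_cast h1
  rw [inElliptope_const]
  constructor
  · rintro ⟨E, i1, i2, x, hx, he⟩ u v huv
    have h2 := abs_real_inner_le_norm (x u) (x v)
    rw [he u v huv, hx, hx, one_mul] at h2
    linarith
  · intro h
    exact ⟨ℝ, inferInstance, inferInstance, fun _ => 1, fun _ => by simp, fun u v huv => absurd huv (h u v)⟩

theorem const_neg_one {V : Type} [Fintype V] (G : SimpleGraph V) : InElliptope G (fun _ => (-1 : ℚ)) ↔ G.Colorable 2 := by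
  classical
  rw [inElliptope_const]
  have ec : (((-1 : ℚ)) : ℝ) = -1 := by push_cast; rfl
  rw [ec]
  constructor
  · rintro ⟨E, i1, i2, x, hx, he⟩
    have hopp : ∀ u v, G.Adj u v → x v = -x u := by
      intro u v huv
      have h1 : inner ℝ (x u) (-x v) = (1 : ℝ) := by rw [inner_neg_right, he u v huv, neg_neg]
      have h2 := (inner_eq_one_iff_of_norm_eq_one (hx u) (by rw [norm_neg]; exact hx v)).1 h1
      rw [h2, neg_neg]
    rw [SimpleGraph.two_colorable_iff_forall_loop_even]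
    intro u w
    have key : ∀ {a b : V} (w : G.Walk a b), x b = (-1 : ℝ) ^ w.length • x a := by
      intro a b w
      induction w with
      | nil => simp
      | cons h p ih =>
        rw [ih, hopp _ _ h, SimpleGraph.Walk.length_cons, pow_succ, mul_smul]
        simp
    have h1 := key w
    by_contra h2
    rw [Nat.not_even_iff_odd] at h2
    rw [h2.neg_one_pow, neg_one_smul] at h1
    have h3 : (2 : ℝ) • x u = 0 := by
      rw [two_smul]
      nth_rewrite 1 [h1]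
      simp
    have h4 := (smul_eq_zero.1 h3).resolve_left two_ne_zero
    have h5 := hx u
    rw [h4, norm_zero] at h5
    norm_num at h5
  · rintro ⟨C⟩
    refine ⟨ℝ, inferInstance, inferInstance, fun v => if C v = 0 then 1 else -1, fun v => ?_, fun u v huv => ?_⟩
    · show ‖(if C v = 0 then (1 : ℝ) else -1)‖ = 1
      split_ifs <;> simp
    · have h1 : C u ≠ C v := C.valid huv
      show inner ℝ (if C u = 0 then (1 : ℝ) else -1) (if C v = 0 then (1 : ℝ) else -1) = -1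
      generalize C u = a at h1
      generalize C v = b at h1
      fin_cases a <;> fin_cases b <;> simp_all

end Pool.Agent.Lib.MP_13b08e_lc.UV
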