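import Pool.Agent.Lib.MP_13b08e_lc.UV.Graph

/-!
# UV / Tiny: a graph of polynomial size in which every completion has an entry `(1/2)^(2^k)`
-/

set_option autoImplicit false

open Finset

namespace Pool.Agent.Lib.MP_13b08e_lc.UV

section gen

variable {I W Δ : Type} [Fintype I] [Fintype W] [DecidableEq I] [DecidableEq W]

/-- the vertices of the graph of a labelled Gram problem -/
abbrev VL (I W Δ : Type) := VB (BV I W ⊕ GG I W Δ × Bool)

/-- the adjacency relation (to be symmetrized) -/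
def relL (lab : I → I → Option W) (sl : Δ → Fin 4 → Sl W) (sg : Δ → Fin 4 → Bool) : VL I W Δ → VL I W Δ → Prop :=
  AdB (ngA (fun _ _ => False) (bb lab sl) (sgg sg)) (zeA zeB) (haA (fun _ _ => False) (aa lab sl) (bb lab sl) (sgg sg))

omit [Fintype I] [Fintype W] [DecidableEq W] in
theorem relL_irr (lab : I → I → Option W) (sl : Δ → Fin 4 → Sl W) (sg : Δ → Fin 4 → Bool) (v : VL I W Δ) :
    ¬ relL lab sl sg v v := by
  rcases v with (v | ⟨γ, _ | _⟩) | ⟨u, v, t, i, j⟩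
  · exact fun h => h
  · exact fun h => h
  · exact fun h => h
  · rintro ⟨_, _, _, h, h', _⟩
    exact h' h.symm

theorem ellL_iff [Fintype Δ] (lab : I → I → Option W) (sl : Δ → Fin 4 → Sl W) (sg : Δ → Fin 4 → Bool) (hd : ∀ δ, Dist (sl δ)) :
    InEll (SimpleGraph.fromRel (relL lab sl sg)) (fun _ _ => -1 / 2) ↔ LPSat I W Δ lab sl sg := by
  rw [inEll_iff _ (relL_irr lab sl sg)]
  unfold relL
  rw [stageB, stageA (orthA hd) (orthB hd) (orthAB hd), stage0]

/-- the two vertices of a wire -/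
def wv {I W Δ : Type} (w : W) (c : Bool) : VL I W Δ := .inl (.inl (.inr (.inl ((w, false), c))))

/-- the values of the wires in a completion -/
theorem ellL_data [Fintype Δ] {lab : I → I → Option W} {sl : Δ → Fin 4 → Sl W} {sg : Δ → Fin 4 → Bool} (hd : ∀ δ, Dist (sl δ))
    {X : Matrix (VL I W Δ) (VL I W Δ) ℝ} (hX : X.PosSemidef) (h1 : ∀ v, X v v = 1)
    (h2 : ∀ u v, (SimpleGraph.fromRel (relL lab sl sg)).Adj u v → X u v = -1 / 2) (s : W → ℝ)
    (hs : s = fun w => X (wv w false) (wv w true)) :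
    ∃ (E : Type) (_ : NormedAddCommGroup E) (_ : InnerProductSpace ℝ E) (v : I → E), (∀ i, ‖v i‖ ≤ 1) ∧ (∀ w, |s w| ≤ 1) ∧
      (∀ i j w, lab i j = some w → inner ℝ (v i) (v j) = s w) ∧ ∀ δ, ∑ r, sn (sg δ r) * (sl δ r).val s = 0 := by
  classical
  obtain ⟨x, hx⟩ := gram_of_psd X hX
  have hx1 : ∀ v, ‖x v‖ = 1 := fun v => by
    have h3 : ‖x v‖ ^ 2 = 1 := by rw [← real_inner_self_eq_norm_sq, hx, h1]
    exact (pow_eq_one_iff_of_nonneg (norm_nonneg _) two_ne_zero).1 h3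
  have he : ∀ u v, relL lab sl sg u v → inner ℝ (x u) (x v) = -1 / 2 := fun u v huv => by
    rw [hx]
    refine h2 u v ?_
    rw [SimpleGraph.fromRel_adj]
    refine ⟨?_, Or.inl huv⟩
    rintro rfl
    exact relL_irr lab sl sg _ huv
  obtain ⟨g1, g2, g3⟩ := R3_data hx1 he
  have g4 := net_data (orthA hd) (orthB hd) (orthAB hd) (x := fun v => x (.inl v)) (fun v => hx1 _) g1 g2 g3
  obtain ⟨v, k1, k2, k3, k4⟩ := LP_data (x := fun v => x (.inl (.inl v))) (fun v => hx1 _)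
    (fun u v h => g2 (.inl u) (.inl v) h) g4 s (by
      rw [hs]
      funext w
      exact (hx _ _).symm)
  exact ⟨_, inferInstance, inferInstance, v, k1, k2, k3, k4⟩

end gen

variable {k : ℕ}

/-- wires -/
abbrev Wt (k : ℕ) := Unit ⊕ Fin (k + 1) ⊕ Fin (k + 1)
/-- rows -/
abbrev Rt (k : ℕ) := Fin k × Fin 4

/-- wire -/
abbrev tU {k : ℕ} : Wt k := .inl ()
/-- wire -/
abbrev tT {k : ℕ} (j : Fin (k + 1)) : Wt k := .inr (.inl j)
/-- wire -/
abbrev tY {k : ℕ} (j : Fin (k + 1)) : Wt k := .inr (.inr j)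

/-- labels -/
def labT : Rt k → Rt k → Option (Wt k) := fun p q =>
  if p.1 = q.1 then
    (if p.2 = 0 ∧ q.2 = 0 then some tU else if p.2 = 0 ∧ q.2 = 1 then some (tT p.1.castSucc) else
      if p.2 = 1 ∧ q.2 = 1 then some (tT p.1.succ) else if p.2 = 2 ∧ q.2 = 2 then some (tT (Fin.last _)) else
      if p.2 = 2 ∧ q.2 = 3 then some (tY p.1.castSucc) else if p.2 = 3 ∧ q.2 = 3 then some (tY p.1.succ) else none)
  else none

/-- terms -/
def slT : Fin 3 → Fin 4 → Sl (Wt k) := fun δ r =>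
  if δ = 0 then (if r = 0 then .wire tU false else if r = 2 then .one else .nil)
  else if δ = 1 then (if r = 0 then .wire (tT 0) false else if r = 1 then .wire (tT 0) true else if r = 2 then .one else .nil)
  else (if r = 0 then .wire (tT (Fin.last _)) false else if r = 1 then .wire (tT (Fin.last _)) true else
    if r = 2 then .wire (tY 0) false else .nil)

/-- signs -/
def sgT : Fin 3 → Fin 4 → Bool := fun _ r => decide (r = 2) || decide (r = 3)

theorem slT_dist (δ : Fin 3) : Dist (slT (k := k) δ) := by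
  intro r r' hr w c h1 h2
  simp only [slT] at h1 h2
  split_ifs at h1 h2
  all_goals first
    | exact Sl.noConfusion h1
    | exact Sl.noConfusion h2
    | (exfalso; apply hr; simp_all; done)
    | (rw [← h1] at h2; simp [Fin.ext_iff] at h2; done)

theorem eqT {s : Wt k → ℝ} : (∀ δ, ∑ r, sn (sgT δ r) * (slT (k := k) δ r).val s = 0) ↔
    s tU = 1 ∧ s (tT 0) = 1 / 2 ∧ s (tY 0) = 2 * s (tT (Fin.last _)) := by
  constructor
  · intro h
    refine ⟨?_, ?_, ?_⟩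
    · have := h 0
      rw [Fin.sum_univ_four] at this
      simp [slT, sgT, sn, Sl.val] at this
      linarith
    · have := h 1
      rw [Fin.sum_univ_four] at this
      simp [slT, sgT, sn, Sl.val] at this
      linarith
    · have := h 2
      rw [Fin.sum_univ_four] at this
      simp [slT, sgT, sn, Sl.val] at this
      linarith
  · rintro ⟨h1, h2, h3⟩ δ
    rw [Fin.sum_univ_four]
    fin_cases δ
    · simp [slT, sgT, sn, Sl.val]
      linarith
    · simp [slT, sgT, sn, Sl.val]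
      linarith
    · simp [slT, sgT, sn, Sl.val]
      linarith

theorem tiny_eq {E : Type} [NormedAddCommGroup E] [InnerProductSpace ℝ E] {v : Rt k → E} {s : Wt k → ℝ}
    (hs : ∀ w, |s w| ≤ 1) (hvv : ∀ i j w, labT i j = some w → inner ℝ (v i) (v j) = s w)
    (h1 : s tU = 1) (h2 : s (tT 0) = 1 / 2) (h3 : s (tY 0) = 2 * s (tT (Fin.last _))) :
    s (tT (Fin.last _)) = (1 / 2) ^ (2 ^ k) := by
  have hT : ∀ (j : ℕ) (hj : j < k + 1), (1 / 2 : ℝ) ^ (2 ^ j) ≤ s (tT ⟨j, hj⟩) := by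
    intro j
    induction j with
    | zero =>
      intro hj
      have : s (tT ⟨0, hj⟩) = 1 / 2 := h2
      rw [this]
      norm_num
    | succ j ih =>
      intro hj
      have g1 := hvv (⟨j, by omega⟩, 0) (⟨j, by omega⟩, 0) tU (by simp [labT])
      have g2 := hvv (⟨j, by omega⟩, 1) (⟨j, by omega⟩, 1) (tT (Fin.succ ⟨j, by omega⟩)) (by simp [labT])
      have g3 := hvv (⟨j, by omega⟩, 0) (⟨j, by omega⟩, 1) (tT (Fin.castSucc ⟨j, by omega⟩)) (by simp [labT])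
      have h4 := real_inner_mul_inner_self_le (v (⟨j, by omega⟩, 0)) (v (⟨j, by omega⟩, 1))
      rw [g1, g2, g3, h1, one_mul] at h4
      have h5 := ih (by omega)
      have e1 : (Fin.succ ⟨j, by omega⟩ : Fin (k + 1)) = ⟨j + 1, hj⟩ := rfl
      have e2 : (Fin.castSucc ⟨j, by omega⟩ : Fin (k + 1)) = ⟨j, by omega⟩ := rfl
      rw [e1, e2] at h4
      have h6 : (0 : ℝ) ≤ (1 / 2 : ℝ) ^ (2 ^ j) := by positivity
      have h7 : (1 / 2 : ℝ) ^ (2 ^ (j + 1)) = (1 / 2 : ℝ) ^ (2 ^ j) * (1 / 2 : ℝ) ^ (2 ^ j) := by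
        rw [← pow_add]
        congr 1
        ring
      rw [h7]
      exact (mul_le_mul h5 h5 h6 (h6.trans h5)).trans h4
  have hTk := hT k (by omega)
  have e3 : (⟨k, by omega⟩ : Fin (k + 1)) = Fin.last k := rfl
  rw [e3] at hTk
  set t := s (tT (Fin.last k)) with ht
  have ht0 : 0 < t := lt_of_lt_of_le (by positivity) hTk
  have hY : ∀ (j : ℕ) (hj : j < k + 1), (2 : ℝ) ^ (2 ^ j) * t ≤ s (tY ⟨j, hj⟩) := by
    intro j
    induction j with
    | zero =>
      intro hj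
      have : s (tY ⟨0, hj⟩) = 2 * t := h3
      rw [this]
      norm_num
    | succ j ih =>
      intro hj
      have g1 := hvv (⟨j, by omega⟩, 2) (⟨j, by omega⟩, 2) (tT (Fin.last _)) (by simp [labT])
      have g2 := hvv (⟨j, by omega⟩, 3) (⟨j, by omega⟩, 3) (tY (Fin.succ ⟨j, by omega⟩)) (by simp [labT])
      have g3 := hvv (⟨j, by omega⟩, 2) (⟨j, by omega⟩, 3) (tY (Fin.castSucc ⟨j, by omega⟩)) (by simp [labT])
      have h4 := real_inner_mul_inner_self_le (v (⟨j, by omega⟩, 2)) (v (⟨j, by omega⟩, 3))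
      rw [g1, g2, g3] at h4
      have h5 := ih (by omega)
      have e1 : (Fin.succ ⟨j, by omega⟩ : Fin (k + 1)) = ⟨j + 1, hj⟩ := rfl
      have e2 : (Fin.castSucc ⟨j, by omega⟩ : Fin (k + 1)) = ⟨j, by omega⟩ := rfl
      rw [e1, e2, ← ht] at h4
      have h6 : (0 : ℝ) ≤ (2 : ℝ) ^ (2 ^ j) * t := by positivity
      have h7 : (2 : ℝ) ^ (2 ^ (j + 1)) = (2 : ℝ) ^ (2 ^ j) * (2 : ℝ) ^ (2 ^ j) := by
        rw [← pow_add]
        congr 1
        ring
      have h8 := (mul_le_mul h5 h5 h6 (h6.trans h5)).trans h4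
      have h9 : t * ((2 : ℝ) ^ (2 ^ (j + 1)) * t) ≤ t * s (tY ⟨j + 1, hj⟩) := by
        rw [h7]
        calc t * ((2 : ℝ) ^ (2 ^ j) * (2 : ℝ) ^ (2 ^ j) * t) = (2 : ℝ) ^ (2 ^ j) * t * ((2 : ℝ) ^ (2 ^ j) * t) := by ring
          _ ≤ _ := h8
      exact le_of_mul_le_mul_left h9 ht0
  have hYk := (hY k (by omega)).trans (abs_le.1 (hs (tY ⟨k, by omega⟩))).2
  refine le_antisymm ?_ hTk
  have h8 : (1 / 2 : ℝ) ^ (2 ^ k) * (2 : ℝ) ^ (2 ^ k) = 1 := by
    rw [← mul_pow]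
    norm_num
  have h9 : (0 : ℝ) < (2 : ℝ) ^ (2 ^ k) := by positivity
  have h10 : (2 : ℝ) ^ (2 ^ k) * t ≤ (2 : ℝ) ^ (2 ^ k) * (1 / 2 : ℝ) ^ (2 ^ k) := by
    rw [mul_comm ((2 : ℝ) ^ (2 ^ k)) ((1 / 2 : ℝ) ^ (2 ^ k)), h8]
    exact hYk
  exact le_of_mul_le_mul_left h10 h9

theorem tiny_sat : LPSat (Rt k) (Wt k) (Fin 3) labT slT sgT := by
  set t : ℝ := (1 / 2) ^ (2 ^ k) with ht
  have ht0 : 0 < t := by positivity
  let s : Wt k → ℝ := fun w => match w with
    | .inl _ => 1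
    | .inr (.inl j) => (1 / 2) ^ (2 ^ (j : ℕ))
    | .inr (.inr j) => 2 ^ (2 ^ (j : ℕ)) * t
  let v : Rt k → ℝ := fun p => if p.2 = 0 then 1 else if p.2 = 1 then (1 / 2) ^ (2 ^ (p.1 : ℕ)) else if p.2 = 2 then √t else
    2 ^ (2 ^ (p.1 : ℕ)) * √t
  have hst : √t * √t = t := Real.mul_self_sqrt ht0.le
  have hvv : ∀ i j w, labT i j = some w → inner ℝ (v i) (v j) = s w := by
    rintro ⟨i, a⟩ ⟨j, b⟩ w hw
    simp only [labT] at hw
    split_ifs at hw with h0 h1 h2 h3 h4 h5 h6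
    · obtain ⟨rfl, rfl⟩ := h1
      subst h0
      obtain rfl := Option.some.inj hw
      simp [v, s]
    · obtain ⟨rfl, rfl⟩ := h2
      subst h0
      obtain rfl := Option.some.inj hw
      simp [v, s]
    · obtain ⟨rfl, rfl⟩ := h3
      subst h0
      obtain rfl := Option.some.inj hw
      simp [v, s]
      rw [← pow_mul, ← pow_succ]
    · obtain ⟨rfl, rfl⟩ := h4
      subst h0
      obtain rfl := Option.some.inj hw
      simp only [v, s]
      simp only [Fin.isValue, Fin.reduceEq, if_false, if_true, Fin.val_last]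
      show √t * √t = _
      rw [hst]
    · obtain ⟨rfl, rfl⟩ := h5
      subst h0
      obtain rfl := Option.some.inj hw
      simp only [v, s]
      simp only [Fin.isValue, Fin.reduceEq, if_false, if_true, Fin.val_castSucc]
      show (2 ^ (2 ^ (i : ℕ)) * √t) * √t = _
      rw [mul_assoc, hst]
    · obtain ⟨rfl, rfl⟩ := h6
      subst h0
      obtain rfl := Option.some.inj hw
      simp only [v, s]
      simp only [Fin.isValue, Fin.reduceEq, if_false, Fin.val_succ]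
      show (2 ^ (2 ^ (i : ℕ)) * √t) * (2 ^ (2 ^ (i : ℕ)) * √t) = _
      have e : (2 : ℕ) ^ ((i : ℕ) + 1) = 2 ^ (i : ℕ) + 2 ^ (i : ℕ) := by ring
      rw [e, pow_add]
      linear_combination (2 ^ (2 ^ (i : ℕ)) * 2 ^ (2 ^ (i : ℕ))) * hst
  have hsb : ∀ w, |s w| ≤ 1 := by
    rintro (_ | j | j)
    · show |(1 : ℝ)| ≤ 1
      simp
    · show |(1 / 2 : ℝ) ^ (2 ^ (j : ℕ))| ≤ 1
      rw [abs_of_pos (by positivity)]
      exact pow_le_one₀ (by norm_num) (by norm_num)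
    · show |(2 : ℝ) ^ (2 ^ (j : ℕ)) * t| ≤ 1
      rw [abs_of_pos (by positivity)]
      have h1 : (2 : ℝ) ^ (2 ^ (j : ℕ)) ≤ 2 ^ (2 ^ k) :=
        pow_le_pow_right₀ (by norm_num) (Nat.pow_le_pow_right (by norm_num) (by have := j.2; omega))
      have h2 : (2 : ℝ) ^ (2 ^ k) * t = 1 := by
        rw [ht, ← mul_pow]
        norm_num
      have h3 := mul_le_mul_of_nonneg_right h1 ht0.le
      linarith
  refine ⟨ℝ, inferInstance, inferInstance, v, s, ?_, hsb, hvv, eqT.2 ⟨rfl, ?_, ?_⟩⟩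
  · intro p
    have key : ∃ w : Wt k, labT p p = some w := by
      obtain ⟨j, a⟩ := p
      fin_cases a
      · exact ⟨tU, by simp [labT]⟩
      · exact ⟨tT j.succ, by simp [labT]⟩
      · exact ⟨tT (Fin.last _), by simp [labT]⟩
      · exact ⟨tY j.succ, by simp [labT]⟩
    obtain ⟨w, hw⟩ := key
    have h1 := hvv p p w hw
    rw [real_inner_self_eq_norm_sq] at h1
    have h2 := (abs_le.1 (hsb w)).2
    have h3 := norm_nonneg (v p)
    nlinarith
  · show (1 / 2 : ℝ) ^ (2 ^ ((0 : Fin (k + 1)) : ℕ)) = 1 / 2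
    simp
  · show (2 : ℝ) ^ (2 ^ ((0 : Fin (k + 1)) : ℕ)) * t = 2 * (1 / 2) ^ (2 ^ ((Fin.last k : Fin (k + 1)) : ℕ))
    rw [Fin.val_last, ← ht]
    simp

instance instFL (k : ℕ) : Fintype (BV (Rt k) (Wt k) ⊕ GG (Rt k) (Wt k) (Fin 3) × Bool) := by
  unfold BV GG
  infer_instance

instance instFL2 (k : ℕ) : Fintype (VL (Rt k) (Wt k) (Fin 3)) := by
  unfold VL VB
  infer_instance

theorem tiny_card (k : ℕ) : Fintype.card (VL (Rt k) (Wt k) (Fin 3)) ≤ 10 ^ 6 * (k + 1) ^ 4 := by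
  have h1 : Fintype.card (BV (Rt k) (Wt k) ⊕ GG (Rt k) (Wt k) (Fin 3) × Bool) ≤ 128 * (k + 1) ^ 2 := by
    simp only [BV, GG, Fintype.card_sum, Fintype.card_prod, Fintype.card_fin, Fintype.card_bool, Fintype.card_unit]
    nlinarith
  have h2 : Fintype.card (VL (Rt k) (Wt k) (Fin 3)) = Fintype.card (BV (Rt k) (Wt k) ⊕ GG (Rt k) (Wt k) (Fin 3) × Bool) +
      Fintype.card (BV (Rt k) (Wt k) ⊕ GG (Rt k) (Wt k) (Fin 3) × Bool) *
        (Fintype.card (BV (Rt k) (Wt k) ⊕ GG (Rt k) (Wt k) (Fin 3) × Bool) * (2 * (5 * 5))) := by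
    unfold VL VB
    rw [Fintype.card_sum, Fintype.card_prod, Fintype.card_prod, Fintype.card_prod, Fintype.card_prod, Fintype.card_bool,
      Fintype.card_fin]
  rw [h2]
  have h3 := Nat.mul_le_mul h1 (Nat.mul_le_mul_right (2 * (5 * 5)) h1)
  have h4 : (128 * (k + 1) ^ 2) * ((128 * (k + 1) ^ 2) * (2 * (5 * 5))) = 819200 * (k + 1) ^ 4 := by ring
  have h5 : (k + 1) ^ 2 ≤ (k + 1) ^ 4 := Nat.pow_le_pow_right (by omega) (by norm_num)
  omega

/-- every completion has the entry `(1/2)^(2^k)` -/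
theorem tiny (k : ℕ) : ∃ (V : Type) (_ : Fintype V) (G : SimpleGraph V) (u v : V), Fintype.card V ≤ 10 ^ 6 * (k + 1) ^ 4 ∧
    InEll G (fun _ _ => -1 / 2) ∧ ∀ X : Matrix V V ℝ, X.PosSemidef → (∀ v, X v v = 1) → (∀ a b, G.Adj a b → X a b = -1 / 2) →
      X u v = (1 / 2) ^ (2 ^ k) := by
  refine ⟨VL (Rt k) (Wt k) (Fin 3), instFL2 k, SimpleGraph.fromRel (relL labT slT sgT), wv (tT (Fin.last _)) false,
    wv (tT (Fin.last _)) true, tiny_card k, (ellL_iff labT slT sgT slT_dist).2 tiny_sat, fun X hX h1 h2 => ?_⟩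
  obtain ⟨E, i1, i2, v, k1, k2, k3, k4⟩ := ellL_data slT_dist hX h1 h2 _ rfl
  obtain ⟨e1, e2, e3⟩ := eqT.1 k4
  exact tiny_eq k2 k3 e1 e2 e3

end Pool.Agent.Lib.MP_13b08e_lc.UV
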