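import Pool.Agent.Lib.MP_13b08e_lc.Defs
import Pool.Agent.Lib.MP_13b08e_lc.UV.Tiny

/-!
# UV / TinyEll: completions with a tiny entry, in the language of elliptopes
-/

set_option autoImplicit false

namespace Pool.Agent.Lib.MP_13b08e_lc.UV

/-- completions with a tiny entry -/
theorem tiny' (m : ℕ) : ∃ (V : Type) (_ : Fintype V) (G : SimpleGraph V) (u v : V), Fintype.card V ≤ 10 ^ 6 * (m + 1) ^ 4 ∧
    InElliptope G (fun _ => -1 / 2) ∧ ∀ X : Matrix V V ℝ, IsCompletion G (fun _ => -1 / 2) X → X u v = (1 / 2) ^ (2 ^ m) := by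
  obtain ⟨V, hV, G, u, v, h1, ⟨X, h2, h3, h4⟩, h5⟩ := tiny m
  have e : (((-1 / 2 : ℚ)) : ℝ) = -1 / 2 := by push_cast; rfl
  refine ⟨V, hV, G, u, v, h1, ⟨X, ⟨h2, h3, fun i j hij => ?_⟩⟩, fun X hX => h5 X hX.psd hX.diag fun a b hab => ?_⟩
  · rw [e]
    exact h4 i j hij
  · rw [← e]
    exact hX.edge a b hab

end Pool.Agent.Lib.MP_13b08e_lc.UV
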